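import Pool.Agent.Lib_helper19.TC.Vizing

set_option autoImplicit false

/-!
# Rainbow colourings of small vertex sets from missing colours
-/

namespace TC19

open Finset Classical

variable {V E K : Type*}

/-- Let the vertices be partly distributed over classes (`P v = some j`).  If every class has at most
`|K|` vertices and every vertex in a class misses at least two colours then the edges can be
recoloured so that the vertices of each class get distinct missing colours. -/
theorem rainbow [Fintype V] [Fintype E] [Fintype K] {ι : Type*} [Fintype ι]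
    {s t : E → V} (hst : ∀ e, s e ≠ t e) {c : E → K} (hc : Proper s t Set.univ c)
    (P : V → Option ι) (hP : ∀ j : ι, (univ.filter fun v => P v = some j).card ≤ Fintype.card K)
    (hdeg : ∀ v, P v ≠ none → dg s t univ v + 2 ≤ Fintype.card K) :
    ∃ (c' : E → K) (f : V → Option K), Proper s t Set.univ c' ∧
      (∀ v, P v ≠ none → ∃ a, f v = some a ∧ Miss s t Set.univ c' v a) ∧
      ∀ u v, P u = P v → P u ≠ none → u ≠ v → f u ≠ f v := by
  let A := {v : V // P v ≠ none}
  let s' : E ⊕ A → V ⊕ ι := Sum.elim (fun e => Sum.inl (s e)) (fun v => Sum.inl v.1)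
  let g : A → ι := fun v => (P v.1).get (Option.isSome_iff_ne_none.mpr v.2)
  have hg : ∀ v : A, P v.1 = some (g v) := fun v => (Option.some_get _).symm
  let t' : E ⊕ A → V ⊕ ι := Sum.elim (fun e => Sum.inl (t e)) (fun v => Sum.inr (g v))
  have hst' : ∀ e, s' e ≠ t' e := by
    rintro (e | v)
    · simp only [s', t', Sum.elim_inl]
      intro h
      exact hst e (Sum.inl.inj h)
    · simp [s', t']
  have hinc1 : ∀ (e : E) (v : V), Inc s' t' (Sum.inl e) (Sum.inl v) ↔ Inc s t e v := by
    intro e v
    simp [Inc, s', t']
  have hinc2 : ∀ (e : E) (j : ι), ¬ Inc s' t' (Sum.inl e) (Sum.inr j) := by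
    intro e j
    simp [Inc, s', t']
  have hinc3 : ∀ (a : A) (v : V), Inc s' t' (Sum.inr a) (Sum.inl v) ↔ a.1 = v := by
    intro a v
    simp [Inc, s', t']
  have hinc4 : ∀ (a : A) (j : ι), Inc s' t' (Sum.inr a) (Sum.inr j) ↔ g a = j := by
    intro a j
    simp [Inc, s', t']
  let F : Finset ι → Finset (E ⊕ A) := fun J => univ.filter fun e =>
    match e with
    | Sum.inl _ => True
    | Sum.inr v => g v ∈ J
  have hF1 : ∀ J (e : E), (Sum.inl e : E ⊕ A) ∈ F J := by
    intro J e
    simp [F]
  have hF2 : ∀ J (v : A), (Sum.inr v : E ⊕ A) ∈ F J ↔ g v ∈ J := by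
    intro J v
    simp [F]
  have key : ∀ J : Finset ι, (∀ j ∈ J, ∃ v : A, g v = j) →
      ∃ c' : E ⊕ A → K, Proper s' t' (F J : Set (E ⊕ A)) c' := by
    intro J
    induction J using Finset.induction_on with
    | empty =>
      intro _
      by_cases hK : Nonempty K
      · obtain ⟨a0⟩ := hK
        refine ⟨Sum.elim c (fun _ => a0), ?_⟩
        rintro (e | v) he (f | w) hf hne x hx hx'
        · simp only [Sum.elim_inl]
          rcases x with x | j
          · exact hc e trivial f trivial (fun h => hne (by rw [h])) x ((hinc1 _ _).mp hx)
              ((hinc1 _ _).mp hx')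
          · exact absurd hx (hinc2 _ _)
        · have : g w ∈ (∅ : Finset ι) := (hF2 _ _).mp hf
          exact absurd this (Finset.notMem_empty _)
        · have : g v ∈ (∅ : Finset ι) := (hF2 _ _).mp he
          exact absurd this (Finset.notMem_empty _)
        · have : g w ∈ (∅ : Finset ι) := (hF2 _ _).mp hf
          exact absurd this (Finset.notMem_empty _)
      · have hE : IsEmpty E := ⟨fun e => hK ⟨c e⟩⟩
        have hA : IsEmpty A := by
          constructor
          intro v
          have := hdeg v.1 v.2
          have h0 : Fintype.card K = 0 := by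
            rw [Fintype.card_eq_zero_iff]
            exact not_nonempty_iff.mp hK
          omega
        refine ⟨fun e => isEmptyElim e, ?_⟩
        intro e
        exact isEmptyElim e
    | insert j J hj ih =>
      intro hJ
      obtain ⟨c1, hc1⟩ := ih (fun i hi => hJ i (Finset.mem_insert_of_mem hi))
      let D : Finset (E ⊕ A) := univ.filter fun e =>
        match e with
        | Sum.inl _ => False
        | Sum.inr v => g v = j
      have hDl : ∀ e : E, (Sum.inl e : E ⊕ A) ∉ D := by
        intro e
        simp [D]
      have hDr : ∀ v : A, (Sum.inr v : E ⊕ A) ∈ D ↔ g v = j := by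
        intro v
        simp [D]
      have hFav : ∀ e ∈ F J, ¬ Inc s' t' e (Sum.inr j) := by
        rintro (e | v) he h
        · exact hinc2 _ _ h
        · rw [hinc4] at h
          rw [hF2, h] at he
          exact hj he
      have hDin : ∀ e ∈ D, Inc s' t' e (Sum.inr j) := by
        rintro (e | v) he
        · exact absurd he (hDl e)
        · rw [hinc4]; exact (hDr v).mp he
      have htok : ∀ u, u ≠ Sum.inr j →
          2 * dg s' t' D u ≤ (missSet s' t' (F J : Set (E ⊕ A)) c1 u).card := by
        intro u hu
        by_cases h0 : dg s' t' D u = 0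
        · rw [h0]; simp
        rcases u with u | i
        · -- `P u = some j`
          have hpos : 0 < dg s' t' D (Sum.inl u) := Nat.pos_of_ne_zero h0
          obtain ⟨e, he⟩ := Finset.card_pos.mp hpos
          rw [Finset.mem_filter] at he
          rcases e with e | w
          · exact absurd he.1 (hDl e)
          · have hw : w.1 = u := (hinc3 _ _).mp he.2
            have hwj : g w = j := (hDr w).mp he.1
            have hd1 : dg s' t' D (Sum.inl u) ≤ 1 := by
              unfold dg
              rw [Finset.card_le_one]
              rintro (e | x) hx (f | y) hy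
              · exact absurd (Finset.mem_filter.mp hx).1 (hDl e)
              · exact absurd (Finset.mem_filter.mp hx).1 (hDl e)
              · exact absurd (Finset.mem_filter.mp hy).1 (hDl f)
              · have h1 := (hinc3 _ _).mp (Finset.mem_filter.mp hx).2
                have h2 := (hinc3 _ _).mp (Finset.mem_filter.mp hy).2
                rw [Subtype.ext (h1.trans h2.symm)]
            have hd2 : dg s' t' (F J) (Sum.inl u) ≤ dg s t univ u := by
              unfold dg
              apply Finset.card_le_card_of_surjOn (fun e => (Sum.inl e : E ⊕ A))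
              rintro (e | x) hx
              · have hx' := Finset.mem_filter.mp (Finset.mem_coe.mp hx)
                refine ⟨e, ?_, rfl⟩
                simp only [coe_filter, mem_univ, true_and, Set.mem_ofPred_eq]
                exact (hinc1 _ _).mp hx'.2
              · exfalso
                have hx' := Finset.mem_filter.mp (Finset.mem_coe.mp hx)
                have h1 : x.1 = u := (hinc3 _ _).mp hx'.2
                have h2 : g x ∈ J := (hF2 _ _).mp hx'.1
                have h3 : x = w := Subtype.ext (h1.trans hw.symm)
                rw [h3, hwj] at h2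
                exact hj h2
            have h1 := card_missSet s' t' (F J) c1 (Sum.inl u)
            have h2 := hdeg u (by rw [← hw]; exact w.2)
            omega
        · exfalso
          apply h0
          unfold dg
          rw [Finset.card_eq_zero, Finset.filter_eq_empty_iff]
          rintro (e | w) he h
          · exact hinc2 _ _ h
          · rw [hinc4] at h
            rw [hDr] at he
            exact hu (by rw [← h, he])
      have hDK : D.card ≤ Fintype.card K := by
        refine le_trans ?_ (hP j)
        apply Finset.card_le_card_of_injOn (fun e => match e with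
          | Sum.inl e => s e
          | Sum.inr v => v.1)
        · rintro (e | v) he
          · exact absurd (Finset.mem_coe.mp he) (hDl e)
          · have := (hDr v).mp (Finset.mem_coe.mp he)
            simp only [coe_filter, mem_univ, true_and, Set.mem_ofPred_eq]
            rw [hg v, this]
        · rintro (e | v) he (f | w) hf h
          · exact absurd (Finset.mem_coe.mp he) (hDl e)
          · exact absurd (Finset.mem_coe.mp he) (hDl e)
          · exact absurd (Finset.mem_coe.mp hf) (hDl f)
          · have : v = w := Subtype.ext h
            rw [this]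
      obtain ⟨c2, hc2⟩ := extend hst' (Sum.inr j) hFav hDin hc1 htok hDK
      refine ⟨c2, ?_⟩
      apply hc2.mono
      rintro (e | v) he
      · exact Or.inl (hF1 _ _)
      · have h1 := (hF2 _ v).mp (Finset.mem_coe.mp he)
        rw [Finset.mem_insert] at h1
        rcases h1 with h1 | h1
        · exact Or.inr ((hDr v).mpr h1)
        · exact Or.inl ((hF2 _ _).mpr h1)
  obtain ⟨c', hc'⟩ := key (univ.filter fun j => ∃ v : A, g v = j) (by
    intro j hj
    simpa using hj)
  have hall : ∀ e, e ∈ F (univ.filter fun j => ∃ v : A, g v = j) := by
    rintro (e | v)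
    · exact hF1 _ _
    · rw [hF2, Finset.mem_filter]
      exact ⟨Finset.mem_univ _, v, rfl⟩
  refine ⟨fun e => c' (Sum.inl e), fun v => if h : P v ≠ none then some (c' (Sum.inr ⟨v, h⟩)) else none,
    ?_, ?_, ?_⟩
  · intro e _ f _ hne v hev hfv
    exact hc' (Sum.inl e) (hall _) (Sum.inl f) (hall _) (fun h => hne (Sum.inl.inj h)) (Sum.inl v)
      ((hinc1 _ _).mpr hev) ((hinc1 _ _).mpr hfv)
  · intro v hv
    refine ⟨c' (Sum.inr ⟨v, hv⟩), by simp [hv], ?_⟩
    intro e _ hev
    exact hc' (Sum.inl e) (hall _) (Sum.inr ⟨v, hv⟩) (hall _) (by simp) (Sum.inl v)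
      ((hinc1 _ _).mpr hev) ((hinc3 _ _).mpr rfl)
  · intro u v huv hu hne
    have hv : P v ≠ none := by rw [← huv]; exact hu
    simp only [dif_pos hu, dif_pos hv]
    intro h
    have hgg : g ⟨u, hu⟩ = g ⟨v, hv⟩ := by
      have h1 := hg ⟨u, hu⟩
      have h2 := hg ⟨v, hv⟩
      simp only at h1 h2
      rw [huv, h2] at h1
      exact (Option.some.inj h1).symm
    exact hc' (Sum.inr ⟨u, hu⟩) (hall _) (Sum.inr ⟨v, hv⟩) (hall _)
      (by
        intro h3
        exact hne (congrArg Subtype.val (Sum.inr.inj h3))) (Sum.inr (g ⟨v, hv⟩))
      ((hinc4 _ _).mpr hgg) ((hinc4 _ _).mpr rfl) (Option.some.inj h)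

end TC19
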