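import Pool.Agent.Lib_helper19.TC.Apex

set_option autoImplicit false

/-!
# Peeling vertices, and total colourings of multigraphs with small hard core
-/

namespace TC19

open Finset Classical

variable {V E K : Type*}

/-- the underlying simple graph -/
def SG (s t : E → V) : SimpleGraph V where
  Adj x y := x ≠ y ∧ ∃ e, Inc s t e x ∧ Inc s t e y
  symm := ⟨fun x y h => ⟨h.1.symm, by
    obtain ⟨e, hx, hy⟩ := h.2
    exact ⟨e, hy, hx⟩⟩⟩
  loopless := ⟨fun x h => h.1 rfl⟩

/-- the number of neighbours of `v` in `W` -/
noncomputable def nb (G : SimpleGraph V) (W : Finset V) (v : V) : ℕ :=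
  (W.filter fun u => G.Adj v u).card

theorem nb_mono {G : SimpleGraph V} {W W' : Finset V} (h : W ⊆ W') (v : V) :
    nb G W v ≤ nb G W' v := Finset.card_le_card (Finset.filter_subset_filter _ h)

/-- The hard core for the demand function `q`. -/
noncomputable def core [Fintype V] (G : SimpleGraph V) (q : V → ℕ) : Finset V :=
  univ.filter fun v => ∃ W : Finset V, v ∈ W ∧ ∀ u ∈ W, q u ≤ nb G W u

theorem subset_core [Fintype V] {G : SimpleGraph V} {q : V → ℕ} {W : Finset V}
    (h : ∀ u ∈ W, q u ≤ nb G W u) : W ⊆ core G q := by
  intro v hv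
  simp only [core, mem_filter, mem_univ, true_and]
  exact ⟨W, hv, h⟩

theorem core_spec [Fintype V] {G : SimpleGraph V} {q : V → ℕ} :
    ∀ u ∈ core G q, q u ≤ nb G (core G q) u := by
  intro u hu
  have hu' := hu
  simp only [core, mem_filter, mem_univ, true_and] at hu'
  obtain ⟨W, huW, hW⟩ := hu'
  exact (hW u huW).trans (nb_mono (subset_core hW) u)

/-- Greedy colouring outside the core. -/
theorem peel [Fintype V] {G : SimpleGraph V} {q : V → ℕ} (L : V → Finset K)
    (hL : ∀ v, q v ≤ (L v).card) (g0 : V → K)
    (hg0 : ∀ v ∈ core G q, g0 v ∈ L v)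
    (hg1 : ∀ u ∈ core G q, ∀ v ∈ core G q, G.Adj u v → g0 u ≠ g0 v) :
    ∃ g : V → K, (∀ v, g v ∈ L v) ∧ ∀ u v, G.Adj u v → g u ≠ g v := by
  set A := core G q with hA
  have key : ∀ n : ℕ, ∀ W : Finset V, A ⊆ W → W.card = n →
      ∃ g : V → K, (∀ v ∈ W, g v ∈ L v) ∧ ∀ u ∈ W, ∀ v ∈ W, G.Adj u v → g u ≠ g v := by
    intro n
    induction n using Nat.strong_induction_on with
    | _ n ih =>
      intro W hAW hn
      by_cases hWA : W = A
      · subst hWA
        exact ⟨g0, hg0, hg1⟩
      · have hex : ∃ v ∈ W, nb G W v < q v := by
          by_contra hcon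
          push Not at hcon
          exact hWA (Finset.Subset.antisymm (subset_core hcon) hAW)
        obtain ⟨v, hvW, hv⟩ := hex
        have hvA : v ∉ A := by
          intro h
          have h1 : q v ≤ nb G A v := core_spec v h
          have h2 := nb_mono (G := G) hAW v
          omega
        have hAW' : A ⊆ W.erase v := by
          intro x hx
          exact Finset.mem_erase.mpr ⟨fun h => hvA (h ▸ hx), hAW hx⟩
        have hcard : (W.erase v).card < n := by
          rw [← hn]
          exact Finset.card_erase_lt_of_mem hvW
        obtain ⟨g, h1, h2⟩ := ih _ hcard (W.erase v) hAW' rfl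
        have hne : ((L v) \ ((W.filter fun u => G.Adj v u).image g)).Nonempty := by
          rw [← Finset.card_pos]
          have h3 := Finset.le_card_sdiff ((W.filter fun u => G.Adj v u).image g) (L v)
          have h4 : ((W.filter fun u => G.Adj v u).image g).card ≤ nb G W v :=
            Finset.card_image_le
          have h5 := hL v
          omega
        obtain ⟨a, ha⟩ := hne
        rw [Finset.mem_sdiff] at ha
        have hanot : ∀ u ∈ W, G.Adj v u → g u ≠ a := by
          intro u hu huv h
          exact ha.2 (Finset.mem_image.mpr ⟨u, Finset.mem_filter.mpr ⟨hu, huv⟩, h⟩)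
        refine ⟨Function.update g v a, ?_, ?_⟩
        · intro x hx
          by_cases hxv : x = v
          · subst hxv
            rw [Function.update_self]
            exact ha.1
          · rw [Function.update_of_ne hxv]
            exact h1 x (Finset.mem_erase.mpr ⟨hxv, hx⟩)
        · intro x hx y hy hxy
          by_cases hxv : x = v
          · subst hxv
            have hyx : y ≠ x := hxy.ne'
            rw [Function.update_self, Function.update_of_ne hyx]
            exact (hanot y hy hxy).symm
          · by_cases hyv : y = v
            · subst hyv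
              rw [Function.update_self, Function.update_of_ne hxv]
              exact hanot x hx hxy.symm
            · rw [Function.update_of_ne hxv, Function.update_of_ne hyv]
              exact h2 x (Finset.mem_erase.mpr ⟨hxv, hx⟩) y (Finset.mem_erase.mpr ⟨hyv, hy⟩) hxy
  obtain ⟨g, h1, h2⟩ := key _ univ (Finset.subset_univ _) rfl
  exact ⟨g, fun v => h1 v (Finset.mem_univ _),
    fun u v h => h2 u (Finset.mem_univ _) v (Finset.mem_univ _) h⟩

/-- A total colouring with the edge part `c` and the vertex part `g`. -/
def TotalCol (s t : E → V) (c : E → K) (g : V → K) : Prop :=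
  Proper s t Set.univ c ∧ (∀ v, Miss s t Set.univ c v (g v)) ∧
    ∀ u v, (SG s t).Adj u v → g u ≠ g v

/-- If `G` is edge colourable with the colour set `K`, `|K| ≥ Δ + 2`, and all components of its
hard core have at most `|K|` vertices, then `G` is totally colourable with `K`. -/
theorem small_core [Fintype V] [Fintype E] [Fintype K] {s t : E → V} (hst : ∀ e, s e ≠ t e)
    (hc : ∃ c : E → K, Proper s t Set.univ c)
    (hdeg : ∀ v, dg s t univ v + 2 ≤ Fintype.card K)
    (H : ∀ W : Finset V, ((SG s t).induce (W : Set V)).Connected →
      (∀ v ∈ W, Fintype.card K - dg s t univ v ≤ nb (SG s t) W v) → W.card ≤ Fintype.card K) :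
    ∃ (c : E → K) (g : V → K), TotalCol s t c g := by
  obtain ⟨c0, hc0⟩ := hc
  set G := SG s t with hG
  let q : V → ℕ := fun v => Fintype.card K - dg s t univ v
  set A := core G q with hA
  let GA : SimpleGraph V :=
    { Adj := fun x y => x ∈ A ∧ y ∈ A ∧ G.Adj x y
      symm := ⟨fun x y h => ⟨h.2.1, h.1, h.2.2.symm⟩⟩
      loopless := ⟨fun x h => h.2.2.ne rfl⟩ }
  let P : V → Option GA.ConnectedComponent := fun v =>
    if v ∈ A then some (GA.connectedComponentMk v) else none
  have hreach : ∀ x y, GA.Reachable x y → x ∈ A → y ∈ A := by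
    intro x y h hx
    obtain ⟨p⟩ := h
    induction p with
    | nil => exact hx
    | cons hadj _ ih => exact ih hadj.2.1
  have hPcard : ∀ j : GA.ConnectedComponent,
      (univ.filter fun v => P v = some j).card ≤ Fintype.card K := by
    intro j
    by_cases hemp : (univ.filter fun v => P v = some j) = ∅
    · rw [hemp]; simp
    obtain ⟨v0, hv0⟩ := Finset.nonempty_iff_ne_empty.mpr hemp
    have hv0' : v0 ∈ A ∧ GA.connectedComponentMk v0 = j := by
      simp only [mem_filter, mem_univ, true_and, P] at hv0
      split_ifs at hv0 with h
      · exact ⟨h, Option.some.inj hv0⟩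
    have hset : ((univ.filter fun v => P v = some j : Finset V) : Set V) = j.supp := by
      ext x
      simp only [coe_filter, mem_univ, true_and, Set.mem_ofPred_eq,
        SimpleGraph.ConnectedComponent.mem_supp_iff, P]
      constructor
      · intro h
        split_ifs at h with h'
        exact Option.some.inj h
      · intro h
        have hr : GA.Reachable v0 x := by
          rw [← SimpleGraph.ConnectedComponent.eq, hv0'.2, h]
        rw [if_pos (hreach _ _ hr hv0'.1), h]
    apply H
    · rw [hset]
      have h1 := j.connected_toSimpleGraph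
      exact h1.mono (fun x y hxy => (show GA.Adj x.1 y.1 from hxy).2.2)
    · intro v hv
      have hv' : v ∈ A ∧ GA.connectedComponentMk v = j := by
        simp only [mem_filter, mem_univ, true_and, P] at hv
        split_ifs at hv with h
        · exact ⟨h, Option.some.inj hv⟩
      refine (core_spec v hv'.1).trans ?_
      apply Finset.card_le_card
      intro x hx
      rw [Finset.mem_filter] at hx
      simp only [mem_filter, mem_univ, true_and, P]
      refine ⟨?_, hx.2⟩
      rw [if_pos hx.1]
      congr 1
      rw [← hv'.2]
      apply Eq.symm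
      apply SimpleGraph.ConnectedComponent.connectedComponentMk_eq_of_adj
      exact ⟨hv'.1, hx.1, hx.2⟩
  obtain ⟨c, f, hc, hf1, hf2⟩ := rainbow hst hc0 P hPcard (fun v _ => hdeg v)
  have hPA : ∀ v, v ∈ A → P v ≠ none := by
    intro v hv
    simp [P, hv]
  have hL : ∀ v, q v ≤ (missSet s t Set.univ c v).card := by
    intro v
    have h1 := card_missSet s t (univ : Finset E) c v
    have h2 : ((univ : Finset E) : Set E) = Set.univ := by simp
    rw [h2] at h1
    simp only [q]
    omega
  by_cases hK : Nonempty K
  · obtain ⟨a0⟩ := hK
    obtain ⟨g, hg1, hg2⟩ := peel (G := G) (q := q) (fun v => missSet s t Set.univ c v) hL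
      (fun v => (f v).getD a0) (by
        intro v hv
        obtain ⟨a, ha, hm⟩ := hf1 v (hPA v hv)
        simp only [ha, Option.getD_some]
        exact mem_missSet.mpr hm) (by
        intro u hu v hv huv
        obtain ⟨a, ha, -⟩ := hf1 u (hPA u hu)
        obtain ⟨b, hb, -⟩ := hf1 v (hPA v hv)
        have h1 : P u = P v := by
          simp only [P]
          rw [if_pos hu, if_pos hv]
          congr 1
          apply SimpleGraph.ConnectedComponent.connectedComponentMk_eq_of_adj
          exact ⟨hu, hv, huv⟩
        have h2 := hf2 u v h1 (hPA u hu) huv.ne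
        simp only [ha, hb, Option.getD_some]
        intro h
        exact h2 (by rw [ha, hb, h]))
    exact ⟨c, g, hc, fun v => mem_missSet.mp (hg1 v), hg2⟩
  · have hV : IsEmpty V := by
      constructor
      intro v
      have := hdeg v
      have h0 : Fintype.card K = 0 := by
        rw [Fintype.card_eq_zero_iff]
        exact not_nonempty_iff.mp hK
      omega
    exact ⟨c, fun v => isEmptyElim v, hc, fun v => isEmptyElim v, fun v => isEmptyElim v⟩

end TC19
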