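import Pool.Agent.Lib_helper19.TC.Core
import Pool.Agent.Lib_helper19.TC.LLL

set_option autoImplicit false

/-!
# The probability space of simultaneous Kempe exchanges for a set of disjoint colour pairs
-/

namespace TC19

open Finset Classical

variable {V E K : Type*}

/-- A token state: `c` is a proper edge colouring and all tokens are missing colours. -/
def Valid (s t : E → V) (c : E → K) (τ : V → Finset K) : Prop :=
  Proper s t Set.univ c ∧ ∀ v, ∀ a ∈ τ v, Miss s t Set.univ c v a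

/-- the neighbours of `v` -/
noncomputable def Nb [Fintype V] (G : SimpleGraph V) (v : V) : Finset V :=
  univ.filter fun w => G.Adj v w

/-- the number of tokens from `R` on the neighbours of `v` -/
noncomputable def load [Fintype V] (G : SimpleGraph V) (τ : V → Finset K) (R : Finset K) (v : V) : ℕ :=
  ∑ w ∈ Nb G v, ((τ w).filter fun a => a ∈ R).card

theorem exists_invol {T T' : Finset K} (hdisj : Disjoint T T') (hcard : T.card = T'.card) :
    ∃ σ : K → K, (∀ a, σ (σ a) = a) ∧ (∀ a ∈ T, σ a ∈ T') ∧ (∀ a ∈ T', σ a ∈ T) ∧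
      ∀ a, a ∉ T → a ∉ T' → σ a = a := by
  let e := Finset.equivOfCardEq hcard
  have hd1 : ∀ a ∈ T, a ∉ T' := fun a h h' => (Finset.disjoint_left.mp hdisj h) h'
  have hd2 : ∀ a ∈ T', a ∉ T := fun a h h' => (Finset.disjoint_left.mp hdisj h') h
  let σ : K → K := fun a => if h : a ∈ T then (e ⟨a, h⟩).1 else
    if h' : a ∈ T' then (e.symm ⟨a, h'⟩).1 else a
  have h1 : ∀ a (h : a ∈ T), σ a = (e ⟨a, h⟩).1 := fun a h => by simp only [σ, dif_pos h]
  have h2 : ∀ a (h : a ∈ T'), σ a = (e.symm ⟨a, h⟩).1 := fun a h => by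
    simp only [σ, dif_neg (hd2 a h), dif_pos h]
  have h3 : ∀ a, a ∉ T → a ∉ T' → σ a = a := fun a h h' => by
    simp only [σ, dif_neg h, dif_neg h']
  refine ⟨σ, ?_, ?_, ?_, h3⟩
  · intro a
    by_cases h : a ∈ T
    · rw [h1 a h, h2 _ (e ⟨a, h⟩).2]
      simp
    · by_cases h' : a ∈ T'
      · rw [h2 a h', h1 _ (e.symm ⟨a, h'⟩).2]
        simp
      · rw [h3 a h h', h3 a h h']
  · intro a h
    rw [h1 a h]
    exact (e ⟨a, h⟩).2
  · intro a h
    rw [h2 a h]
    exact (e.symm ⟨a, h⟩).2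

/-- The data of a round of exchanges: the colours in `T` are paired with the colours in `T'` by `σ`. -/
structure Ctx (V E K : Type*) where
  s : E → V
  t : E → V
  c : E → K
  T : Finset K
  T' : Finset K
  σ : K → K
  τ : V → Finset K
  hst : ∀ e, s e ≠ t e
  hp : Proper s t Set.univ c
  hτ : ∀ v, ∀ a ∈ τ v, Miss s t Set.univ c v a
  hσσ : ∀ a, σ (σ a) = a
  hσ1 : ∀ a ∈ T, σ a ∈ T'
  hσ2 : ∀ a ∈ T', σ a ∈ T
  hσ3 : ∀ a, a ∉ T → a ∉ T' → σ a = a
  hd : Disjoint T T'

namespace Ctx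

variable (X : Ctx V E K)

theorem hd1 {a : K} (h : a ∈ X.T) : a ∉ X.T' := fun h' => (Finset.disjoint_left.mp X.hd h) h'

theorem hd2 {a : K} (h : a ∈ X.T') : a ∉ X.T := fun h' => (Finset.disjoint_left.mp X.hd h') h

/-- the graph of the colour pair of `a` -/
def H (a : X.T) : SimpleGraph V := HG X.s X.t Set.univ X.c a.1 (X.σ a.1)

/-- the component of `v` -/
def cp (a : X.T) (v : V) : (X.H a).ConnectedComponent := (X.H a).connectedComponentMk v

/-- the index set: pairs of a colour pair and a component -/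
def Idx : Type _ := Σ a : X.T, (X.H a).ConnectedComponent

noncomputable instance [Fintype V] : Fintype X.Idx :=
  inferInstanceAs (Fintype (Σ a : X.T, (X.H a).ConnectedComponent))

def val (ω : X.Idx → Bool) (v : V) (a : X.T) : Bool := ω ⟨a, X.cp a v⟩

noncomputable def fl (ω : X.Idx → Bool) (v : V) (β : K) : Bool :=
  if h : β ∈ X.T then X.val ω v ⟨β, h⟩
  else if h : X.σ β ∈ X.T then X.val ω v ⟨X.σ β, h⟩ else false

theorem fl_mem (ω : X.Idx → Bool) (v : V) (a : X.T) : X.fl ω v a.1 = X.val ω v a := by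
  simp only [fl, dif_pos a.2]

theorem fl_σ (ω : X.Idx → Bool) (v : V) (β : K) : X.fl ω v (X.σ β) = X.fl ω v β := by
  by_cases h1 : β ∈ X.T
  · have h2 : X.σ β ∉ X.T := X.hd2 (X.hσ1 β h1)
    have h3 : X.σ (X.σ β) ∈ X.T := by rw [X.hσσ]; exact h1
    simp only [fl, dif_pos h1, dif_neg h2, dif_pos h3]
    exact congrArg (X.val ω v) (Subtype.ext (X.hσσ β))
  · by_cases h2 : X.σ β ∈ X.T
    · simp only [fl, dif_neg h1, dif_pos h2]
    · have h3 : X.σ (X.σ β) ∉ X.T := by rw [X.hσσ]; exact h1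
      simp only [fl, dif_neg h1, dif_neg h2, dif_neg h3]

theorem fl_out (ω : X.Idx → Bool) (v : V) {a : K} (h1 : a ∉ X.T) (h2 : a ∉ X.T') :
    X.fl ω v a = false := by
  have h3 : X.σ a ∉ X.T := by rw [X.hσ3 a h1 h2]; exact h1
  simp only [fl, dif_neg h1, dif_neg h3]

noncomputable def pf (ω : X.Idx → Bool) (v : V) (β : K) : K := if X.fl ω v β then X.σ β else β

theorem pf_pf (ω : X.Idx → Bool) (v : V) (β : K) : X.pf ω v (X.pf ω v β) = β := by
  by_cases h : X.fl ω v β
  · have h' : X.fl ω v (X.σ β) = true := by rw [X.fl_σ]; exact h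
    simp only [pf, h, if_true, h', X.hσσ]
  · have h' : X.fl ω v β = false := by simpa using h
    simp only [pf, h', Bool.false_eq_true, if_false]

noncomputable def pe (ω : X.Idx → Bool) (v : V) : Equiv.Perm K :=
  ⟨X.pf ω v, X.pf ω v, X.pf_pf ω v, X.pf_pf ω v⟩

theorem pe_edge (ω : X.Idx → Bool) (e : E) : X.pe ω (X.s e) (X.c e) = X.pe ω (X.t e) (X.c e) := by
  show X.pf ω (X.s e) (X.c e) = X.pf ω (X.t e) (X.c e)
  have hfl : X.fl ω (X.s e) (X.c e) = X.fl ω (X.t e) (X.c e) := by
    by_cases h1 : X.c e ∈ X.T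
    · simp only [fl, dif_pos h1, val]
      have : X.cp ⟨X.c e, h1⟩ (X.s e) = X.cp ⟨X.c e, h1⟩ (X.t e) :=
        HG_reach (Set.mem_univ e) (Or.inl rfl) (inc_left X.s X.t e) (inc_right X.s X.t e)
      rw [this]
    · by_cases h2 : X.σ (X.c e) ∈ X.T
      · simp only [fl, dif_neg h1, dif_pos h2, val]
        have : X.cp ⟨X.σ (X.c e), h2⟩ (X.s e) = X.cp ⟨X.σ (X.c e), h2⟩ (X.t e) :=
          HG_reach (Set.mem_univ e) (Or.inr (X.hσσ (X.c e)).symm) (inc_left X.s X.t e)
            (inc_right X.s X.t e)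
        rw [this]
      · simp only [fl, dif_neg h1, dif_neg h2]
  simp only [pf, hfl]

/-- the colouring after the exchanges -/
noncomputable def c' (ω : X.Idx → Bool) : E → K := fun e => X.pe ω (X.s e) (X.c e)

/-- the tokens after the exchanges -/
noncomputable def τ' (ω : X.Idx → Bool) (v : V) : Finset K := (X.τ v).map (X.pe ω v).toEmbedding

theorem mem_τ' (ω : X.Idx → Bool) (v : V) (a : K) : a ∈ X.τ' ω v ↔ X.pf ω v a ∈ X.τ v := by
  simp only [τ', Finset.mem_map_equiv]
  rfl

theorem valid (ω : X.Idx → Bool) : Valid X.s X.t (X.c' ω) (X.τ' ω) := by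
  refine ⟨switch_proper X.hp (fun e _ => X.pe_edge ω e), ?_⟩
  intro v a ha
  simp only [τ', Finset.mem_map, Equiv.coe_toEmbedding] at ha
  obtain ⟨β, hβ, rfl⟩ := ha
  exact switch_miss (fun e _ => X.pe_edge ω e) (X.hτ v β hβ)

theorem card_τ' (ω : X.Idx → Bool) (v : V) : (X.τ' ω v).card = (X.τ v).card := by
  simp only [τ', Finset.card_map]

theorem τ'_out (ω : X.Idx → Bool) (v : V) {a : K} (h1 : a ∉ X.T) (h2 : a ∉ X.T') :
    a ∈ X.τ' ω v ↔ a ∈ X.τ v := by
  rw [X.mem_τ']
  simp only [pf, X.fl_out ω v h1 h2, Bool.false_eq_true, if_false]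

/-- the contribution of the vertex `w` and the colour pair `a` -/
noncomputable def h (a : X.T) (w : V) (β : Bool) : ℝ :=
  if β then (if X.σ a.1 ∈ X.τ w then 1 else 0) else (if a.1 ∈ X.τ w then 1 else 0)

theorem h_nonneg (a : X.T) (w : V) (β : Bool) : 0 ≤ X.h a w β := by
  simp only [h]
  split_ifs <;> norm_num

theorem countT (ω : X.Idx → Bool) (w : V) :
    (((X.τ' ω w).filter fun a => a ∈ X.T).card : ℝ) = ∑ a : X.T, X.h a w (X.val ω w a) := by
  have e1 : ((X.τ' ω w).filter fun a => a ∈ X.T) = X.T.filter fun a => X.pf ω w a ∈ X.τ w := by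
    ext a
    simp only [mem_filter, X.mem_τ']
    tauto
  rw [e1, Finset.card_filter, Nat.cast_sum, ← Finset.sum_coe_sort X.T]
  apply Finset.sum_congr rfl
  intro a _
  have h1 : X.fl ω w a.1 = X.val ω w a := X.fl_mem ω w a
  by_cases h2 : X.val ω w a
  · simp only [pf, h1, h2, h, if_true]
    split_ifs <;> simp
  · simp only [pf, h1, h2, h, if_false, Bool.false_eq_true]
    split_ifs <;> simp

theorem countT' (ω : X.Idx → Bool) (w : V) :
    (((X.τ' ω w).filter fun a => a ∈ X.T').card : ℝ) = ∑ a : X.T, X.h a w (!X.val ω w a) := by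
  have e1 : ((X.τ' ω w).filter fun a => a ∈ X.T').card =
      (X.T.filter fun a => X.pf ω w (X.σ a) ∈ X.τ w).card := by
    apply Finset.card_nbij' X.σ X.σ
    · intro a ha
      simp only [coe_filter, Set.mem_ofPred_eq, X.mem_τ', X.hσσ] at ha ⊢
      exact ⟨X.hσ2 a ha.2, ha.1⟩
    · intro a ha
      simp only [coe_filter, Set.mem_ofPred_eq, X.mem_τ'] at ha ⊢
      exact ⟨ha.2, X.hσ1 a ha.1⟩
    · intro a _; exact X.hσσ a
    · intro a _; exact X.hσσ a
  rw [e1, Finset.card_filter, Nat.cast_sum, ← Finset.sum_coe_sort X.T]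
  apply Finset.sum_congr rfl
  intro a _
  have h1 : X.fl ω w (X.σ a.1) = X.val ω w a := by rw [X.fl_σ]; exact X.fl_mem ω w a
  by_cases h2 : X.val ω w a
  · simp only [pf, h1, h2, h, if_true, X.hσσ, Bool.not_true, Bool.false_eq_true, if_false]
    split_ifs <;> simp
  · simp only [pf, h1, h2, h, if_false, Bool.false_eq_true, Bool.not_false, if_true]
    split_ifs <;> simp

theorem count0 (w : V) :
    (((X.τ w).filter fun a => a ∈ X.T).card : ℝ) + ((X.τ w).filter fun a => a ∈ X.T').card =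
      ∑ a : X.T, (X.h a w true + X.h a w false) := by
  have e1 : ((X.τ w).filter fun a => a ∈ X.T) = X.T.filter fun a => a ∈ X.τ w := by
    ext a
    simp only [mem_filter]
    tauto
  have e2 : ((X.τ w).filter fun a => a ∈ X.T').card = (X.T.filter fun a => X.σ a ∈ X.τ w).card := by
    apply Finset.card_nbij' X.σ X.σ
    · intro a ha
      simp only [coe_filter, Set.mem_ofPred_eq, X.hσσ] at ha ⊢
      exact ⟨X.hσ2 a ha.2, ha.1⟩
    · intro a ha
      simp only [coe_filter, Set.mem_ofPred_eq] at ha ⊢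
      exact ⟨ha.2, X.hσ1 a ha.1⟩
    · intro a _; exact X.hσσ a
    · intro a _; exact X.hσσ a
  rw [e1, e2, Finset.card_filter, Finset.card_filter, Nat.cast_sum, Nat.cast_sum,
    ← Finset.sum_coe_sort X.T, ← Finset.sum_coe_sort X.T, ← Finset.sum_add_distrib]
  apply Finset.sum_congr rfl
  intro a _
  simp only [h, if_true, Bool.false_eq_true, if_false]
  split_ifs <;> simp

variable [Fintype V] (G : SimpleGraph V)

/-- the contribution of the component `i` to the load at `v` -/
noncomputable def x (v : V) (i : X.Idx) (β : Bool) : ℝ :=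
  ∑ w ∈ (Nb G v).filter fun w => X.cp i.1 w = i.2, X.h i.1 w β

theorem x_sum (v : V) (g : X.Idx → Bool) : ∑ i : X.Idx, X.x G v i (g i) =
    ∑ w ∈ Nb G v, ∑ a : X.T, X.h a w (g ⟨a, X.cp a w⟩) := by
  have h0 : ∑ i : X.Idx, X.x G v i (g i) = ∑ a : X.T, ∑ C : (X.H a).ConnectedComponent,
      X.x G v ⟨a, C⟩ (g ⟨a, C⟩) := by
    unfold Idx
    exact Fintype.sum_sigma _
  rw [h0, Finset.sum_comm]
  apply Finset.sum_congr rfl
  intro a _
  rw [← Finset.sum_fiberwise (Nb G v) (fun w => X.cp a w) (fun w => X.h a w (g ⟨a, X.cp a w⟩))]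
  apply Finset.sum_congr rfl
  intro C _
  simp only [x]
  apply Finset.sum_congr rfl
  intro w hw
  rw [(Finset.mem_filter.mp hw).2]

theorem load_T (ω : X.Idx → Bool) (v : V) :
    (load G (X.τ' ω) X.T v : ℝ) = ∑ i : X.Idx, X.x G v i (ω i) := by
  rw [X.x_sum G v ω]
  unfold load
  rw [Nat.cast_sum]
  exact Finset.sum_congr rfl fun w _ => X.countT ω w

theorem load_T' (ω : X.Idx → Bool) (v : V) :
    (load G (X.τ' ω) X.T' v : ℝ) = ∑ i : X.Idx, X.x G v i (!ω i) := by
  rw [X.x_sum G v (fun i => !ω i)]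
  unfold load
  rw [Nat.cast_sum]
  exact Finset.sum_congr rfl fun w _ => X.countT' ω w

theorem load_0 (v : V) : ∑ i : X.Idx, (X.x G v i true + X.x G v i false) =
    (load G X.τ X.T v : ℝ) + load G X.τ X.T' v := by
  rw [Finset.sum_add_distrib, X.x_sum G v (fun _ => true), X.x_sum G v (fun _ => false),
    ← Finset.sum_add_distrib]
  unfold load
  rw [Nat.cast_sum, Nat.cast_sum, ← Finset.sum_add_distrib]
  apply Finset.sum_congr rfl
  intro w _
  rw [X.count0 w, Finset.sum_add_distrib]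

omit [Fintype V] in
/-- active vertices -/
def act (a : X.T) (w : V) : Prop := ¬ (a.1 ∈ X.τ w ↔ X.σ a.1 ∈ X.τ w)

omit [Fintype V] in
theorem h_act (a : X.T) (w : V) : |X.h a w true - X.h a w false| = if X.act a w then 1 else 0 := by
  by_cases h1 : a.1 ∈ X.τ w <;> by_cases h2 : X.σ a.1 ∈ X.τ w <;> simp [h, act, h1, h2]

omit [Fintype V] in
theorem h_inact (a : X.T) (w : V) (hna : ¬ X.act a w) (β β' : Bool) : X.h a w β = X.h a w β' := by
  simp only [act, not_not] at hna
  have : X.h a w true = X.h a w false := by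
    simp only [h, if_true, Bool.false_eq_true, if_false]
    by_cases h1 : a.1 ∈ X.τ w
    · rw [if_pos h1, if_pos (hna.mp h1)]
    · rw [if_neg h1, if_neg (fun h2 => h1 (hna.mpr h2))]
  cases β <;> cases β' <;> simp [this]

omit [Fintype V] in
theorem act_miss (a : X.T) (w : V) (ha : X.act a w) :
    Miss X.s X.t Set.univ X.c w a.1 ∨ Miss X.s X.t Set.univ X.c w (X.σ a.1) := by
  simp only [act] at ha
  by_cases h1 : a.1 ∈ X.τ w
  · exact Or.inl (X.hτ w _ h1)
  · by_cases h2 : X.σ a.1 ∈ X.τ w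
    · exact Or.inr (X.hτ w _ h2)
    · exact absurd (iff_of_false h1 h2) ha

theorem comp2 [Fintype E] (a : X.T) (C : (X.H a).ConnectedComponent) :
    (univ.filter fun w => X.cp a w = C ∧ (Miss X.s X.t Set.univ X.c w a.1 ∨
      Miss X.s X.t Set.univ X.c w (X.σ a.1))).card ≤ 2 :=
  comp_le_two X.hst X.hp C

theorem var_le [Fintype E] (v : V) {b : ℝ} (hb : (load G X.τ X.T v : ℝ) + load G X.τ X.T' v ≤ b) :
    ∑ i : X.Idx, (X.x G v i true - X.x G v i false) ^ 2 ≤ 2 * b := by
  calc ∑ i : X.Idx, (X.x G v i true - X.x G v i false) ^ 2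
      ≤ ∑ i : X.Idx, 2 * (X.x G v i true + X.x G v i false) := by
        apply Finset.sum_le_sum
        intro i _
        set B : ℝ := ∑ w ∈ (Nb G v).filter fun w => X.cp i.1 w = i.2,
          |X.h i.1 w true - X.h i.1 w false| with hB
        have h1 : |X.x G v i true - X.x G v i false| ≤ B := by
          simp only [x]
          rw [← Finset.sum_sub_distrib]
          exact Finset.abs_sum_le_sum_abs _ _
        have h2 : B ≤ 2 := by
          rw [hB]
          simp_rw [h_act]
          rw [← Finset.sum_filter, Finset.sum_const, nsmul_eq_mul, mul_one]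
          have : (((Nb G v).filter fun w => X.cp i.1 w = i.2).filter fun w => X.act i.1 w).card ≤ 2 := by
            refine le_trans (Finset.card_le_card ?_) (X.comp2 i.1 i.2)
            intro w hw
            simp only [mem_filter, mem_univ, true_and] at hw ⊢
            exact ⟨hw.1.2, X.act_miss _ _ hw.2⟩
          exact_mod_cast this
        have h3 : B ≤ X.x G v i true + X.x G v i false := by
          rw [hB]
          simp only [x]
          rw [← Finset.sum_add_distrib]
          apply Finset.sum_le_sum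
          intro w _
          rw [abs_le]
          constructor <;> linarith [X.h_nonneg i.1 w true, X.h_nonneg i.1 w false]
        have h4 : 0 ≤ B := Finset.sum_nonneg fun w _ => abs_nonneg _
        calc (X.x G v i true - X.x G v i false) ^ 2 = |X.x G v i true - X.x G v i false| ^ 2 :=
              (sq_abs _).symm
          _ ≤ B ^ 2 := pow_le_pow_left₀ (abs_nonneg _) h1 2
          _ ≤ 2 * B := by nlinarith
          _ ≤ _ := by linarith
    _ = 2 * ∑ i : X.Idx, (X.x G v i true + X.x G v i false) := by rw [Finset.mul_sum]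
    _ ≤ 2 * b := by
        rw [X.load_0 G v]
        linarith

/-- the bad event at `v` -/
noncomputable def bad (B : ℝ) (v : V) : Finset (X.Idx → Bool) :=
  univ.filter fun ω => B < load G (X.τ' ω) X.T v ∨ B < load G (X.τ' ω) X.T' v

/-- the variables of the bad event at `v` -/
noncomputable def vbl (v : V) : Finset X.Idx :=
  univ.filter fun i => ∃ w, G.Adj v w ∧ X.cp i.1 w = i.2 ∧ X.act i.1 w

theorem bad_card [Fintype E] (v : V) {b L : ℝ} (hb0 : 0 < b) (hL0 : 0 ≤ L)
    (hb : (load G X.τ X.T v : ℝ) + load G X.τ X.T' v ≤ b) :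
    ((X.bad G (b / 2 + √(b * L)) v).card : ℝ) ≤
      (2 * Real.exp (-L)) * Fintype.card (X.Idx → Bool) := by
  set lam : ℝ := √(b * L) with hlam
  have hlam0 : 0 ≤ lam := Real.sqrt_nonneg _
  have hlam2 : lam ^ 2 / b = L := by
    rw [hlam, Real.sq_sqrt (by positivity)]
    field_simp
  have hvar := X.var_le G v hb
  have hc1 := chernoff (X.x G v) b lam hb0 hlam0 hvar
  have hc2 := chernoff (fun i β => X.x G v i (!β)) b lam hb0 hlam0 (by
    simp only [Bool.not_true, Bool.not_false]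
    calc ∑ i, (X.x G v i false - X.x G v i true) ^ 2 = ∑ i, (X.x G v i true - X.x G v i false) ^ 2 :=
          Finset.sum_congr rfl fun i _ => by ring
      _ ≤ 2 * b := hvar)
  rw [hlam2] at hc1 hc2
  have hsub : X.bad G (b / 2 + lam) v ⊆ (univ.filter fun ω : X.Idx → Bool =>
      (∑ i, (X.x G v i true + X.x G v i false)) / 2 + lam < ∑ i, X.x G v i (ω i)) ∪
      (univ.filter fun ω : X.Idx → Bool =>
      (∑ i, (X.x G v i (!true) + X.x G v i (!false))) / 2 + lam < ∑ i, X.x G v i (!ω i)) := by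
    intro ω hω
    simp only [bad, mem_filter, mem_univ, true_and, mem_union] at hω ⊢
    rw [X.load_T, X.load_T'] at hω
    have e1 : ∑ i, (X.x G v i (!true) + X.x G v i (!false)) =
        ∑ i, (X.x G v i true + X.x G v i false) :=
      Finset.sum_congr rfl fun i _ => by simp only [Bool.not_true, Bool.not_false]; ring
    rw [e1, X.load_0 G v]
    rcases hω with hω | hω
    · left; linarith
    · right; linarith
  have h1 := (Finset.card_le_card hsub).trans (Finset.card_union_le _ _)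
  have h2 : ((X.bad G (b / 2 + lam) v).card : ℝ) ≤
      ((univ.filter fun ω : X.Idx → Bool =>
      (∑ i, (X.x G v i true + X.x G v i false)) / 2 + lam < ∑ i, X.x G v i (ω i)).card : ℝ) +
      ((univ.filter fun ω : X.Idx → Bool =>
      (∑ i, (X.x G v i (!true) + X.x G v i (!false))) / 2 + lam <
        ∑ i, X.x G v i (!ω i)).card : ℝ) := by exact_mod_cast h1
  linarith

theorem bad_dep (B : ℝ) (v : V) (ω ω' : X.Idx → Bool) (hωω' : ∀ i ∈ X.vbl G v, ω i = ω' i) :
    ω ∈ X.bad G B v ↔ ω' ∈ X.bad G B v := by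
  have hval : ∀ w ∈ Nb G v, ∀ a : X.T, ∀ f : Bool → Bool,
      X.h a w (f (X.val ω w a)) = X.h a w (f (X.val ω' w a)) := by
    intro w hw a f
    by_cases ha : X.act a w
    · have : X.val ω w a = X.val ω' w a := by
        apply hωω'
        simp only [vbl, mem_filter, mem_univ, true_and]
        refine ⟨w, ?_, rfl, ha⟩
        simpa [Nb] using hw
      rw [this]
    · exact X.h_inact a w ha _ _
  have e1 : load G (X.τ' ω) X.T v = load G (X.τ' ω') X.T v := by
    have : (load G (X.τ' ω) X.T v : ℝ) = load G (X.τ' ω') X.T v := by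
      unfold load
      rw [Nat.cast_sum, Nat.cast_sum]
      apply Finset.sum_congr rfl
      intro w hw
      rw [X.countT, X.countT]
      exact Finset.sum_congr rfl fun a _ => hval w hw a id
    exact_mod_cast this
  have e2 : load G (X.τ' ω) X.T' v = load G (X.τ' ω') X.T' v := by
    have : (load G (X.τ' ω) X.T' v : ℝ) = load G (X.τ' ω') X.T' v := by
      unfold load
      rw [Nat.cast_sum, Nat.cast_sum]
      apply Finset.sum_congr rfl
      intro w hw
      rw [X.countT', X.countT']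
      exact Finset.sum_congr rfl fun a _ => hval w hw a (fun β => !β)
    exact_mod_cast this
  simp only [bad, mem_filter, mem_univ, true_and, e1, e2]

omit [Fintype V] in
theorem card_act {m : ℕ} (hm : ∀ v, (X.τ v).card ≤ m) (w : V) :
    (univ.filter fun a : X.T => X.act a w).card ≤ m := by
  refine le_trans ?_ (hm w)
  apply Finset.card_le_card_of_injOn (fun a : X.T => if a.1 ∈ X.τ w then a.1 else X.σ a.1)
  · intro a ha
    have ha' : X.act a w := (Finset.mem_filter.mp (Finset.mem_coe.mp ha)).2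
    simp only [act] at ha'
    by_cases h1 : a.1 ∈ X.τ w
    · simp only [h1, if_true, mem_coe]
    · simp only [h1, if_false, mem_coe]
      by_contra h2
      exact ha' (iff_of_false h1 h2)
  · intro a _ a' _ haa
    simp only at haa
    apply Subtype.ext
    split_ifs at haa with h1 h2 h2
    · exact haa
    · exact absurd (haa ▸ X.hσ1 a'.1 a'.2) (X.hd1 a.2)
    · exact absurd (haa ▸ X.hσ1 a.1 a.2) (X.hd1 a'.2)
    · rw [← X.hσσ a.1, ← X.hσσ a'.1, haa]

theorem dep_card [Fintype E] {m D : ℕ} (hm : ∀ v, (X.τ v).card ≤ m) (hD : ∀ v, (Nb G v).card ≤ D)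
    (v : V) : ((univ.filter fun v' => ¬ Disjoint (X.vbl G v) (X.vbl G v')).card : ℝ) ≤
      2 * m * D ^ 2 := by
  have hsub : (univ.filter fun v' => ¬ Disjoint (X.vbl G v) (X.vbl G v')) ⊆
      (Nb G v).biUnion fun w => (univ.filter fun a : X.T => X.act a w).biUnion fun a =>
        (univ.filter fun w' => X.cp a w' = X.cp a w ∧ (Miss X.s X.t Set.univ X.c w' a.1 ∨
          Miss X.s X.t Set.univ X.c w' (X.σ a.1))).biUnion fun w' => Nb G w' := by
    intro v' hv'
    rw [Finset.mem_filter, Finset.not_disjoint_iff] at hv'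
    obtain ⟨-, ⟨a, C⟩, hi1, hi2⟩ := hv'
    simp only [vbl, mem_filter, mem_univ, true_and] at hi1 hi2
    obtain ⟨w, hvw, hwC, hwa⟩ := hi1
    obtain ⟨w', hvw', hwC', hwa'⟩ := hi2
    simp only [mem_biUnion, mem_filter, mem_univ, true_and, Nb]
    exact ⟨w, hvw, a, hwa, w', ⟨hwC'.trans hwC.symm, X.act_miss _ _ hwa'⟩, hvw'.symm⟩
  have h1 := (Finset.card_le_card hsub).trans
    (Finset.card_biUnion_le_card_mul (Nb G v) _ (m * (2 * D)) (by
      intro w _
      refine (Finset.card_biUnion_le_card_mul _ _ (2 * D) (by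
        intro a _
        refine (Finset.card_biUnion_le_card_mul _ _ D (by
          intro w' _
          exact hD w')).trans ?_
        exact Nat.mul_le_mul_right _ (X.comp2 a (X.cp a w)))).trans ?_
      exact Nat.mul_le_mul_right _ (X.card_act hm w)))
  have h2 : (Nb G v).card * (m * (2 * D)) ≤ D * (m * (2 * D)) :=
    Nat.mul_le_mul_right _ (hD v)
  have h3 : ((univ.filter fun v' => ¬ Disjoint (X.vbl G v) (X.vbl G v')).card : ℝ) ≤
      ((D * (m * (2 * D)) : ℕ) : ℝ) := by exact_mod_cast h1.trans h2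
  refine h3.trans (le_of_eq ?_)
  push_cast
  ring

end Ctx

theorem split [Fintype V] [Fintype E] {s t : E → V} (hst : ∀ e, s e ≠ t e) (G : SimpleGraph V)
    {D m : ℕ} (hD1 : 1 ≤ D) (hm1 : 1 ≤ m) (hD : ∀ v, (Nb G v).card ≤ D) {c : E → K}
    {τ : V → Finset K} (hV : Valid s t c τ) (hm : ∀ v, (τ v).card ≤ m) {T T' : Finset K}
    (hdisj : Disjoint T T') (hcard : T.card = T'.card) {b L : ℝ} (hb : 0 < b) (hL0 : 0 ≤ L)
    (hload : ∀ v, (load G τ T v : ℝ) + load G τ T' v ≤ b) (hL : 16 * (m : ℝ) * D ^ 2 ≤ Real.exp L) :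
    ∃ (c' : E → K) (τ' : V → Finset K), Valid s t c' τ' ∧ (∀ v, (τ' v).card = (τ v).card) ∧
      (∀ v a, a ∉ T → a ∉ T' → (a ∈ τ' v ↔ a ∈ τ v)) ∧
      ∀ v, (load G τ' T v : ℝ) ≤ b / 2 + √(b * L) ∧ (load G τ' T' v : ℝ) ≤ b / 2 + √(b * L) := by
  obtain ⟨hp, hτ⟩ := hV
  obtain ⟨σ, hσσ, hσ1, hσ2, hσ3⟩ := exists_invol hdisj hcard
  have hex : ∃ X : Ctx V E K, X.s = s ∧ X.t = t ∧ X.c = c ∧ X.T = T ∧ X.T' = T' ∧ X.τ = τ :=
    ⟨⟨s, t, c, T, T', σ, τ, hst, hp, hτ, hσσ, hσ1, hσ2, hσ3, hdisj⟩, rfl, rfl, rfl, rfl, rfl, rfl⟩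
  obtain ⟨X, rfl, rfl, rfl, rfl, rfl, rfl⟩ := hex
  have hmD : (1 : ℝ) ≤ (m : ℝ) * D ^ 2 := by
    have h1 : (1 : ℝ) ≤ m := by exact_mod_cast hm1
    have h2 : (1 : ℝ) ≤ D := by exact_mod_cast hD1
    nlinarith [mul_le_mul h1 (one_le_pow₀ h2 (n := 2)) (by norm_num) (by linarith)]
  obtain ⟨ω, hω⟩ := lll (Ω := Bool) (X.bad G (b / 2 + √(b * L))) (X.vbl G)
    (fun v ω ω' h => X.bad_dep G _ v ω ω' h)
    (2 * m * D ^ 2) (by linarith) (fun v => X.dep_card G hm hD v)
    (2 * Real.exp (-L)) (by positivity) (fun v => X.bad_card G v hb hL0 (hload v)) (by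
      rw [Real.exp_neg]
      have h1 : 0 < Real.exp L := Real.exp_pos L
      have h2 : 4 * (2 * (Real.exp L)⁻¹) * (2 * (m : ℝ) * D ^ 2) =
        (16 * (m : ℝ) * D ^ 2) / Real.exp L := by
        field_simp
        ring
      rw [h2, div_le_one h1]
      exact hL)
  refine ⟨X.c' ω, X.τ' ω, X.valid ω, X.card_τ' ω, fun v a h1 h2 => X.τ'_out ω v h1 h2, ?_⟩
  intro v
  have := hω v
  simp only [Ctx.bad, mem_filter, mem_univ, true_and] at this
  push Not at this
  exact this

end TC19
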