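import Mathlib

set_option autoImplicit false

/-!
# Multigraphs with vertex set `Fin n` and edge set `Fin m`: the notions used in the statements

The edge `e` joins `src e` and `tgt e`.
-/

namespace TC19

variable {n m : ℕ} (src tgt : Fin m → Fin n)

/-- degree of `v`, parallel edges counted -/
noncomputable def Deg (v : Fin n) : ℕ := Nat.card {e : Fin m // src e = v ∨ tgt e = v}

/-- number of edges joining `u` and `v` -/
noncomputable def Mult (u v : Fin n) : ℕ :=
  Nat.card {e : Fin m // (src e = u ∧ tgt e = v) ∨ (src e = v ∧ tgt e = u)}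

/-- underlying simple graph -/
def Under : SimpleGraph (Fin n) := SimpleGraph.fromRel fun u v => ∃ e, src e = u ∧ tgt e = v

/-- number of distinct neighbours of `v` in `W` -/
noncomputable def Nbrs (W : Finset (Fin n)) (v : Fin n) : ℕ :=
  Nat.card {u : Fin n // u ∈ W ∧ (Under src tgt).Adj v u}

/-- there is a proper edge colouring with `k` colours -/
def EdgeCol (k : ℕ) : Prop := ∃ c : Fin m → Fin k, ∀ e f : Fin m, e ≠ f → ∀ v : Fin n,
  (src e = v ∨ tgt e = v) → (src f = v ∨ tgt f = v) → c e ≠ c f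

/-- there is a total colouring with `k` colours; `Sum.inl v` is the vertex `v` and `Sum.inr e` the
edge `e` -/
def TotCol (k : ℕ) : Prop := ∃ c : Fin n ⊕ Fin m → Fin k,
  (∀ e : Fin m, c (Sum.inl (src e)) ≠ c (Sum.inl (tgt e))) ∧
  (∀ e f : Fin m, e ≠ f → ∀ v : Fin n, (src e = v ∨ tgt e = v) → (src f = v ∨ tgt f = v) →
    c (Sum.inr e) ≠ c (Sum.inr f)) ∧
  (∀ (e : Fin m) (v : Fin n), (src e = v ∨ tgt e = v) → c (Sum.inr e) ≠ c (Sum.inl v))

end TC19
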