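import Pool.Agent.Lib_helper19.TC.Switch

set_option autoImplicit false

/-!
# The extension lemma of Ehrenfeucht, Faber and Kierstead for multigraphs
-/

namespace TC19

open Finset Classical

variable {V E K : Type*}

theorem inc_cases {s t : E → V} {e : E} {u v z : V} (huv : u ≠ v) (hu : Inc s t e u)
    (hv : Inc s t e v) (hz : Inc s t e z) : z = u ∨ z = v := by
  rcases hu with h1 | h1 <;> rcases hv with h2 | h2 <;> rcases hz with h3 | h3
  · exact absurd (h1.symm.trans h2) huv
  · exact absurd (h1.symm.trans h2) huv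
  · exact Or.inl (h3.symm.trans h1)
  · exact Or.inr (h3.symm.trans h2)
  · exact Or.inr (h3.symm.trans h2)
  · exact Or.inl (h3.symm.trans h1)
  · exact absurd (h1.symm.trans h2) huv
  · exact absurd (h1.symm.trans h2) huv

theorem other_end {s t : E → V} (hst : ∀ e, s e ≠ t e) {e : E} {v : V} (h : Inc s t e v) :
    ∃ u, u ≠ v ∧ Inc s t e u := by
  rcases h with h | h
  · exact ⟨t e, fun h' => hst e (h.trans h'.symm), inc_right s t e⟩
  · exact ⟨s e, fun h' => hst e (h'.trans h.symm), inc_left s t e⟩

theorem dg_pos {s t : E → V} {D : Finset E} {u : V} {e : E} (he : e ∈ D) (hu : Inc s t e u) :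
    1 ≤ dg s t D u := by
  unfold dg
  exact Finset.card_pos.mpr ⟨e, Finset.mem_filter.mpr ⟨he, hu⟩⟩

theorem dg_mono {s t : E → V} {D D' : Finset E} (h : D ⊆ D') (u : V) :
    dg s t D u ≤ dg s t D' u := Finset.card_le_card (Finset.filter_subset_filter _ h)

theorem dg_erase {s t : E → V} {D : Finset E} {u : V} {e : E} (he : e ∈ D) (hu : Inc s t e u) :
    dg s t (D.erase e) u + 1 = dg s t D u := by
  unfold dg
  rw [Finset.filter_erase]
  have : e ∈ D.filter fun e => Inc s t e u := Finset.mem_filter.mpr ⟨he, hu⟩
  rw [Finset.card_erase_of_mem this]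
  have := Finset.card_pos.mpr ⟨e, this⟩
  omega

theorem efk [Fintype V] [Fintype E] {s t : E → V} (hst : ∀ e, s e ≠ t e) (v : V) :
    ∀ (m : ℕ) (D F : Finset E) (S : Finset K) (c : E → K) (T : V → Finset K) (u0 : V),
      D.card = m → (∀ e ∈ F, ¬ Inc s t e v) → (∀ e ∈ D, Inc s t e v) →
      Proper s t (F : Set E) c → (∀ e ∈ F, c e ∈ S) →
      (∀ u, ∀ a ∈ T u, a ∈ S ∧ Miss s t (F : Set E) c u a) →
      (∀ u, u ≠ v → u ≠ u0 → 2 * dg s t D u ≤ (T u).card) →
      (u0 ≠ v → 2 * dg s t D u0 ≤ (T u0).card + 1) → D.card ≤ S.card →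
      ∃ c' : E → K, Proper s t ((F ∪ D : Finset E) : Set E) c' ∧ ∀ e ∈ F ∪ D, c' e ∈ S := by
  intro m
  induction m with
  | zero =>
    intro D F S c T u0 hm _ _ hp hcS _ _ _ _
    have : D = ∅ := Finset.card_eq_zero.mp hm
    subst this
    simp only [Finset.union_empty]
    exact ⟨c, hp, hcS⟩
  | succ m ih =>
    intro D F S c T u0 hm hF hD hp hcS hT hT1 hT2 hDS
    -- the exceptional vertex
    obtain ⟨w, hwv, hw1, hTw, hTall⟩ : ∃ w, w ≠ v ∧ 1 ≤ dg s t D w ∧
        2 * dg s t D w ≤ (T w).card + 1 ∧
        ∀ u, u ≠ v → u ≠ w → 2 * dg s t D u ≤ (T u).card := by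
      by_cases h0 : u0 ≠ v ∧ 1 ≤ dg s t D u0
      · exact ⟨u0, h0.1, h0.2, hT2 h0.1, hT1⟩
      · obtain ⟨e, he⟩ : D.Nonempty := by
          rw [← Finset.card_pos]; omega
        obtain ⟨w, hwv, hew⟩ := other_end hst (hD e he)
        have hw1 := dg_pos he hew
        have hwu : w ≠ u0 := by
          rintro rfl
          exact h0 ⟨hwv, hw1⟩
        refine ⟨w, hwv, hw1, ?_, ?_⟩
        · have := hT1 w hwv hwu
          omega
        · intro u huv _
          by_cases huu : u = u0
          · subst huu
            have : ¬ 1 ≤ dg s t D u := fun h => h0 ⟨huv, h⟩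
            omega
          · exact hT1 u huv huu
    -- trimming
    let τ : V → ℕ := fun u => if u = v then 0 else if u = w then 2 * dg s t D u - 1
      else 2 * dg s t D u
    have hτle : ∀ u, τ u ≤ (T u).card := by
      intro u
      simp only [τ]
      split_ifs with h1 h2
      · exact Nat.zero_le _
      · subst h2; omega
      · exact hTall u h1 h2
    have htrim : ∀ u, ∃ A ⊆ T u, A.card = τ u := fun u => Finset.exists_subset_card_eq (hτle u)
    choose T0 hT0 hT0c using htrim
    have hSt0 : St s t F S τ c T0 := ⟨hp, hcS, fun u a ha => hT u a (hT0 u ha), hT0c⟩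
    have hexn : ∃ n, ∃ c T, St s t F S τ c T ∧ Q S T = n := ⟨_, c, T0, hSt0, rfl⟩
    obtain ⟨c1, T1, hSt1, hQ1⟩ := Nat.find_spec hexn
    have hmin : ∀ c' T', St s t F S τ c' T' → Q S T1 ≤ Q S T' := by
      intro c' T' h'
      rw [hQ1]
      exact Nat.find_min' hexn ⟨c', T', h', rfl⟩
    have hbal : ∀ i ∈ S, ∀ j ∈ S, (X T1 i).card < (X T1 j).card + 3 := by
      intro i hi j hj
      by_contra hcon
      push Not at hcon
      obtain ⟨c', T', h', hlt⟩ := hSt1.exchange hst hi hj hcon
      have := hmin c' T' h'
      omega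
    obtain ⟨hp1, hcS1, hTm1, hτ1⟩ := hSt1
    -- the sum of the token counts
    have hsum : ∑ i ∈ S, (X T1 i).card + 1 = 2 * D.card := by
      rw [sum_X fun u a ha => (hTm1 u a ha).1]
      have e1 : ∑ u, (T1 u).card = ∑ u ∈ univ.erase v, τ u := by
        rw [← Finset.add_sum_erase univ _ (Finset.mem_univ v), hτ1 v]
        have : τ v = 0 := by simp [τ]
        rw [this, zero_add]
        exact Finset.sum_congr rfl fun u _ => hτ1 u
      have e2 : ∑ u ∈ univ.erase v, τ u + 1 = ∑ u ∈ univ.erase v, 2 * dg s t D u := by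
        have hw : w ∈ univ.erase v := Finset.mem_erase.mpr ⟨hwv, Finset.mem_univ _⟩
        rw [← Finset.add_sum_erase _ _ hw, ← Finset.add_sum_erase _ _ hw]
        have h1 : τ w + 1 = 2 * dg s t D w := by
          simp only [τ, if_neg hwv, if_true]
          omega
        have h2 : ∑ x ∈ (univ.erase v).erase w, τ x = ∑ x ∈ (univ.erase v).erase w, 2 * dg s t D x := by
          apply Finset.sum_congr rfl
          intro x hx
          simp only [mem_erase] at hx
          simp only [τ, if_neg hx.1, if_neg hx.2.1]
        omega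
      rw [e1, e2, ← Finset.mul_sum, sum_dg hst hD]
    -- a colour held by exactly one vertex
    have hone : ∃ i ∈ S, (X T1 i).card = 1 := by
      by_contra hcon
      push Not at hcon
      obtain ⟨i, hi, hi0⟩ : ∃ i ∈ S, (X T1 i).card < 2 := by
        by_contra hcon2
        push Not at hcon2
        have h1 : S.card * 2 ≤ ∑ i ∈ S, (X T1 i).card := by
          rw [← smul_eq_mul]
          exact Finset.card_nsmul_le_sum _ _ _ hcon2
        omega
      have hi1 := hcon i hi
      have hall : ∀ j ∈ S, (X T1 j).card = 0 ∨ (X T1 j).card = 2 := by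
        intro j hj
        have h1 := hbal j hj i hi
        have h2 := hcon j hj
        omega
      have heven : Even (∑ j ∈ S, (X T1 j).card) := by
        apply Finset.even_sum
        intro j hj
        rcases hall j hj with h | h <;> rw [h] <;> decide
      obtain ⟨r, hr⟩ := heven
      omega
    obtain ⟨i, hiS, hi1⟩ := hone
    obtain ⟨u, hXu⟩ := Finset.card_eq_one.mp hi1
    have hiu : i ∈ T1 u := by
      have : u ∈ X T1 i := by rw [hXu]; exact Finset.mem_singleton_self u
      simpa [X] using this
    have hionly : ∀ x, x ≠ u → i ∉ T1 x := by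
      intro x hx hix
      have : x ∈ X T1 i := by simpa [X] using hix
      rw [hXu, Finset.mem_singleton] at this
      exact hx this
    have hpos : 0 < (T1 u).card := Finset.card_pos.mpr ⟨i, hiu⟩
    have huv : u ≠ v := by
      rintro rfl
      rw [hτ1 u] at hpos
      simp [τ] at hpos
    have hdu : 1 ≤ dg s t D u := by
      rw [hτ1 u] at hpos
      simp only [τ, if_neg huv] at hpos
      split_ifs at hpos <;> omega
    obtain ⟨e, he⟩ : (D.filter fun e => Inc s t e u).Nonempty := Finset.card_pos.mp hdu
    rw [Finset.mem_filter] at he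
    obtain ⟨heD, heu⟩ := he
    have hev := hD e heD
    -- apply the induction hypothesis
    have hIH := ih (D.erase e) (F.filter fun f => c1 f ≠ i) (S.erase i) c1
      (fun x => (T1 x).erase i) w (by rw [Finset.card_erase_of_mem heD]; omega)
      (fun f hf => hF f (Finset.mem_filter.mp hf).1)
      (fun f hf => hD f (Finset.mem_of_mem_erase hf))
      (hp1.mono (by intro f hf; exact (Finset.mem_filter.mp hf).1))
      (fun f hf => Finset.mem_erase.mpr ⟨(Finset.mem_filter.mp hf).2,
        hcS1 f (Finset.mem_filter.mp hf).1⟩)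
      (by
        intro x a ha
        rw [Finset.mem_erase] at ha
        refine ⟨Finset.mem_erase.mpr ⟨ha.1, (hTm1 x a ha.2).1⟩, ?_⟩
        exact (hTm1 x a ha.2).2.mono (by intro f hf; exact (Finset.mem_filter.mp hf).1))
      (by
        intro x hxv hxw
        have hτx : (T1 x).card = 2 * dg s t D x := by
          rw [hτ1 x]; simp only [τ, if_neg hxv, if_neg hxw]
        by_cases hxu : x = u
        · subst hxu
          rw [Finset.card_erase_of_mem hiu, hτx]
          have := dg_erase heD heu
          omega
        · rw [Finset.erase_eq_of_notMem (hionly x hxu), hτx]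
          have := dg_mono (s := s) (t := t) (Finset.erase_subset e D) x
          omega)
      (by
        intro _
        have hτx : (T1 w).card = 2 * dg s t D w - 1 := by
          rw [hτ1 w]; simp only [τ, if_neg hwv, if_true]
        by_cases hxu : w = u
        · subst hxu
          rw [Finset.card_erase_of_mem hiu, hτx]
          have := dg_erase heD heu
          omega
        · rw [Finset.erase_eq_of_notMem (hionly w hxu), hτx]
          have := dg_mono (s := s) (t := t) (Finset.erase_subset e D) w
          omega)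
      (by
        rw [Finset.card_erase_of_mem heD, Finset.card_erase_of_mem hiS]
        omega)
    obtain ⟨c2, hp2, hc2S⟩ := hIH
    refine ⟨fun x => if x = e ∨ (x ∈ F ∧ c1 x = i) then i else c2 x, ?_, ?_⟩
    · have hmem : ∀ x ∈ F ∪ D, ¬ (x = e ∨ (x ∈ F ∧ c1 x = i)) →
          x ∈ (F.filter fun f => c1 f ≠ i) ∪ D.erase e := by
        intro x hx hnx
        push Not at hnx
        rw [Finset.mem_union] at hx ⊢
        rcases hx with hx | hx
        · exact Or.inl (Finset.mem_filter.mpr ⟨hx, hnx.2 hx⟩)
        · exact Or.inr (Finset.mem_erase.mpr ⟨hnx.1, hx⟩)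
      have hmix : ∀ y, y ∈ F → c1 y = i → ∀ z, Inc s t e z → Inc s t y z → False := by
        intro y hyF hyi z hez hyz
        rcases inc_cases huv heu hev hez with h | h
        · subst h
          exact (hTm1 z i hiu).2 y hyF hyz hyi
        · subst h
          exact hF y hyF hyz
      intro x hx y hy hxy z hxz hyz
      have hx' : x ∈ F ∪ D := hx
      have hy' : y ∈ F ∪ D := hy
      show (if x = e ∨ (x ∈ F ∧ c1 x = i) then i else c2 x) ≠
        (if y = e ∨ (y ∈ F ∧ c1 y = i) then i else c2 y)
      by_cases h1 : x = e ∨ (x ∈ F ∧ c1 x = i)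
      · by_cases h2 : y = e ∨ (y ∈ F ∧ c1 y = i)
        · exfalso
          rcases h1 with h1 | ⟨h1, h1'⟩
          · rcases h2 with h2 | ⟨h2, h2'⟩
            · exact hxy (h1.trans h2.symm)
            · subst h1
              exact hmix y h2 h2' z hxz hyz
          · rcases h2 with h2 | ⟨h2, h2'⟩
            · subst h2
              exact hmix x h1 h1' z hyz hxz
            · exact hp1 x h1 y h2 hxy z hxz hyz (h1'.trans h2'.symm)
        · rw [if_pos h1, if_neg h2]
          have := hc2S y (hmem y hy' h2)
          exact (Finset.ne_of_mem_erase this).symm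
      · by_cases h2 : y = e ∨ (y ∈ F ∧ c1 y = i)
        · rw [if_neg h1, if_pos h2]
          have := hc2S x (hmem x hx' h1)
          exact Finset.ne_of_mem_erase this
        · rw [if_neg h1, if_neg h2]
          exact hp2 x (hmem x hx' h1) y (hmem y hy' h2) hxy z hxz hyz
    · intro x hx
      show (if x = e ∨ (x ∈ F ∧ c1 x = i) then i else c2 x) ∈ S
      by_cases h1 : x = e ∨ (x ∈ F ∧ c1 x = i)
      · rw [if_pos h1]; exact hiS
      · rw [if_neg h1]
        have : x ∈ (F.filter fun f => c1 f ≠ i) ∪ D.erase e := by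
          push Not at h1
          rw [Finset.mem_union] at hx ⊢
          rcases hx with hx | hx
          · exact Or.inl (Finset.mem_filter.mpr ⟨hx, h1.2 hx⟩)
          · exact Or.inr (Finset.mem_erase.mpr ⟨h1.1, hx⟩)
        exact Finset.mem_of_mem_erase (hc2S x this)

end TC19
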