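import Pool.Agent.Lib_helper19.TC.Mix

set_option autoImplicit false

/-!
# Spreading the own tokens evenly over blocks of colours
-/

namespace TC19

open Finset Classical

variable {V E K : Type*}

/-- the number of tokens of `v` in the blocks of a list -/
noncomputable def ownL (τ : V → Finset K) (Bs : List (Finset K)) (v : V) : ℕ :=
  (Bs.map fun B => own τ B v).sum

theorem ownL_cons (τ : V → Finset K) (B : Finset K) (Bs : List (Finset K)) (v : V) :
    ownL τ (B :: Bs) v = own τ B v + ownL τ Bs v := by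
  simp [ownL]

theorem ownL_congr {τ τ' : V → Finset K} {Bs : List (Finset K)} {v : V}
    (h : ∀ B ∈ Bs, own τ' B v = own τ B v) : ownL τ' Bs v = ownL τ Bs v := by
  unfold ownL
  congr 1
  exact List.map_congr_left h

theorem inner [Fintype V] [Fintype E] {s t : E → V} (hst : ∀ e, s e ≠ t e) {m : ℕ}
    {x : ℝ} (hx0 : 0 < x) (hx1 : x ≤ 1) (hx : Real.exp (-(x ^ 2 * m / 10)) ≤ x / 20)
    (B0 : Finset K) : ∀ (Bs : List (Finset K)), (∀ B ∈ Bs, Disjoint B0 B) →
      Bs.Pairwise (fun B B' => Disjoint B B') → (∀ B ∈ Bs, B0.card = B.card) →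
      ∀ (c : E → K) (τ : V → Finset K), Valid s t c τ → (∀ v, (τ v).card ≤ m) →
      ∃ (c' : E → K) (τ' : V → Finset K), Valid s t c' τ' ∧ (∀ v, (τ' v).card = (τ v).card) ∧
        (∀ v a, a ∉ B0 → (∀ B ∈ Bs, a ∉ B) → (a ∈ τ' v ↔ a ∈ τ v)) ∧
        (∀ v, own τ' B0 v + ownL τ' Bs v = own τ B0 v + ownL τ Bs v) ∧
        ∀ v, |(own τ' B0 v : ℝ) - ((own τ B0 v : ℝ) + ownL τ Bs v) / (Bs.length + 1)| ≤
          Bs.length * (x * m) := by
  intro Bs
  induction Bs with
  | nil =>
    intro _ _ _ c τ hV hm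
    refine ⟨c, τ, hV, fun _ => rfl, fun _ _ _ _ => Iff.rfl, fun _ => rfl, ?_⟩
    intro v
    simp [ownL]
  | cons B Bs ih =>
    intro hd hpw hc c τ hV hm
    rw [List.pairwise_cons] at hpw
    obtain ⟨c1, τ1, hV1, hc1, ho1, hs1, hl1⟩ := ih (fun B' hB' => hd B' (List.mem_cons_of_mem _ hB'))
      hpw.2 (fun B' hB' => hc B' (List.mem_cons_of_mem _ hB')) c τ hV hm
    have hdB : Disjoint B0 B := hd B List.mem_cons_self
    obtain ⟨c2, τ2, hV2, hc2, ho2, hs2, hl2⟩ := mix1 hst hV1 (m := m) (fun v => by rw [hc1 v]; exact hm v)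
      hdB (hc B List.mem_cons_self) (N := Bs.length + 2) (by omega) hx0 hx1 hx
    have hB1 : ∀ v, own τ1 B v = own τ B v := by
      intro v
      apply own_congr
      intro a ha
      exact ho1 v a (fun h => (Finset.disjoint_left.mp hdB h) ha)
        (fun B' hB' h => (Finset.disjoint_left.mp (hpw.1 B' hB') ha) h)
    have hBs2 : ∀ v, ownL τ2 Bs v = ownL τ1 Bs v := by
      intro v
      apply ownL_congr
      intro B' hB'
      apply own_congr
      intro a ha
      exact ho2 v a (fun h => (Finset.disjoint_left.mp (hd B' (List.mem_cons_of_mem _ hB')) h) ha)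
        (fun h => (Finset.disjoint_left.mp (hpw.1 B' hB') h) ha)
    refine ⟨c2, τ2, hV2, fun v => (hc2 v).trans (hc1 v), ?_, ?_, ?_⟩
    · intro v a ha1 ha2
      rw [ho2 v a ha1 (ha2 B List.mem_cons_self), ho1 v a ha1
        (fun B' hB' => ha2 B' (List.mem_cons_of_mem _ hB'))]
    · intro v
      rw [ownL_cons, ownL_cons]
      have h1 := hs1 v
      have h2 := hs2 v
      have h3 := hBs2 v
      have h4 := hB1 v
      omega
    · intro v
      have h1 := hl1 v
      have h2 := hl2 v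
      rw [hB1 v] at h2
      rw [ownL_cons]
      have hn : (0 : ℝ) ≤ Bs.length := Nat.cast_nonneg _
      set n : ℝ := (Bs.length : ℝ) with hn'
      have e1 : (((B :: Bs).length : ℕ) : ℝ) = n + 1 := by simp [hn']
      have e2 : ((Bs.length + 2 : ℕ) : ℝ) = n + 2 := by push_cast; rfl
      rw [e1]
      rw [e2] at h2
      push_cast
      set A : ℝ := (own τ B0 v : ℝ) + ownL τ Bs v with hA
      set y : ℝ := (own τ B v : ℝ) with hy
      have e3 : (own τ2 B0 v : ℝ) - ((own τ B0 v : ℝ) + (y + (ownL τ Bs v : ℝ))) / (n + 1 + 1) =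
          ((own τ2 B0 v : ℝ) - ((1 - 1 / (n + 2)) * own τ1 B0 v + 1 / (n + 2) * y)) +
          (n + 1) / (n + 2) * ((own τ1 B0 v : ℝ) - A / (n + 1)) := by
        rw [hA]
        field_simp
        ring
      rw [e3]
      refine (abs_add_le _ _).trans ?_
      rw [abs_mul, abs_of_nonneg (by positivity : (0 : ℝ) ≤ (n + 1) / (n + 2))]
      have h3 : (n + 1) / (n + 2) ≤ 1 := by
        rw [div_le_one (by positivity)]
        linarith
      have h4 : 0 ≤ |(own τ1 B0 v : ℝ) - A / (n + 1)| := abs_nonneg _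
      have h5 : (n + 1) / (n + 2) * |(own τ1 B0 v : ℝ) - A / (n + 1)| ≤
          1 * |(own τ1 B0 v : ℝ) - A / (n + 1)| := mul_le_mul_of_nonneg_right h3 h4
      linarith

theorem equal [Fintype V] [Fintype E] {s t : E → V} (hst : ∀ e, s e ≠ t e) {m : ℕ}
    {x : ℝ} (hx0 : 0 < x) (hx1 : x ≤ 1) (hx : Real.exp (-(x ^ 2 * m / 10)) ≤ x / 20) (N0 : ℕ) :
    ∀ (Bs : List (Finset K)), Bs.Pairwise (fun B B' => Disjoint B B') → (∀ B ∈ Bs, B.card = N0) →
      ∀ (c : E → K) (τ : V → Finset K), Valid s t c τ → (∀ v, (τ v).card ≤ m) →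
      ∃ (c' : E → K) (τ' : V → Finset K), Valid s t c' τ' ∧ (∀ v, (τ' v).card = (τ v).card) ∧
        (∀ v a, (∀ B ∈ Bs, a ∉ B) → (a ∈ τ' v ↔ a ∈ τ v)) ∧
        ∀ v, ∀ B ∈ Bs, (own τ' B v : ℝ) ≤ (ownL τ Bs v : ℝ) / Bs.length + Bs.length ^ 2 * (x * m) := by
  intro Bs
  induction Bs with
  | nil =>
    intro _ _ c τ hV hm
    refine ⟨c, τ, hV, fun _ => rfl, fun _ _ _ => Iff.rfl, ?_⟩
    intro v B hB
    exact absurd hB List.not_mem_nil
  | cons B0 Bs ih =>
    intro hpw hc c τ hV hm
    rw [List.pairwise_cons] at hpw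
    have hxm : 0 ≤ x * m := by positivity
    obtain ⟨c1, τ1, hV1, hc1, ho1, hs1, hl1⟩ := inner hst hx0 hx1 hx B0 Bs hpw.1 hpw.2
      (fun B hB => by rw [hc B0 List.mem_cons_self, hc B (List.mem_cons_of_mem _ hB)]) c τ hV hm
    obtain ⟨c2, τ2, hV2, hc2, ho2, hl2⟩ := ih hpw.2 (fun B hB => hc B (List.mem_cons_of_mem _ hB))
      c1 τ1 hV1 (fun v => by rw [hc1 v]; exact hm v)
    refine ⟨c2, τ2, hV2, fun v => (hc2 v).trans (hc1 v), ?_, ?_⟩
    · intro v a ha
      rw [ho2 v a (fun B hB => ha B (List.mem_cons_of_mem _ hB)), ho1 v a (ha B0 List.mem_cons_self)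
        (fun B hB => ha B (List.mem_cons_of_mem _ hB))]
    · intro v B hB
      have h1 := abs_le.mp (hl1 v)
      have h2 : (own τ1 B0 v : ℝ) + ownL τ1 Bs v = own τ B0 v + ownL τ Bs v := by
        exact_mod_cast hs1 v
      rw [ownL_cons]
      have hn : (0 : ℝ) ≤ Bs.length := Nat.cast_nonneg _
      set n : ℝ := (Bs.length : ℝ) with hn'
      have e1 : (((B0 :: Bs).length : ℕ) : ℝ) = n + 1 := by simp [hn']
      rw [e1]
      push_cast
      set S : ℝ := (own τ B0 v : ℝ) + ownL τ Bs v with hS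
      rcases List.mem_cons.mp hB with rfl | hB'
      · have h3 : own τ2 B v = own τ1 B v := by
          apply own_congr
          intro a ha
          exact ho2 v a (fun B' hB' h => (Finset.disjoint_left.mp (hpw.1 B' hB') ha) h)
        rw [h3]
        nlinarith
      · have h3 := hl2 v B hB'
        have hnpos : (1 : ℝ) ≤ n := by
          have : 0 < Bs.length := List.length_pos_of_mem hB'
          have : 1 ≤ Bs.length := this
          rw [hn']
          exact_mod_cast this
        have h4 : (ownL τ1 Bs v : ℝ) ≤ S - S / (n + 1) + n * (x * m) := by linarith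
        have h5 : (ownL τ1 Bs v : ℝ) / n ≤ S / (n + 1) + x * m := by
          rw [div_le_iff₀ (by linarith)]
          have e2 : (S / (n + 1) + x * m) * n = S - S / (n + 1) + n * (x * m) := by
            field_simp
            ring
          rw [e2]
          exact h4
        nlinarith

end TC19
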