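import Pool.Agent.Lib_helper19.TC.Spread

set_option autoImplicit false

/-!
# Spreading the own tokens evenly over blocks of colours, in logarithmically many steps
-/

namespace TC19

open Finset Classical

variable {V E K : Type*}

/-- the union of a list of blocks -/
noncomputable def UL : List (Finset K) → Finset K
  | [] => ∅
  | B :: Bs => B ∪ UL Bs

theorem mem_UL (a : K) : ∀ Bs : List (Finset K), a ∈ UL Bs ↔ ∃ B ∈ Bs, a ∈ B := by
  intro Bs
  induction Bs with
  | nil => simp [UL]
  | cons B Bs ih =>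
    rw [UL, Finset.mem_union, ih]
    simp [List.mem_cons]

theorem disj_UL {R : Finset K} {Bs : List (Finset K)} (h : ∀ B ∈ Bs, Disjoint R B) :
    Disjoint R (UL Bs) := by
  rw [Finset.disjoint_left]
  intro a ha ha'
  obtain ⟨B, hB, haB⟩ := (mem_UL a Bs).mp ha'
  exact (Finset.disjoint_left.mp (h B hB) ha) haB

theorem card_UL {N0 : ℕ} : ∀ Bs : List (Finset K), Bs.Pairwise (fun B B' => Disjoint B B') →
    (∀ B ∈ Bs, B.card = N0) → (UL Bs).card = Bs.length * N0 := by
  intro Bs
  induction Bs with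
  | nil => intro _ _; simp [UL]
  | cons B Bs ih =>
    intro hpw hc
    rw [List.pairwise_cons] at hpw
    rw [UL, Finset.card_union_of_disjoint (disj_UL hpw.1), ih hpw.2
      (fun B' hB' => hc B' (List.mem_cons_of_mem _ hB')), hc B List.mem_cons_self, List.length_cons]
    ring

theorem own_union (τ : V → Finset K) {R R' : Finset K} (h : Disjoint R R') (v : V) :
    own τ (R ∪ R') v = own τ R v + own τ R' v := by
  unfold own
  rw [← Finset.card_union_of_disjoint]
  · congr 1
    ext a
    simp only [mem_filter, mem_union]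
    tauto
  · rw [Finset.disjoint_left]
    intro a ha ha'
    rw [Finset.mem_filter] at ha ha'
    exact (Finset.disjoint_left.mp h ha.2) ha'.2

theorem own_UL (τ : V → Finset K) (v : V) : ∀ Bs : List (Finset K),
    Bs.Pairwise (fun B B' => Disjoint B B') → own τ (UL Bs) v = ownL τ Bs v := by
  intro Bs
  induction Bs with
  | nil => intro _; simp [UL, own, ownL]
  | cons B Bs ih =>
    intro hpw
    rw [List.pairwise_cons] at hpw
    rw [UL, own_union τ (disj_UL hpw.1), ownL_cons, ih hpw.2]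

theorem ownL_append (τ : V → Finset K) (As Bs : List (Finset K)) (v : V) :
    ownL τ (As ++ Bs) v = ownL τ As v + ownL τ Bs v := by
  simp [ownL]

/-- the number of tokens in a set is kept if all other tokens are kept -/
theorem own_kept {τ τ' : V → Finset K} {R : Finset K} {v : V} (hc : (τ' v).card = (τ v).card)
    (ho : ∀ a, a ∉ R → (a ∈ τ' v ↔ a ∈ τ v)) : own τ' R v = own τ R v := by
  have h1 := Finset.card_filter_add_card_filter_not (s := τ v) (fun a => a ∈ R)
  have h2 := Finset.card_filter_add_card_filter_not (s := τ' v) (fun a => a ∈ R)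
  have h3 : ((τ' v).filter fun a => a ∉ R) = ((τ v).filter fun a => a ∉ R) := by
    ext a
    simp only [mem_filter]
    constructor
    · rintro ⟨h, h'⟩
      exact ⟨(ho a h').mp h, h'⟩
    · rintro ⟨h, h'⟩
      exact ⟨(ho a h').mpr h, h'⟩
  rw [h3] at h2
  unfold own
  omega

/-- One step of the halving. -/
theorem half_step [Fintype V] [Fintype E] {s t : E → V} (hst : ∀ e, s e ≠ t e) {m : ℕ}
    {x : ℝ} (hx0 : 0 < x) (hx1 : x ≤ 1) (hx : Real.exp (-(x ^ 2 * m / 10)) ≤ x / 20) (N0 : ℕ)
    {As Bs : List (Finset K)} (hpw : (As ++ Bs).Pairwise (fun B B' => Disjoint B B'))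
    (hN0 : ∀ B ∈ As ++ Bs, B.card = N0) (hlen : As.length = Bs.length)
    {c : E → K} {τ : V → Finset K} (hV : Valid s t c τ) (hm : ∀ v, (τ v).card ≤ m) :
    ∃ (c' : E → K) (τ' : V → Finset K), Valid s t c' τ' ∧ (∀ v, (τ' v).card = (τ v).card) ∧
      (∀ v a, (∀ B ∈ As ++ Bs, a ∉ B) → (a ∈ τ' v ↔ a ∈ τ v)) ∧
      (∀ v, |(ownL τ' As v : ℝ) - (ownL τ (As ++ Bs) v : ℝ) / 2| ≤ x * m) ∧
      ∀ v, |(ownL τ' Bs v : ℝ) - (ownL τ (As ++ Bs) v : ℝ) / 2| ≤ x * m := by
  rw [List.pairwise_append] at hpw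
  obtain ⟨hpA, hpB, hpAB⟩ := hpw
  have hdisj : Disjoint (UL As) (UL Bs) := by
    rw [Finset.disjoint_left]
    intro a ha ha'
    obtain ⟨A, hA, haA⟩ := (mem_UL a As).mp ha
    obtain ⟨B, hB, haB⟩ := (mem_UL a Bs).mp ha'
    exact (Finset.disjoint_left.mp (hpAB A hA B hB) haA) haB
  have hcard : (UL As).card = (UL Bs).card := by
    rw [card_UL As hpA (fun B hB => hN0 B (List.mem_append_left _ hB)),
      card_UL Bs hpB (fun B hB => hN0 B (List.mem_append_right _ hB)), hlen]
  obtain ⟨c1, τ1, hV1, hc1, ho1, hs1, hl1⟩ := mix1 hst hV hm hdisj hcard (N := 2) (by omega) hx0 hx1 hx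
  refine ⟨c1, τ1, hV1, hc1, ?_, ?_, ?_⟩
  · intro v a ha
    apply ho1 v a
    · intro h
      obtain ⟨B, hB, haB⟩ := (mem_UL a As).mp h
      exact ha B (List.mem_append_left _ hB) haB
    · intro h
      obtain ⟨B, hB, haB⟩ := (mem_UL a Bs).mp h
      exact ha B (List.mem_append_right _ hB) haB
  · intro v
    have h1 := hl1 v
    rw [own_UL τ1 v As hpA, own_UL τ v As hpA, own_UL τ v Bs hpB] at h1
    rw [ownL_append]
    push_cast at h1 ⊢
    have e1 : (ownL τ1 As v : ℝ) - ((ownL τ As v : ℝ) + ownL τ Bs v) / 2 =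
        (ownL τ1 As v : ℝ) - ((1 - 1 / 2) * ownL τ As v + 1 / 2 * ownL τ Bs v) := by ring
    rw [e1]
    exact h1
  · intro v
    have h1 := hl1 v
    have h2 := hs1 v
    rw [own_UL τ1 v As hpA, own_UL τ v As hpA, own_UL τ v Bs hpB] at h1
    rw [own_UL τ1 v As hpA, own_UL τ v As hpA, own_UL τ v Bs hpB, own_UL τ1 v Bs hpB] at h2
    have h3 : (ownL τ1 As v : ℝ) + ownL τ1 Bs v = ownL τ As v + ownL τ Bs v := by exact_mod_cast h2
    rw [ownL_append]
    push_cast at h1 ⊢
    have e1 : (ownL τ1 Bs v : ℝ) - ((ownL τ As v : ℝ) + ownL τ Bs v) / 2 =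
        -((ownL τ1 As v : ℝ) - ((1 - 1 / 2) * ownL τ As v + 1 / 2 * ownL τ Bs v)) := by linarith
    rw [e1, abs_neg]
    exact h1

/-- Equalising `n` blocks with an error of order `log n`. -/
theorem equal3 [Fintype V] [Fintype E] {s t : E → V} (hst : ∀ e, s e ≠ t e) {m : ℕ}
    {x : ℝ} (hx0 : 0 < x) (hx1 : x ≤ 1) (hx : Real.exp (-(x ^ 2 * m / 10)) ≤ x / 20) (N0 : ℕ) :
    ∀ n : ℕ, 1 ≤ n → ∃ e : ℕ, e + 1 ≤ n ∧ 2 ^ e ≤ n ^ 2 ∧ (Even n → 2 ^ (e + 1) ≤ n ^ 2) ∧
    ∀ (Bs : List (Finset K)), Bs.length = n → Bs.Pairwise (fun B B' => Disjoint B B') →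
      (∀ B ∈ Bs, B.card = N0) →
      ∀ (c : E → K) (τ : V → Finset K), Valid s t c τ → (∀ v, (τ v).card ≤ m) →
      ∃ (c' : E → K) (τ' : V → Finset K), Valid s t c' τ' ∧ (∀ v, (τ' v).card = (τ v).card) ∧
        (∀ v a, (∀ B ∈ Bs, a ∉ B) → (a ∈ τ' v ↔ a ∈ τ v)) ∧
        ∀ v, ∀ B ∈ Bs, |(own τ' B v : ℝ) - (ownL τ Bs v : ℝ) / n| ≤ e * (x * m) := by
  have hxm : 0 ≤ x * m := by positivity
  intro n
  induction n using Nat.strong_induction_on with
  | _ n ih =>
  intro hn
  rcases Nat.lt_or_ge 1 n with hn1 | hn1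
  swap
  · -- one block
    have hn' : n = 1 := le_antisymm hn1 hn
    subst hn'
    refine ⟨0, le_refl _, by norm_num, fun h => absurd h (by decide), ?_⟩
    intro Bs hlen hpw hN c τ hV hm
    refine ⟨c, τ, hV, fun _ => rfl, fun _ _ _ => Iff.rfl, ?_⟩
    intro v B hB
    obtain ⟨B', rfl⟩ := List.length_eq_one_iff.mp hlen
    rw [List.mem_singleton] at hB
    subst hB
    simp [ownL]
  rcases Nat.even_or_odd n with heven | hodd
  · -- an even number of blocks
    obtain ⟨a, ha⟩ := heven
    have ha' : n = 2 * a := by omega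
    have ha1 : 1 ≤ a := by omega
    obtain ⟨e, he1, he2, -, hF⟩ := ih a (by omega) ha1
    have he3 : 2 ^ (e + 1 + 1) ≤ n ^ 2 := by
      have : 2 ^ (e + 1 + 1) = 4 * 2 ^ e := by ring
      rw [this, ha']
      nlinarith
    refine ⟨e + 1, by omega, ?_, fun _ => he3, ?_⟩
    · have : 2 ^ (e + 1) ≤ 2 ^ (e + 1 + 1) := Nat.pow_le_pow_right (by norm_num) (by omega)
      omega
    intro Ls hlen hpw hN c τ hV hm
    obtain ⟨As, Bs, rfl, hAl, hBl⟩ : ∃ As Bs : List (Finset K), Ls = As ++ Bs ∧ As.length = a ∧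
        Bs.length = a := by
      refine ⟨Ls.take a, Ls.drop a, (List.take_append_drop a Ls).symm, ?_, ?_⟩
      · rw [List.length_take]; omega
      · rw [List.length_drop]; omega
    obtain ⟨c1, τ1, hV1, hc1, ho1, hA1, hB1⟩ := half_step hst hx0 hx1 hx N0 hpw hN (hAl.trans hBl.symm)
      hV hm
    rw [List.pairwise_append] at hpw
    obtain ⟨hpA, hpB, hpAB⟩ := hpw
    obtain ⟨c2, τ2, hV2, hc2, ho2, hl2⟩ := hF As hAl hpA (fun B hB => hN B (List.mem_append_left _ hB))
      c1 τ1 hV1 (fun v => by rw [hc1 v]; exact hm v)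
    obtain ⟨c3, τ3, hV3, hc3, ho3, hl3⟩ := hF Bs hBl hpB (fun B hB => hN B (List.mem_append_right _ hB))
      c2 τ2 hV2 (fun v => by rw [hc2 v, hc1 v]; exact hm v)
    refine ⟨c3, τ3, hV3, fun v => ((hc3 v).trans (hc2 v)).trans (hc1 v), ?_, ?_⟩
    · intro v b hb
      rw [ho3 v b (fun B hB => hb B (List.mem_append_right _ hB)),
        ho2 v b (fun B hB => hb B (List.mem_append_left _ hB)), ho1 v b hb]
    · intro v B hB
      have ha0 : (1 : ℝ) ≤ a := by exact_mod_cast ha1
      have hnr : (n : ℝ) = 2 * a := by rw [ha']; push_cast; ring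
      have hfin : ∀ (y z : ℝ), |y - z / a| ≤ e * (x * m) →
          |z - (ownL τ (As ++ Bs) v : ℝ) / 2| ≤ x * m →
          |y - (ownL τ (As ++ Bs) v : ℝ) / n| ≤ ((e + 1 : ℕ) : ℝ) * (x * m) := by
        intro y z h1 h2
        have e1 : y - (ownL τ (As ++ Bs) v : ℝ) / n =
            (y - z / a) + (z - (ownL τ (As ++ Bs) v : ℝ) / 2) / a := by
          rw [hnr]
          field_simp
          ring
        rw [e1]
        refine (abs_add_le _ _).trans ?_
        have h3 : |(z - (ownL τ (As ++ Bs) v : ℝ) / 2) / a| ≤ x * m := by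
          rw [abs_div, abs_of_pos (by linarith : (0 : ℝ) < a), div_le_iff₀ (by linarith)]
          nlinarith
        push_cast
        linarith
      rcases List.mem_append.mp hB with hB' | hB'
      · have h1 : own τ3 B v = own τ2 B v := by
          apply own_congr
          intro b hb
          apply ho3 v b
          intro B' hB'' h
          exact (Finset.disjoint_left.mp (hpAB B hB' B' hB'') hb) h
        rw [h1]
        exact hfin _ _ (hl2 v B hB') (hA1 v)
      · have h1 : ownL τ2 Bs v = ownL τ1 Bs v := by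
          apply ownL_congr
          intro B' hB''
          apply own_congr
          intro b hb
          apply ho2 v b
          intro A hA h
          exact (Finset.disjoint_left.mp (hpAB A hA B' hB'') h) hb
        have h2 := hl3 v B hB'
        rw [h1] at h2
        exact hfin _ _ h2 (hB1 v)
  · -- an odd number of blocks
    have hodd' := hodd
    obtain ⟨a, ha⟩ := hodd
    have ha1 : 1 ≤ a := by omega
    obtain ⟨e, he1, -, he3, hF⟩ := ih (n - 1) (by omega) (by omega)
    have he3' := he3 ⟨a, by omega⟩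
    refine ⟨e + 1, by omega, ?_, ?_, ?_⟩
    · exact he3'.trans (Nat.pow_le_pow_left (by omega) 2)
    · intro h
      exact absurd hodd' (Nat.not_odd_iff_even.mpr h)
    intro Ls hlen hpw hN c τ hV hm
    obtain ⟨D, C, Rs, rfl⟩ : ∃ (D C : Finset K) (Rs : List (Finset K)), Ls = D :: C :: Rs := by
      match Ls, hlen with
      | [], h => simp at h; omega
      | [_], h => simp at h; omega
      | D :: C :: Rs, _ => exact ⟨D, C, Rs, rfl⟩
    have hRl : Rs.length + 2 = n := by simpa using hlen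
    have hpw0 := hpw
    rw [List.pairwise_cons, List.pairwise_cons] at hpw
    obtain ⟨hD, hC, hpR⟩ := hpw
    have hDC : Disjoint D C := hD C List.mem_cons_self
    have hpDR : (D :: Rs).Pairwise (fun B B' => Disjoint B B') := by
      rw [List.pairwise_cons]
      exact ⟨fun B hB => hD B (List.mem_cons_of_mem _ hB), hpR⟩
    have hpCR : (C :: Rs).Pairwise (fun B B' => Disjoint B B') := by
      rw [List.pairwise_cons]
      exact ⟨hC, hpR⟩
    have hND : D.card = N0 := hN D List.mem_cons_self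
    have hNC : C.card = N0 := hN C (List.mem_cons_of_mem _ List.mem_cons_self)
    have hNR : ∀ B ∈ Rs, B.card = N0 := fun B hB =>
      hN B (List.mem_cons_of_mem _ (List.mem_cons_of_mem _ hB))
    obtain ⟨c1, τ1, hV1, hc1, ho1, hl1⟩ := hF (D :: Rs) (by simp; omega) hpDR (by
      intro B hB
      rcases List.mem_cons.mp hB with rfl | h
      · exact hND
      · exact hNR B h) c τ hV hm
    have hm1 : ∀ v, (τ1 v).card ≤ m := fun v => by rw [hc1 v]; exact hm v
    obtain ⟨c2, τ2, hV2, hc2, ho2, hs2, hl2⟩ := mix1 hst hV1 hm1 hDC (hND.trans hNC.symm) (N := n)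
      (by omega) hx0 hx1 hx
    have hm2 : ∀ v, (τ2 v).card ≤ m := fun v => by rw [hc2 v]; exact hm1 v
    obtain ⟨c3, τ3, hV3, hc3, ho3, hl3⟩ := hF (C :: Rs) (by simp; omega) hpCR (by
      intro B hB
      rcases List.mem_cons.mp hB with rfl | h
      · exact hNC
      · exact hNR B h) c2 τ2 hV2 hm2
    refine ⟨c3, τ3, hV3, fun v => ((hc3 v).trans (hc2 v)).trans (hc1 v), ?_, ?_⟩
    · intro v b hb
      have hbD := hb D List.mem_cons_self
      have hbC := hb C (List.mem_cons_of_mem _ List.mem_cons_self)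
      have hbR : ∀ B ∈ Rs, b ∉ B := fun B hB =>
        hb B (List.mem_cons_of_mem _ (List.mem_cons_of_mem _ hB))
      rw [ho3 v b (by
        intro B hB
        rcases List.mem_cons.mp hB with rfl | h
        · exact hbC
        · exact hbR B h), ho2 v b hbD hbC, ho1 v b (by
        intro B hB
        rcases List.mem_cons.mp hB with rfl | h
        · exact hbD
        · exact hbR B h)]
    · intro v B hB
      set S : ℝ := (ownL τ (D :: C :: Rs) v : ℝ) with hS
      have hn0 : (0 : ℝ) < n := by exact_mod_cast (by omega : 0 < n)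
      have ha0 : (1 : ℝ) ≤ a := by exact_mod_cast ha1
      have hn1r : ((n - 1 : ℕ) : ℝ) = n - 1 := by
        rw [Nat.cast_sub hn]; simp
      have hnr : (n : ℝ) = 2 * a + 1 := by rw [ha]; push_cast; ring
      have he1r : (e : ℝ) + 1 ≤ n - 1 := by
        rw [← hn1r]
        exact_mod_cast he1
      -- the block `D` after the second step
      have hCkeep : own τ1 C v = own τ C v := by
        apply own_congr
        intro b hb
        apply ho1 v b
        intro B' hB' h
        rcases List.mem_cons.mp hB' with rfl | h'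
        · exact (Finset.disjoint_left.mp hDC h) hb
        · exact (Finset.disjoint_left.mp (hC B' h') hb) h
      have hSsplit : S = (own τ C v : ℝ) + ownL τ (D :: Rs) v := by
        rw [hS, ownL_cons, ownL_cons, ownL_cons]
        push_cast
        ring
      have hD2 : |(own τ2 D v : ℝ) - S / n| ≤ ((e : ℝ) + 1) * (x * m) := by
        have h1 := hl1 v D List.mem_cons_self
        have h2 := hl2 v
        rw [hCkeep] at h2
        rw [hn1r] at h1
        have hn1pos : (0 : ℝ) < n - 1 := by linarith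
        have e1 : (own τ2 D v : ℝ) - S / n =
            ((own τ2 D v : ℝ) - ((1 - 1 / n) * own τ1 D v + 1 / n * own τ C v)) +
            (1 - 1 / (n : ℝ)) * ((own τ1 D v : ℝ) - (ownL τ (D :: Rs) v : ℝ) / (n - 1)) := by
          rw [hSsplit]
          field_simp
          ring
        rw [e1]
        refine (abs_add_le _ _).trans ?_
        have h3 : (0 : ℝ) ≤ 1 - 1 / (n : ℝ) := by
          rw [sub_nonneg, div_le_one hn0]
          linarith
        have h4 : 1 - 1 / (n : ℝ) ≤ 1 := by
          have : (0 : ℝ) ≤ 1 / (n : ℝ) := by positivity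
          linarith
        rw [abs_mul, abs_of_nonneg h3]
        have h5 : (1 - 1 / (n : ℝ)) * |(own τ1 D v : ℝ) - (ownL τ (D :: Rs) v : ℝ) / (n - 1)| ≤
            1 * |(own τ1 D v : ℝ) - (ownL τ (D :: Rs) v : ℝ) / (n - 1)| :=
          mul_le_mul_of_nonneg_right h4 (abs_nonneg _)
        linarith
      -- the total is kept
      have hkeep : ownL τ2 (D :: C :: Rs) v = ownL τ (D :: C :: Rs) v := by
        rw [← own_UL τ2 v _ hpw0, ← own_UL τ v _ hpw0]
        apply own_kept ((hc2 v).trans (hc1 v))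
        intro b hb
        rw [mem_UL] at hb
        push Not at hb
        rw [ho2 v b (hb D List.mem_cons_self) (hb C (List.mem_cons_of_mem _ List.mem_cons_self)),
          ho1 v b (by
            intro B' hB'
            rcases List.mem_cons.mp hB' with rfl | h
            · exact hb _ List.mem_cons_self
            · exact hb B' (List.mem_cons_of_mem _ (List.mem_cons_of_mem _ h)))]
      have hrest : (ownL τ2 (C :: Rs) v : ℝ) = S - own τ2 D v := by
        have h1 : (ownL τ2 (D :: C :: Rs) v : ℝ) = S := by rw [hS, hkeep]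
        rw [ownL_cons] at h1
        push_cast at h1
        linarith
      rcases List.mem_cons.mp hB with rfl | hB'
      · have h1 : own τ3 B v = own τ2 B v := by
          apply own_congr
          intro b hb
          apply ho3 v b
          intro B' hB' h
          exact (Finset.disjoint_left.mp (hD B' hB') hb) h
        rw [h1]
        push_cast
        exact hD2
      · have h1 := hl3 v B hB'
        rw [hrest, hn1r] at h1
        have hn1pos : (0 : ℝ) < n - 1 := by linarith
        have e1 : (own τ3 B v : ℝ) - S / n =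
            ((own τ3 B v : ℝ) - (S - own τ2 D v) / (n - 1)) +
            (-((own τ2 D v : ℝ) - S / n)) / (n - 1) := by
          field_simp
          ring
        rw [e1]
        refine (abs_add_le _ _).trans ?_
        have h2 : |(-((own τ2 D v : ℝ) - S / n)) / ((n : ℝ) - 1)| ≤ x * m := by
          rw [abs_div, abs_neg, abs_of_pos hn1pos, div_le_iff₀ hn1pos]
          refine hD2.trans ?_
          rw [mul_comm (x * m)]
          exact mul_le_mul_of_nonneg_right he1r hxm
        push_cast
        linarith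

/-- Spreading the tokens: all blocks get their share, and the leftover set `Z` gets few tokens. -/
theorem spread3 [Fintype V] [Fintype E] [Fintype K] {s t : E → V} (hst : ∀ e, s e ≠ t e) {m : ℕ}
    {x : ℝ} (hx0 : 0 < x) (hx1 : x ≤ 1) (hx : Real.exp (-(x ^ 2 * m / 10)) ≤ x / 20)
    {q N z : ℕ} (hq : 1 ≤ q) (hk : Fintype.card K = q * N + z) (hz : z ≤ N)
    {c : E → K} {τ : V → Finset K} (hV : Valid s t c τ) (hm : ∀ v, (τ v).card ≤ m) :
    ∃ (e : ℕ) (c' : E → K) (τ' : V → Finset K) (Z : Finset K) (Bs : List (Finset K)),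
      2 ^ e ≤ q ^ 2 ∧ Valid s t c' τ' ∧ (∀ v, (τ' v).card = (τ v).card) ∧
      Bs.length = q ∧ Bs.Pairwise (fun B B' => Disjoint B B') ∧ (∀ B ∈ Bs, B.card = N) ∧
      (∀ a, a ∉ Z → ∃ B ∈ Bs, a ∈ B) ∧
      (∀ v, (own τ' Z v : ℝ) ≤ m / q + e * (x * m)) ∧
      ∀ v, ∀ B ∈ Bs, (own τ' B v : ℝ) ≤ m / q + e * (x * m) := by
  obtain ⟨q', rfl⟩ : ∃ q', q = q' + 1 := ⟨q - 1, by omega⟩
  have hkN : (q' + 1) * N = q' * N + N := by ring
  obtain ⟨Zp, -, hZp⟩ := Finset.exists_subset_card_eq (s := (univ : Finset K)) (n := N) (by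
    rw [Finset.card_univ, hk]; omega)
  obtain ⟨S1, hS1, hS1c⟩ := Finset.exists_subset_card_eq (s := (univ : Finset K) \ Zp) (n := q' * N) (by
    rw [Finset.card_sdiff_of_subset (Finset.subset_univ _), Finset.card_univ, hk, hZp]; omega)
  obtain ⟨Bs', hB1, hB2, hB3, hB4⟩ := exists_blocks N q' S1 hS1c
  obtain ⟨Z, hZZp, hZc⟩ := Finset.exists_subset_card_eq (s := Zp) (n := z) (by rw [hZp]; exact hz)
  have hS1Zp : Disjoint Zp S1 := by
    rw [Finset.disjoint_left]
    intro a ha ha'
    exact (Finset.mem_sdiff.mp (hS1 ha')).2 ha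
  set B1 : Finset K := (univ \ S1) \ Z with hB1def
  have hB1c : B1.card = N := by
    have h1 : Z ⊆ univ \ S1 := by
      intro a ha
      rw [Finset.mem_sdiff]
      exact ⟨Finset.mem_univ _, fun h => (Finset.disjoint_left.mp hS1Zp (hZZp ha)) h⟩
    rw [hB1def, Finset.card_sdiff_of_subset h1, Finset.card_sdiff_of_subset (Finset.subset_univ _),
      Finset.card_univ, hk, hS1c, hZc]
    omega
  have hq0 : (0 : ℝ) < ((q' + 1 : ℕ) : ℝ) := by exact_mod_cast Nat.succ_pos _
  obtain ⟨e, -, he, -, hF⟩ := equal3 (K := K) hst hx0 hx1 hx N (q' + 1) (by omega)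
  have hown : ∀ (τ₀ : V → Finset K) (L : List (Finset K)) (v : V), (τ₀ v).card ≤ m →
      L.Pairwise (fun B B' => Disjoint B B') → L.length = q' + 1 →
      (ownL τ₀ L v : ℝ) / ((q' + 1 : ℕ) : ℝ) + e * (x * m) ≤
        m / ((q' + 1 : ℕ) : ℝ) + e * (x * m) := by
    intro τ₀ L v h1 h2 h3
    have h4 := ownL_le τ₀ v L h2 univ (fun B _ => Finset.subset_univ _)
    have h5 : own τ₀ univ v ≤ m := by
      unfold own
      exact (Finset.card_filter_le _ _).trans h1
    have h6 : (ownL τ₀ L v : ℝ) ≤ m := by exact_mod_cast h4.trans h5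
    have := div_le_div_of_nonneg_right h6 hq0.le
    linarith
  -- first round: `Zp :: Bs'`
  have hpw1 : (Zp :: Bs').Pairwise (fun B B' => Disjoint B B') := by
    rw [List.pairwise_cons]
    exact ⟨fun B hB => hS1Zp.mono_right (hB3 B hB).1, hB2⟩
  obtain ⟨c1, τ1, hV1, hc1, ho1, hl1⟩ := hF (Zp :: Bs') (by simp [hB1]) hpw1 (by
    intro B hB
    rcases List.mem_cons.mp hB with rfl | h
    · exact hZp
    · exact (hB3 B h).2) c τ hV hm
  have hm1 : ∀ v, (τ1 v).card ≤ m := fun v => by rw [hc1 v]; exact hm v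
  -- second round: `B1 :: Bs'`
  have hpw2 : (B1 :: Bs').Pairwise (fun B B' => Disjoint B B') := by
    rw [List.pairwise_cons]
    refine ⟨fun B hB => ?_, hB2⟩
    rw [Finset.disjoint_left]
    intro a ha ha'
    rw [hB1def, Finset.mem_sdiff, Finset.mem_sdiff] at ha
    exact ha.1.2 ((hB3 B hB).1 ha')
  obtain ⟨c2, τ2, hV2, hc2, ho2, hl2⟩ := hF (B1 :: Bs') (by simp [hB1]) hpw2 (by
    intro B hB
    rcases List.mem_cons.mp hB with rfl | h
    · exact hB1c
    · exact (hB3 B h).2) c1 τ1 hV1 hm1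
  refine ⟨e, c2, τ2, Z, B1 :: Bs', he, hV2, fun v => (hc2 v).trans (hc1 v), by simp [hB1], hpw2, ?_, ?_, ?_, ?_⟩
  · intro B hB
    rcases List.mem_cons.mp hB with rfl | h
    · exact hB1c
    · exact (hB3 B h).2
  · intro a ha
    by_cases haS : a ∈ S1
    · obtain ⟨B, hB, haB⟩ := hB4 a haS
      exact ⟨B, List.mem_cons_of_mem _ hB, haB⟩
    · refine ⟨B1, List.mem_cons_self, ?_⟩
      rw [hB1def, Finset.mem_sdiff, Finset.mem_sdiff]
      exact ⟨⟨Finset.mem_univ _, haS⟩, ha⟩
  · intro v
    have h1 : own τ2 Z v = own τ1 Z v := by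
      apply own_congr
      intro a ha
      apply ho2
      intro B hB h
      rcases List.mem_cons.mp hB with rfl | hB'
      · exact (Finset.mem_sdiff.mp h).2 ha
      · exact (Finset.disjoint_left.mp hS1Zp (hZZp ha)) ((hB3 B hB').1 h)
    have h2 : own τ1 Z v ≤ own τ1 Zp v := by
      unfold own
      apply Finset.card_le_card
      intro a ha
      rw [Finset.mem_filter] at ha ⊢
      exact ⟨ha.1, hZZp ha.2⟩
    have h3 := (abs_le.mp (hl1 v Zp List.mem_cons_self)).2
    have h4 := hown τ (Zp :: Bs') v (hm v) hpw1 (by simp [hB1])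
    have h5 : (own τ2 Z v : ℝ) ≤ own τ1 Zp v := by
      rw [h1]
      exact_mod_cast h2
    linarith
  · intro v B hB
    have h3 := (abs_le.mp (hl2 v B hB)).2
    have h4 := hown τ1 (B1 :: Bs') v (hm1 v) hpw2 (by simp [hB1])
    linarith

end TC19
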