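import Pool.Agent.Lib_helper19.TC.Select

set_option autoImplicit false

/-!
# Total colourings of multigraphs in which the vertices have few distinct neighbours
-/

namespace TC19

open Finset Classical

variable {V E K : Type*}

theorem bound_aux {L : ℝ} (hL : 0 ≤ L) {m D r : ℕ} (hr : 32 * D ≤ 2 ^ r) (hLm : 187 * L ≤ m) :
    gr L r ((m : ℝ) * D) ≤ m / 8 := by
  have hm0 : (0 : ℝ) ≤ m := Nat.cast_nonneg _
  have hD0 : (0 : ℝ) ≤ D := Nat.cast_nonneg _
  refine (gr_le hL r _ (by positivity)).trans ?_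
  have hs : (0 : ℝ) < √2 := by positivity
  have hs2 : √2 ^ 2 = 2 := Real.sq_sqrt (by norm_num)
  -- first term
  have h1 : √((m : ℝ) * D) * (1 / √2) ^ r ≤ √m * (0.17678 : ℝ) := by
    have e1 : (1 / √2) ^ r = √((1 / 2 : ℝ) ^ r) := by
      symm
      rw [Real.sqrt_eq_iff_mul_self_eq (by positivity) (by positivity), ← mul_pow]
      congr 1
      field_simp
      linarith
    rw [e1, ← Real.sqrt_mul (by positivity)]
    have h2 : (m : ℝ) * D * (1 / 2) ^ r ≤ m / 32 := by
      have h3 : (32 : ℝ) * D ≤ 2 ^ r := by exact_mod_cast hr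
      have h4 : (0 : ℝ) < 2 ^ r := by positivity
      rw [one_div, inv_pow, ← div_eq_mul_inv, div_le_div_iff₀ h4 (by norm_num)]
      nlinarith
    calc √((m : ℝ) * D * (1 / 2) ^ r) ≤ √(m * (0.17678 : ℝ) ^ 2) := by
          apply Real.sqrt_le_sqrt
          nlinarith
      _ = √m * 0.17678 := by
          rw [Real.sqrt_mul hm0, Real.sqrt_sq (by norm_num)]
  -- second term
  have h5 : √L * Aer r ≤ √m * (0.17656 : ℝ) := by
    have h6 : √L ≤ √m * (0.07313 : ℝ) := by
      calc √L ≤ √(m * (0.07313 : ℝ) ^ 2) := by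
            apply Real.sqrt_le_sqrt
            nlinarith
        _ = √m * 0.07313 := by
            rw [Real.sqrt_mul hm0, Real.sqrt_sq (by norm_num)]
    have h7 : Aer r ≤ 2.41422 := by
      have h8 := Aer_le r
      have h9 : √2 ≤ 1.41422 := by
        rw [Real.sqrt_le_left (by norm_num)]
        norm_num
      linarith
    have h10 := Aer_nonneg r
    have h11 := Real.sqrt_nonneg (m : ℝ)
    calc √L * Aer r ≤ (√m * 0.07313) * 2.41422 :=
          mul_le_mul h6 h7 h10 (by positivity)
      _ ≤ _ := by nlinarith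
  have h12 : 0 ≤ √((m : ℝ) * D) * (1 / √2) ^ r + √L * Aer r := by
    have := Aer_nonneg r
    positivity
  calc (√((m : ℝ) * D) * (1 / √2) ^ r + √L * Aer r) ^ 2
      ≤ (√m * 0.17678 + √m * 0.17656) ^ 2 := pow_le_pow_left₀ h12 (add_le_add h1 h5) 2
    _ = m * (0.35334 : ℝ) ^ 2 := by
        have := Real.sq_sqrt hm0
        nlinarith
    _ ≤ m / 8 := by nlinarith

theorem nb_le_of_subset {G G' : SimpleGraph V} {W W' : Finset V} {v : V}
    (h : ∀ u ∈ W, G.Adj v u → u ∈ W' ∧ G'.Adj v u) : nb G W v ≤ nb G' W' v := by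
  apply Finset.card_le_card
  intro u hu
  rw [Finset.mem_filter] at hu ⊢
  exact h u hu.1 hu.2

/-- The main theorem on multigraphs in which the vertices of the hard core have few neighbours. -/
theorem few_core [Fintype V] [Fintype E] [Fintype K] {s t : E → V} (hst : ∀ e, s e ≠ t e)
    (hc : ∃ c : E → K, Proper s t Set.univ c) {m D r : ℕ} (hm2 : 2 ≤ m) (hD1 : 1 ≤ D)
    (hdeg : ∀ v ∈ core (SG s t) (fun v => Fintype.card K - dg s t univ v),
      dg s t univ v + m ≤ Fintype.card K)
    (hnb : ∀ v ∈ core (SG s t) (fun v => Fintype.card K - dg s t univ v),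
      nb (SG s t) (core (SG s t) (fun v => Fintype.card K - dg s t univ v)) v ≤ D)
    (hr1 : 32 * D ≤ 2 ^ r) (hr2 : 2 ^ r ≤ Fintype.card K)
    {L : ℝ} (hL0 : 0 ≤ L) (hL : 16 * (m : ℝ) * D ^ 2 ≤ Real.exp L) (hLm : 187 * L ≤ m) :
    ∃ (c : E → K) (g : V → K), TotalCol s t c g := by
  obtain ⟨c0, hc0⟩ := hc
  have hK : Nonempty K := by
    rw [← Fintype.card_pos_iff]
    have : 0 < 2 ^ r := by positivity
    omega
  set q : V → ℕ := fun v => Fintype.card K - dg s t univ v with hq
  set A := core (SG s t) q with hA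
  let G : SimpleGraph V :=
    { Adj := fun x y => x ∈ A ∧ y ∈ A ∧ (SG s t).Adj x y
      symm := ⟨fun x y h => ⟨h.2.1, h.1, h.2.2.symm⟩⟩
      loopless := ⟨fun x h => h.2.2.ne rfl⟩ }
  have hND : ∀ v, (Nb G v).card ≤ D := by
    intro v
    by_cases hv : v ∈ A
    · refine le_trans ?_ (hnb v hv)
      apply Finset.card_le_card
      intro u hu
      simp only [Nb, mem_filter, mem_univ, true_and] at hu ⊢
      exact ⟨hu.2.1, hu.2.2⟩
    · have : Nb G v = ∅ := by
        simp only [Nb, Finset.filter_eq_empty_iff]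
        intro u _ h
        exact hv h.1
      rw [this]
      simp
  have hLs : ∀ (c : E → K) v, q v ≤ (missSet s t Set.univ c v).card := by
    intro c v
    have h1 := card_missSet s t (univ : Finset E) c v
    have h2 : ((univ : Finset E) : Set E) = Set.univ := by simp
    rw [h2] at h1
    simp only [hq]
    omega
  have htok : ∀ v, ∃ S : Finset K, S ⊆ missSet s t Set.univ c0 v ∧
      S.card = if v ∈ A then m else 0 := by
    intro v
    apply Finset.exists_subset_card_eq
    split_ifs with hv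
    · have h1 := hLs c0 v
      have h2 := hdeg v hv
      simp only [hq] at h1
      omega
    · exact Nat.zero_le _
  choose τ hτ1 hτ2 using htok
  have hV : Valid s t c0 τ := ⟨hc0, fun v a ha => mem_missSet.mp (hτ1 v ha)⟩
  have hτm : ∀ v, (τ v).card ≤ m := by
    intro v
    rw [hτ2 v]
    split_ifs
    · exact le_refl _
    · exact Nat.zero_le _
  obtain ⟨c1, τ1, hV1, hc1, hl1⟩ := cover hst G hD1 (by omega : 1 ≤ m) hND hL0 hL hr2 _ c0 τ hV hτm rfl
  obtain ⟨f, hf1, hf2⟩ := select G hm2 τ1 (by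
    intro u v huv
    rw [hc1 u, hτ2 u, if_pos huv.1]) (fun a v => (hl1 a v).trans (bound_aux hL0 hr1 hLm))
  obtain ⟨g, hg1, hg2⟩ := peel (G := SG s t) (q := q) (fun v => missSet s t Set.univ c1 v) (hLs c1) f
    (by
      intro v hv
      have h1 : f v ∈ τ1 v := by
        apply hf1
        rw [hc1 v, hτ2 v, if_pos hv]
      exact mem_missSet.mpr (hV1.2 v _ h1))
    (fun u hu v hv huv => hf2 u v ⟨hu, hv, huv⟩)
  exact ⟨c1, g, hV1.1, fun v => mem_missSet.mp (hg1 v), hg2⟩

/-- If the core is empty the greedy colouring works. -/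
theorem empty_core [Fintype V] [Fintype E] [Fintype K] [Nonempty K] {s t : E → V}
    (hc : ∃ c : E → K, Proper s t Set.univ c)
    (hcore : core (SG s t) (fun v => Fintype.card K - dg s t univ v) = ∅) :
    ∃ (c : E → K) (g : V → K), TotalCol s t c g := by
  obtain ⟨c, hc⟩ := hc
  obtain ⟨g, hg1, hg2⟩ := peel (G := SG s t) (q := fun v => Fintype.card K - dg s t univ v)
    (fun v => missSet s t Set.univ c v) (by
      intro v
      have h1 := card_missSet s t (univ : Finset E) c v
      have h2 : ((univ : Finset E) : Set E) = Set.univ := by simp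
      rw [h2] at h1
      omega) (fun _ => Classical.arbitrary K)
    (by rw [hcore]; simp) (by rw [hcore]; simp)
  exact ⟨c, g, hc, fun v => mem_missSet.mp (hg1 v), hg2⟩

end TC19
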