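import Pool.Agent.Lib_helper19.TC.Few
import Pool.Agent.Lib_helper19.TC.Defs

set_option autoImplicit false

/-!
# The two theorems, in the form used by the hand-ins
-/

namespace TC19

open Finset Classical

variable {n m : ℕ} (src tgt : Fin m → Fin n)

variable {src tgt}

theorem dg_eq (v : Fin n) : dg src tgt univ v = Deg src tgt v := by
  unfold dg Deg
  rw [Nat.card_eq_fintype_card, Fintype.card_subtype]
  congr 1
  ext e
  simp only [mem_filter, mem_univ, true_and, Inc]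

theorem mult_eq {u v : Fin n} (huv : u ≠ v) : mult src tgt u v = Mult src tgt u v := by
  unfold mult Mult
  rw [Nat.card_eq_fintype_card, Fintype.card_subtype]
  congr 1
  ext e
  simp only [mem_filter, mem_univ, true_and, Inc]
  constructor
  · rintro ⟨h1 | h1, h2 | h2⟩
    · exact absurd (h1.symm.trans h2) huv
    · exact Or.inl ⟨h1, h2⟩
    · exact Or.inr ⟨h2, h1⟩
    · exact absurd (h1.symm.trans h2) huv
  · rintro (⟨h1, h2⟩ | ⟨h1, h2⟩)
    · exact ⟨Or.inl h1, Or.inr h2⟩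
    · exact ⟨Or.inr h2, Or.inl h1⟩

theorem under_eq : Under src tgt = SG src tgt := by
  ext u v
  simp only [Under, SG, SimpleGraph.fromRel_adj, Inc]
  constructor
  · rintro ⟨hne, ⟨e, h1, h2⟩ | ⟨e, h1, h2⟩⟩
    · exact ⟨hne, e, Or.inl h1, Or.inr h2⟩
    · exact ⟨hne, e, Or.inr h2, Or.inl h1⟩
  · rintro ⟨hne, e, h1 | h1, h2 | h2⟩
    · exact absurd (h1.symm.trans h2) hne
    · exact ⟨hne, Or.inl ⟨e, h1, h2⟩⟩
    · exact ⟨hne, Or.inr ⟨e, h2, h1⟩⟩
    · exact absurd (h1.symm.trans h2) hne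

theorem nb_eq (W : Finset (Fin n)) (v : Fin n) : nb (SG src tgt) W v = Nbrs src tgt W v := by
  unfold nb Nbrs
  rw [Nat.card_eq_fintype_card, Fintype.card_subtype, ← under_eq]
  congr 1
  ext u
  simp only [mem_filter, mem_univ, true_and]

theorem edgeCol_iff {k : ℕ} : EdgeCol src tgt k ↔ ∃ c : Fin m → Fin k, Proper src tgt Set.univ c := by
  constructor
  · rintro ⟨c, hc⟩
    exact ⟨c, fun e _ f _ hne v hv hv' => hc e f hne v hv hv'⟩
  · rintro ⟨c, hc⟩
    exact ⟨c, fun e f hne v hv hv' => hc e trivial f trivial hne v hv hv'⟩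

theorem totCol_of {k : ℕ} (hst : ∀ e, src e ≠ tgt e)
    (h : ∃ (c : Fin m → Fin k) (g : Fin n → Fin k), TotalCol src tgt c g) : TotCol src tgt k := by
  obtain ⟨c, g, h1, h2, h3⟩ := h
  refine ⟨Sum.elim g c, ?_, ?_, ?_⟩
  · intro e
    simp only [Sum.elim_inl]
    apply h3
    exact ⟨hst e, e, Or.inl rfl, Or.inr rfl⟩
  · intro e f hne v hv hv'
    simp only [Sum.elim_inr]
    exact h1 e trivial f trivial hne v hv hv'
  · intro e v hv
    simp only [Sum.elim_inr, Sum.elim_inl]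
    exact h2 v e trivial hv

theorem edgeCol_of {Δ μ k : ℕ} (hst : ∀ e, src e ≠ tgt e) (hΔ : ∀ v, Deg src tgt v ≤ Δ)
    (hμ : ∀ u v, u ≠ v → Mult src tgt u v ≤ μ) (hk : EdgeCol src tgt k ∨ Δ + μ ≤ k) :
    ∃ c : Fin m → Fin k, Proper src tgt Set.univ c := by
  rcases hk with h | h
  · exact edgeCol_iff.mp h
  · exact vizing hst (fun v => by rw [dg_eq]; exact hΔ v)
      (fun u v huv => by rw [mult_eq huv]; exact hμ u v huv) (by rw [Fintype.card_fin]; exact h)

/-- small hard core -/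
theorem final_small {Δ μ k : ℕ} (hst : ∀ e, src e ≠ tgt e) (hΔ : ∀ v, Deg src tgt v ≤ Δ)
    (hμ : ∀ u v, u ≠ v → Mult src tgt u v ≤ μ) (hk : EdgeCol src tgt k ∨ Δ + μ ≤ k)
    (hk2 : Δ + 2 ≤ k)
    (H : ∀ W : Finset (Fin n), ((Under src tgt).induce (W : Set (Fin n))).Connected →
      (∀ v ∈ W, k ≤ Deg src tgt v + Nbrs src tgt W v) → W.card ≤ k) :
    TotCol src tgt k := by
  apply totCol_of hst
  apply small_core hst (edgeCol_of hst hΔ hμ hk)
  · intro v
    rw [Fintype.card_fin, dg_eq]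
    have := hΔ v
    omega
  · intro W hW hq
    rw [Fintype.card_fin]
    apply H W
    · rw [under_eq]; exact hW
    · intro v hv
      have := hq v hv
      rw [Fintype.card_fin, dg_eq, nb_eq] at this
      omega

theorem numeric {m d : ℕ} (hm : m ≤ d) (hm2 : 2 ≤ m) (h : d ^ 500 ≤ 2 ^ m) :
    187 * Real.log (16 * (m : ℝ) * d ^ 2) ≤ m := by
  have hm500 : 500 ≤ m := by
    have h1 : 2 ^ 500 ≤ 2 ^ m := le_trans (Nat.pow_le_pow_left (by omega) 500) h
    exact (Nat.pow_le_pow_iff_right (by norm_num)).mp h1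
  have hd0 : (0 : ℝ) < d := by
    have : 0 < d := by omega
    exact_mod_cast this
  have hd500 : (500 : ℝ) ≤ d := by
    have : 500 ≤ d := by omega
    exact_mod_cast this
  have hm0 : (0 : ℝ) < m := by
    have : 0 < m := by omega
    exact_mod_cast this
  have hmd : (m : ℝ) ≤ d := by exact_mod_cast hm
  have h1 : 500 * Real.log d ≤ m * Real.log 2 := by
    have h2 : ((d : ℝ)) ^ 500 ≤ 2 ^ m := by exact_mod_cast h
    have h3 := Real.log_le_log (by positivity) h2
    rw [Real.log_pow, Real.log_pow] at h3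
    exact_mod_cast h3
  have hlog2 : Real.log 2 < 0.6931471808 := Real.log_two_lt_d9
  have hlog2' : 0 < Real.log 2 := Real.log_pos (by norm_num)
  have h4 : Real.log (16 * (m : ℝ) * d ^ 2) ≤ 4 * Real.log 2 + 3 * Real.log d := by
    have h5 : 16 * (m : ℝ) * d ^ 2 ≤ 2 ^ 4 * (d : ℝ) ^ 3 := by
      have : (m : ℝ) * d ^ 2 ≤ d * d ^ 2 := mul_le_mul_of_nonneg_right hmd (by positivity)
      nlinarith
    have h6 := Real.log_le_log (by positivity) h5
    have h6' : Real.log (2 ^ 4 * (d : ℝ) ^ 3) = 4 * Real.log 2 + 3 * Real.log d := by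
      rw [Real.log_mul (by positivity) (by positivity), Real.log_pow, Real.log_pow]
      push_cast
      ring
    linarith
  have h7 : 4 * Real.log 2 ≤ Real.log d := by
    have h8 : ((2 : ℝ)) ^ 4 ≤ d := by linarith
    have h9 := Real.log_le_log (by positivity) h8
    rw [Real.log_pow] at h9
    push_cast at h9
    exact h9
  have h10 : 8 * Real.log 2 ≤ Real.log d := by
    have h8 : ((2 : ℝ)) ^ 8 ≤ d := by linarith
    have h9 := Real.log_le_log (by positivity) h8
    rw [Real.log_pow] at h9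
    push_cast at h9
    exact h9
  have hlogd : 0 ≤ Real.log d := by linarith
  -- 187 (4 log 2 + 3 log d) ≤ 187 * 3.5 log d = 654.5 log d ≤ m
  have h11 : 721 * Real.log d ≤ m := by
    have : 721 * Real.log d * Real.log 2 ≤ m * Real.log 2 := by nlinarith
    exact le_of_mul_le_mul_right this hlog2'
  linarith

/-- few neighbours in the hard core -/
theorem final_few {Δ μ k d : ℕ} (hst : ∀ e, src e ≠ tgt e) (hΔ : ∀ v, Deg src tgt v ≤ Δ)
    (hμ : ∀ u v, u ≠ v → Mult src tgt u v ≤ μ) (hk : EdgeCol src tgt k ∨ Δ + μ ≤ k)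
    (hk2 : Δ + 2 ≤ k) (hkd : 64 * d ≤ k) (hd : d ^ 500 ≤ 2 ^ (k - Δ))
    (H : ∀ W : Finset (Fin n), (∀ v ∈ W, k ≤ Deg src tgt v + Nbrs src tgt W v) →
      ∀ v ∈ W, Nbrs src tgt W v ≤ d) :
    TotCol src tgt k := by
  apply totCol_of hst
  have hEC := edgeCol_of hst hΔ hμ hk
  have hKne : Nonempty (Fin k) := ⟨⟨0, by omega⟩⟩
  set q : Fin n → ℕ := fun v => Fintype.card (Fin k) - dg src tgt univ v with hq
  set A := core (SG src tgt) q with hA
  have hAspec : ∀ v ∈ A, k ≤ Deg src tgt v + Nbrs src tgt A v := by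
    intro v hv
    have h1 : q v ≤ nb (SG src tgt) A v := core_spec v hv
    have hqv : q v = k - Deg src tgt v := by
      simp only [hq]
      rw [Fintype.card_fin, dg_eq]
    rw [nb_eq] at h1
    omega
  have hAd : ∀ v ∈ A, nb (SG src tgt) A v ≤ d := by
    intro v hv
    rw [nb_eq]
    exact H A hAspec v hv
  by_cases hemp : A = ∅
  · exact empty_core hEC hemp
  · obtain ⟨v0, hv0⟩ := Finset.nonempty_iff_ne_empty.mpr hemp
    have hmd : k - Δ ≤ d := by
      have h1 := hAspec v0 hv0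
      have h2 := H A hAspec v0 hv0
      have h3 := hΔ v0
      omega
    have hd1 : 1 ≤ d := by omega
    -- the power of two
    have hex : ∃ r : ℕ, 32 * d ≤ 2 ^ r ∧ 2 ^ r ≤ k := by
      refine ⟨Nat.clog 2 (32 * d), Nat.le_pow_clog (by norm_num) _, ?_⟩
      have h1 : 1 < 32 * d := by omega
      have h2 := Nat.pow_pred_clog_lt_self (b := 2) (by norm_num) h1
      have h3 : 0 < Nat.clog 2 (32 * d) := Nat.clog_pos (by norm_num) h1
      have h4 : 2 ^ Nat.clog 2 (32 * d) = 2 * 2 ^ (Nat.clog 2 (32 * d)).pred := by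
        obtain ⟨j, hj⟩ : ∃ j, Nat.clog 2 (32 * d) = j + 1 := ⟨_, (Nat.succ_pred_eq_of_pos h3).symm⟩
        rw [hj, Nat.pred_succ, pow_succ']
      omega
    obtain ⟨r, hr1, hr2⟩ := hex
    have hm2 : 2 ≤ k - Δ := by omega
    have hpos : (0 : ℝ) < 16 * ((k - Δ : ℕ) : ℝ) * d ^ 2 := by
      have h1 : (0 : ℝ) < ((k - Δ : ℕ) : ℝ) := by
        have : 0 < k - Δ := by omega
        exact_mod_cast this
      have h2 : (0 : ℝ) < d := by exact_mod_cast hd1
      positivity
    refine few_core hst hEC (m := k - Δ) (D := d) (r := r) hm2 hd1 ?_ hAd hr1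
      (by rw [Fintype.card_fin]; exact hr2) (L := Real.log (16 * ((k - Δ : ℕ) : ℝ) * d ^ 2)) ?_ ?_
      (numeric hmd hm2 hd)
    · intro v _
      rw [Fintype.card_fin, dg_eq]
      have := hΔ v
      omega
    · apply Real.log_nonneg
      have h1 : (1 : ℝ) ≤ ((k - Δ : ℕ) : ℝ) := by
        have : 1 ≤ k - Δ := by omega
        exact_mod_cast this
      have h2 : (1 : ℝ) ≤ d := by exact_mod_cast hd1
      have h3 : (1 : ℝ) ≤ (d : ℝ) ^ 2 := one_le_pow₀ h2
      nlinarith
    · rw [Real.exp_log hpos]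

end TC19
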