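import Pool.Agent.Lib_helper19.TC.Spread
import Pool.Agent.Lib_helper19.TC.Few

set_option autoImplicit false

/-!
# Total colourings of multigraphs in which no vertex has nearly `|K|` distinct neighbours
-/

namespace TC19

open Finset Classical

theorem Valid.sub {V E K : Type*} {s t : E → V} {c : E → K} {τ τ' : V → Finset K}
    (h : Valid s t c τ) (hs : ∀ v, τ' v ⊆ τ v) : Valid s t c τ' :=
  ⟨h.1, fun v a ha => h.2 v a (hs v ha)⟩

theorem zr_nonneg (r : ℕ) : ∀ z : ℝ, 0 ≤ z → 0 ≤ zr r z := by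
  induction r with
  | zero => intro z hz; exact hz
  | succ r ih =>
    intro z hz
    apply ih
    have := gam_nonneg
    positivity

/-- The numerical parameters. -/
theorem params {δ : ℝ} (hδ0 : 0 < δ) (hδ1 : δ ≤ 1 / 32) (mr : ℕ) :
    ∃ (Q m m1 : ℕ) (x w : ℝ), 1 ≤ Q ∧ Q ≤ m ∧ 0 < x ∧ x ≤ 1 ∧ mr ≤ m1 ∧ 1 ≤ m1 ∧ m1 ≤ m ∧ 1 ≤ w ∧
      1 / (Q : ℝ) ≤ δ ∧ (2 * (Q : ℝ)) ^ 3 * x = δ ∧ Real.exp (-(x ^ 2 * m / 10)) ≤ x / 20 ∧
      (m1 : ℝ) ≤ (1 - 2 * δ) * m ∧ w ^ 4 = m * (1 + δ) ^ 2 / (1 + 32 * δ) ∧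
      (w + 8) ^ 4 ≤ (1 - 4 * δ) * m1 := by
  obtain ⟨Q, hQ⟩ := exists_nat_ge (1 / δ)
  have hQ0 : (0 : ℝ) < Q := lt_of_lt_of_le (by positivity) hQ
  have hQ1 : 1 ≤ Q := by exact_mod_cast hQ0
  have hQ1' : (1 : ℝ) ≤ Q := by exact_mod_cast hQ1
  set x : ℝ := δ / (2 * (Q : ℝ)) ^ 3 with hx
  have hx0 : 0 < x := by positivity
  have h8 : (1 : ℝ) ≤ (2 * (Q : ℝ)) ^ 3 := one_le_pow₀ (by linarith)
  have hx1 : x ≤ 1 := by
    rw [hx, div_le_one (by positivity)]
    linarith
  obtain ⟨m, hm⟩ := exists_nat_ge (max (max (200 / x ^ 3) (2 * ((mr : ℝ) + 1))) (max (2 * (120 / δ) ^ 4) (max (1 / δ) Q)))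
  have hmA : 200 / x ^ 3 ≤ m := ((le_max_left _ _).trans (le_max_left _ _)).trans hm
  have hmB : 2 * ((mr : ℝ) + 1) ≤ m := ((le_max_right _ _).trans (le_max_left _ _)).trans hm
  have hmC : 2 * (120 / δ) ^ 4 ≤ m := ((le_max_left _ _).trans (le_max_right _ _)).trans hm
  have hmD : 1 / δ ≤ m := ((le_max_left _ _).trans ((le_max_right _ _).trans (le_max_right _ _))).trans hm
  have hmE : (Q : ℝ) ≤ m := ((le_max_right _ _).trans ((le_max_right _ _).trans (le_max_right _ _))).trans hm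
  have hm0 : (0 : ℝ) < m := lt_of_lt_of_le hQ0 hmE
  have hδm : 1 ≤ δ * m := by
    rw [div_le_iff₀ hδ0] at hmD
    linarith
  set m1 : ℕ := ⌊(1 - 2 * δ) * m⌋₊ with hm1
  have hm1le : (m1 : ℝ) ≤ (1 - 2 * δ) * m := Nat.floor_le (by
    apply mul_nonneg _ hm0.le
    linarith)
  have hm1ge : (1 - 3 * δ) * m ≤ m1 := by
    have := Nat.lt_floor_add_one ((1 - 2 * δ) * (m : ℝ))
    have h1 : (1 - 2 * δ) * (m : ℝ) < (m1 : ℝ) + 1 := this
    linarith
  have hm1B : (mr : ℝ) + 1 ≤ m1 := by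
    have : (1 / 2 : ℝ) * m ≤ (1 - 3 * δ) * m := mul_le_mul_of_nonneg_right (by linarith) hm0.le
    linarith
  set y : ℝ := m * (1 + δ) ^ 2 / (1 + 32 * δ) with hy
  have hy0 : 0 ≤ y := by positivity
  set w : ℝ := √√y with hw
  have hw0 : 0 ≤ w := Real.sqrt_nonneg _
  have hw4 : w ^ 4 = y := by
    have : w ^ 4 = (w ^ 2) ^ 2 := by ring
    rw [this, hw, Real.sq_sqrt (Real.sqrt_nonneg _), Real.sq_sqrt hy0]
  have hy1 : (120 / δ) ^ 4 ≤ y := by
    rw [hy, le_div_iff₀ (by positivity)]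
    have h1 : (1 : ℝ) ≤ (1 + δ) ^ 2 := one_le_pow₀ (by linarith)
    have h2 : (1 + 32 * δ) ≤ 2 := by linarith
    have h3 : 0 ≤ (120 / δ) ^ 4 := by positivity
    calc (120 / δ) ^ 4 * (1 + 32 * δ) ≤ (120 / δ) ^ 4 * 2 := mul_le_mul_of_nonneg_left h2 h3
      _ = 2 * (120 / δ) ^ 4 := by ring
      _ ≤ m := hmC
      _ = m * 1 := by ring
      _ ≤ m * (1 + δ) ^ 2 := mul_le_mul_of_nonneg_left h1 hm0.le
  have hw120 : 120 / δ ≤ w := by
    by_contra h
    push Not at h
    have := pow_lt_pow_left₀ h hw0 (n := 4) (by norm_num)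
    rw [hw4] at this
    linarith
  have hw120' : 120 ≤ w * δ := by
    rw [div_le_iff₀ hδ0] at hw120
    exact hw120
  have hw1 : 1 ≤ w := by nlinarith
  refine ⟨Q, m, m1, x, w, hQ1, by exact_mod_cast hmE, hx0, hx1, ?_, ?_, ?_, hw1, ?_, ?_, ?_, hm1le, hw4, ?_⟩
  · have : (mr : ℝ) ≤ m1 := by linarith
    exact_mod_cast this
  · have h0 : (0 : ℝ) ≤ mr := Nat.cast_nonneg _
    have : (1 : ℝ) ≤ m1 := by linarith
    exact_mod_cast this
  · have : (m1 : ℝ) ≤ m := by
      nlinarith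
    exact_mod_cast this
  · rw [div_le_iff₀ hQ0]
    rw [div_le_iff₀ hδ0] at hQ
    linarith
  · rw [hx]
    field_simp
  · -- exp(-y) ≤ 1/(1+y)
    have h1 : 20 / x ≤ x ^ 2 * m / 10 := by
      rw [div_le_iff₀ (by positivity)] at hmA
      rw [div_le_iff₀ hx0]
      nlinarith
    have h2 : 0 < 20 / x := by positivity
    have h3 : x ^ 2 * m / 10 + 1 ≤ Real.exp (x ^ 2 * m / 10) := Real.add_one_le_exp _
    rw [Real.exp_neg]
    have h4 : 20 / x ≤ Real.exp (x ^ 2 * m / 10) := by linarith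
    calc (Real.exp (x ^ 2 * m / 10))⁻¹ ≤ (20 / x)⁻¹ := by
          apply inv_anti₀ h2 h4
      _ = x / 20 := by rw [inv_div]
  · -- final inequality
    have h1 : (w + 8) ^ 4 ≤ (1 + δ) * w ^ 4 := by
      have h2 : w + 8 ≤ (1 + δ / 15) * w := by nlinarith
      have h3 : (1 + δ / 15) ^ 4 ≤ 1 + δ := by
        nlinarith [pow_pos hδ0 2, pow_pos hδ0 3, pow_pos hδ0 4]
      calc (w + 8) ^ 4 ≤ ((1 + δ / 15) * w) ^ 4 := pow_le_pow_left₀ (by linarith) h2 4
        _ = (1 + δ / 15) ^ 4 * w ^ 4 := by ring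
        _ ≤ _ := mul_le_mul_of_nonneg_right h3 (by positivity)
    refine h1.trans ?_
    rw [hw4, hy]
    have h4 : (1 + δ) * (m * (1 + δ) ^ 2 / (1 + 32 * δ)) ≤ (1 - 4 * δ) * ((1 - 3 * δ) * m) := by
      have e1 : (1 + δ) * (m * (1 + δ) ^ 2 / (1 + 32 * δ)) = m * (1 + δ) ^ 3 / (1 + 32 * δ) := by ring
      rw [e1, div_le_iff₀ (by positivity)]
      have h5 : (1 + δ) ^ 3 ≤ (1 - 4 * δ) * (1 - 3 * δ) * (1 + 32 * δ) := by
        nlinarith [pow_pos hδ0 2, pow_pos hδ0 3]
      calc m * (1 + δ) ^ 3 ≤ m * ((1 - 4 * δ) * (1 - 3 * δ) * (1 + 32 * δ)) :=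
            mul_le_mul_of_nonneg_left h5 hm0.le
        _ = _ := by ring
    exact h4.trans (mul_le_mul_of_nonneg_left hm1ge (by linarith))

/-- **Main theorem.** If every vertex of the hard core has at most `|K| / (1 + ε)` neighbours in the
core and misses at least `m₀(ε)` colours, then there is a total colouring with the colour set
`K`. -/
theorem thick.{u, v, w} {ε : ℝ} (hε0 : 0 < ε) (hε1 : ε ≤ 1) : ∃ m₀ : ℕ,
    ∀ (V : Type u) (E : Type v) (K : Type w) [Fintype V] [Fintype E] [Fintype K] (s t : E → V),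
      (∀ e, s e ≠ t e) → (∃ c : E → K, Proper s t Set.univ c) →
      (∀ v ∈ core (SG s t) (fun v => Fintype.card K - dg s t univ v),
        dg s t univ v + m₀ ≤ Fintype.card K) →
      (∀ v ∈ core (SG s t) (fun v => Fintype.card K - dg s t univ v),
        (1 + ε) * nb (SG s t) (core (SG s t) (fun v => Fintype.card K - dg s t univ v)) v ≤
          (Fintype.card K : ℝ)) →
      ∃ (c : E → K) (g : V → K), TotalCol s t c g := by
  set δ : ℝ := ε / 32 with hδ
  have hδ0 : 0 < δ := by positivity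
  have hδ1 : δ ≤ 1 / 32 := by rw [hδ]; linarith
  have hεδ : 1 + 32 * δ = 1 + ε := by rw [hδ]; ring
  obtain ⟨mr, hmr⟩ := rs.{u, w} δ hδ0 (by linarith)
  obtain ⟨Q, m, m1, x, w, hQ1, hQm, hx0, hx1, hmrm1, hm11, hm1m, hw1, hQδ, hQx, hexp, hm1le, hw4, hfin⟩ :=
    params hδ0 hδ1 mr
  refine ⟨m, ?_⟩
  intro V E K _ _ _ s t hst hc hdeg hnb
  set q₀ : V → ℕ := fun v => Fintype.card K - dg s t univ v with hq₀
  set A := core (SG s t) q₀ with hA
  by_cases hK : Nonempty K
  swap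
  · have hV : IsEmpty V := by
      constructor
      intro v
      have h0 : Fintype.card K = 0 := by
        rw [Fintype.card_eq_zero_iff]
        exact not_nonempty_iff.mp hK
      have hvA : v ∈ A := by
        apply subset_core (W := {v}) _ (Finset.mem_singleton_self v)
        intro u _
        simp only [hq₀, h0]
        omega
      have := hdeg v hvA
      omega
    obtain ⟨c, hc⟩ := hc
    exact ⟨c, fun v => isEmptyElim v, hc, fun v => isEmptyElim v, fun v => isEmptyElim v⟩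
  by_cases hAe : A = ∅
  · exact empty_core hc hAe
  obtain ⟨v0, hv0⟩ := Finset.nonempty_iff_ne_empty.mpr hAe
  have hmk : m ≤ Fintype.card K := by
    have := hdeg v0 hv0
    omega
  set k := Fintype.card K with hk
  have hQk : Q ≤ k := hQm.trans hmk
  -- the blocks
  obtain ⟨r, hr1, hr2⟩ : ∃ r : ℕ, Q * 2 ^ r ≤ k ∧ k < Q * 2 ^ (r + 1) := by
    have hne : k / Q ≠ 0 := by
      have := Nat.div_pos hQk (by omega)
      omega
    refine ⟨Nat.log 2 (k / Q), ?_, ?_⟩
    · have := Nat.pow_log_le_self 2 hne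
      have h2 := (Nat.le_div_iff_mul_le (by omega : 0 < Q)).mp this
      rw [mul_comm]; exact h2
    · have := Nat.lt_pow_succ_log_self (b := 2) (by norm_num) (k / Q)
      have h2 := (Nat.div_lt_iff_lt_mul (by omega : 0 < Q)).mp this
      rw [mul_comm]; exact h2
  have h2r : 0 < 2 ^ r := by positivity
  set q := k / 2 ^ r with hq
  set z := k % 2 ^ r with hz
  have hkq : k = q * 2 ^ r + z := (Nat.div_add_mod' k (2 ^ r)).symm
  have hzr : z < 2 ^ r := Nat.mod_lt _ h2r
  have hqQ : Q ≤ q := (Nat.le_div_iff_mul_le h2r).mpr hr1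
  have hq2Q : q < 2 * Q := (Nat.div_lt_iff_lt_mul h2r).mpr (by rw [pow_succ] at hr2; nlinarith)
  have hq1 : 1 ≤ q := by omega
  have hq0r : (0 : ℝ) < q := by exact_mod_cast hq1
  have hQ0r : (0 : ℝ) < Q := by exact_mod_cast hQ1
  have hm0r : (0 : ℝ) ≤ m := Nat.cast_nonneg _
  have hqQr : (Q : ℝ) ≤ q := by exact_mod_cast hqQ
  have hq2Qr : (q : ℝ) ≤ 2 * Q := by exact_mod_cast hq2Q.le
  have h1q : 1 / (q : ℝ) ≤ δ := (one_div_le_one_div_of_le hQ0r hqQr).trans hQδ
  have hq3x : (q : ℝ) ^ 3 * x ≤ δ := by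
    rw [← hQx]
    exact mul_le_mul_of_nonneg_right (pow_le_pow_left₀ hq0r.le hq2Qr 3) hx0.le
  -- the error bounds
  have he1 : (m : ℝ) / q + q ^ 2 * (x * m) ≤ (m / q) * (1 + δ) := by
    have e1 : (q : ℝ) ^ 2 * (x * m) = (m / q) * (q ^ 3 * x) := by
      field_simp
    rw [e1]
    have : (m : ℝ) / q * (q ^ 3 * x) ≤ m / q * δ := mul_le_mul_of_nonneg_left hq3x (by positivity)
    linarith
  have he2 : (m : ℝ) / q + q ^ 2 * (x * m) ≤ 2 * δ * m := by
    have h1 : (m : ℝ) / q ≤ δ * m := by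
      rw [div_eq_mul_one_div, mul_comm]
      exact mul_le_mul_of_nonneg_right h1q hm0r
    have h2 : (q : ℝ) ^ 2 * (x * m) ≤ δ * m := by
      have h3 : (q : ℝ) ^ 2 * x ≤ q ^ 3 * x := by
        apply mul_le_mul_of_nonneg_right _ hx0.le
        have : (1 : ℝ) ≤ q := by exact_mod_cast hq1
        nlinarith [pow_pos hq0r 2]
      calc (q : ℝ) ^ 2 * (x * m) = (q ^ 2 * x) * m := by ring
        _ ≤ δ * m := mul_le_mul_of_nonneg_right (h3.trans hq3x) hm0r
    linarith
  -- the graph on the core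
  let G : SimpleGraph V :=
    { Adj := fun x y => x ∈ A ∧ y ∈ A ∧ (SG s t).Adj x y
      symm := ⟨fun x y h => ⟨h.2.1, h.1, h.2.2.symm⟩⟩
      loopless := ⟨fun x h => h.2.2.ne rfl⟩ }
  have hND : ∀ v, ((Nb G v).card : ℝ) ≤ k / (1 + ε) := by
    intro v
    rw [le_div_iff₀ (by linarith)]
    by_cases hv : v ∈ A
    · refine le_trans ?_ (hnb v hv)
      rw [mul_comm]
      apply mul_le_mul_of_nonneg_left _ (by linarith)
      have : (Nb G v).card ≤ nb (SG s t) A v := by
        apply Finset.card_le_card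
        intro u hu
        simp only [Nb, mem_filter, mem_univ, true_and] at hu ⊢
        exact ⟨hu.2.1, hu.2.2⟩
      exact_mod_cast this
    · have : Nb G v = ∅ := by
        simp only [Nb, Finset.filter_eq_empty_iff]
        intro u _ h
        exact hv h.1
      rw [this]
      simp
  have hLs : ∀ (c : E → K) v, q₀ v ≤ (missSet s t Set.univ c v).card := by
    intro c v
    have h1 := card_missSet s t (univ : Finset E) c v
    have h2 : ((univ : Finset E) : Set E) = Set.univ := by simp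
    rw [h2] at h1
    simp only [hq₀]
    omega
  obtain ⟨c0, hc0⟩ := hc
  have htok : ∀ v, ∃ S : Finset K, S ⊆ missSet s t Set.univ c0 v ∧
      S.card = if v ∈ A then m else 0 := by
    intro v
    apply Finset.exists_subset_card_eq
    split_ifs with hv
    · have h1 := hLs c0 v
      have h2 := hdeg v hv
      simp only [hq₀] at h1
      omega
    · exact Nat.zero_le _
  choose τ hτ1 hτ2 using htok
  have hV : Valid s t c0 τ := ⟨hc0, fun v a ha => mem_missSet.mp (hτ1 v ha)⟩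
  have hτm : ∀ v, (τ v).card ≤ m := by
    intro v
    rw [hτ2 v]
    split_ifs
    · exact le_refl _
    · exact Nat.zero_le _
  obtain ⟨c1, τ1, Z, Bs, hV1, hc1, hBl, hBpw, hBc, hBcov, hZ1, hB1⟩ :=
    spread hst hx0 hx1 hexp hq1 hkq hzr.le hV hτm
  -- drop the tokens in `Z`
  have htok2 : ∀ v, ∃ S : Finset K, S ⊆ (τ1 v).filter (fun a => a ∉ Z) ∧
      S.card = if v ∈ A then m1 else 0 := by
    intro v
    apply Finset.exists_subset_card_eq
    split_ifs with hv
    · have h1 : (τ1 v).card = m := by rw [hc1 v, hτ2 v, if_pos hv]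
      have h2 := Finset.card_filter_add_card_filter_not (s := τ1 v) (fun a => a ∈ Z)
      have h3 := (hZ1 v).trans he2
      have h4 : ((τ1 v).filter fun a => a ∈ Z).card = own τ1 Z v := rfl
      rw [h4, h1] at h2
      have h5 : (own τ1 Z v : ℝ) + ((τ1 v).filter fun a => a ∉ Z).card = m := by exact_mod_cast h2
      have h6 : (m1 : ℝ) ≤ ((τ1 v).filter fun a => a ∉ Z).card := by linarith
      exact_mod_cast h6
    · exact Nat.zero_le _
  choose τ2 hτ21 hτ22 using htok2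
  have hτ2sub : ∀ v, τ2 v ⊆ τ1 v := fun v => (hτ21 v).trans (Finset.filter_subset _ _)
  have hV2 : Valid s t c1 τ2 := hV1.sub hτ2sub
  have hgr0 : 0 < gam ^ r := pow_pos (lt_of_lt_of_le (by norm_num) gam_ge) r
  have hgr1 : gam ^ r ≤ 1 := pow_le_one₀ gam_nonneg (by linarith [gam_le])
  set zz : ℝ := w / gam ^ r with hzz
  have hzz1 : 1 ≤ zz := by
    rw [hzz, le_div_iff₀ hgr0]
    linarith
  have hgz : gam ^ r * zz = w := by
    rw [hzz]
    field_simp
  have hzz4 : zz ^ 4 = w ^ 4 * 2 ^ r := by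
    rw [hzz, div_pow, ← pow_mul, mul_comm r 4, pow_mul, gam_pow]
    rw [one_div, inv_pow, div_inv_eq_mul]
  obtain ⟨c3, τ3, hV3, hc3, ho3, hl3⟩ := rows hst G r hzz1 Bs hBpw hBc c1 τ2 hV2 (by
    intro B hB v
    rw [hzz4, hw4, hεδ]
    have h1 : (load G τ2 B v : ℝ) ≤ ((Nb G v).card : ℝ) * ((m / q) * (1 + δ)) := by
      unfold load
      rw [Nat.cast_sum]
      calc ∑ w ∈ Nb G v, (((τ2 w).filter fun a => a ∈ B).card : ℝ)
          ≤ (Nb G v).card • ((m / q : ℝ) * (1 + δ)) := by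
            apply Finset.sum_le_card_nsmul
            intro w _
            refine le_trans ?_ ((hB1 w B hB).trans he1)
            have : ((τ2 w).filter fun a => a ∈ B).card ≤ own τ1 B w :=
              Finset.card_le_card (Finset.filter_subset_filter _ (hτ2sub w))
            exact_mod_cast this
        _ = _ := by rw [nsmul_eq_mul]
    refine h1.trans ?_
    have h2 : (k : ℝ) ≤ (q + 1) * 2 ^ r := by
      have : k ≤ (q + 1) * 2 ^ r := by
        rw [add_mul, one_mul]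
        omega
      exact_mod_cast this
    have h3 : ((Nb G v).card : ℝ) ≤ (q + 1) * 2 ^ r / (1 + ε) :=
      (hND v).trans (div_le_div_of_nonneg_right h2 (by linarith))
    have h4 : (0 : ℝ) ≤ (m / q : ℝ) * (1 + δ) := by positivity
    refine (mul_le_mul_of_nonneg_right h3 h4).trans ?_
    have h5 : ((q : ℝ) + 1) / q ≤ 1 + δ := by
      rw [add_div, div_self hq0r.ne']
      linarith
    calc ((q : ℝ) + 1) * 2 ^ r / (1 + ε) * ((m / q : ℝ) * (1 + δ))
        = (((q : ℝ) + 1) / q) * (m * (1 + δ) * 2 ^ r / (1 + ε)) := by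
          field_simp
      _ ≤ (1 + δ) * (m * (1 + δ) * 2 ^ r / (1 + ε)) :=
          mul_le_mul_of_nonneg_right h5 (by positivity)
      _ = m * (1 + δ) ^ 2 / (1 + ε) * 2 ^ r := by ring)
  have hcard3 : ∀ v ∈ A, (τ3 v).card = m1 := by
    intro v hv
    rw [hc3 v, hτ22 v, if_pos hv]
  have hload3 : ∀ v, ∀ a ∈ τ3 v, (load G τ3 {a} v : ℝ) ≤ (1 - 4 * δ) * m1 := by
    intro v a ha
    have haZ : ∃ B ∈ Bs, a ∈ B := by
      by_contra h
      have h' : ∀ B ∈ Bs, a ∉ B := fun B hB haB => h ⟨B, hB, haB⟩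
      have h1 := (ho3 v a h').mp ha
      exact h (hBcov a (Finset.mem_filter.mp (hτ21 v h1)).2)
    obtain ⟨B, hB, haB⟩ := haZ
    refine (hl3 B hB a haB v ha).trans (le_trans ?_ hfin)
    apply pow_le_pow_left₀ (zr_nonneg r zz (by linarith))
    refine (zr_le r zz).trans ?_
    rw [hgz]
  -- the lists
  obtain ⟨S0, -, hS0⟩ := Finset.exists_subset_card_eq (s := (univ : Finset K)) (n := m1) (by
    rw [Finset.card_univ]; omega)
  let L : V → Finset K := fun v => if v ∈ A then τ3 v else S0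
  have hLA : ∀ v ∈ A, L v = τ3 v := fun v hv => by simp only [L, if_pos hv]
  have hLc : ∀ v, (L v).card = m1 := by
    intro v
    by_cases hv : v ∈ A
    · rw [hLA v hv]; exact hcard3 v hv
    · simp only [L, if_neg hv]; exact hS0
  obtain ⟨f, hf1, hf2⟩ := hmr m1 hmrm1 V K G L hLc (by
    intro v a ha
    by_cases hv : v ∈ A
    · refine le_trans ?_ (hload3 v a (by rw [← hLA v hv]; exact ha))
      have : (NS G L univ v a).card ≤ load G τ3 {a} v := by
        unfold load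
        have h1 : NS G L univ v a ⊆ Nb G v := by
          intro u hu
          simp only [NS, Nb, mem_filter, mem_univ, true_and] at hu ⊢
          exact hu.1
        calc (NS G L univ v a).card = ∑ u ∈ NS G L univ v a, 1 := by simp
          _ ≤ ∑ u ∈ NS G L univ v a, ((τ3 u).filter fun a' => a' ∈ ({a} : Finset K)).card := by
              apply Finset.sum_le_sum
              intro u hu
              simp only [NS, mem_filter, mem_univ, true_and] at hu
              have hau : a ∈ τ3 u := by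
                rw [← hLA u hu.1.2.1]
                exact hu.2
              exact Finset.card_pos.mpr ⟨a, Finset.mem_filter.mpr ⟨hau, Finset.mem_singleton_self a⟩⟩
          _ ≤ _ := Finset.sum_le_sum_of_subset h1
      exact_mod_cast this
    · have : NS G L univ v a = ∅ := by
        simp only [NS, Finset.filter_eq_empty_iff]
        intro u _ h
        exact hv h.1.1
      rw [this]
      simp only [Finset.card_empty, Nat.cast_zero]
      apply mul_nonneg _ (Nat.cast_nonneg _)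
      linarith)
  obtain ⟨g, hg1, hg2⟩ := peel (G := SG s t) (q := q₀) (fun v => missSet s t Set.univ c3 v) (hLs c3) f
    (by
      intro v hv
      have h1 : f v ∈ τ3 v := by
        rw [← hLA v hv]
        exact hf1 v
      exact mem_missSet.mpr (hV3.2 v _ h1))
    (fun u hu v hv huv => hf2 u v ⟨hu, hv, huv⟩)
  exact ⟨c3, g, hV3.1, fun v => mem_missSet.mp (hg1 v), hg2⟩

end TC19
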