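import Pool.Agent.Lib_helper19.TC.Final
import Pool.Agent.Lib_helper19.TC.Thick

set_option autoImplicit false

/-!
# The theorem on multigraphs without vertices with nearly `k` distinct neighbours
-/

namespace TC19

open Finset Classical

theorem final_thick {ε : ℝ} (hε : 0 < ε) : ∃ m₀ : ℕ, ∀ (n m : ℕ) (src tgt : Fin m → Fin n),
    (∀ e, src e ≠ tgt e) → ∀ Δ μ k : ℕ, (∀ v, Deg src tgt v ≤ Δ) →
    (∀ u v, u ≠ v → Mult src tgt u v ≤ μ) → (EdgeCol src tgt k ∨ Δ + μ ≤ k) →
    (∀ W : Finset (Fin n), (∀ v ∈ W, k ≤ Deg src tgt v + Nbrs src tgt W v) →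
      ∀ v ∈ W, Deg src tgt v + m₀ ≤ k ∧ (1 + ε) * Nbrs src tgt W v ≤ (k : ℝ)) →
    TotCol src tgt k := by
  have hε' : 0 < min ε 1 := lt_min hε one_pos
  obtain ⟨m₀, hm₀⟩ := thick.{0, 0, 0} hε' (min_le_right _ _)
  refine ⟨m₀, ?_⟩
  intro n m src tgt hst Δ μ k hΔ hμ hk H
  apply totCol_of hst
  have hEC := edgeCol_of hst hΔ hμ hk
  have hAspec : ∀ v ∈ core (SG src tgt) (fun v => Fintype.card (Fin k) - dg src tgt univ v),
      k ≤ Deg src tgt v + Nbrs src tgt
        (core (SG src tgt) (fun v => Fintype.card (Fin k) - dg src tgt univ v)) v := by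
    intro v hv
    have h1 := core_spec v hv
    rw [Fintype.card_fin, dg_eq] at h1
    rw [← nb_eq]
    have h2 : (core (SG src tgt) fun v => Fintype.card (Fin k) - dg src tgt univ v) =
        core (SG src tgt) fun v => k - dg src tgt univ v := by
      rw [Fintype.card_fin]
    rw [h2]
    omega
  apply hm₀ (Fin n) (Fin m) (Fin k) src tgt hst hEC
  · intro v hv
    rw [Fintype.card_fin, dg_eq]
    exact (H _ hAspec v hv).1
  · intro v hv
    have h1 := (H _ hAspec v hv).2
    rw [Fintype.card_fin] at h1 hv ⊢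
    rw [nb_eq]
    refine le_trans ?_ h1
    apply mul_le_mul_of_nonneg_right _ (Nat.cast_nonneg _)
    have := min_le_left ε 1
    linarith

end TC19
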