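import Pool.Agent.Lib_helper19.TC.RS2

set_option autoImplicit false

/-!
# List colourings when the colour degrees are a little smaller than the lists: explicit sizes
-/

namespace TC19

open Finset Classical

/-- `rs` for given parameters -/
theorem rs_core {V K : Type*} {η : ℝ} (hη0 : 0 < η) (hη : η ≤ 1 / 4) {J m : ℕ}
    (hJ : 24 / η ^ 2 ≤ J)
    (hmain : (m : ℝ) ^ 2 * J * Real.exp (-(η ^ 2 / (16 * J) * m)) ≤ η / 6)
    (hJη : (J : ℝ) ≤ η * m) (h3η : 3 ≤ η * m) [Fintype V] (G : SimpleGraph V) (τ : V → Finset K)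
    (hτ : ∀ v, (τ v).card = m)
    (hM : ∀ v, ∀ a ∈ τ v, ((NS G τ univ v a).card : ℝ) ≤ (1 - 4 * η) * m) :
    ∃ g : V → K, (∀ v, g v ∈ τ v) ∧ ∀ u w, G.Adj u w → g u ≠ g w := by
  have hJ0 : (0 : ℝ) < J := lt_of_lt_of_le (by positivity) hJ
  have hJ1 : 1 ≤ J := by exact_mod_cast hJ0
  have hJ1' : (1 : ℝ) ≤ J := by exact_mod_cast hJ1
  set c : ℝ := η ^ 2 / (16 * J) with hc
  have hc0 : 0 < c := by positivity
  have hm0 : (0 : ℝ) < m := by
    by_contra h
    push Not at h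
    nlinarith
  set q0 : ℝ := Real.exp (-(c * m)) with hq0
  have hq00 : 0 ≤ q0 := Real.exp_nonneg _
  have hq01 : q0 < 1 := by
    rw [hq0, Real.exp_lt_one_iff]
    have : 0 < c * m := by positivity
    linarith
  set T : ℝ := (1 - 3 * η) * m / J with hT
  set M : ℝ := (1 - 4 * η) * m with hMdef
  have hT0 : 0 ≤ T := by
    rw [hT]
    apply div_nonneg _ hJ0.le
    apply mul_nonneg _ hm0.le
    linarith
  have hM0 : 0 ≤ M := mul_nonneg (by linarith) hm0.le
  have hMm : M ≤ m := by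
    rw [hMdef]
    nlinarith
  set s : ℝ := η / 4 with hs
  have hs0 : 0 ≤ s := by positivity
  have hs1 : s ≤ 1 := by rw [hs]; linarith
  have hexp := exp_bound hs0 hs1
  set φ : ℝ := 1 + η / 2 with hφ
  have hφ1 : 1 ≤ φ := by rw [hφ]; linarith
  have hmJ : 0 < (m : ℝ) / J := by positivity
  have hcm : c * m = (m / J) * (η ^ 2 / 16) := by
    rw [hc]
    field_simp
  obtain ⟨part, hpart⟩ := parts G τ (fun v => (hτ v).le) hJ1 hM0 hM hφ1 hs0 hq00 hq01 (T := T) (by
      have h5 : (m : ℝ) * M * J * q0 ≤ η / 6 := by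
        calc (m : ℝ) * M * J * q0 ≤ m * m * J * q0 := by
              apply mul_le_mul_of_nonneg_right _ hq00
              apply mul_le_mul_of_nonneg_right _ hJ0.le
              exact mul_le_mul_of_nonneg_left hMm hm0.le
          _ = m ^ 2 * J * q0 := by ring
          _ ≤ η / 6 := hmain
      rw [hφ]
      nlinarith) (by
      rw [hq0]
      apply Real.exp_le_exp.mpr
      have h6 : φ * (Real.exp s - 1) * (M / J) ≤ φ * (s + s ^ 2) * (M / J) := by
        apply mul_le_mul_of_nonneg_right _ (by positivity)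
        exact mul_le_mul_of_nonneg_left hexp (by linarith)
      have h7 : φ * (s + s ^ 2) * (M / J) - s * T ≤ -((m / J) * (η ^ 2 / 16)) := by
        have e1 : φ * (s + s ^ 2) * (M / J) - s * T =
            (m / J) * (φ * (s + s ^ 2) * (1 - 4 * η) - s * (1 - 3 * η)) := by
          rw [hT, hMdef]; ring
        rw [e1, ← mul_neg]
        apply mul_le_mul_of_nonneg_left _ hmJ.le
        rw [hφ, hs]
        nlinarith [pow_pos hη0 2, pow_pos hη0 3, pow_pos hη0 4]
      rw [hcm]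
      linarith)
  set t : ℕ := ⌊(1 - η) * m / J⌋₊ with ht
  have htle : (t : ℝ) ≤ (1 - η) * m / J := Nat.floor_le (by
    apply div_nonneg _ hJ0.le
    exact mul_nonneg (by linarith) hm0.le)
  have htge : (1 - 2 * η) * m / J ≤ t := by
    have h8 := Nat.lt_floor_add_one ((1 - η) * m / J)
    have h9 : 1 ≤ η * m / J := by rw [le_div_iff₀ hJ0]; linarith
    have e1 : (1 - 2 * η) * m / J = (1 - η) * m / J - η * m / J := by ring
    rw [e1]
    have : (1 - η) * m / J < (t : ℝ) + 1 := h8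
    linarith
  have hJt : (J : ℝ) * t ≤ (1 - η) * m := by
    rw [le_div_iff₀ hJ0] at htle
    linarith
  have hJtm : J * t ≤ m := by
    have : ((J * t : ℕ) : ℝ) ≤ m := by
      push_cast
      nlinarith
    exact_mod_cast this
  obtain ⟨ℓ₀, hℓ₀⟩ : ∃ ℓ₀ : ℕ, ℓ₀ + J * t = m := ⟨m - J * t, by omega⟩
  have hℓ₀r : η * m ≤ (ℓ₀ : ℝ) := by
    have : (ℓ₀ : ℝ) + J * t = m := by exact_mod_cast hℓ₀
    linarith
  have hℓ₀2 : 2 ≤ ℓ₀ := by
    have : (2 : ℝ) ≤ ℓ₀ := by linarith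
    exact_mod_cast this
  apply rounds G τ hτ part hT0 hM0 hpart hM hφ1 (φ := φ) (s := s) (qB := q0) (t := t) (ℓ₀ := ℓ₀) _ hs0
    hq00 hq01 hℓ₀2 hℓ₀.le
  · -- h1
    have h10 : 4 * T / ℓ₀ ≤ η / 6 := by
      have hℓpos : (0 : ℝ) < ℓ₀ := by linarith
      rw [div_le_iff₀ hℓpos]
      have h11 : T ≤ m / J := by
        rw [hT]
        apply div_le_div_of_nonneg_right _ hJ0.le
        nlinarith
      have h12 : 24 ≤ η ^ 2 * J := by
        rw [div_le_iff₀ (by positivity)] at hJ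
        linarith
      have h13 : 4 * ((m : ℝ) / J) ≤ η / 6 * (η * m) := by
        rw [← mul_div_assoc, div_le_iff₀ hJ0]
        nlinarith
      have h14 : η / 6 * (η * m) ≤ η / 6 * ℓ₀ := mul_le_mul_of_nonneg_left hℓ₀r (by positivity)
      linarith
    have h15 : (m : ℝ) * M * q0 ≤ η / 6 := by
      calc (m : ℝ) * M * q0 ≤ m * m * q0 :=
            mul_le_mul_of_nonneg_right (mul_le_mul_of_nonneg_left hMm hm0.le) hq00
        _ ≤ m * m * q0 * J := le_mul_of_one_le_right (by positivity) hJ1'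
        _ = m ^ 2 * J * q0 := by ring
        _ ≤ η / 6 := hmain
    rw [hφ]
    nlinarith
  · -- hB
    rw [hq0]
    apply Real.exp_le_exp.mpr
    have h6 : φ * (Real.exp s - 1) * T ≤ φ * (s + s ^ 2) * T := by
      apply mul_le_mul_of_nonneg_right _ hT0
      exact mul_le_mul_of_nonneg_left hexp (by linarith)
    have h6' : s * ((1 - 2 * η) * m / J) ≤ s * t := mul_le_mul_of_nonneg_left htge hs0
    have h7 : φ * (s + s ^ 2) * T - s * ((1 - 2 * η) * m / J) ≤ -((m / J) * (η ^ 2 / 16)) := by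
      have e1 : φ * (s + s ^ 2) * T - s * ((1 - 2 * η) * m / J) =
          (m / J) * (φ * (s + s ^ 2) * (1 - 3 * η) - s * (1 - 2 * η)) := by
        rw [hT]; ring
      rw [e1, ← mul_neg]
      apply mul_le_mul_of_nonneg_left _ hmJ.le
      rw [hφ, hs]
      nlinarith [pow_pos hη0 2, pow_pos hη0 3, pow_pos hη0 4]
    rw [hcm]
    linarith
  · rw [hφ]
    nlinarith

/-- the constant in `rs3` -/
noncomputable def Ars : ℝ := 150 * (13 : ℕ).factorial * 400 ^ 13

theorem Ars_ge : (10000 : ℝ) ≤ Ars := by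
  unfold Ars
  have h1 : (1 : ℝ) ≤ ((13 : ℕ).factorial : ℝ) := by exact_mod_cast Nat.factorial_pos 13
  have h2 : (400 : ℝ) ≤ 400 ^ 13 := by norm_num
  nlinarith

/-- The theorem of Reed and Sudakov with an explicit size of the lists. -/
theorem rs3 {V K : Type*} {η : ℝ} (hη0 : 0 < η) (hη : η ≤ 1 / 4) {m : ℕ} (hm : Ars / η ^ 5 ≤ m)
    [Fintype V] (G : SimpleGraph V) (τ : V → Finset K) (hτ : ∀ v, (τ v).card = m)
    (hM : ∀ v, ∀ a ∈ τ v, ((NS G τ univ v a).card : ℝ) ≤ (1 - 4 * η) * m) :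
    ∃ g : V → K, (∀ v, g v ∈ τ v) ∧ ∀ u w, G.Adj u w → g u ≠ g w := by
  have hA := Ars_ge
  have hm5 : Ars ≤ η ^ 5 * m := by
    rw [div_le_iff₀ (by positivity)] at hm
    linarith
  have hη5 : 0 < η ^ 5 := by positivity
  have hm0 : (0 : ℝ) < m := by
    by_contra h
    push Not at h
    nlinarith
  have hη1 : η ≤ 1 := by linarith
  have hη2 : η ^ 2 ≤ 1 := pow_le_one₀ hη0.le hη1
  have hη5' : η ^ 5 ≤ η ^ 3 := pow_le_pow_of_le_one hη0.le hη1 (by norm_num)
  have hη3' : η ^ 3 ≤ η := by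
    have := pow_le_pow_of_le_one hη0.le hη1 (show 1 ≤ 3 by norm_num)
    rwa [pow_one] at this
  have hm3 : 10000 ≤ η ^ 3 * m := by
    have : η ^ 5 * m ≤ η ^ 3 * m := mul_le_mul_of_nonneg_right hη5' hm0.le
    linarith
  have hm1 : 10000 ≤ η * m := by
    have : η ^ 3 * m ≤ η * m := mul_le_mul_of_nonneg_right hη3' hm0.le
    linarith
  set J : ℕ := ⌈24 / η ^ 2⌉₊ with hJdef
  have hJ : 24 / η ^ 2 ≤ J := Nat.le_ceil _
  have hJ25 : (J : ℝ) ≤ 25 / η ^ 2 := by
    have h1 : (J : ℝ) < 24 / η ^ 2 + 1 := Nat.ceil_lt_add_one (by positivity)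
    have h2 : (1 : ℝ) ≤ 1 / η ^ 2 := by
      rw [le_div_iff₀ (by positivity)]
      linarith
    have h3 : (25 : ℝ) / η ^ 2 = 24 / η ^ 2 + 1 / η ^ 2 := by ring
    rw [h3]
    linarith
  have hJ0 : (0 : ℝ) < J := lt_of_lt_of_le (by positivity) hJ
  have hJη2 : (J : ℝ) * η ^ 2 ≤ 25 := by
    rw [le_div_iff₀ (by positivity)] at hJ25
    exact hJ25
  apply rs_core hη0 hη hJ _ _ (by linarith) G τ hτ hM
  · -- the exponential bound
    set y : ℝ := η ^ 2 / (16 * J) * m with hy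
    have hy0 : η ^ 4 * m / 400 ≤ y := by
      rw [hy, div_mul_eq_mul_div, div_le_div_iff₀ (by norm_num) (by positivity)]
      have h1 : η ^ 2 * m * (J * η ^ 2) ≤ η ^ 2 * m * 25 :=
        mul_le_mul_of_nonneg_left hJη2 (by positivity)
      nlinarith
    set z : ℝ := η ^ 4 * m / 400 with hz
    have hz0 : 0 < z := by positivity
    have h1 : z ^ 13 / (13 : ℕ).factorial ≤ Real.exp y :=
      (Real.pow_div_factorial_le_exp z hz0.le 13).trans (Real.exp_le_exp.mpr hy0)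
    have hf0 : (0 : ℝ) < ((13 : ℕ).factorial : ℝ) := by exact_mod_cast Nat.factorial_pos 13
    have h2 : Real.exp (-y) ≤ (13 : ℕ).factorial / z ^ 13 := by
      rw [Real.exp_neg, ← inv_div]
      exact inv_anti₀ (by positivity) h1
    have h3 : (m : ℝ) ^ 2 * J * Real.exp (-y) ≤
        m ^ 2 * (25 / η ^ 2) * ((13 : ℕ).factorial / z ^ 13) := by
      apply mul_le_mul _ h2 (Real.exp_nonneg _) (by positivity)
      exact mul_le_mul_of_nonneg_left hJ25 (by positivity)
    refine h3.trans ?_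
    have h4 : (m : ℝ) ^ 2 * (25 / η ^ 2) * ((13 : ℕ).factorial / z ^ 13) =
        (η / 6) * (Ars / (η ^ 5 * m) ^ 11) := by
      rw [hz]
      unfold Ars
      field_simp
      ring
    rw [h4]
    have h5 : Ars ≤ (η ^ 5 * m) ^ 11 := by
      have h6 : (1 : ℝ) ≤ η ^ 5 * m := by linarith
      calc Ars ≤ η ^ 5 * m := hm5
        _ = (η ^ 5 * m) ^ 1 := (pow_one _).symm
        _ ≤ (η ^ 5 * m) ^ 11 := pow_le_pow_right₀ h6 (by norm_num)
    have h7 : Ars / (η ^ 5 * m) ^ 11 ≤ 1 := by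
      rw [div_le_one (by positivity)]
      exact h5
    calc (η / 6) * (Ars / (η ^ 5 * m) ^ 11) ≤ (η / 6) * 1 :=
          mul_le_mul_of_nonneg_left h7 (by positivity)
      _ = η / 6 := mul_one _
  · refine hJ25.trans ?_
    rw [div_le_iff₀ (by positivity)]
    nlinarith

end TC19
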