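import Pool.Agent.Lib_helper19.TC.Final
import Pool.Agent.Lib_helper19.TC.Thick3

set_option autoImplicit false

/-!
# The theorem on multigraphs without vertices with nearly `k` distinct neighbours, explicit form
-/

namespace TC19

open Finset Classical

theorem Cth_ge : (1 : ℝ) ≤ Cth := by
  have h := Ars_ge
  unfold Cth Ath
  nlinarith

theorem final_thick3 : ∃ C : ℕ, ∀ (n m : ℕ) (src tgt : Fin m → Fin n),
    (∀ e, src e ≠ tgt e) → ∀ Δ μ k D L : ℕ, (∀ v, Deg src tgt v ≤ Δ) →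
    (∀ u v, u ≠ v → Mult src tgt u v ≤ μ) → (EdgeCol src tgt k ∨ Δ + μ ≤ k) →
    C ≤ L → C * D ^ 5 ≤ L * (k - D) ^ 5 →
    (∀ W : Finset (Fin n), (∀ v ∈ W, k ≤ Deg src tgt v + Nbrs src tgt W v) →
      ∀ v ∈ W, Deg src tgt v + L ≤ k ∧ Nbrs src tgt W v ≤ D) →
    TotCol src tgt k := by
  refine ⟨⌈Cth⌉₊, ?_⟩
  intro n m src tgt hst Δ μ k D L hΔ hμ hk hCL hCD H
  have hCth1 := Cth_ge
  have hCle : Cth ≤ (⌈Cth⌉₊ : ℝ) := Nat.le_ceil _
  have hC0 : 0 < ⌈Cth⌉₊ := Nat.ceil_pos.mpr (by linarith)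
  have hCL' : (⌈Cth⌉₊ : ℝ) ≤ L := by exact_mod_cast hCL
  -- the choice of `ε`
  obtain ⟨ε, hε0, hε1, hεD, hεL⟩ : ∃ ε : ℝ, 0 < ε ∧ ε ≤ 1 ∧ (1 + ε) * D ≤ k ∧ Cth / ε ^ 5 ≤ L := by
    rcases Nat.eq_zero_or_pos D with hD | hD
    · refine ⟨1, one_pos, le_refl _, ?_, ?_⟩
      · rw [hD]
        simp
      · rw [one_pow, div_one]
        linarith
    have hkD : 0 < k - D := by
      rcases Nat.eq_zero_or_pos (k - D) with h | h
      · exfalso
        rw [h] at hCD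
        have : 0 < ⌈Cth⌉₊ * D ^ 5 := by positivity
        rw [zero_pow (by norm_num), mul_zero] at hCD
        omega
      · exact h
    have hDr : (0 : ℝ) < D := by exact_mod_cast hD
    have hkDr : ((k - D : ℕ) : ℝ) = (k : ℝ) - D := by
      rw [Nat.cast_sub (by omega)]
    have hkD0 : (0 : ℝ) < (k : ℝ) - D := by
      rw [← hkDr]
      exact_mod_cast hkD
    have hCDr : (⌈Cth⌉₊ : ℝ) * (D : ℝ) ^ 5 ≤ L * ((k : ℝ) - D) ^ 5 := by
      rw [← hkDr]
      exact_mod_cast hCD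
    have hL0 : (0 : ℝ) ≤ L := Nat.cast_nonneg _
    by_cases h : ((k : ℝ) - D) / D ≤ 1
    · refine ⟨((k : ℝ) - D) / D, by positivity, h, ?_, ?_⟩
      · have : (1 + ((k : ℝ) - D) / D) * D = k := by
          field_simp
          ring
        exact this.le
      · rw [div_pow, div_div_eq_mul_div, div_le_iff₀ (by positivity)]
        have : Cth * (D : ℝ) ^ 5 ≤ ⌈Cth⌉₊ * (D : ℝ) ^ 5 :=
          mul_le_mul_of_nonneg_right hCle (by positivity)
        linarith
    · push Not at h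
      rw [lt_div_iff₀ hDr] at h
      refine ⟨1, one_pos, le_refl _, by linarith, ?_⟩
      rw [one_pow, div_one]
      linarith
  apply totCol_of hst
  have hEC := edgeCol_of hst hΔ hμ hk
  have hAspec : ∀ v ∈ core (SG src tgt) (fun v => Fintype.card (Fin k) - dg src tgt univ v),
      k ≤ Deg src tgt v + Nbrs src tgt
        (core (SG src tgt) (fun v => Fintype.card (Fin k) - dg src tgt univ v)) v := by
    intro v hv
    have h1 := core_spec v hv
    rw [Fintype.card_fin, dg_eq] at h1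
    rw [← nb_eq]
    have h2 : (core (SG src tgt) fun v => Fintype.card (Fin k) - dg src tgt univ v) =
        core (SG src tgt) fun v => k - dg src tgt univ v := by
      rw [Fintype.card_fin]
    rw [h2]
    omega
  apply thick3 hε0 hε1 src tgt hst hEC
  · intro v hv
    rw [Fintype.card_fin, dg_eq]
    have h1 := (H _ hAspec v hv).1
    have h2 : (Deg src tgt v : ℝ) + L ≤ k := by exact_mod_cast h1
    linarith
  · intro v hv
    have h1 := (H _ hAspec v hv).2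
    rw [Fintype.card_fin] at h1 hv ⊢
    rw [nb_eq]
    refine le_trans ?_ hεD
    apply mul_le_mul_of_nonneg_left _ (by linarith)
    exact_mod_cast h1

theorem nbrs_le_deg {n m : ℕ} (src tgt : Fin m → Fin n) (W : Finset (Fin n)) (v : Fin n) :
    Nbrs src tgt W v ≤ Deg src tgt v := by
  unfold Nbrs Deg
  have h : ∀ u : {u : Fin n // u ∈ W ∧ (Under src tgt).Adj v u}, ∃ e : Fin m,
      (src e = v ∧ tgt e = u.1) ∨ (src e = u.1 ∧ tgt e = v) := by
    rintro ⟨u, -, hu⟩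
    rw [Under, SimpleGraph.fromRel_adj] at hu
    obtain ⟨-, ⟨e, he⟩ | ⟨e, he⟩⟩ := hu
    · exact ⟨e, Or.inl he⟩
    · exact ⟨e, Or.inr he⟩
  choose f hf using h
  apply Nat.card_le_card_of_injective
    (fun u => (⟨f u, by rcases hf u with h | h; exacts [Or.inl h.1, Or.inr h.2]⟩ :
      {e : Fin m // src e = v ∨ tgt e = v}))
  intro u u' huu
  have h1 : f u = f u' := congrArg Subtype.val huu
  have h2 := hf u
  have h3 := hf u'
  rw [← h1] at h3
  have hne : u.1 ≠ v := fun h => u.2.2.ne h.symm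
  have hne' : u'.1 ≠ v := fun h => u'.2.2.ne h.symm
  apply Subtype.ext
  rcases h2 with ⟨h4, h5⟩ | ⟨h4, h5⟩
  · rcases h3 with ⟨h6, h7⟩ | ⟨h6, h7⟩
    · exact h5.symm.trans h7
    · exact absurd (h6.symm.trans h4) hne'
  · rcases h3 with ⟨h6, h7⟩ | ⟨h6, h7⟩
    · exact absurd (h4.symm.trans h6) hne
    · exact h4.symm.trans h6

/-- The bound `Δ + μ` when `μ` is large. -/
theorem cor_thick3 : ∃ C : ℕ, ∀ (n m : ℕ) (src tgt : Fin m → Fin n),
    (∀ e, src e ≠ tgt e) → ∀ Δ μ k : ℕ, (∀ v, Deg src tgt v ≤ Δ) →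
    (∀ u v, u ≠ v → Mult src tgt u v ≤ μ) → (EdgeCol src tgt k ∨ Δ + μ ≤ k) →
    Δ + C ≤ k → C * Δ ^ 5 ≤ (k - Δ) ^ 6 → TotCol src tgt k := by
  obtain ⟨C, hC⟩ := final_thick3
  refine ⟨C, ?_⟩
  intro n m src tgt hst Δ μ k hΔ hμ hk h1 h2
  apply hC n m src tgt hst Δ μ k Δ (k - Δ) hΔ hμ hk (by omega)
  · calc C * Δ ^ 5 ≤ (k - Δ) ^ 6 := h2
      _ = (k - Δ) * (k - Δ) ^ 5 := by ring
  · intro W _ v _
    have h3 := hΔ v
    exact ⟨by omega, (nbrs_le_deg src tgt W v).trans h3⟩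

end TC19
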