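import Mathlib

set_option autoImplicit false

/-!
# Kempe chains in loopless multigraphs

A multigraph is given by two end maps `s t : E → V`.
-/

namespace TC19

open Finset Classical

variable {V E K : Type*}

/-- the edge `e` is incident with the vertex `v` -/
def Inc (s t : E → V) (e : E) (v : V) : Prop := s e = v ∨ t e = v

/-- `c` restricted to the edge set `F` is a proper edge colouring -/
def Proper (s t : E → V) (F : Set E) (c : E → K) : Prop :=
  ∀ e ∈ F, ∀ f ∈ F, e ≠ f → ∀ v, Inc s t e v → Inc s t f v → c e ≠ c f

/-- the colour `a` is missing at the vertex `v` (with respect to the edges in `F`) -/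
def Miss (s t : E → V) (F : Set E) (c : E → K) (v : V) (a : K) : Prop :=
  ∀ e ∈ F, Inc s t e v → c e ≠ a

/-- the underlying simple graph of the edges of `F` with colours `a`, `b` -/
def HG (s t : E → V) (F : Set E) (c : E → K) (a b : K) : SimpleGraph V where
  Adj x y := x ≠ y ∧ ∃ e ∈ F, (c e = a ∨ c e = b) ∧ Inc s t e x ∧ Inc s t e y
  symm := ⟨fun x y h => ⟨h.1.symm, by
    obtain ⟨e, he, hc, hx, hy⟩ := h.2
    exact ⟨e, he, hc, hy, hx⟩⟩⟩
  loopless := ⟨fun x h => h.1 rfl⟩

theorem inc_left (s t : E → V) (e : E) : Inc s t e (s e) := Or.inl rfl

theorem inc_right (s t : E → V) (e : E) : Inc s t e (t e) := Or.inr rfl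

theorem HG_reach {s t : E → V} {F : Set E} {c : E → K} {a b : K} {e : E} (he : e ∈ F)
    (hc : c e = a ∨ c e = b) {x y : V} (hx : Inc s t e x) (hy : Inc s t e y) :
    (HG s t F c a b).connectedComponentMk x = (HG s t F c a b).connectedComponentMk y := by
  by_cases hxy : x = y
  · rw [hxy]
  · apply SimpleGraph.ConnectedComponent.connectedComponentMk_eq_of_adj
    exact ⟨hxy, e, he, hc, hx, hy⟩

/-- Every component of the graph of the colours `a`, `b` contains at most two vertices at which
one of the two colours is missing. -/
theorem comp_le_two_aux [Fintype V] [Fintype E] {s t : E → V} (hst : ∀ e, s e ≠ t e) {F : Set E}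
    {c : E → K} (hp : Proper s t F c) {a b : K} (H : SimpleGraph V) (hH : H = HG s t F c a b)
    (C : H.ConnectedComponent) :
    (univ.filter fun v => H.connectedComponentMk v = C ∧
      (Miss s t F c v a ∨ Miss s t F c v b)).card ≤ 2 := by
  have hreach : ∀ {e : E}, e ∈ F → (c e = a ∨ c e = b) → ∀ {x y : V}, Inc s t e x → Inc s t e y →
      H.connectedComponentMk x = H.connectedComponentMk y := by
    intro e he hc x y hx hy
    subst hH
    exact HG_reach he hc hx hy
  set S : Finset V := univ.filter fun v => H.connectedComponentMk v = C with hS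
  set EC : Finset E := univ.filter fun e => e ∈ F ∧ (c e = a ∨ c e = b) ∧
    H.connectedComponentMk (s e) = C with hEC
  set U : Finset V := univ.filter fun v => H.connectedComponentMk v = C ∧
      (Miss s t F c v a ∨ Miss s t F c v b) with hU
  -- double counting
  have h1 : ∑ v ∈ S, (EC.filter fun e => Inc s t e v).card = 2 * EC.card := by
    have h := Finset.sum_card_bipartiteAbove_eq_sum_card_bipartiteBelow
      (s := S) (t := EC) (fun v e => Inc s t e v)
    unfold Finset.bipartiteAbove Finset.bipartiteBelow at h
    rw [h, Finset.sum_const_nat (m := 2), mul_comm]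
    intro e he
    have heC : e ∈ F ∧ (c e = a ∨ c e = b) ∧ H.connectedComponentMk (s e) = C := by
      simpa [hEC] using he
    have : (S.filter fun v => Inc s t e v) = {s e, t e} := by
      ext v
      simp only [hS, mem_filter, mem_univ, true_and, mem_insert, mem_singleton]
      constructor
      · rintro ⟨-, h | h⟩
        · exact Or.inl h.symm
        · exact Or.inr h.symm
      · rintro (rfl | rfl)
        · exact ⟨heC.2.2, inc_left s t e⟩
        · refine ⟨?_, inc_right s t e⟩
          rw [← heC.2.2]
          exact hreach heC.1 heC.2.1 (inc_right s t e) (inc_left s t e)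
    rw [this, Finset.card_pair (hst e)]
  have hdeg2 : ∀ v, (EC.filter fun e => Inc s t e v).card ≤ 2 := by
    intro v
    have : (EC.filter fun e => Inc s t e v) ⊆
        (EC.filter fun e => Inc s t e v ∧ c e = a) ∪ (EC.filter fun e => Inc s t e v ∧ c e = b) := by
      intro e he
      simp only [hEC, mem_filter, mem_union, mem_univ, true_and] at he ⊢
      rcases he.1.2.1 with h | h
      · exact Or.inl ⟨he.1, he.2, h⟩
      · exact Or.inr ⟨he.1, he.2, h⟩
    have hone : ∀ d : K, (EC.filter fun e => Inc s t e v ∧ c e = d).card ≤ 1 := by
      intro d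
      rw [Finset.card_le_one]
      intro e he f hf
      simp only [hEC, mem_filter, mem_univ, true_and] at he hf
      by_contra hne
      exact hp e he.1.1 f hf.1.1 hne v he.2.1 hf.2.1 (he.2.2.trans hf.2.2.symm)
    calc _ ≤ _ := Finset.card_le_card this
      _ ≤ _ := Finset.card_union_le _ _
      _ ≤ 1 + 1 := Nat.add_le_add (hone a) (hone b)
  have hdeg1 : ∀ v ∈ U, (EC.filter fun e => Inc s t e v).card ≤ 1 := by
    intro v hv
    have hv' : Miss s t F c v a ∨ Miss s t F c v b := by
      have : H.connectedComponentMk v = C ∧ (Miss s t F c v a ∨ Miss s t F c v b) := by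
        simpa [hU] using hv
      exact this.2
    rw [Finset.card_le_one]
    intro e he f hf
    simp only [hEC, mem_filter, mem_univ, true_and] at he hf
    by_contra hne
    apply hp e he.1.1 f hf.1.1 hne v he.2 hf.2
    rcases hv' with h | h
    · have h1 := h e he.1.1 he.2
      have h2 := h f hf.1.1 hf.2
      rcases he.1.2.1 with h3 | h3
      · exact absurd h3 h1
      · rcases hf.1.2.1 with h4 | h4
        · exact absurd h4 h2
        · rw [h3, h4]
    · have h1 := h e he.1.1 he.2
      have h2 := h f hf.1.1 hf.2
      rcases he.1.2.1 with h3 | h3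
      · rcases hf.1.2.1 with h4 | h4
        · rw [h3, h4]
        · exact absurd h4 h2
      · exact absurd h3 h1
  have hUS : U ⊆ S := by
    intro v hv
    simp only [hU, hS, mem_filter, mem_univ, true_and] at hv ⊢
    exact hv.1
  have h2 : ∑ v ∈ S, (EC.filter fun e => Inc s t e v).card + U.card ≤ 2 * S.card := by
    have e1 : U.card = ∑ v ∈ S, if v ∈ U then 1 else 0 := by
      rw [Finset.sum_ite_mem, Finset.inter_eq_right.mpr hUS]
      simp
    rw [e1, ← Finset.sum_add_distrib]
    calc _ ≤ ∑ v ∈ S, 2 := by
          apply Finset.sum_le_sum
          intro v _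
          by_cases hv : v ∈ U
          · simp only [hv, if_true]
            have := hdeg1 v hv
            omega
          · simp only [hv, if_false]
            have := hdeg2 v
            omega
      _ = 2 * S.card := by simp [mul_comm]
  -- connectivity
  have h3 : S.card ≤ EC.card + 1 := by
    have hc := SimpleGraph.ConnectedComponent.connected_toSimpleGraph C
    have h := hc.card_vert_le_card_edgeSet_add_one
    have hcardS : Nat.card C = S.card := by
      have : S = C.supp.toFinset := by
        ext v
        simp [hS, SimpleGraph.ConnectedComponent.mem_supp_iff]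
      rw [this]
      rw [Set.toFinset_card, ← Nat.card_eq_fintype_card]
      rfl
    have hcardE : Nat.card C.toSimpleGraph.edgeSet ≤ EC.card := by
      have hmem : ∀ e ∈ EC, H.connectedComponentMk (s e) = C ∧ H.connectedComponentMk (t e) = C := by
        intro e he
        have heC : e ∈ F ∧ (c e = a ∨ c e = b) ∧ H.connectedComponentMk (s e) = C := by
          simpa [hEC] using he
        refine ⟨heC.2.2, ?_⟩
        rw [← heC.2.2]
        exact hreach heC.1 heC.2.1 (inc_right s t e) (inc_left s t e)
      have : ∀ x : C.toSimpleGraph.edgeSet, ∃ e : EC, x.1 = s(⟨s e.1, (hmem e.1 e.2).1⟩,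
          ⟨t e.1, (hmem e.1 e.2).2⟩) := by
        rintro ⟨x, hx⟩
        induction x with
        | _ x y =>
          rw [SimpleGraph.mem_edgeSet] at hx
          obtain ⟨x, hx'⟩ := x
          obtain ⟨y, hy'⟩ := y
          have hadj : H.Adj x y := hx
          have hadj' := hadj
          rw [hH] at hadj'
          obtain ⟨hne, e, heF, hce, hex, hey⟩ := hadj'
          have heEC : e ∈ EC := by
            simp only [hEC, mem_filter, mem_univ, true_and]
            refine ⟨heF, hce, ?_⟩
            have : H.connectedComponentMk (s e) = H.connectedComponentMk x :=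
              hreach heF hce (inc_left s t e) hex
            rw [this]
            exact hx'
          refine ⟨⟨e, heEC⟩, ?_⟩
          simp only [Sym2.eq_iff]
          rcases hex with h | h <;> rcases hey with h' | h'
          · exact absurd (h.symm.trans h') hne
          · exact Or.inl ⟨Subtype.ext h.symm, Subtype.ext h'.symm⟩
          · exact Or.inr ⟨Subtype.ext h.symm, Subtype.ext h'.symm⟩
          · exact absurd (h.symm.trans h') hne
      choose φ hφ using this
      have hinj : Function.Injective φ := by
        intro x y hxy
        apply Subtype.ext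
        rw [hφ x, hφ y, hxy]
      have := Nat.card_le_card_of_injective φ hinj
      rw [Nat.card_eq_fintype_card, Nat.card_eq_fintype_card, Fintype.card_coe] at this
      rwa [Nat.card_eq_fintype_card]
    rw [hcardS] at h
    omega
  omega

/-- Every component of the graph of the colours `a`, `b` contains at most two vertices at which
one of the two colours is missing. -/
theorem comp_le_two [Fintype V] [Fintype E] {s t : E → V} (hst : ∀ e, s e ≠ t e) {F : Set E}
    {c : E → K} (hp : Proper s t F c) {a b : K} (C : (HG s t F c a b).ConnectedComponent) :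
    (univ.filter fun v => (HG s t F c a b).connectedComponentMk v = C ∧
      (Miss s t F c v a ∨ Miss s t F c v b)).card ≤ 2 :=
  comp_le_two_aux hst hp _ rfl C

end TC19
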