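import Pool.Agent.Lib_helper19.TC.LLLW

set_option autoImplicit false

/-!
# The weighted local lemma for deviation events
-/

namespace TC19

open Finset Classical

variable {ι Ω JA JB : Type*} [Fintype ι] [Fintype Ω]

/-- average of a function -/
noncomputable def avg (h : Ω → ℝ) : ℝ := (∑ ω, h ω) / Fintype.card Ω

theorem sum_prod_avg [Nonempty Ω] (W : Finset ι) (h : ι → Ω → ℝ) :
    ∑ x : ι → Ω, ∏ i ∈ W, h i (x i) = (∏ i ∈ W, avg (h i)) * Fintype.card (ι → Ω) := by
  have hc : (0 : ℝ) < Fintype.card Ω := by exact_mod_cast Fintype.card_pos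
  have e1 : ∀ x : ι → Ω, ∏ i ∈ W, h i (x i) = ∏ i, (if i ∈ W then h i (x i) else 1) := by
    intro x
    rw [Finset.prod_ite_mem, Finset.univ_inter]
  have e2 : ∏ i ∈ W, avg (h i) = ∏ i, (if i ∈ W then avg (h i) else 1) := by
    rw [Finset.prod_ite_mem, Finset.univ_inter]
  have e3 : ∑ x : ι → Ω, ∏ i, (if i ∈ W then h i (x i) else 1) =
      ∏ i : ι, ∑ ω : Ω, (if i ∈ W then h i ω else 1) := by
    rw [Finset.prod_univ_sum, Fintype.piFinset_univ]
  have e4 : ∀ i : ι, ∑ ω : Ω, (if i ∈ W then h i ω else 1) =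
      (if i ∈ W then avg (h i) else 1) * Fintype.card Ω := by
    intro i
    by_cases hi : i ∈ W
    · simp only [hi, if_true, avg]
      field_simp
    · simp only [hi, if_false, one_mul]
      rw [Finset.sum_const, Finset.card_univ, nsmul_eq_mul, mul_one]
  simp_rw [e1]
  rw [e3, e2]
  simp_rw [e4]
  rw [Finset.prod_mul_distrib, Finset.prod_const, Finset.card_univ, Fintype.card_fun]
  push_cast
  rfl

/-- Local lemma with events of the form `all coordinates in prescribed sets` and deviation events. -/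
theorem lllc [Nonempty Ω] [Fintype JA] [Fintype JB]
    (YA : JA → Finset ι) (PA : JA → ι → Finset Ω)
    (YB : JB → Finset ι) (gB : JB → ι → Ω → ℝ) (hg0 : ∀ j i ω, 0 ≤ gB j i ω)
    (tB sB : JB → ℝ) (hs : ∀ j, 0 ≤ sB j)
    (qA : JA → ℝ) (hqA0 : ∀ j, 0 ≤ qA j) (hqA1 : ∀ j, qA j < 1)
    (qB : JB → ℝ) (hqB0 : ∀ j, 0 ≤ qB j) (hqB1 : ∀ j, qB j < 1)
    (φ : ℝ) (hφ : 1 ≤ φ)
    (h1 : ∀ i, 1 ≤ φ * (1 - ((∑ j ∈ univ.filter (fun j => i ∈ YA j), qA j) +
      ∑ j ∈ univ.filter (fun j => i ∈ YB j), qB j)))
    (hA : ∀ j, ∏ i ∈ YA j, (φ * (((PA j i).card : ℝ) / Fintype.card Ω)) ≤ qA j)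
    (hB : ∀ j, Real.exp (-(sB j * tB j)) *
      ∏ i ∈ YB j, (1 + φ * avg (fun ω => Real.exp (sB j * gB j i ω) - 1)) ≤ qB j) :
    ∃ x : ι → Ω, (∀ j, ∃ i ∈ YA j, x i ∉ PA j i) ∧ ∀ j, ∑ i ∈ YB j, gB j i (x i) ≤ tB j := by
  have hN : (0 : ℝ) < Fintype.card (ι → Ω) := by exact_mod_cast Fintype.card_pos
  let bad : JA ⊕ JB → Finset (ι → Ω) := Sum.elim
    (fun j => univ.filter fun x => ∀ i ∈ YA j, x i ∈ PA j i)
    (fun j => univ.filter fun x => tB j < ∑ i ∈ YB j, gB j i (x i))
  let vbl : JA ⊕ JB → Finset ι := Sum.elim YA YB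
  let wt : JA ⊕ JB → Finset ι → (ι → Ω) → ℝ := Sum.elim
    (fun j W x => ∏ i ∈ W, if x i ∈ PA j i then 1 else 0)
    (fun j W x => Real.exp (-(sB j * tB j)) * ∏ i ∈ W, (Real.exp (sB j * gB j i (x i)) - 1))
  let cov : JA ⊕ JB → Finset (Finset ι) := Sum.elim (fun j => {YA j}) (fun j => (YB j).powerset)
  have hexp : ∀ (j : JB) (i : ι) (ω : Ω), 0 ≤ Real.exp (sB j * gB j i ω) - 1 := by
    intro j i ω
    have := Real.one_le_exp (mul_nonneg (hs j) (hg0 j i ω))
    linarith
  obtain ⟨x, hx⟩ := lllw bad vbl (by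
      rintro (j | j) x y hxy
      · simp only [bad, vbl, Sum.elim_inl, mem_filter, mem_univ, true_and] at hxy ⊢
        constructor
        · intro h i hi
          rw [← hxy i hi]; exact h i hi
        · intro h i hi
          rw [hxy i hi]; exact h i hi
      · simp only [bad, vbl, Sum.elim_inr, mem_filter, mem_univ, true_and] at hxy ⊢
        rw [Finset.sum_congr rfl fun i hi => by rw [hxy i hi]])
    wt (by
      rintro (j | j) W x
      · simp only [wt, Sum.elim_inl]
        exact Finset.prod_nonneg fun i _ => by split_ifs <;> norm_num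
      · simp only [wt, Sum.elim_inr]
        exact mul_nonneg (Real.exp_nonneg _) (Finset.prod_nonneg fun i _ => hexp j i _))
    (by
      rintro (j | j) W x y hxy
      · simp only [wt, Sum.elim_inl]
        exact Finset.prod_congr rfl fun i hi => by rw [hxy i hi]
      · simp only [wt, Sum.elim_inr]
        rw [Finset.prod_congr rfl fun i hi => by rw [hxy i hi]])
    cov (by
      rintro (j | j) x hx
      · simp only [bad, Sum.elim_inl, mem_filter, mem_univ, true_and] at hx
        simp only [cov, wt, Sum.elim_inl, Finset.sum_singleton]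
        rw [Finset.prod_congr rfl fun i hi => if_pos (hx i hi), Finset.prod_const_one]
      · simp only [bad, Sum.elim_inr, mem_filter, mem_univ, true_and] at hx
        simp only [cov, wt, Sum.elim_inr]
        rw [← Finset.mul_sum, ← Finset.prod_one_add]
        have e1 : ∏ i ∈ YB j, (1 + (Real.exp (sB j * gB j i (x i)) - 1)) =
            Real.exp (sB j * ∑ i ∈ YB j, gB j i (x i)) := by
          rw [Finset.mul_sum, Real.exp_sum]
          exact Finset.prod_congr rfl fun i _ => by ring
        rw [e1, ← Real.exp_add]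
        apply Real.one_le_exp
        have := mul_le_mul_of_nonneg_left hx.le (hs j)
        linarith)
    (Sum.elim qA qB) (by
      rintro (j | j)
      · exact hqA0 j
      · exact hqB0 j) (by
      rintro (j | j)
      · exact hqA1 j
      · exact hqB1 j) φ hφ (by
      intro i
      have e1 : ∑ j ∈ univ.filter (fun j => i ∈ vbl j), Sum.elim qA qB j =
          (∑ j ∈ univ.filter (fun j => i ∈ YA j), qA j) +
          ∑ j ∈ univ.filter (fun j => i ∈ YB j), qB j := by
        rw [Finset.sum_filter, Fintype.sum_sum_type, Finset.sum_filter, Finset.sum_filter]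
        rfl
      rw [e1]
      exact h1 i) (by
      rintro (j | j)
      · simp only [cov, wt, Sum.elim_inl, Finset.sum_singleton]
        rw [sum_prod_avg (YA j) (fun i ω => if ω ∈ PA j i then (1 : ℝ) else 0), ← mul_assoc,
          ← Finset.prod_const, ← Finset.prod_mul_distrib]
        apply mul_le_mul_of_nonneg_right _ hN.le
        refine le_trans (le_of_eq ?_) (hA j)
        apply Finset.prod_congr rfl
        intro i _
        congr 1
        unfold avg
        congr 1
        rw [Finset.sum_ite_mem, Finset.univ_inter, Finset.sum_const, nsmul_eq_mul, mul_one]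
      · simp only [cov, wt, Sum.elim_inr]
        have e1 : ∀ W ∈ (YB j).powerset, φ ^ W.card * ∑ x : ι → Ω, Real.exp (-(sB j * tB j)) *
            ∏ i ∈ W, (Real.exp (sB j * gB j i (x i)) - 1) =
            (Real.exp (-(sB j * tB j)) * Fintype.card (ι → Ω)) *
              ∏ i ∈ W, (φ * avg (fun ω => Real.exp (sB j * gB j i ω) - 1)) := by
          intro W _
          rw [← Finset.mul_sum,
            sum_prod_avg W (fun i ω => Real.exp (sB j * gB j i ω) - 1),
            Finset.prod_mul_distrib, Finset.prod_const]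
          ring
        rw [Finset.sum_congr rfl e1, ← Finset.mul_sum, ← Finset.prod_one_add]
        calc Real.exp (-(sB j * tB j)) * (Fintype.card (ι → Ω) : ℝ) *
              ∏ i ∈ YB j, (1 + φ * avg fun ω => Real.exp (sB j * gB j i ω) - 1)
            = (Real.exp (-(sB j * tB j)) *
              ∏ i ∈ YB j, (1 + φ * avg fun ω => Real.exp (sB j * gB j i ω) - 1)) *
              Fintype.card (ι → Ω) := by ring
          _ ≤ _ := mul_le_mul_of_nonneg_right (hB j) hN.le)
  refine ⟨x, ?_, ?_⟩
  · intro j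
    have := hx (Sum.inl j)
    simp only [bad, Sum.elim_inl, mem_filter, mem_univ, true_and] at this
    push Not at this
    exact this
  · intro j
    have := hx (Sum.inr j)
    simp only [bad, Sum.elim_inr, mem_filter, mem_univ, true_and] at this
    push Not at this
    exact this

/-- the indicator function -/
noncomputable def ind {Ω : Type*} (P : Finset Ω) (ω : Ω) : ℝ := if ω ∈ P then 1 else 0

theorem ind_nonneg {Ω : Type*} (P : Finset Ω) (ω : Ω) : 0 ≤ ind P ω := by
  unfold ind
  split_ifs <;> norm_num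

omit [Fintype ι] in
/-- the bound for indicator functions -/
theorem prod_bound [Nonempty Ω] (Y : Finset ι) (P : ι → Finset Ω) {s t φ M : ℝ} (hφ : 0 ≤ φ)
    (hs : 0 ≤ s) (hM : ∑ i ∈ Y, ((P i).card : ℝ) / Fintype.card Ω ≤ M) :
    Real.exp (-(s * t)) * ∏ i ∈ Y, (1 + φ * avg (fun ω => Real.exp (s * ind (P i) ω) - 1))
      ≤ Real.exp (-(s * t) + φ * (Real.exp s - 1) * M) := by
  have hs1 : 0 ≤ Real.exp s - 1 := by
    have := Real.one_le_exp hs
    linarith
  have e1 : ∀ i, avg (fun ω : Ω => Real.exp (s * ind (P i) ω) - 1) =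
      (Real.exp s - 1) * (((P i).card : ℝ) / Fintype.card Ω) := by
    intro i
    unfold avg
    have : ∀ ω : Ω, Real.exp (s * ind (P i) ω) - 1 =
        if ω ∈ P i then Real.exp s - 1 else 0 := by
      intro ω
      unfold ind
      split_ifs
      · rw [mul_one]
      · rw [mul_zero, Real.exp_zero, sub_self]
    simp_rw [this]
    rw [Finset.sum_ite_mem, Finset.univ_inter, Finset.sum_const, nsmul_eq_mul]
    ring
  rw [Real.exp_add]
  apply mul_le_mul_of_nonneg_left _ (Real.exp_nonneg _)
  calc ∏ i ∈ Y, (1 + φ * avg (fun ω => Real.exp (s * ind (P i) ω) - 1))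
      ≤ ∏ i ∈ Y, Real.exp (φ * ((Real.exp s - 1) * (((P i).card : ℝ) / Fintype.card Ω))) := by
        apply Finset.prod_le_prod
        · intro i _
          rw [e1 i]
          positivity
        · intro i _
          rw [e1 i, add_comm]
          exact Real.add_one_le_exp _
    _ = Real.exp (φ * (Real.exp s - 1) * ∑ i ∈ Y, ((P i).card : ℝ) / Fintype.card Ω) := by
        rw [← Real.exp_sum]
        congr 1
        rw [Finset.mul_sum]
        exact Finset.sum_congr rfl fun i _ => by ring
    _ ≤ _ := by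
        apply Real.exp_le_exp.mpr
        exact mul_le_mul_of_nonneg_left hM (by positivity)

end TC19
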