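import Pool.Agent.Lib_helper19.TC.LLL

set_option autoImplicit false

/-!
# A weighted local lemma on a finite product space

A bad event may be covered by a nonnegative combination of functions which depend on few
coordinates; the condition of the local lemma is only required for the combination.
-/

namespace TC19

open Finset Classical

variable {ι Ω J : Type*} [Fintype ι] [Fintype Ω]

theorem indep_sum (U : Finset ι) (f : (ι → Ω) → ℝ) (B : Finset (ι → Ω))
    (hf : ∀ x y : ι → Ω, (∀ i ∈ U, x i = y i) → f x = f y)
    (hB : ∀ x y : ι → Ω, (∀ i, i ∉ U → x i = y i) → (x ∈ B ↔ y ∈ B)) :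
    (∑ x ∈ B, f x) * Fintype.card (ι → Ω) = (∑ x, f x) * B.card := by
  let mix : (ι → Ω) → (ι → Ω) → (ι → Ω) := fun x y i => if i ∈ U then x i else y i
  have hmixf : ∀ x y, f (mix x y) = f x := by
    intro x y
    apply hf
    intro i hi
    simp [mix, hi]
  have hmixB : ∀ x y, mix x y ∈ B ↔ y ∈ B := by
    intro x y
    apply hB
    intro i hi
    simp [mix, hi]
  have hmm1 : ∀ x y, mix (mix x y) (mix y x) = x := by
    intro x y
    funext i
    by_cases hi : i ∈ U <;> simp [mix, hi]
  have e1 : (∑ x ∈ B, f x) * Fintype.card (ι → Ω) =
      ∑ p ∈ B ×ˢ (univ : Finset (ι → Ω)), f p.1 := by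
    rw [Finset.sum_product, Finset.sum_mul]
    apply Finset.sum_congr rfl
    intro x _
    show f x * _ = ∑ _y : ι → Ω, f x
    rw [Finset.sum_const, Finset.card_univ, nsmul_eq_mul, mul_comm]
  have e2 : (∑ x, f x) * B.card = ∑ p ∈ (univ : Finset (ι → Ω)) ×ˢ B, f p.1 := by
    rw [Finset.sum_product, Finset.sum_mul]
    apply Finset.sum_congr rfl
    intro x _
    show f x * _ = ∑ _y ∈ B, f x
    rw [Finset.sum_const, nsmul_eq_mul, mul_comm]
  rw [e1, e2]
  apply Finset.sum_nbij' (fun p => (mix p.1 p.2, mix p.2 p.1)) (fun p => (mix p.1 p.2, mix p.2 p.1))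
  · rintro ⟨x, y⟩ h
    simp only [mem_product, mem_univ, and_true, true_and] at h ⊢
    exact (hmixB y x).mpr h
  · rintro ⟨x, y⟩ h
    simp only [mem_product, mem_univ, and_true, true_and] at h ⊢
    exact (hmixB x y).mpr h
  · rintro ⟨x, y⟩ _
    simp only [hmm1]
  · rintro ⟨x, y⟩ _
    simp only [hmm1]
  · rintro ⟨x, y⟩ _
    exact (hmixf x y).symm

/-- Weighted local lemma. -/
theorem lllw [Nonempty Ω] [Fintype J]
    (bad : J → Finset (ι → Ω)) (vbl : J → Finset ι)
    (hdep : ∀ j, ∀ x y : ι → Ω, (∀ i ∈ vbl j, x i = y i) → (x ∈ bad j ↔ y ∈ bad j))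
    (wt : J → Finset ι → (ι → Ω) → ℝ) (hwt0 : ∀ j W x, 0 ≤ wt j W x)
    (hwtdep : ∀ j W, ∀ x y : ι → Ω, (∀ i ∈ W, x i = y i) → wt j W x = wt j W y)
    (cov : J → Finset (Finset ι))
    (hcov : ∀ j, ∀ x ∈ bad j, 1 ≤ ∑ W ∈ cov j, wt j W x)
    (q : J → ℝ) (hq0 : ∀ j, 0 ≤ q j) (hq1 : ∀ j, q j < 1) (φ : ℝ) (hφ : 1 ≤ φ)
    (h1 : ∀ i, 1 ≤ φ * (1 - ∑ j ∈ univ.filter (fun j => i ∈ vbl j), q j))
    (h2 : ∀ j, ∑ W ∈ cov j, φ ^ W.card * ∑ x, wt j W x ≤ q j * Fintype.card (ι → Ω)) :
    ∃ x, ∀ j, x ∉ bad j := by
  let good : Finset J → Finset (ι → Ω) := fun S => univ.filter fun x => ∀ j ∈ S, x ∉ bad j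
  have hN : (0 : ℝ) < Fintype.card (ι → Ω) := by
    exact_mod_cast Fintype.card_pos
  have hφ0 : (0 : ℝ) ≤ φ := by linarith
  have hgmem : ∀ S x, x ∈ good S ↔ ∀ j ∈ S, x ∉ bad j := by
    intro S x
    simp [good]
  have key : ∀ n : ℕ, ∀ S : Finset J, S.card = n →
      ∀ j, ((bad j ∩ good S).card : ℝ) ≤ q j * (good S).card := by
    intro n
    induction n using Nat.strong_induction_on with
    | _ n ih =>
      intro S hS j
      have hg0 : (0 : ℝ) ≤ (good S).card := Nat.cast_nonneg _
      -- telescoping
      have tel : ∀ W : Finset ι, ((good (S.filter fun j => Disjoint (vbl j) W)).card : ℝ) ≤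
          φ ^ W.card * (good S).card := by
        intro W
        induction W using Finset.induction_on with
        | empty =>
          simp
        | insert i W hi ihW =>
          set S1 := S.filter fun j => Disjoint (vbl j) W with hS1
          set S2 := S.filter fun j => Disjoint (vbl j) (insert i W) with hS2
          have h21 : S2 ⊆ S1 := by
            intro j hj
            rw [hS2, Finset.mem_filter] at hj
            rw [hS1, Finset.mem_filter]
            exact ⟨hj.1, hj.2.mono_right (Finset.subset_insert _ _)⟩
          by_cases hEq : S2 = S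
          · rw [hEq]
            have : 1 ≤ φ ^ (insert i W).card := one_le_pow₀ hφ
            nlinarith
          · have hlt : S2.card < n := by
              rw [← hS]
              apply Finset.card_lt_card
              exact (Finset.filter_subset _ _).ssubset_of_ne hEq
            have hIH := ih _ hlt S2 rfl
            have hsub : good S2 ⊆ good S1 ∪ (S1 \ S2).biUnion fun j => bad j ∩ good S2 := by
              intro x hx
              rw [Finset.mem_union]
              by_cases hxS : x ∈ good S1
              · exact Or.inl hxS
              · right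
                rw [Finset.mem_biUnion]
                rw [hgmem] at hxS
                push Not at hxS
                obtain ⟨s, hs, hxs⟩ := hxS
                refine ⟨s, ?_, Finset.mem_inter.mpr ⟨hxs, hx⟩⟩
                rw [Finset.mem_sdiff]
                refine ⟨hs, fun hs2 => ?_⟩
                exact (hgmem _ _).mp hx s hs2 hxs
            have h4 := (Finset.card_le_card hsub).trans (Finset.card_union_le _ _)
            have h5 : ((S1 \ S2).biUnion fun j => bad j ∩ good S2).card ≤
                ∑ j ∈ S1 \ S2, (bad j ∩ good S2).card := Finset.card_biUnion_le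
            have h6 : ((good S2).card : ℝ) ≤
                (good S1).card + ∑ j ∈ S1 \ S2, ((bad j ∩ good S2).card : ℝ) := by
              exact_mod_cast h4.trans (Nat.add_le_add_left h5 _)
            have hg2 : (0 : ℝ) ≤ (good S2).card := Nat.cast_nonneg _
            have h7 : ∑ j ∈ S1 \ S2, ((bad j ∩ good S2).card : ℝ) ≤
                (∑ j ∈ univ.filter (fun j => i ∈ vbl j), q j) * (good S2).card := by
              rw [Finset.sum_mul]
              calc ∑ j ∈ S1 \ S2, ((bad j ∩ good S2).card : ℝ)
                  ≤ ∑ j ∈ S1 \ S2, q j * (good S2).card := Finset.sum_le_sum fun j _ => hIH j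
                _ ≤ ∑ j ∈ univ.filter (fun j => i ∈ vbl j), q j * (good S2).card := by
                    apply Finset.sum_le_sum_of_subset_of_nonneg
                    · intro j hj
                      rw [Finset.mem_sdiff, hS1, hS2, Finset.mem_filter, Finset.mem_filter] at hj
                      rw [Finset.mem_filter]
                      refine ⟨Finset.mem_univ _, ?_⟩
                      by_contra hcon
                      apply hj.2
                      refine ⟨hj.1.1, ?_⟩
                      rw [Finset.disjoint_insert_right]
                      exact ⟨hcon, hj.1.2⟩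
                    · intro j _ _
                      exact mul_nonneg (hq0 j) hg2
            set sq := ∑ j ∈ univ.filter (fun j => i ∈ vbl j), q j with hsq
            have h8 : (1 - sq) * (good S2).card ≤ (good S1).card := by linarith
            rw [Finset.card_insert_of_notMem hi]
            calc ((good S2).card : ℝ) ≤ (φ * (1 - sq)) * (good S2).card := by
                  have := mul_le_mul_of_nonneg_right (h1 i) hg2
                  rwa [one_mul] at this
              _ = φ * ((1 - sq) * (good S2).card) := by ring
              _ ≤ φ * (good S1).card := mul_le_mul_of_nonneg_left h8 hφ0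
              _ ≤ φ * (φ ^ W.card * (good S).card) := mul_le_mul_of_nonneg_left ihW hφ0
              _ = _ := by rw [pow_succ]; ring
      -- the bound
      have hA : ((bad j ∩ good S).card : ℝ) ≤ ∑ x ∈ good S, ∑ W ∈ cov j, wt j W x := by
        have e1 : ((bad j ∩ good S).card : ℝ) = ∑ x ∈ bad j ∩ good S, (1 : ℝ) := by simp
        rw [e1]
        calc ∑ x ∈ bad j ∩ good S, (1 : ℝ) ≤ ∑ x ∈ bad j ∩ good S, ∑ W ∈ cov j, wt j W x :=
              Finset.sum_le_sum fun x hx => hcov j x (Finset.mem_inter.mp hx).1
          _ ≤ _ := by
              apply Finset.sum_le_sum_of_subset_of_nonneg Finset.inter_subset_right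
              intro x _ _
              exact Finset.sum_nonneg fun W _ => hwt0 j W x
      have hB : ∀ W ∈ cov j, (∑ x ∈ good S, wt j W x) * Fintype.card (ι → Ω) ≤
          (φ ^ W.card * ∑ x, wt j W x) * (good S).card := by
        intro W _
        set S1 := S.filter fun j => Disjoint (vbl j) W with hS1
        have hsub : good S ⊆ good S1 := by
          intro x hx
          rw [hgmem] at hx ⊢
          intro s hs
          exact hx s (Finset.mem_filter.mp hs).1
        have h3 : ∑ x ∈ good S, wt j W x ≤ ∑ x ∈ good S1, wt j W x :=
          Finset.sum_le_sum_of_subset_of_nonneg hsub fun x _ _ => hwt0 j W x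
        have h4 := indep_sum W (wt j W) (good S1) (hwtdep j W) (by
          intro x y hxy
          rw [hgmem, hgmem]
          have : ∀ s ∈ S1, (x ∈ bad s ↔ y ∈ bad s) := by
            intro s hs
            apply hdep s
            intro i hi
            apply hxy
            intro hi'
            rw [hS1, Finset.mem_filter] at hs
            exact (Finset.disjoint_left.mp hs.2 hi) hi'
          constructor
          · intro h s hs hy
            exact h s hs ((this s hs).mpr hy)
          · intro h s hs hy
            exact h s hs ((this s hs).mp hy))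
        have h5 : 0 ≤ ∑ x, wt j W x := Finset.sum_nonneg fun x _ => hwt0 j W x
        calc (∑ x ∈ good S, wt j W x) * Fintype.card (ι → Ω)
            ≤ (∑ x ∈ good S1, wt j W x) * Fintype.card (ι → Ω) :=
              mul_le_mul_of_nonneg_right h3 hN.le
          _ = (∑ x, wt j W x) * (good S1).card := h4
          _ ≤ (∑ x, wt j W x) * (φ ^ W.card * (good S).card) :=
              mul_le_mul_of_nonneg_left (tel W) h5
          _ = _ := by ring
      have hC : ((bad j ∩ good S).card : ℝ) * Fintype.card (ι → Ω) ≤
          (q j * (good S).card) * Fintype.card (ι → Ω) := by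
        calc ((bad j ∩ good S).card : ℝ) * Fintype.card (ι → Ω)
            ≤ (∑ x ∈ good S, ∑ W ∈ cov j, wt j W x) * Fintype.card (ι → Ω) :=
              mul_le_mul_of_nonneg_right hA hN.le
          _ = ∑ W ∈ cov j, (∑ x ∈ good S, wt j W x) * Fintype.card (ι → Ω) := by
              rw [Finset.sum_comm, Finset.sum_mul]
          _ ≤ ∑ W ∈ cov j, (φ ^ W.card * ∑ x, wt j W x) * (good S).card :=
              Finset.sum_le_sum hB
          _ = (∑ W ∈ cov j, φ ^ W.card * ∑ x, wt j W x) * (good S).card := by
              rw [Finset.sum_mul]
          _ ≤ (q j * Fintype.card (ι → Ω)) * (good S).card :=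
              mul_le_mul_of_nonneg_right (h2 j) hg0
          _ = _ := by ring
      exact le_of_mul_le_mul_right hC hN
  have hpos : ∀ S : Finset J, 0 < (good S).card := by
    intro S
    induction S using Finset.induction_on with
    | empty =>
      have : good ∅ = univ := by simp [good]
      rw [this, Finset.card_univ]
      exact Fintype.card_pos
    | insert j S hj ihS =>
      have h3 := key _ S rfl j
      have hsub : good S ⊆ (bad j ∩ good S) ∪ good (insert j S) := by
        intro x hx
        rw [Finset.mem_union, Finset.mem_inter]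
        by_cases hxb : x ∈ bad j
        · exact Or.inl ⟨hxb, hx⟩
        · right
          rw [hgmem] at hx ⊢
          intro s hs
          rcases Finset.mem_insert.mp hs with rfl | hs
          · exact hxb
          · exact hx s hs
      have h4 := (Finset.card_le_card hsub).trans (Finset.card_union_le _ _)
      have h4' : ((good S).card : ℝ) ≤ (bad j ∩ good S).card + (good (insert j S)).card := by
        exact_mod_cast h4
      have h5 : (0 : ℝ) < (good S).card := by exact_mod_cast ihS
      have h6 := hq1 j
      have : (0 : ℝ) < (good (insert j S)).card := by nlinarith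
      exact_mod_cast this
  obtain ⟨x, hx⟩ := Finset.card_pos.mp (hpos univ)
  exact ⟨x, fun j => (hgmem _ _).mp hx j (Finset.mem_univ _)⟩

end TC19
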