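import Pool.Agent.Lib_helper19.TC.RoundG

set_option autoImplicit false

/-!
# A random nested sequence of vertex sets
-/

namespace TC19

open Finset Classical

variable {V K : Type*}

theorem card_lt_fin {N θ : ℕ} (h : θ ≤ N) : (univ.filter fun ω : Fin N => ω.1 < θ).card = θ := by
  have : (univ.filter fun ω : Fin N => ω.1 < θ).card = (Finset.range θ).card := by
    apply Finset.card_bij (fun ω _ => ω.1)
    · intro ω hω
      exact Finset.mem_range.mpr (Finset.mem_filter.mp hω).2
    · intro ω _ ω' _ h
      exact Fin.ext h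
    · intro i hi
      exact ⟨⟨i, lt_of_lt_of_le (Finset.mem_range.mp hi) h⟩,
        Finset.mem_filter.mpr ⟨Finset.mem_univ _, Finset.mem_range.mp hi⟩, rfl⟩
  rw [this, Finset.card_range]

theorem fin4 : ∀ k : Fin 4, ¬ k = 0 → ¬ k = 1 → ¬ k = 2 → k = 3 := by decide

/-- `x_l` -/
noncomputable def xl (l : ℕ) : ℝ := (63 / 64 : ℝ) ^ l

theorem xl_pos (l : ℕ) : 0 < xl l := by unfold xl; positivity

theorem xl_le_one (l : ℕ) : xl l ≤ 1 := pow_le_one₀ (by norm_num) (by norm_num)

theorem xl_succ (l : ℕ) : xl (l + 1) = xl l * (63 / 64) := pow_succ _ _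

theorem xl_anti {l l' : ℕ} (h : l ≤ l') : xl l' ≤ xl l :=
  pow_le_pow_of_le_one (by norm_num) (by norm_num) h

theorem exp_sub_one_le_two {y : ℝ} (h0 : 0 ≤ y) (h1 : y ≤ 1) : Real.exp y - 1 ≤ 2 * y := by
  have := exp_bound h0 h1
  nlinarith

theorem avg_le {Ω : Type*} [Fintype Ω] {h h' : Ω → ℝ} (hh : ∀ ω, h ω ≤ h' ω) : avg h ≤ avg h' := by
  unfold avg
  exact div_le_div_of_nonneg_right (Finset.sum_le_sum fun ω _ => hh ω) (Nat.cast_nonneg _)

theorem avg_ind {Ω : Type*} [Fintype Ω] (P : Finset Ω) (a : ℝ) :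
    avg (fun ω => a * ind P ω) = a * ((P.card : ℝ) / Fintype.card Ω) := by
  unfold avg ind
  rw [← Finset.mul_sum, Finset.sum_ite_mem, Finset.univ_inter, Finset.sum_const, nsmul_eq_mul, mul_one,
    mul_div_assoc]

theorem levels [Fintype V] (G : SimpleGraph V) {P J : ℕ} (hP : 1 ≤ P)
    (hD : ∀ v, (Nb G v).card ≤ P)
    (wt : ℕ → V → V → ℝ) (hwt0 : ∀ l w u, 0 ≤ wt l w u) (hwt1 : ∀ l w u, wt l w u ≤ 1)
    (hwts : ∀ l w, ∑ u ∈ Nb G w, wt l w u ≤ 2 / xl l)
    {B : ℝ} (hBdef : B = xl J * P / 512) (hcond : 8 * (P : ℝ) ^ 2 * (J + 1) * Real.exp (-B) ≤ B) :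
    ∃ U : ℕ → Finset V, U 0 = univ ∧ (∀ l, l < J → U (l + 1) ⊆ U l) ∧
      (∀ l, l ≤ J → ∀ v, (((Nb G v).filter fun u => u ∉ U l).card : ℝ) ≤
        (1 - xl l) * (Nb G v).card + xl l * P / 8) ∧
      (∀ l, l < J → ∀ v, (((Nb G v).filter fun u => u ∈ U l ∧ u ∉ U (l + 1)).card : ℝ) ≤
        xl l * P / 32) ∧
      (∀ l, l < J → ∀ w, ∑ u ∈ (Nb G w).filter (fun u => u ∈ U l ∧ u ∉ U (l + 1)), wt l w u ≤ B + 1) ∧
      ∀ v, (((Nb G v).filter fun u => u ∈ U J).card : ℝ) ≤ 2 * (xl J * P) := by
  have hPr : (1 : ℝ) ≤ P := by exact_mod_cast hP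
  have hP0 : (0 : ℝ) < P := by linarith
  have hB0 : 0 < B := by
    rw [hBdef]
    have := xl_pos J
    positivity
  set N : ℕ := 64 ^ J with hN
  have hN0 : 0 < N := by positivity
  have hNr : (0 : ℝ) < N := by exact_mod_cast hN0
  have hNne : Nonempty (Fin N) := ⟨⟨0, hN0⟩⟩
  let θ : ℕ → ℕ := fun l => if l ≤ J then 64 ^ (J - l) * 63 ^ l else 0
  have hθN : ∀ l, θ l ≤ N := by
    intro l
    simp only [θ]
    split_ifs with h
    · calc 64 ^ (J - l) * 63 ^ l ≤ 64 ^ (J - l) * 64 ^ l :=
            Nat.mul_le_mul_left _ (Nat.pow_le_pow_left (by norm_num) l)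
        _ = N := by rw [← pow_add, hN]; congr 1; omega
    · exact Nat.zero_le _
  have hθx : ∀ l, l ≤ J → (θ l : ℝ) / N = xl l := by
    intro l hl
    simp only [θ, if_pos hl, hN, xl]
    push_cast
    rw [div_eq_iff (by positivity), div_pow]
    have : (64 : ℝ) ^ J = 64 ^ (J - l) * 64 ^ l := by
      rw [← pow_add]; congr 1; omega
    rw [this]
    field_simp
  have hθmono : ∀ l, θ (l + 1) ≤ θ l := by
    intro l
    simp only [θ]
    split_ifs with h1 h2 h2
    · have e1 : J - l = (J - (l + 1)) + 1 := by omega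
      rw [e1, pow_succ, pow_succ]
      have : 0 < 64 ^ (J - (l + 1)) * 63 ^ l := by positivity
      nlinarith
    · omega
    · exact Nat.zero_le _
    · exact le_refl _
  -- the four kinds of sets
  let S0 : ℕ → Finset (Fin N) := fun l => univ.filter fun ω => ¬ ω.1 < θ l
  let S1 : ℕ → Finset (Fin N) := fun l => univ.filter fun ω => ω.1 < θ l ∧ ¬ ω.1 < θ (l + 1)
  let S3 : ℕ → Finset (Fin N) := fun l => univ.filter fun ω => ω.1 < θ l
  have hS3 : ∀ l, (S3 l).card = θ l := fun l => card_lt_fin (hθN l)
  have hS0 : ∀ l, l ≤ J → ((S0 l).card : ℝ) / N = 1 - xl l := by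
    intro l hl
    have h1 := Finset.card_filter_add_card_filter_not (s := (univ : Finset (Fin N))) (fun ω => ω.1 < θ l)
    rw [Finset.card_univ, Fintype.card_fin] at h1
    have h2 : (S3 l).card + (S0 l).card = N := h1
    rw [hS3] at h2
    have h3 : (θ l : ℝ) + (S0 l).card = N := by exact_mod_cast h2
    rw [← hθx l hl, div_eq_iff hNr.ne', sub_mul, div_mul_cancel₀ _ hNr.ne', one_mul]
    linarith
  have hS1 : ∀ l, l < J → ((S1 l).card : ℝ) / N = xl l / 64 := by
    intro l hl
    have h1 : (S1 l).card + (S3 (l + 1)).card = (S3 l).card := by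
      rw [← Finset.card_union_of_disjoint]
      · congr 1
        ext ω
        simp only [S1, S3, mem_union, mem_filter, mem_univ, true_and]
        have := hθmono l
        omega
      · rw [Finset.disjoint_left]
        intro ω hω hω'
        simp only [S1, S3, mem_filter, mem_univ, true_and] at hω hω'
        exact hω.2 hω'
    rw [hS3, hS3] at h1
    have h2 : ((S1 l).card : ℝ) + θ (l + 1) = θ l := by exact_mod_cast h1
    have h3 := hθx l hl.le
    have h4 := hθx (l + 1) hl
    rw [xl_succ] at h4
    have h5 : ((S1 l).card : ℝ) / N = θ l / N - θ (l + 1) / N := by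
      rw [← sub_div]; congr 1; linarith
    rw [h5, h3, h4]
    ring
  have hS3' : ∀ l, l ≤ J → ((S3 l).card : ℝ) / N = xl l := by
    intro l hl
    rw [hS3, hθx l hl]
  set κ : ℝ := B / P with hκ
  have hκ0 : 0 < κ := by positivity
  have hκx : κ = xl J / 512 := by
    rw [hκ, hBdef]
    field_simp
  have hκ1 : κ ≤ 1 / 512 := by
    rw [hκx]
    have := xl_le_one J
    linarith
  have hκP : κ * P = B := by rw [hκ]; field_simp
  set q0 : ℝ := Real.exp (-B) with hq0
  have hq00 : 0 ≤ q0 := Real.exp_nonneg _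
  have hq01 : q0 < 1 := by rw [hq0, Real.exp_lt_one_iff]; linarith
  have hBl : ∀ l, l ≤ J → B ≤ xl l * P / 512 := by
    intro l hl
    rw [hBdef]
    have := xl_anti hl
    have h2 := mul_le_mul_of_nonneg_right this hP0.le
    linarith
  -- events: `(v, l, kind)`
  let JB := V × Fin (J + 1) × Fin 4
  let S1' : ℕ → Finset (Fin N) := fun l => if l < J then S1 l else ∅
  have hS1'p : ∀ l, l < J → S1' l = S1 l := fun l hl => if_pos hl
  let gB : JB → V → Fin N → ℝ := fun j u =>
    if j.2.2 = 0 then ind (S0 j.2.1.1)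
    else if j.2.2 = 1 then ind (S1' j.2.1.1)
    else if j.2.2 = 2 then fun ω => wt j.2.1.1 j.1 u * ind (S1' j.2.1.1) ω
    else ind (S3 j.2.1.1)
  let tB : JB → ℝ := fun j =>
    if j.2.2 = 0 then (1 - xl j.2.1.1) * (Nb G j.1).card + xl j.2.1.1 * P / 8
    else if j.2.2 = 1 then xl j.2.1.1 * P / 32
    else if j.2.2 = 2 then B + 1
    else 2 * (xl j.2.1.1 * P)
  let sB : JB → ℝ := fun j =>
    if j.2.2 = 0 then 1 / 16 else if j.2.2 = 1 then 1 / 2 else if j.2.2 = 2 then 1 else 1 / 2
  have h10 : ¬ ((1 : Fin 4) = 0) := by decide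
  have h20 : ¬ ((2 : Fin 4) = 0) := by decide
  have h21 : ¬ ((2 : Fin 4) = 1) := by decide
  have h30 : ¬ ((3 : Fin 4) = 0) := by decide
  have h31 : ¬ ((3 : Fin 4) = 1) := by decide
  have h32 : ¬ ((3 : Fin 4) = 2) := by decide
  have gB0 : ∀ v l, gB (v, l, 0) = fun _ => ind (S0 l.1) := by
    intro v l; funext u
    show (if (0 : Fin 4) = 0 then _ else _) = _
    rw [if_pos rfl]
  have gB1 : ∀ v l, gB (v, l, 1) = fun _ => ind (S1' l.1) := by
    intro v l; funext u
    show (if (1 : Fin 4) = 0 then _ else if (1 : Fin 4) = 1 then _ else _) = _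
    rw [if_neg h10, if_pos rfl]
  have gB2 : ∀ v l, gB (v, l, 2) = fun u ω => wt l.1 v u * ind (S1' l.1) ω := by
    intro v l; funext u
    show (if (2 : Fin 4) = 0 then _ else if (2 : Fin 4) = 1 then _ else if (2 : Fin 4) = 2 then _ else _) = _
    rw [if_neg h20, if_neg h21, if_pos rfl]
  have gB3 : ∀ v l, gB (v, l, 3) = fun _ => ind (S3 l.1) := by
    intro v l; funext u
    show (if (3 : Fin 4) = 0 then _ else if (3 : Fin 4) = 1 then _ else if (3 : Fin 4) = 2 then _ else _) = _
    rw [if_neg h30, if_neg h31, if_neg h32]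
  have tB0 : ∀ v l, tB (v, l, 0) = (1 - xl l.1) * (Nb G v).card + xl l.1 * P / 8 := by
    intro v l
    show (if (0 : Fin 4) = 0 then _ else _) = _
    rw [if_pos rfl]
  have tB1 : ∀ v l, tB (v, l, 1) = xl l.1 * P / 32 := by
    intro v l
    show (if (1 : Fin 4) = 0 then _ else if (1 : Fin 4) = 1 then _ else _) = _
    rw [if_neg h10, if_pos rfl]
  have tB2 : ∀ v l, tB (v, l, 2) = B + 1 := by
    intro v l
    show (if (2 : Fin 4) = 0 then _ else if (2 : Fin 4) = 1 then _ else if (2 : Fin 4) = 2 then _ else _) = _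
    rw [if_neg h20, if_neg h21, if_pos rfl]
  have tB3 : ∀ v l, tB (v, l, 3) = 2 * (xl l.1 * P) := by
    intro v l
    show (if (3 : Fin 4) = 0 then _ else if (3 : Fin 4) = 1 then _ else if (3 : Fin 4) = 2 then _ else _) = _
    rw [if_neg h30, if_neg h31, if_neg h32]
  have sB0 : ∀ v l, sB (v, l, 0) = 1 / 16 := by
    intro v l
    show (if (0 : Fin 4) = 0 then _ else _) = _
    rw [if_pos rfl]
  have sB1 : ∀ v l, sB (v, l, 1) = 1 / 2 := by
    intro v l
    show (if (1 : Fin 4) = 0 then _ else if (1 : Fin 4) = 1 then _ else _) = _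
    rw [if_neg h10, if_pos rfl]
  have sB2 : ∀ v l, sB (v, l, 2) = 1 := by
    intro v l
    show (if (2 : Fin 4) = 0 then _ else if (2 : Fin 4) = 1 then _ else if (2 : Fin 4) = 2 then _ else _) = _
    rw [if_neg h20, if_neg h21, if_pos rfl]
  have sB3 : ∀ v l, sB (v, l, 3) = 1 / 2 := by
    intro v l
    show (if (3 : Fin 4) = 0 then _ else if (3 : Fin 4) = 1 then _ else if (3 : Fin 4) = 2 then _ else _) = _
    rw [if_neg h30, if_neg h31, if_neg h32]
  have hexp2 : Real.exp (1 / 2) - 1 ≤ 3 / 4 := by
    have := exp_bound (s := 1 / 2) (by norm_num) (by norm_num)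
    linarith
  have hexp20 : 0 ≤ Real.exp (1 / 2) - 1 := by
    have := Real.one_le_exp (by norm_num : (0 : ℝ) ≤ 1 / 2)
    linarith
  obtain ⟨x, -, hx⟩ := lllc (ι := V) (Ω := Fin N) (JA := Empty) (JB := JB) (fun j => j.elim) (fun j => j.elim)
    (fun j => Nb G j.1) gB (by
      intro j i ω
      simp only [gB]
      split_ifs
      · exact ind_nonneg _ _
      · exact ind_nonneg _ _
      · exact mul_nonneg (hwt0 _ _ _) (ind_nonneg _ _)
      · exact ind_nonneg _ _) tB sB (by
      intro j
      simp only [sB]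
      split_ifs <;> norm_num)
    (fun _ => 0) (fun j => j.elim) (fun j => j.elim)
    (fun _ => q0) (fun _ => hq00) (fun _ => hq01) (1 + κ) (by linarith) (by
      intro i
      rw [Finset.sum_const, Finset.sum_const, nsmul_eq_mul, nsmul_eq_mul, mul_zero, zero_add]
      have h1 : (univ.filter fun j : JB => i ∈ Nb G j.1).card ≤ P * ((J + 1) * 4) := by
        have h2 : (univ.filter fun j : JB => i ∈ Nb G j.1) ⊆
            (Nb G i) ×ˢ (univ : Finset (Fin (J + 1) × Fin 4)) := by
          intro j hj
          rw [Finset.mem_filter] at hj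
          rw [Finset.mem_product]
          refine ⟨?_, Finset.mem_univ _⟩
          simp only [Nb, mem_filter, mem_univ, true_and] at hj ⊢
          exact hj.symm
        refine (Finset.card_le_card h2).trans ?_
        rw [Finset.card_product, Finset.card_univ, Fintype.card_prod, Fintype.card_fin, Fintype.card_fin]
        exact Nat.mul_le_mul_right _ (hD i)
      have h3 : ((univ.filter fun j : JB => i ∈ Nb G j.1).card : ℝ) ≤ P * ((J + 1) * 4) := by
        exact_mod_cast h1
      have h4 : ((univ.filter fun j : JB => i ∈ Nb G j.1).card : ℝ) * q0 ≤ κ / 2 := by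
        calc ((univ.filter fun j : JB => i ∈ Nb G j.1).card : ℝ) * q0
            ≤ (P * ((J + 1) * 4)) * q0 := mul_le_mul_of_nonneg_right h3 hq00
          _ = (8 * (P : ℝ) ^ 2 * (J + 1) * q0) / (2 * P) := by field_simp; ring
          _ ≤ B / (2 * P) := div_le_div_of_nonneg_right hcond (by positivity)
          _ = κ / 2 := by rw [hκ]; field_simp
      nlinarith)
    (fun j => j.elim)
    (by
      rintro ⟨v, ⟨l, hl⟩, kind⟩
      have hlJ : l ≤ J := by omega
      have hDv : ((Nb G v).card : ℝ) ≤ P := by exact_mod_cast hD v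
      have hD0 : (0 : ℝ) ≤ (Nb G v).card := Nat.cast_nonneg _
      have hxl0 := xl_pos l
      have hxl1 := xl_le_one l
      have hBl' := hBl l hlJ
      have hxP : 0 < xl l * P := by positivity
      have hφ0 : (0 : ℝ) ≤ 1 + κ := by linarith
      have hS1' : ((S1' l).card : ℝ) / N ≤ xl l / 64 := by
        simp only [S1']
        split_ifs with h
        · exact (hS1 l h).le
        · simp only [Finset.card_empty, Nat.cast_zero, zero_div]
          positivity
      by_cases hk0 : kind = 0
      · subst hk0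
        rw [gB0, tB0, sB0]
        simp only
        -- the factor
        have hfac : 1 + (1 + κ) * avg (fun ω => Real.exp (1 / 16 * ind (S0 l) ω) - 1) ≤
            Real.exp (1 / 16 - xl l * (1 - Real.exp (-(1 / 16))) + κ) := by
          have e1 : (fun ω => Real.exp (1 / 16 * ind (S0 l) ω) - 1) =
              fun ω => (Real.exp (1 / 16) - 1) * ind (S0 l) ω := by
            funext ω
            unfold ind
            split_ifs
            · rw [mul_one, mul_one]
            · rw [mul_zero, mul_zero, Real.exp_zero, sub_self]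
          rw [e1, avg_ind, Fintype.card_fin, hS0 l hlJ]
          have h1 : Real.exp (1 / 16) * Real.exp (-(1 / 16)) = 1 := by
            rw [← Real.exp_add]; simp
          have h2 : 0 < Real.exp (1 / 16) := Real.exp_pos _
          have h3 : 1 - xl l * (1 - Real.exp (-(1 / 16))) + κ ≤
              Real.exp (-(xl l * (1 - Real.exp (-(1 / 16)))) + κ) := by
            have := Real.add_one_le_exp (-(xl l * (1 - Real.exp (-(1 / 16)))) + κ)
            linarith
          have h4 : Real.exp (1 / 16 - xl l * (1 - Real.exp (-(1 / 16))) + κ) =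
              Real.exp (1 / 16) * Real.exp (-(xl l * (1 - Real.exp (-(1 / 16)))) + κ) := by
            rw [← Real.exp_add]; congr 1; ring
          rw [h4]
          refine le_trans ?_ (mul_le_mul_of_nonneg_left h3 h2.le)
          have h5 : Real.exp (1 / 16) * (1 - xl l * (1 - Real.exp (-(1 / 16))) + κ) =
              Real.exp (1 / 16) - xl l * Real.exp (1 / 16) + xl l * (Real.exp (1 / 16) * Real.exp (-(1 / 16))) +
                κ * Real.exp (1 / 16) := by ring
          rw [h5, h1]
          have h6 : 0 ≤ κ * (1 + (Real.exp (1 / 16) - 1) * xl l) := by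
            have : 1 ≤ Real.exp (1 / 16) := Real.one_le_exp (by norm_num)
            have : 0 ≤ (Real.exp (1 / 16) - 1) * xl l := mul_nonneg (by linarith) hxl0.le
            positivity
          nlinarith
        have hfac0 : 0 ≤ 1 + (1 + κ) * avg (fun ω => Real.exp (1 / 16 * ind (S0 l) ω) - 1) := by
          have : 0 ≤ avg (fun ω => Real.exp (1 / 16 * ind (S0 l) ω) - 1) := by
            unfold avg
            apply div_nonneg _ (Nat.cast_nonneg _)
            apply Finset.sum_nonneg
            intro ω _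
            have := Real.one_le_exp (mul_nonneg (by norm_num : (0 : ℝ) ≤ 1 / 16) (ind_nonneg (S0 l) ω))
            linarith
          positivity
        rw [Finset.prod_const]
        refine (mul_le_mul_of_nonneg_left (pow_le_pow_left₀ hfac0 hfac _) (Real.exp_nonneg _)).trans ?_
        rw [← Real.exp_nat_mul, ← Real.exp_add, hq0]
        apply Real.exp_le_exp.mpr
        have h7 : Real.exp (-(1 / 16)) ≤ 1 - 1 / 16 + (1 / 16) ^ 2 := by
          have := Real.abs_exp_sub_one_sub_id_le (x := -(1 / 16)) (by
            rw [abs_neg, abs_of_nonneg] <;> norm_num)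
          have := (abs_le.mp this).2
          linarith
        set D : ℝ := ((Nb G v).card : ℝ) with hDdef
        have h8 : D * (xl l * (1 / 16 - 1 + Real.exp (-(1 / 16)))) ≤ P * (xl l * (1 / 16) ^ 2) := by
          have h9 : xl l * (1 / 16 - 1 + Real.exp (-(1 / 16))) ≤ xl l * (1 / 16) ^ 2 :=
            mul_le_mul_of_nonneg_left (by linarith) hxl0.le
          calc D * (xl l * (1 / 16 - 1 + Real.exp (-(1 / 16)))) ≤ D * (xl l * (1 / 16) ^ 2) :=
                mul_le_mul_of_nonneg_left h9 hD0
            _ ≤ P * (xl l * (1 / 16) ^ 2) := mul_le_mul_of_nonneg_right hDv (by positivity)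
        have h10 : D * κ ≤ B := by
          rw [← hκP, mul_comm κ]
          exact mul_le_mul_of_nonneg_right hDv hκ0.le
        nlinarith
      by_cases hk1 : kind = 1
      · subst hk1
        rw [gB1, tB1, sB1]
        simp only
        refine (prod_bound (s := 1 / 2) (t := xl l * P / 32) (φ := 1 + κ) (M := xl l * P / 64) (Nb G v)
          (fun _ => S1' l) hφ0 (by norm_num) ?_).trans ?_
        · rw [Finset.sum_const, nsmul_eq_mul, Fintype.card_fin]
          calc ((Nb G v).card : ℝ) * (((S1' l).card : ℝ) / (N : ℝ))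
              ≤ P * (xl l / 64) := mul_le_mul hDv hS1' (div_nonneg (Nat.cast_nonneg _) hNr.le) hP0.le
            _ = _ := by ring
        · rw [hq0]
          apply Real.exp_le_exp.mpr
          have h1 : (1 + κ) * (Real.exp (1 / 2) - 1) ≤ (513 / 512) * (3 / 4) :=
            mul_le_mul (by linarith) hexp2 hexp20 (by norm_num)
          have h2 := mul_le_mul_of_nonneg_right h1 (by positivity : 0 ≤ xl l * P / 64)
          nlinarith
      by_cases hk2 : kind = 2
      · subst hk2
        rw [gB2, tB2, sB2]
        simp only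
        set S := S1' l with hS
        have h1 : ∀ u ∈ Nb G v, 1 + (1 + κ) * avg (fun ω => Real.exp (1 * (wt l v u * ind S ω)) - 1) ≤
            Real.exp ((1 + κ) * (2 * wt l v u * (xl l / 64))) := by
          intro u _
          have h2 : avg (fun ω => Real.exp (1 * (wt l v u * ind S ω)) - 1) ≤
              2 * wt l v u * (xl l / 64) := by
            have h3 : ∀ ω, Real.exp (1 * (wt l v u * ind S ω)) - 1 ≤ (2 * wt l v u) * ind S ω := by
              intro ω
              unfold ind
              split_ifs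
              · have := exp_sub_one_le_two (hwt0 l v u) (hwt1 l v u)
                rw [one_mul, mul_one, mul_one]
                exact this
              · simp
            refine (avg_le h3).trans ?_
            rw [avg_ind, Fintype.card_fin]
            exact mul_le_mul_of_nonneg_left hS1' (mul_nonneg (by norm_num) (hwt0 l v u))
          have h4 := mul_le_mul_of_nonneg_left h2 hφ0
          have h5 := Real.add_one_le_exp ((1 + κ) * (2 * wt l v u * (xl l / 64)))
          linarith
        have h0 : ∀ u ∈ Nb G v, 0 ≤ 1 + (1 + κ) * avg (fun ω => Real.exp (1 * (wt l v u * ind S ω)) - 1) := by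
          intro u _
          have : 0 ≤ avg (fun ω => Real.exp (1 * (wt l v u * ind S ω)) - 1) := by
            unfold avg
            apply div_nonneg _ (Nat.cast_nonneg _)
            apply Finset.sum_nonneg
            intro ω _
            have := Real.one_le_exp (mul_nonneg zero_le_one (mul_nonneg (hwt0 l v u) (ind_nonneg S ω)))
            linarith
          positivity
        refine (mul_le_mul_of_nonneg_left (Finset.prod_le_prod h0 h1) (Real.exp_nonneg _)).trans ?_
        rw [← Real.exp_sum, ← Real.exp_add, hq0]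
        apply Real.exp_le_exp.mpr
        have h6 : ∑ u ∈ Nb G v, (1 + κ) * (2 * wt l v u * (xl l / 64)) =
            (1 + κ) * (xl l / 32) * ∑ u ∈ Nb G v, wt l v u := by
          rw [Finset.mul_sum]
          apply Finset.sum_congr rfl
          intro u _
          ring
        rw [h6]
        have h7 : (1 + κ) * (xl l / 32) * ∑ u ∈ Nb G v, wt l v u ≤ (1 + κ) * (xl l / 32) * (2 / xl l) :=
          mul_le_mul_of_nonneg_left (hwts l v) (by positivity)
        have h8 : (1 + κ) * (xl l / 32) * (2 / xl l) = (1 + κ) / 16 := by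
          field_simp
          ring
        rw [h8] at h7
        linarith
      · have hk3 : kind = 3 := fin4 kind hk0 hk1 hk2
        subst hk3
        rw [gB3, tB3, sB3]
        simp only
        refine (prod_bound (s := 1 / 2) (t := 2 * (xl l * P)) (φ := 1 + κ) (M := xl l * P) (Nb G v)
          (fun _ => S3 l) hφ0 (by norm_num) ?_).trans ?_
        · rw [Finset.sum_const, nsmul_eq_mul, Fintype.card_fin, hS3' l hlJ, mul_comm (xl l)]
          exact mul_le_mul_of_nonneg_right hDv hxl0.le
        · rw [hq0]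
          apply Real.exp_le_exp.mpr
          have h1 : (1 + κ) * (Real.exp (1 / 2) - 1) ≤ (513 / 512) * (3 / 4) :=
            mul_le_mul (by linarith) hexp2 hexp20 (by norm_num)
          have h2 := mul_le_mul_of_nonneg_right h1 (by positivity : 0 ≤ xl l * P)
          nlinarith)
  have hsumind : ∀ (v : V) (S : Finset (Fin N)), ∑ u ∈ Nb G v, ind S (x u) =
      (((Nb G v).filter fun u => x u ∈ S).card : ℝ) := by
    intro v S
    rw [Finset.card_filter]
    push_cast
    apply Finset.sum_congr rfl
    intro u _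
    unfold ind
    by_cases h : x u ∈ S
    · rw [if_pos h, if_pos h]
    · rw [if_neg h, if_neg h]
  refine ⟨fun l => univ.filter fun u => (x u).1 < θ l, ?_, ?_, ?_, ?_, ?_, ?_⟩
  · ext u
    simp only [mem_filter, mem_univ, true_and, iff_true, θ, if_pos (Nat.zero_le J), pow_zero, mul_one,
      Nat.sub_zero]
    exact (x u).2
  · intro l _ u hu
    rw [Finset.mem_filter] at hu ⊢
    exact ⟨hu.1, lt_of_lt_of_le hu.2 (hθmono l)⟩
  · intro l hl v
    have h1 := hx (v, ⟨l, by omega⟩, 0)
    rw [gB0, tB0] at h1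
    simp only at h1
    rw [hsumind] at h1
    refine le_trans (le_of_eq ?_) h1
    congr 1
    congr 1
    ext u
    simp only [mem_filter, mem_univ, true_and, S0]
  · intro l hl v
    have h1 := hx (v, ⟨l, by omega⟩, 1)
    rw [gB1, tB1] at h1
    simp only at h1
    rw [hS1'p l hl, hsumind] at h1
    refine le_trans (le_of_eq ?_) h1
    congr 1
    congr 1
    ext u
    simp only [mem_filter, mem_univ, true_and, S1]
  · intro l hl w
    have h1 := hx (w, ⟨l, by omega⟩, 2)
    rw [gB2, tB2] at h1
    simp only at h1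
    rw [hS1'p l hl] at h1
    refine le_trans (le_of_eq ?_) h1
    rw [Finset.sum_filter]
    apply Finset.sum_congr rfl
    intro u _
    unfold ind
    simp only [mem_filter, mem_univ, true_and, S1]
    split_ifs <;> simp
  · intro v
    have h1 := hx (v, ⟨J, by omega⟩, 3)
    rw [gB3, tB3] at h1
    simp only at h1
    rw [hsumind] at h1
    refine le_trans (le_of_eq ?_) h1
    congr 1
    congr 1
    ext u
    simp only [mem_filter, mem_univ, true_and, S3]

end TC19
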