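import Pool.Agent.Lib_helper19.TC.RS

set_option autoImplicit false

/-!
# List colourings when the colour degrees are a little smaller than the lists, continued
-/

namespace TC19

open Finset Classical

variable {V K : Type*}

theorem parts [Fintype V] (G : SimpleGraph V) (L : V → Finset K) {m : ℕ} (hL : ∀ v, (L v).card ≤ m)
    {J : ℕ} (hJ : 1 ≤ J) {M T φ s q0 : ℝ} (hM0 : 0 ≤ M)
    (hM : ∀ v, ∀ a ∈ L v, ((NS G L univ v a).card : ℝ) ≤ M)
    (hφ : 1 ≤ φ) (hs : 0 ≤ s) (hq0 : 0 ≤ q0) (hq1 : q0 < 1)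
    (h1 : 1 ≤ φ * (1 - m * M * J * q0))
    (hB : Real.exp (-(s * T) + φ * (Real.exp s - 1) * (M / J)) ≤ q0) :
    ∃ part : V → Fin J, ∀ i v, ∀ a ∈ L v,
      ((NS G L (univ.filter fun w => part w = i) v a).card : ℝ) ≤ T := by
  have hJne : Nonempty (Fin J) := ⟨⟨0, by omega⟩⟩
  have hJ0 : (0 : ℝ) < J := by exact_mod_cast hJ
  let JB := (Σ v : V, {a // a ∈ L v}) × Fin J
  have : Finite (Σ v : V, {a // a ∈ L v}) := inferInstance
  have : Fintype (Σ v : V, {a // a ∈ L v}) := Fintype.ofFinite _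
  have : Fintype JB := Fintype.ofFinite JB
  let YB : JB → Finset V := fun p => NS G L univ p.1.1 p.1.2.1
  let PB : JB → V → Finset (Fin J) := fun p _ => {p.2}
  have hcB : ∀ i : V, ((univ.filter fun p : JB => i ∈ YB p).card : ℝ) ≤ m * M * J := by
    intro i
    have h2 : (univ.filter fun p : JB => i ∈ YB p).card ≤
        (((L i).sigma fun a => NS G L univ i a) ×ˢ (univ : Finset (Fin J))).card := by
      apply Finset.card_le_card_of_injOn
        (fun p : JB => ((⟨p.1.2.1, p.1.1⟩ : Σ _ : K, V), p.2))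
      · rintro ⟨⟨v, a, ha⟩, j⟩ hp
        simp only [coe_filter, mem_univ, true_and, Set.mem_ofPred_eq, YB, NS, mem_filter] at hp
        simp only [coe_product, Set.mem_prod, mem_coe, mem_sigma, NS, mem_filter, mem_univ, true_and,
          and_true]
        exact ⟨hp.2, hp.1.symm, ha⟩
      · rintro ⟨⟨v, a, ha⟩, j⟩ _ ⟨⟨v', a', ha'⟩, j'⟩ _ h
        simp only [Prod.mk.injEq, Sigma.mk.injEq, heq_eq_eq] at h
        obtain ⟨⟨rfl, rfl⟩, rfl⟩ := h
        rfl
    rw [Finset.card_product, Finset.card_sigma, Finset.card_univ, Fintype.card_fin] at h2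
    have h3 : ((univ.filter fun p : JB => i ∈ YB p).card : ℝ) ≤
        (∑ a ∈ L i, ((NS G L univ i a).card : ℝ)) * J := by exact_mod_cast h2
    refine h3.trans (mul_le_mul_of_nonneg_right ?_ hJ0.le)
    calc (∑ a ∈ L i, ((NS G L univ i a).card : ℝ)) ≤ (L i).card • M :=
          Finset.sum_le_card_nsmul _ _ _ fun a ha => hM i a ha
      _ ≤ m * M := by
          rw [nsmul_eq_mul]
          exact mul_le_mul_of_nonneg_right (by exact_mod_cast hL i) hM0
  obtain ⟨x, -, hx⟩ := lllc (ι := V) (Ω := Fin J) (JA := Empty) (fun j => j.elim) (fun j => j.elim)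
    YB (fun p v => ind (PB p v)) (fun p v ω => ind_nonneg _ _) (fun _ => T) (fun _ => s)
    (fun _ => hs) (fun _ => 0) (fun j => j.elim) (fun j => j.elim)
    (fun _ => q0) (fun _ => hq0) (fun _ => hq1) φ hφ (by
      intro i
      refine h1.trans (mul_le_mul_of_nonneg_left ?_ (by linarith))
      rw [Finset.sum_const, Finset.sum_const, nsmul_eq_mul, nsmul_eq_mul, mul_zero, zero_add]
      have h4 := mul_le_mul_of_nonneg_right (hcB i) hq0
      linarith)
    (fun j => j.elim)
    (by
      intro p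
      refine le_trans ?_ hB
      refine prod_bound (YB p) (PB p) (by linarith) hs ?_
      rw [Fintype.card_fin]
      simp only [PB, Finset.card_singleton, Nat.cast_one]
      rw [Finset.sum_const, nsmul_eq_mul, mul_one_div]
      exact div_le_div_of_nonneg_right (hM p.1.1 p.1.2.1 p.1.2.2) hJ0.le)
  refine ⟨x, ?_⟩
  intro i v a ha
  have h5 := hx (⟨v, a, ha⟩, i)
  refine le_trans (le_of_eq ?_) h5
  have e1 : NS G L (univ.filter fun w => x w = i) v a =
      (NS G L univ v a).filter fun w => x w = i := by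
    ext w
    simp only [NS, mem_filter, mem_univ, true_and]
    tauto
  rw [e1, Finset.card_filter]
  push_cast
  apply Finset.sum_congr rfl
  intro w _
  show _ = ind {i} (x w)
  unfold ind
  by_cases h : x w = i
  · rw [if_pos h, if_pos (Finset.mem_singleton.mpr h)]
  · rw [if_neg h, if_neg (fun h' => h (Finset.mem_singleton.mp h'))]

theorem rounds [Fintype V] (G : SimpleGraph V) (τ : V → Finset K) {J m t ℓ₀ : ℕ}
    (hτ : ∀ v, (τ v).card = m) (part : V → Fin J) {T M φ s qB : ℝ} (hT0 : 0 ≤ T) (hM0 : 0 ≤ M)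
    (hT : ∀ i v, ∀ a ∈ τ v, ((NS G τ (univ.filter fun w => part w = i) v a).card : ℝ) ≤ T)
    (hM : ∀ v, ∀ a ∈ τ v, ((NS G τ univ v a).card : ℝ) ≤ M)
    (hφ : 1 ≤ φ) (hφ2 : φ ^ 2 ≤ 2) (hs : 0 ≤ s) (hqB0 : 0 ≤ qB) (hqB1 : qB < 1)
    (hℓ₀ : 2 ≤ ℓ₀) (hmt : ℓ₀ + J * t ≤ m)
    (h1 : 1 ≤ φ * (1 - (4 * T / ℓ₀ + m * M * qB)))
    (hB : Real.exp (-(s * t) + φ * (Real.exp s - 1) * T) ≤ qB) :
    ∃ g : V → K, (∀ v, g v ∈ τ v) ∧ ∀ u w, G.Adj u w → g u ≠ g w := by
  have hne : ∀ v, (τ v).Nonempty := by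
    intro v
    rw [← Finset.card_pos, hτ v]
    omega
  have key : ∀ i : ℕ, i ≤ J → ∃ (g : V → K) (L : V → Finset K), (∀ v, L v ⊆ τ v) ∧
      (∀ v, (L v).card = m - i * t) ∧ (∀ v, g v ∈ τ v) ∧
      (∀ u w, G.Adj u w → (part u).1 < i → (part w).1 < i → g u ≠ g w) ∧
      (∀ v u, G.Adj v u → (part u).1 < i → g u ∉ L v) := by
    intro i
    induction i with
    | zero =>
      intro _
      refine ⟨fun v => (hne v).choose, τ, fun v => Finset.Subset.refl _, ?_,
        fun v => (hne v).choose_spec, ?_, ?_⟩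
      · intro v; rw [hτ v]; omega
      · intro u w _ h; exact absurd h (Nat.not_lt_zero _)
      · intro v u _ h; exact absurd h (Nat.not_lt_zero _)
    | succ i ih =>
      intro hi
      obtain ⟨g, L, hLτ, hLc, hg, hgp, hgL⟩ := ih (by omega)
      have hit : ℓ₀ + t ≤ m - i * t := by
        have h2 : (i + 1) * t ≤ J * t := Nat.mul_le_mul_right _ hi
        have h3 : (i + 1) * t = i * t + t := by ring
        omega
      set ℓ := m - i * t with hℓ
      have hℓ₀r : (0 : ℝ) < ℓ₀ := by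
        have : 0 < ℓ₀ := by omega
        exact_mod_cast this
      have hℓr : (ℓ₀ : ℝ) ≤ ℓ := by
        have : ℓ₀ ≤ ℓ := by omega
        exact_mod_cast this
      have hℓm : (ℓ : ℝ) ≤ m := by
        have : ℓ ≤ m := by omega
        exact_mod_cast this
      obtain ⟨g', hg'1, hg'2, hg'3⟩ := round G L (by omega : 1 ≤ ℓ) hLc
        (univ.filter fun w => part w = (⟨i, by omega⟩ : Fin J)) (T := T) (M := M) (φ := φ) (s := s)
        (qB := qB) (t := t)
        (by
          intro v a ha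
          refine le_trans ?_ (hT ⟨i, by omega⟩ v a (hLτ v ha))
          exact_mod_cast Finset.card_le_card (NS_mono G hLτ v a))
        (by
          intro v a ha
          refine le_trans ?_ (hM v a (hLτ v ha))
          exact_mod_cast Finset.card_le_card (NS_mono G hLτ v a))
        hφ hφ2 (by
          have : 2 ≤ ℓ := by omega
          nlinarith) hs hqB0 hqB1 (by
          refine h1.trans (mul_le_mul_of_nonneg_left ?_ (by linarith))
          have h4 : 4 * T / ℓ ≤ 4 * T / ℓ₀ :=
            div_le_div_of_nonneg_left (by linarith) hℓ₀r hℓr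
          have h5 : (ℓ : ℝ) * M * qB ≤ m * M * qB :=
            mul_le_mul_of_nonneg_right (mul_le_mul_of_nonneg_right hℓm hM0) hqB0
          linarith) hB
      have hrem : ∀ v, ∃ L' : Finset K, L' ⊆ L v \ ((univ.filter fun w =>
          part w = (⟨i, by omega⟩ : Fin J)).filter fun u => G.Adj v u ∧ g' u ∈ L v).image g' ∧
          L'.card = m - (i + 1) * t := by
        intro v
        apply Finset.exists_subset_card_eq
        have h6 := Finset.le_card_sdiff (((univ.filter fun w =>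
          part w = (⟨i, by omega⟩ : Fin J)).filter fun u => G.Adj v u ∧ g' u ∈ L v).image g') (L v)
        have h7 := (Finset.card_image_le (s := (univ.filter fun w =>
          part w = (⟨i, by omega⟩ : Fin J)).filter fun u => G.Adj v u ∧ g' u ∈ L v)
          (f := g')).trans (hg'3 v)
        rw [hLc v] at h6
        have h8 : (i + 1) * t = i * t + t := by ring
        omega
      choose L' hL'1 hL'2 using hrem
      refine ⟨fun v => if (part v).1 = i then g' v else g v, L', ?_, hL'2, ?_, ?_, ?_⟩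
      · intro v a ha
        exact hLτ v (Finset.mem_sdiff.mp (hL'1 v ha)).1
      · intro v
        simp only
        split_ifs
        · exact hLτ v (hg'1 v)
        · exact hg v
      · intro u w huw hu hw
        simp only
        by_cases hu' : (part u).1 = i
        · by_cases hw' : (part w).1 = i
          · rw [if_pos hu', if_pos hw']
            apply hg'2 u _ w _ huw
            · rw [Finset.mem_filter]; exact ⟨Finset.mem_univ _, Fin.ext hu'⟩
            · rw [Finset.mem_filter]; exact ⟨Finset.mem_univ _, Fin.ext hw'⟩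
          · rw [if_pos hu', if_neg hw']
            intro h
            exact hgL u w huw (by omega) (h ▸ hg'1 u)
        · by_cases hw' : (part w).1 = i
          · rw [if_neg hu', if_pos hw']
            intro h
            exact hgL w u huw.symm (by omega) (h ▸ hg'1 w)
          · rw [if_neg hu', if_neg hw']
            exact hgp u w huw (by omega) (by omega)
      · intro v u hvu hu
        simp only
        by_cases hu' : (part u).1 = i
        · rw [if_pos hu']
          intro h
          have h9 := Finset.mem_sdiff.mp (hL'1 v h)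
          apply h9.2
          rw [Finset.mem_image]
          refine ⟨u, ?_, rfl⟩
          rw [Finset.mem_filter, Finset.mem_filter]
          exact ⟨⟨Finset.mem_univ _, Fin.ext hu'⟩, hvu, h9.1⟩
        · rw [if_neg hu']
          intro h
          exact hgL v u hvu (by omega) (Finset.mem_sdiff.mp (hL'1 v h)).1
  obtain ⟨g, L, -, -, hg, hgp, -⟩ := key J le_rfl
  exact ⟨g, hg, fun u w huw => hgp u w huw (part u).2 (part w).2⟩

theorem exp_bound {s : ℝ} (h0 : 0 ≤ s) (h1 : s ≤ 1) : Real.exp s - 1 ≤ s + s ^ 2 := by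
  have := Real.abs_exp_sub_one_sub_id_le (x := s) (by rw [abs_of_nonneg h0]; exact h1)
  have := (abs_le.mp this).2
  linarith

/-- The theorem of Reed and Sudakov. -/
theorem rs.{u, w} (η : ℝ) (hη0 : 0 < η) (hη : η ≤ 1 / 4) : ∃ m₀ : ℕ, ∀ m ≥ m₀,
    ∀ (V : Type u) (K : Type w) [Fintype V] (G : SimpleGraph V) (τ : V → Finset K),
      (∀ v, (τ v).card = m) →
      (∀ v, ∀ a ∈ τ v, ((NS G τ univ v a).card : ℝ) ≤ (1 - 4 * η) * m) →
      ∃ g : V → K, (∀ v, g v ∈ τ v) ∧ ∀ u w, G.Adj u w → g u ≠ g w := by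
  obtain ⟨J, hJ⟩ := exists_nat_ge (24 / η ^ 2)
  have hJ0 : (0 : ℝ) < J := lt_of_lt_of_le (by positivity) hJ
  have hJ1 : 1 ≤ J := by exact_mod_cast hJ0
  have hJ1' : (1 : ℝ) ≤ J := by exact_mod_cast hJ1
  set c : ℝ := η ^ 2 / (16 * J) with hc
  have hc0 : 0 < c := by positivity
  have hlim : Filter.Tendsto (fun x : ℝ => x ^ 2 * Real.exp (-x)) Filter.atTop (nhds 0) :=
    Real.tendsto_pow_mul_exp_neg_atTop_nhds_zero 2
  have hev : ∀ᶠ x : ℝ in Filter.atTop, x ^ 2 * Real.exp (-x) ≤ c ^ 2 * (η / 6) / J := by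
    have hpos : 0 < c ^ 2 * (η / 6) / J := by positivity
    have := hlim.eventually (gt_mem_nhds hpos)
    filter_upwards [this] with x hx
    exact hx.le
  obtain ⟨x₀, hx₀⟩ := Filter.eventually_atTop.mp hev
  obtain ⟨m₀, hm₀⟩ := exists_nat_ge (max (x₀ / c) (max (J / η) (3 / η)))
  refine ⟨m₀, ?_⟩
  intro m hm V K _ G τ hτ hM
  have hmr : (m₀ : ℝ) ≤ m := by exact_mod_cast hm
  have hm1 : x₀ / c ≤ m := (le_max_left _ _).trans (hm₀.trans hmr)
  have hm2 : J / η ≤ m := ((le_max_left _ _).trans (le_max_right _ _)).trans (hm₀.trans hmr)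
  have hm3 : 3 / η ≤ m := ((le_max_right _ _).trans (le_max_right _ _)).trans (hm₀.trans hmr)
  have hm0 : (0 : ℝ) < m := lt_of_lt_of_le (by positivity) hm3
  have hmain : (m : ℝ) ^ 2 * J * Real.exp (-(c * m)) ≤ η / 6 := by
    have h1 := hx₀ (c * m) (by rw [div_le_iff₀ hc0] at hm1; linarith)
    rw [le_div_iff₀ hJ0, mul_pow] at h1
    have h2 : c ^ 2 * (m ^ 2 * J * Real.exp (-(c * m))) ≤ c ^ 2 * (η / 6) := by linarith
    exact le_of_mul_le_mul_left h2 (by positivity)
  set q0 : ℝ := Real.exp (-(c * m)) with hq0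
  have hq00 : 0 ≤ q0 := Real.exp_nonneg _
  have hq01 : q0 < 1 := by
    rw [hq0, Real.exp_lt_one_iff]
    have : 0 < c * m := by positivity
    linarith
  have hJη : J ≤ η * m := by rw [div_le_iff₀ hη0] at hm2; linarith
  have h3η : 3 ≤ η * m := by rw [div_le_iff₀ hη0] at hm3; linarith
  set T : ℝ := (1 - 3 * η) * m / J with hT
  set M : ℝ := (1 - 4 * η) * m with hMdef
  have hT0 : 0 ≤ T := by
    rw [hT]
    apply div_nonneg _ hJ0.le
    apply mul_nonneg _ hm0.le
    linarith
  have hM0 : 0 ≤ M := mul_nonneg (by linarith) hm0.le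
  have hMm : M ≤ m := by
    rw [hMdef]
    nlinarith
  set s : ℝ := η / 4 with hs
  have hs0 : 0 ≤ s := by positivity
  have hs1 : s ≤ 1 := by rw [hs]; linarith
  have hexp := exp_bound hs0 hs1
  set φ : ℝ := 1 + η / 2 with hφ
  have hφ1 : 1 ≤ φ := by rw [hφ]; linarith
  have hmJ : 0 < (m : ℝ) / J := by positivity
  have hcm : c * m = (m / J) * (η ^ 2 / 16) := by
    rw [hc]
    field_simp
  obtain ⟨part, hpart⟩ := parts G τ (fun v => (hτ v).le) hJ1 hM0 hM hφ1 hs0 hq00 hq01 (T := T) (by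
      have h5 : (m : ℝ) * M * J * q0 ≤ η / 6 := by
        calc (m : ℝ) * M * J * q0 ≤ m * m * J * q0 := by
              apply mul_le_mul_of_nonneg_right _ hq00
              apply mul_le_mul_of_nonneg_right _ hJ0.le
              exact mul_le_mul_of_nonneg_left hMm hm0.le
          _ = m ^ 2 * J * q0 := by ring
          _ ≤ η / 6 := hmain
      rw [hφ]
      nlinarith) (by
      rw [hq0]
      apply Real.exp_le_exp.mpr
      have h6 : φ * (Real.exp s - 1) * (M / J) ≤ φ * (s + s ^ 2) * (M / J) := by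
        apply mul_le_mul_of_nonneg_right _ (by positivity)
        exact mul_le_mul_of_nonneg_left hexp (by linarith)
      have h7 : φ * (s + s ^ 2) * (M / J) - s * T ≤ -((m / J) * (η ^ 2 / 16)) := by
        have e1 : φ * (s + s ^ 2) * (M / J) - s * T =
            (m / J) * (φ * (s + s ^ 2) * (1 - 4 * η) - s * (1 - 3 * η)) := by
          rw [hT, hMdef]; ring
        rw [e1, ← mul_neg]
        apply mul_le_mul_of_nonneg_left _ hmJ.le
        rw [hφ, hs]
        nlinarith [pow_pos hη0 2, pow_pos hη0 3, pow_pos hη0 4]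
      rw [hcm]
      linarith)
  set t : ℕ := ⌊(1 - η) * m / J⌋₊ with ht
  have htle : (t : ℝ) ≤ (1 - η) * m / J := Nat.floor_le (by
    apply div_nonneg _ hJ0.le
    exact mul_nonneg (by linarith) hm0.le)
  have htge : (1 - 2 * η) * m / J ≤ t := by
    have h8 := Nat.lt_floor_add_one ((1 - η) * m / J)
    have h9 : 1 ≤ η * m / J := by rw [le_div_iff₀ hJ0]; linarith
    have e1 : (1 - 2 * η) * m / J = (1 - η) * m / J - η * m / J := by ring
    rw [e1]
    have : (1 - η) * m / J < (t : ℝ) + 1 := h8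
    linarith
  have hJt : (J : ℝ) * t ≤ (1 - η) * m := by
    rw [le_div_iff₀ hJ0] at htle
    linarith
  have hJtm : J * t ≤ m := by
    have : ((J * t : ℕ) : ℝ) ≤ m := by
      push_cast
      nlinarith
    exact_mod_cast this
  obtain ⟨ℓ₀, hℓ₀⟩ : ∃ ℓ₀ : ℕ, ℓ₀ + J * t = m := ⟨m - J * t, by omega⟩
  have hℓ₀r : η * m ≤ (ℓ₀ : ℝ) := by
    have : (ℓ₀ : ℝ) + J * t = m := by exact_mod_cast hℓ₀
    linarith
  have hℓ₀2 : 2 ≤ ℓ₀ := by
    have : (2 : ℝ) ≤ ℓ₀ := by linarith
    exact_mod_cast this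
  apply rounds G τ hτ part hT0 hM0 hpart hM hφ1 (φ := φ) (s := s) (qB := q0) (t := t) (ℓ₀ := ℓ₀) _ hs0
    hq00 hq01 hℓ₀2 hℓ₀.le
  · -- h1
    have h10 : 4 * T / ℓ₀ ≤ η / 6 := by
      have hℓpos : (0 : ℝ) < ℓ₀ := by linarith
      rw [div_le_iff₀ hℓpos]
      have h11 : T ≤ m / J := by
        rw [hT]
        apply div_le_div_of_nonneg_right _ hJ0.le
        nlinarith
      have h12 : 24 ≤ η ^ 2 * J := by
        rw [div_le_iff₀ (by positivity)] at hJ
        linarith
      have h13 : 4 * ((m : ℝ) / J) ≤ η / 6 * (η * m) := by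
        rw [← mul_div_assoc, div_le_iff₀ hJ0]
        nlinarith
      have h14 : η / 6 * (η * m) ≤ η / 6 * ℓ₀ := mul_le_mul_of_nonneg_left hℓ₀r (by positivity)
      linarith
    have h15 : (m : ℝ) * M * q0 ≤ η / 6 := by
      calc (m : ℝ) * M * q0 ≤ m * m * q0 :=
            mul_le_mul_of_nonneg_right (mul_le_mul_of_nonneg_left hMm hm0.le) hq00
        _ ≤ m * m * q0 * J := le_mul_of_one_le_right (by positivity) hJ1'
        _ = m ^ 2 * J * q0 := by ring
        _ ≤ η / 6 := hmain
    rw [hφ]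
    nlinarith
  · -- hB
    rw [hq0]
    apply Real.exp_le_exp.mpr
    have h6 : φ * (Real.exp s - 1) * T ≤ φ * (s + s ^ 2) * T := by
      apply mul_le_mul_of_nonneg_right _ hT0
      exact mul_le_mul_of_nonneg_left hexp (by linarith)
    have h6' : s * ((1 - 2 * η) * m / J) ≤ s * t := mul_le_mul_of_nonneg_left htge hs0
    have h7 : φ * (s + s ^ 2) * T - s * ((1 - 2 * η) * m / J) ≤ -((m / J) * (η ^ 2 / 16)) := by
      have e1 : φ * (s + s ^ 2) * T - s * ((1 - 2 * η) * m / J) =
          (m / J) * (φ * (s + s ^ 2) * (1 - 3 * η) - s * (1 - 2 * η)) := by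
        rw [hT]; ring
      rw [e1, ← mul_neg]
      apply mul_le_mul_of_nonneg_left _ hmJ.le
      rw [hφ, hs]
      nlinarith [pow_pos hη0 2, pow_pos hη0 3, pow_pos hη0 4]
    rw [hcm]
    linarith
  · rw [hφ]
    nlinarith

end TC19
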