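import Pool.Agent.Lib_helper19.TC.Row2
import Pool.Agent.Lib_helper19.TC.RS2

set_option autoImplicit false

/-!
# Equalising the numbers of own tokens over blocks of colours
-/

namespace TC19

open Finset Classical

variable {V E K : Type*}

/-- the number of tokens of `v` in `R` -/
noncomputable def own (τ : V → Finset K) (R : Finset K) (v : V) : ℕ :=
  ((τ v).filter fun a => a ∈ R).card

theorem own_congr {τ τ' : V → Finset K} {R : Finset K} {v : V}
    (h : ∀ a ∈ R, (a ∈ τ' v ↔ a ∈ τ v)) : own τ' R v = own τ R v := by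
  unfold own
  congr 1
  ext a
  simp only [mem_filter]
  constructor
  · rintro ⟨h1, h2⟩
    exact ⟨(h a h2).mp h1, h2⟩
  · rintro ⟨h1, h2⟩
    exact ⟨(h a h2).mpr h1, h2⟩

theorem prod_bound' {ι Ω : Type*} [Fintype Ω] [Nonempty Ω] (Y : Finset ι) (g : ι → Ω → ℝ)
    (hg : ∀ i ω, g i ω = 0 ∨ g i ω = 1) {s t φ M : ℝ} (hφ : 0 ≤ φ)
    (hs : 0 ≤ s) (hM : ∑ i ∈ Y, avg (g i) ≤ M) :
    Real.exp (-(s * t)) * ∏ i ∈ Y, (1 + φ * avg (fun ω => Real.exp (s * g i ω) - 1))
      ≤ Real.exp (-(s * t) + φ * (Real.exp s - 1) * M) := by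
  have e1 : ∀ i ω, g i ω = ind (univ.filter fun ω => g i ω = 1) ω := by
    intro i ω
    unfold ind
    rcases hg i ω with h | h
    · rw [if_neg (by simp [h]), h]
    · rw [if_pos (by simp [h]), h]
  have e2 : ∀ i, avg (g i) = ((univ.filter fun ω => g i ω = 1).card : ℝ) / Fintype.card Ω := by
    intro i
    unfold avg
    congr 1
    rw [Finset.card_filter]
    push_cast
    apply Finset.sum_congr rfl
    intro ω _
    rcases hg i ω with h | h
    · rw [if_neg (by simp [h]), h]
    · rw [if_pos (by simp [h]), h]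
  have e3 : ∀ i, (fun ω => Real.exp (s * g i ω) - 1) =
      fun ω => Real.exp (s * ind (univ.filter fun ω => g i ω = 1) ω) - 1 := by
    intro i
    funext ω
    rw [← e1 i ω]
  simp_rw [e3]
  refine prod_bound Y (fun i => univ.filter fun ω => g i ω = 1) hφ hs ?_
  simp_rw [e2] at hM
  exact hM

theorem mix1 [Fintype V] [Fintype E] {s t : E → V} (hst : ∀ e, s e ≠ t e)
    {c : E → K} {τ : V → Finset K} (hV : Valid s t c τ) {m : ℕ} (hm : ∀ v, (τ v).card ≤ m)
    {T T' : Finset K} (hdisj : Disjoint T T') (hcard : T.card = T'.card) {N : ℕ} (hN : 1 ≤ N)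
    {x : ℝ} (hx0 : 0 < x) (hx1 : x ≤ 1) (hx : Real.exp (-(x ^ 2 * m / 10)) ≤ x / 20) :
    ∃ (c' : E → K) (τ' : V → Finset K), Valid s t c' τ' ∧ (∀ v, (τ' v).card = (τ v).card) ∧
      (∀ v a, a ∉ T → a ∉ T' → (a ∈ τ' v ↔ a ∈ τ v)) ∧
      (∀ v, own τ' T v + own τ' T' v = own τ T v + own τ T' v) ∧
      ∀ v, |(own τ' T v : ℝ) - ((1 - 1 / N) * own τ T v + 1 / N * own τ T' v)| ≤ x * m := by
  obtain ⟨hp, hτ⟩ := hV
  obtain ⟨σ, hσσ, hσ1, hσ2, hσ3⟩ := exists_invol hdisj hcard
  have hex : ∃ X : Ctx V E K, X.s = s ∧ X.t = t ∧ X.c = c ∧ X.T = T ∧ X.T' = T' ∧ X.τ = τ :=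
    ⟨⟨s, t, c, T, T', σ, τ, hst, hp, hτ, hσσ, hσ1, hσ2, hσ3, hdisj⟩, rfl, rfl, rfl, rfl, rfl, rfl⟩
  obtain ⟨X, rfl, rfl, rfl, rfl, rfl, rfl⟩ := hex
  have hNne : Nonempty (Fin N) := ⟨⟨0, by omega⟩⟩
  have hNr : (0 : ℝ) < N := by exact_mod_cast hN
  have hm0 : (0 : ℝ) ≤ m := Nat.cast_nonneg _
  let z : Fin N := ⟨0, by omega⟩
  let flip : Fin N → Bool := fun ω => decide (ω = z)
  let Y : V → Finset X.Idx := fun v => univ.filter fun i => X.cp i.1 v = i.2 ∧ X.act i.1 v
  let g : V × Bool → X.Idx → Fin N → ℝ := fun p i ω =>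
    X.h i.1 p.1 (if p.2 then flip ω else !flip ω)
  have hg01 : ∀ p i ω, g p i ω = 0 ∨ g p i ω = 1 := by
    intro p i ω
    simp only [g, Ctx.h]
    split_ifs <;> simp
  -- the average of one coordinate
  have havg : ∀ (a : X.T) (v : V) (β : Bool),
      avg (fun ω : Fin N => X.h a v (if β then flip ω else !flip ω)) =
        (1 - 1 / N) * X.h a v (!β) + 1 / N * X.h a v β := by
    intro a v β
    unfold avg
    rw [Fintype.card_fin]
    have e1 : ∀ ω : Fin N, X.h a v (if β then flip ω else !flip ω) =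
        X.h a v (!β) + if ω = z then X.h a v β - X.h a v (!β) else 0 := by
      intro ω
      by_cases hω : ω = z
      · simp only [flip, hω, decide_true, if_true]
        cases β <;> simp
      · simp only [flip, hω, decide_false, if_false]
        cases β <;> simp
    simp_rw [e1]
    rw [Finset.sum_add_distrib, Finset.sum_const, Finset.card_univ, Fintype.card_fin, nsmul_eq_mul,
      Finset.sum_ite_eq' univ z]
    simp only [mem_univ, if_true]
    field_simp
    ring
  -- sums over all colour pairs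
  let inact : V → ℝ := fun v => ∑ a ∈ univ.filter (fun a : X.T => ¬ X.act a v), X.h a v false
  have hY : ∀ (v : V) (i : X.Idx), i ∈ Y v ↔ X.cp i.1 v = i.2 ∧ X.act i.1 v := by
    intro v i
    show i ∈ univ.filter _ ↔ _
    rw [Finset.mem_filter]
    exact ⟨fun h => h.2, fun h => ⟨Finset.mem_univ _, h⟩⟩
  have hsumY : ∀ (v : V) (F : X.T → ℝ), ∑ i ∈ Y v, F i.1 = ∑ a ∈ univ.filter (fun a : X.T => X.act a v), F a := by
    intro v F
    symm
    apply Finset.sum_bij (fun (a : X.T) _ => (⟨a, X.cp a v⟩ : X.Idx))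
    · intro a ha
      exact (hY v (⟨a, X.cp a v⟩ : X.Idx)).mpr ⟨rfl, (Finset.mem_filter.mp ha).2⟩
    · intro a _ a' _ h
      exact congrArg Sigma.fst h
    · rintro ⟨a, C⟩ hi
      obtain ⟨h1, h2⟩ := (hY v (⟨a, C⟩ : X.Idx)).mp hi
      refine ⟨a, ?_, ?_⟩
      · simp only [mem_filter, mem_univ, true_and]
        exact h2
      · have h1' : X.cp a v = C := h1
        subst h1'
        rfl
    · intro a _
      rfl
  have hval : ∀ (xx : X.Idx → Fin N) (v : V) (β : Bool),
      ∑ i ∈ Y v, g (v, β) i (xx i) = ∑ a ∈ univ.filter (fun a : X.T => X.act a v),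
        X.h a v (if β then X.val (fun i => flip (xx i)) v a else !X.val (fun i => flip (xx i)) v a) := by
    intro xx v β
    have e1 : ∀ i ∈ Y v, g (v, β) i (xx i) = (fun a : X.T => X.h a v
        (if β then X.val (fun i => flip (xx i)) v a else !X.val (fun i => flip (xx i)) v a)) i.1 := by
      intro i hi
      rw [hY] at hi
      obtain ⟨a, C⟩ := i
      obtain ⟨h1, h2⟩ := hi
      simp only at h1
      subst h1
      rfl
    rw [Finset.sum_congr rfl e1]
    exact hsumY v (fun a : X.T => X.h a v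
        (if β then X.val (fun i => flip (xx i)) v a else !X.val (fun i => flip (xx i)) v a))
  have htot : ∀ (v : V) (f : X.T → Bool), ∑ a : X.T, X.h a v (f a) =
      ∑ a ∈ univ.filter (fun a : X.T => X.act a v), X.h a v (f a) + inact v := by
    intro v f
    rw [← Finset.sum_filter_add_sum_filter_not univ (fun a : X.T => X.act a v)]
    congr 1
    apply Finset.sum_congr rfl
    intro a ha
    exact X.h_inact a v (Finset.mem_filter.mp ha).2 _ _
  have hownT : ∀ v, (own X.τ X.T v : ℝ) = ∑ a : X.T, X.h a v false := by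
    intro v
    have h1 := X.countT (fun _ => false) v
    have h2 : own X.τ X.T v = ((X.τ' (fun _ => false) v).filter fun a => a ∈ X.T).card := by
      unfold own
      congr 1
      ext a
      simp only [mem_filter, X.mem_τ']
      have : X.pf (fun _ => false) v a = a := by
        unfold Ctx.pf
        have : X.fl (fun _ => false) v a = false := by
          unfold Ctx.fl Ctx.val
          split_ifs <;> rfl
        rw [this]
        simp
      rw [this]
    rw [h2, h1]
    rfl
  have hownT' : ∀ v, (own X.τ X.T' v : ℝ) = ∑ a : X.T, X.h a v true := by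
    intro v
    have h1 := X.countT' (fun _ => false) v
    have h2 : own X.τ X.T' v = ((X.τ' (fun _ => false) v).filter fun a => a ∈ X.T').card := by
      unfold own
      congr 1
      ext a
      simp only [mem_filter, X.mem_τ']
      have : X.pf (fun _ => false) v a = a := by
        unfold Ctx.pf
        have : X.fl (fun _ => false) v a = false := by
          unfold Ctx.fl Ctx.val
          split_ifs <;> rfl
        rw [this]
        simp
      rw [this]
    rw [h2, h1]
    rfl
  have hownb : ∀ v (β : Bool), ∑ a ∈ univ.filter (fun a : X.T => X.act a v), X.h a v β + inact v ≤ m := by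
    intro v β
    have h0 := htot v (fun _ => β)
    rw [← h0]
    cases β
    · rw [← hownT v]
      exact_mod_cast (Finset.card_filter_le _ _).trans (hm v)
    · rw [← hownT' v]
      exact_mod_cast (Finset.card_filter_le _ _).trans (hm v)
  have hinact0 : ∀ v, 0 ≤ inact v := fun v => Finset.sum_nonneg fun a _ => X.h_nonneg _ _ _
  let mean : V × Bool → ℝ := fun p => (1 - 1 / N) * ∑ a ∈ univ.filter (fun a : X.T => X.act a p.1), X.h a p.1 (!p.2) +
    1 / N * ∑ a ∈ univ.filter (fun a : X.T => X.act a p.1), X.h a p.1 p.2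
  have hN1 : (1 : ℝ) / N ≤ 1 := by
    rw [div_le_one hNr]
    exact_mod_cast hN
  have hN0 : (0 : ℝ) ≤ 1 / N := by positivity
  have hmean : ∀ p, ∑ i ∈ Y p.1, avg (g p i) = mean p := by
    intro p
    have e1 : ∀ i ∈ Y p.1, avg (g p i) = (fun a : X.T => (1 - 1 / (N : ℝ)) * X.h a p.1 (!p.2) +
        1 / N * X.h a p.1 p.2) i.1 := by
      intro i _
      exact havg i.1 p.1 p.2
    rw [Finset.sum_congr rfl e1, hsumY p.1 (fun a : X.T => (1 - 1 / (N : ℝ)) * X.h a p.1 (!p.2) +
        1 / N * X.h a p.1 p.2), Finset.sum_add_distrib, ← Finset.mul_sum, ← Finset.mul_sum]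
  have hmeanm : ∀ p, mean p ≤ m := by
    intro p
    have h1 := hownb p.1 (!p.2)
    have h2 := hownb p.1 p.2
    have h3 := hinact0 p.1
    simp only [mean]
    nlinarith
  have hmean0 : ∀ p, 0 ≤ mean p := by
    intro p
    simp only [mean]
    apply add_nonneg
    · exact mul_nonneg (by linarith) (Finset.sum_nonneg fun a _ => X.h_nonneg _ _ _)
    · exact mul_nonneg hN0 (Finset.sum_nonneg fun a _ => X.h_nonneg _ _ _)
  set q0 : ℝ := Real.exp (-(x ^ 2 * m / 10)) with hq0
  have hq00 : 0 ≤ q0 := Real.exp_nonneg _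
  have hexp := exp_bound (s := x / 4) (by linarith) (by linarith)
  obtain ⟨xx, -, hxx⟩ := lllc (ι := X.Idx) (Ω := Fin N) (JA := Empty) (JB := V × Bool)
    (fun j => j.elim) (fun j => j.elim) (fun p => Y p.1) g
    (fun p i ω => X.h_nonneg _ _ _) (fun p => mean p + x * m) (fun _ => x / 4)
    (fun _ => by linarith) (fun _ => 0) (fun j => j.elim) (fun j => j.elim)
    (fun _ => q0) (fun _ => hq00) (fun _ => by linarith) (1 + x / 4) (by linarith)
    (by
      intro i
      rw [Finset.sum_const, Finset.sum_const, nsmul_eq_mul, nsmul_eq_mul, mul_zero, zero_add]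
      have h1 : (univ.filter fun p : V × Bool => i ∈ Y p.1).card ≤ 4 := by
        have h2 : (univ.filter fun p : V × Bool => i ∈ Y p.1) ⊆
            (univ.filter fun v : V => X.cp i.1 v = i.2 ∧ X.act i.1 v) ×ˢ (univ : Finset Bool) := by
          rintro ⟨v, β⟩ hp
          have hp' := (hY v i).mp (Finset.mem_filter.mp hp).2
          rw [Finset.mem_product, Finset.mem_filter]
          exact ⟨⟨Finset.mem_univ _, hp'⟩, Finset.mem_univ _⟩
        have h3 : (univ.filter fun v : V => X.cp i.1 v = i.2 ∧ X.act i.1 v).card ≤ 2 := by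
          refine le_trans (Finset.card_le_card ?_) (X.comp2 i.1 i.2)
          intro w' hw'
          simp only [mem_filter, mem_univ, true_and] at hw' ⊢
          exact ⟨hw'.1, X.act_miss _ _ hw'.2⟩
        have h4 := Finset.card_le_card h2
        rw [Finset.card_product, Finset.card_univ, Fintype.card_bool] at h4
        omega
      have h5 : ((univ.filter fun p : V × Bool => i ∈ Y p.1).card : ℝ) ≤ 4 := by exact_mod_cast h1
      have h6 : ((univ.filter fun p : V × Bool => i ∈ Y p.1).card : ℝ) * q0 ≤ 4 * (x / 20) := by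
        calc _ ≤ 4 * q0 := mul_le_mul_of_nonneg_right h5 hq00
          _ ≤ _ := by linarith
      nlinarith)
    (fun j => j.elim)
    (by
      intro p
      refine (prod_bound' (Y p.1) (g p) (hg01 p) (by linarith) (by linarith) (hmean p).le).trans ?_
      rw [hq0]
      apply Real.exp_le_exp.mpr
      have h1 := hmeanm p
      have h2 := hmean0 p
      have h3 : (1 + x / 4) * (Real.exp (x / 4) - 1) * mean p ≤
          (1 + x / 4) * (x / 4 + (x / 4) ^ 2) * mean p := by
        apply mul_le_mul_of_nonneg_right _ h2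
        exact mul_le_mul_of_nonneg_left hexp (by linarith)
      have h4 : ((1 + x / 4) * (x / 4 + (x / 4) ^ 2) - x / 4) * mean p ≤
          ((1 + x / 4) * (x / 4 + (x / 4) ^ 2) - x / 4) * m := by
        apply mul_le_mul_of_nonneg_left h1
        nlinarith [pow_pos hx0 2, pow_pos hx0 3]
      have h5 : ((1 + x / 4) * (x / 4 + (x / 4) ^ 2) - x / 4) * m ≤ (9 / 64) * x ^ 2 * m := by
        apply mul_le_mul_of_nonneg_right _ hm0
        nlinarith [pow_pos hx0 2, pow_pos hx0 3]
      have h6 : 0 ≤ x ^ 2 * (m : ℝ) := by positivity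
      nlinarith)
  set ω : X.Idx → Bool := fun i => flip (xx i) with hω
  have hU : ∀ v, (own (X.τ' ω) X.T v : ℝ) ≤
      (1 - 1 / N) * own X.τ X.T v + 1 / N * own X.τ X.T' v + x * m := by
    intro v
    have h1 := X.countT ω v
    have h2 := htot v (fun a => X.val ω v a)
    have h3 := hxx (v, true)
    rw [hval xx v true] at h3
    simp only [if_true] at h3
    have h4 : (own (X.τ' ω) X.T v : ℝ) = ∑ a : X.T, X.h a v (X.val ω v a) := h1
    rw [h4, h2, hownT v, hownT' v, htot v (fun _ => false), htot v (fun _ => true)]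
    have h5 : mean (v, true) = (1 - 1 / N) * ∑ a ∈ univ.filter (fun a : X.T => X.act a v), X.h a v false +
      1 / N * ∑ a ∈ univ.filter (fun a : X.T => X.act a v), X.h a v true := rfl
    rw [h5] at h3
    linarith
  have hL : ∀ v, (own (X.τ' ω) X.T' v : ℝ) ≤
      (1 - 1 / N) * own X.τ X.T' v + 1 / N * own X.τ X.T v + x * m := by
    intro v
    have h1 := X.countT' ω v
    have h2 := htot v (fun a => !X.val ω v a)
    have h3 := hxx (v, false)
    rw [hval xx v false] at h3
    simp only [Bool.false_eq_true, if_false] at h3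
    have h4 : (own (X.τ' ω) X.T' v : ℝ) = ∑ a : X.T, X.h a v (!X.val ω v a) := h1
    rw [h4, h2, hownT v, hownT' v, htot v (fun _ => false), htot v (fun _ => true)]
    have h5 : mean (v, false) = (1 - 1 / N) * ∑ a ∈ univ.filter (fun a : X.T => X.act a v), X.h a v true +
      1 / N * ∑ a ∈ univ.filter (fun a : X.T => X.act a v), X.h a v false := rfl
    rw [h5] at h3
    linarith
  have hS : ∀ v, own (X.τ' ω) X.T v + own (X.τ' ω) X.T' v = own X.τ X.T v + own X.τ X.T' v := by
    intro v
    have h1 : (own (X.τ' ω) X.T v : ℝ) = ∑ a : X.T, X.h a v (X.val ω v a) := X.countT ω v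
    have h2 : (own (X.τ' ω) X.T' v : ℝ) = ∑ a : X.T, X.h a v (!X.val ω v a) := X.countT' ω v
    have h3 : ((own (X.τ' ω) X.T v + own (X.τ' ω) X.T' v : ℕ) : ℝ) =
        ((own X.τ X.T v + own X.τ X.T' v : ℕ) : ℝ) := by
      push_cast
      rw [h1, h2, hownT v, hownT' v, ← Finset.sum_add_distrib, ← Finset.sum_add_distrib]
      apply Finset.sum_congr rfl
      intro a _
      cases X.val ω v a <;> simp [add_comm]
    exact_mod_cast h3
  refine ⟨X.c' ω, X.τ' ω, X.valid ω, X.card_τ' ω, fun v a h1 h2 => X.τ'_out ω v h1 h2, hS, ?_⟩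
  intro v
  have h1 := hU v
  have h2 := hL v
  have h3 : (own (X.τ' ω) X.T v : ℝ) + own (X.τ' ω) X.T' v = own X.τ X.T v + own X.τ X.T' v := by
    exact_mod_cast hS v
  rw [abs_le]
  constructor
  · have e1 : (1 - 1 / (N : ℝ)) * own X.τ X.T' v + 1 / N * own X.τ X.T v =
        own X.τ X.T v + own X.τ X.T' v - ((1 - 1 / N) * own X.τ X.T v + 1 / N * own X.τ X.T' v) := by
      ring
    linarith
  · linarith

end TC19
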