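import Pool.Agent.Lib_helper19.TC.Levels

set_option autoImplicit false

/-!
# A proper vertex colouring which hits few of the prescribed colours near every vertex
-/

namespace TC19

open Finset Classical

variable {V K : Type*}

theorem mem_Nb [Fintype V] {G : SimpleGraph V} {v u : V} : u ∈ Nb G v ↔ G.Adj v u := by
  simp only [Nb, mem_filter, mem_univ, true_and]

/-- Greedy extension of a partial colouring. -/
theorem greedy [Fintype V] [Fintype K] (G : SimpleGraph V) (hD : ∀ v, (Nb G v).card < Fintype.card K)
    (X : Finset V) (g : V → K) (hg : ∀ u w, u ∉ X → w ∉ X → G.Adj u w → g u ≠ g w) :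
    ∃ g' : V → K, (∀ u, u ∉ X → g' u = g u) ∧ ∀ u w, G.Adj u w → g' u ≠ g' w := by
  induction X using Finset.induction_on generalizing g with
  | empty => exact ⟨g, fun _ _ => rfl, fun u w h => hg u w (Finset.notMem_empty _) (Finset.notMem_empty _) h⟩
  | insert v X hv ih =>
    have h1 : ((Nb G v).image g).card < Fintype.card K := lt_of_le_of_lt Finset.card_image_le (hD v)
    obtain ⟨a, ha⟩ : ∃ a : K, a ∉ (Nb G v).image g := by
      by_contra hcon
      push Not at hcon
      have : (Nb G v).image g = univ := Finset.eq_univ_iff_forall.mpr hcon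
      rw [this, Finset.card_univ] at h1
      exact lt_irrefl _ h1
    have ha' : ∀ u, G.Adj v u → g u ≠ a := by
      intro u hu h
      exact ha (Finset.mem_image.mpr ⟨u, mem_Nb.mpr hu, h⟩)
    obtain ⟨g', hg'1, hg'2⟩ := ih (Function.update g v a) (by
      intro u w hu hw hadj
      by_cases huv : u = v
      · subst huv
        have hwu : w ≠ u := hadj.ne'
        rw [Function.update_self, Function.update_of_ne hwu]
        exact (ha' w hadj).symm
      · by_cases hwv : w = v
        · subst hwv
          rw [Function.update_self, Function.update_of_ne huv]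
          exact ha' u hadj.symm
        · rw [Function.update_of_ne huv, Function.update_of_ne hwv]
          exact hg u w (by simp [huv, hu]) (by simp [hwv, hw]) hadj)
    refine ⟨g', ?_, hg'2⟩
    intro u hu
    rw [Finset.mem_insert, not_or] at hu
    rw [hg'1 u hu.2, Function.update_of_ne hu.1]

theorem stages [Fintype V] [Fintype K] (G : SimpleGraph V) {P J : ℕ} (hP : Fintype.card K = P)
    (hD : ∀ v, (Nb G v).card < P)
    (Cs : V → V → Finset K) (hCs : ∀ w, ∑ u ∈ Nb G w, (Cs w u).card ≤ P)
    {B Λ : ℝ} (hBdef : B = xl J * P / 512) (hB1 : 1 ≤ B)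
    (hcond : 8 * (P : ℝ) ^ 2 * (J + 1) * Real.exp (-B) ≤ B)
    (hΛ : 28 * (P : ℝ) ≤ Real.exp Λ) :
    ∃ g : V → K, (∀ u w, G.Adj u w → g u ≠ g w) ∧
      ∀ w, (((Nb G w).filter fun u => g u ∈ Cs w u).card : ℝ) ≤
        J * (3 * (B + 1) + Λ) + 2 * (xl J * P) := by
  have hxJP : xl J * P = 512 * B := by rw [hBdef]; ring
  have hP0 : (0 : ℝ) < P := by
    by_contra hcon
    have h0 := xl_pos J
    have : xl J * P ≤ 0 := mul_nonpos_of_nonneg_of_nonpos h0.le (not_lt.mp hcon)
    linarith
  have hP1 : 1 ≤ P := by
    have : 0 < P := by exact_mod_cast hP0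
    omega
  have hKne : Nonempty K := Fintype.card_pos_iff.mp (by omega)
  let ℓ : ℕ → ℕ := fun l => ⌈xl l * P / 2⌉₊
  have hℓlow : ∀ l, xl l * P / 2 ≤ ℓ l := fun l => Nat.le_ceil _
  have hℓpos : ∀ l, (0 : ℝ) < ℓ l := by
    intro l
    have := hℓlow l
    have h2 := xl_pos l
    have : 0 < xl l * P / 2 := by positivity
    linarith
  have hxl : ∀ l, l ≤ J → 512 * B ≤ xl l * P := by
    intro l hl
    rw [← hxJP]
    exact mul_le_mul_of_nonneg_right (xl_anti hl) hP0.le
  have hℓup : ∀ l, l ≤ J → (ℓ l : ℝ) ≤ 7 / 8 * (xl l * P) := by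
    intro l hl
    have h1 := hxl l hl
    have h2 : (ℓ l : ℝ) < xl l * P / 2 + 1 := Nat.ceil_lt_add_one (by
      have := xl_pos l
      positivity)
    linarith
  let wt : ℕ → V → V → ℝ := fun l w u => min 1 (((Cs w u).card : ℝ) / ℓ l)
  obtain ⟨U, hU0, hUm, hUc, hUp, hUw, hUJ⟩ := levels G hP1 (fun v => (hD v).le) wt
    (by
      intro l w u
      exact le_min zero_le_one (div_nonneg (Nat.cast_nonneg _) (hℓpos l).le))
    (by
      intro l w u
      exact min_le_left _ _)
    (by
      intro l w
      have h0 := xl_pos l
      calc ∑ u ∈ Nb G w, wt l w u ≤ ∑ u ∈ Nb G w, ((Cs w u).card : ℝ) / ℓ l :=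
            Finset.sum_le_sum fun u _ => min_le_right _ _
        _ = ((∑ u ∈ Nb G w, (Cs w u).card : ℕ) : ℝ) / ℓ l := by
            rw [← Finset.sum_div]
            push_cast
            rfl
        _ ≤ P / ℓ l := div_le_div_of_nonneg_right (by exact_mod_cast hCs w) (hℓpos l).le
        _ ≤ P / (xl l * P / 2) := div_le_div_of_nonneg_left hP0.le (by positivity) (hℓlow l)
        _ = 2 / xl l := by field_simp)
    hBdef hcond
  set t : ℝ := 3 * (B + 1) + Λ with ht
  have hind : ∀ l, l ≤ J → ∃ g : V → K,
      (∀ u w, u ∉ U l → w ∉ U l → G.Adj u w → g u ≠ g w) ∧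
      ∀ w, (((Nb G w).filter fun u => u ∉ U l ∧ g u ∈ Cs w u).card : ℝ) ≤ l * t := by
    intro l
    induction l with
    | zero =>
      intro _
      refine ⟨fun _ => Classical.choice hKne, ?_, ?_⟩
      · intro u w hu
        rw [hU0] at hu
        exact absurd (Finset.mem_univ u) hu
      · intro w
        rw [hU0]
        simp
    | succ l ih =>
      intro hl
      have hlJ : l < J := hl
      obtain ⟨g, hg1, hg2⟩ := ih hlJ.le
      -- the lists
      have hav : ∀ v, ∃ L : Finset K, L ⊆ univ \ (((Nb G v).filter fun u => u ∉ U l).image g) ∧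
          L.card = ℓ l := by
        intro v
        apply Finset.exists_subset_card_eq
        have h1 : (((Nb G v).filter fun u => u ∉ U l).image g).card ≤
            ((Nb G v).filter fun u => u ∉ U l).card := Finset.card_image_le
        have h2 : (univ \ (((Nb G v).filter fun u => u ∉ U l).image g)).card =
            P - (((Nb G v).filter fun u => u ∉ U l).image g).card := by
          rw [Finset.card_univ_sdiff, hP]
        have h3 := hUc l hlJ.le v
        have h4 : ((Nb G v).card : ℝ) ≤ P := by exact_mod_cast (hD v).le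
        have h5 : (1 - xl l) * ((Nb G v).card : ℝ) ≤ (1 - xl l) * P :=
          mul_le_mul_of_nonneg_left h4 (by linarith [xl_le_one l])
        have h6 := hℓup l hlJ.le
        have h7 : (ℓ l : ℝ) + ((Nb G v).filter fun u => u ∉ U l).card ≤ P := by linarith
        have h8 : ℓ l + ((Nb G v).filter fun u => u ∉ U l).card ≤ P := by exact_mod_cast h7
        omega
      choose L hLsub hLcard using hav
      have hxlP := hxl l hlJ.le
      have hℓ256 : (256 : ℝ) ≤ ℓ l := by
        have := hℓlow l
        linarith
      have hℓ256' : 256 ≤ ℓ l := by exact_mod_cast hℓ256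
      obtain ⟨g', hg'1, hg'2, hg'3⟩ := roundG G L (ℓ := ℓ l) (by omega) hLcard
        (univ.filter fun u => u ∈ U l ∧ u ∉ U (l + 1))
        (fun w => (Nb G w).filter fun u => u ∈ U l ∧ u ∉ U (l + 1)) Cs
        (T := xl l * P / 32) (N := P) (M := B + 1) (φ := 7 / 5) (s := 1) (qB := Real.exp (-Λ)) (t := t)
        (by
          intro v a _
          refine le_trans ?_ (hUp l hlJ v)
          have : (NS G L (univ.filter fun u => u ∈ U l ∧ u ∉ U (l + 1)) v a) ⊆
              (Nb G v).filter fun u => u ∈ U l ∧ u ∉ U (l + 1) := by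
            intro u hu
            simp only [NS, mem_filter, mem_univ, true_and] at hu
            rw [Finset.mem_filter, mem_Nb]
            exact ⟨hu.2.1, hu.1⟩
          exact_mod_cast Finset.card_le_card this)
        (by
          intro i
          have : (univ.filter fun w : V => i ∈ (Nb G w).filter fun u => u ∈ U l ∧ u ∉ U (l + 1)) ⊆
              Nb G i := by
            intro w hw
            rw [Finset.mem_filter, Finset.mem_filter, mem_Nb] at hw
            rw [mem_Nb]
            exact hw.2.1.symm
          have h1 := (Finset.card_le_card this).trans (hD i).le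
          exact_mod_cast h1)
        (by
          intro w
          refine le_trans (Finset.sum_le_sum ?_) (hUw l hlJ w)
          intro u _
          apply le_min
          · rw [div_le_one (hℓpos l)]
            have : (L u ∩ Cs w u).card ≤ ℓ l := by
              rw [← hLcard u]
              exact Finset.card_le_card Finset.inter_subset_left
            exact_mod_cast this
          · apply div_le_div_of_nonneg_right _ (hℓpos l).le
            exact_mod_cast Finset.card_le_card Finset.inter_subset_right)
        (by norm_num) (by norm_num) (by nlinarith) (by norm_num) (Real.exp_nonneg _)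
        (by
          rw [Real.exp_lt_one_iff]
          have h1 : Real.exp 0 < Real.exp Λ := by
            rw [Real.exp_zero]
            have : (1 : ℝ) ≤ P := by exact_mod_cast hP1
            linarith
          have := Real.exp_lt_exp.mp h1
          linarith)
        (by
          have h1 : 4 * (xl l * P / 32) / (ℓ l : ℝ) ≤ 1 / 4 := by
            rw [div_le_iff₀ (hℓpos l)]
            have := hℓlow l
            linarith
          have h2 : (P : ℝ) * Real.exp (-Λ) ≤ 1 / 28 := by
            rw [Real.exp_neg, ← div_eq_mul_inv, div_le_iff₀ (Real.exp_pos _)]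
            linarith
          linarith)
        (by
          apply Real.exp_le_exp.mpr
          have he : Real.exp 1 < 2.7182818286 := Real.exp_one_lt_d9
          have h1 : 7 / 5 * (Real.exp 1 - 1) ≤ 3 := by linarith
          have h2 := mul_le_mul_of_nonneg_right h1 (by linarith : (0 : ℝ) ≤ B + 1)
          rw [ht]
          linarith)
      refine ⟨fun u => if u ∈ U l then g' u else g u, ?_, ?_⟩
      · have hcross : ∀ u w, u ∈ U l → w ∉ U l → G.Adj u w → g' u ≠ g w := by
          intro u w _ hw hadj h
          have h1 := hLsub u (hg'1 u)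
          rw [Finset.mem_sdiff] at h1
          apply h1.2
          rw [Finset.mem_image]
          exact ⟨w, Finset.mem_filter.mpr ⟨mem_Nb.mpr hadj, hw⟩, h.symm⟩
        intro u w hu hw hadj
        show (if u ∈ U l then g' u else g u) ≠ (if w ∈ U l then g' w else g w)
        by_cases hul : u ∈ U l
        · by_cases hwl : w ∈ U l
          · rw [if_pos hul, if_pos hwl]
            exact hg'2 u (Finset.mem_filter.mpr ⟨Finset.mem_univ _, hul, hu⟩) w
              (Finset.mem_filter.mpr ⟨Finset.mem_univ _, hwl, hw⟩) hadj
          · rw [if_pos hul, if_neg hwl]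
            exact hcross u w hul hwl hadj
        · by_cases hwl : w ∈ U l
          · rw [if_neg hul, if_pos hwl]
            exact (hcross w u hwl hul hadj.symm).symm
          · rw [if_neg hul, if_neg hwl]
            exact hg1 u w hul hwl hadj
      · intro w
        have hsub : ((Nb G w).filter fun u => u ∉ U (l + 1) ∧ (if u ∈ U l then g' u else g u) ∈ Cs w u) ⊆
            ((Nb G w).filter fun u => u ∉ U l ∧ g u ∈ Cs w u) ∪
            (((Nb G w).filter fun u => u ∈ U l ∧ u ∉ U (l + 1)).filter fun u => g' u ∈ Cs w u) := by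
          intro u hu
          rw [Finset.mem_filter] at hu
          rw [Finset.mem_union, Finset.mem_filter, Finset.mem_filter, Finset.mem_filter]
          by_cases hul : u ∈ U l
          · right
            rw [if_pos hul] at hu
            exact ⟨⟨hu.1, hul, hu.2.1⟩, hu.2.2⟩
          · left
            rw [if_neg hul] at hu
            exact ⟨hu.1, hul, hu.2.2⟩
        have h1 := (Finset.card_le_card hsub).trans (Finset.card_union_le _ _)
        have h2 := hg2 w
        have h3 := hg'3 w
        have h4 : (((Nb G w).filter fun u => u ∉ U (l + 1) ∧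
            (if u ∈ U l then g' u else g u) ∈ Cs w u).card : ℝ) ≤
            (((Nb G w).filter fun u => u ∉ U l ∧ g u ∈ Cs w u).card : ℝ) +
            ((((Nb G w).filter fun u => u ∈ U l ∧ u ∉ U (l + 1)).filter fun u => g' u ∈ Cs w u).card : ℝ) := by
          exact_mod_cast h1
        push_cast
        linarith
  obtain ⟨g, hg1, hg2⟩ := hind J le_rfl
  obtain ⟨g', hg'1, hg'2⟩ := greedy G (fun v => by rw [hP]; exact hD v) (U J) g hg1
  refine ⟨g', hg'2, ?_⟩
  intro w
  have hsub : ((Nb G w).filter fun u => g' u ∈ Cs w u) ⊆
      ((Nb G w).filter fun u => u ∉ U J ∧ g u ∈ Cs w u) ∪ ((Nb G w).filter fun u => u ∈ U J) := by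
    intro u hu
    rw [Finset.mem_filter] at hu
    rw [Finset.mem_union, Finset.mem_filter, Finset.mem_filter]
    by_cases huJ : u ∈ U J
    · right
      exact ⟨hu.1, huJ⟩
    · left
      rw [hg'1 u huJ] at hu
      exact ⟨hu.1, huJ, hu.2⟩
  have h1 := (Finset.card_le_card hsub).trans (Finset.card_union_le _ _)
  have h2 : (((Nb G w).filter fun u => g' u ∈ Cs w u).card : ℝ) ≤
      (((Nb G w).filter fun u => u ∉ U J ∧ g u ∈ Cs w u).card : ℝ) +
      (((Nb G w).filter fun u => u ∈ U J).card : ℝ) := by exact_mod_cast h1
  have h3 := hg2 w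
  have h4 := hUJ w
  linarith

end TC19
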