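import Pool.Agent.Lib_helper19.TC.Reject
import Pool.Agent.Lib_helper19.TC.Final

set_option autoImplicit false

/-!
# Total colourings with polylogarithmically many additional colours
-/

namespace TC19

open Finset Classical

variable {V E K : Type*}

theorem choose_J {P : ℕ} (hP : 1 ≤ P) {B₀ : ℝ} (hB0 : 1 ≤ B₀) (hlarge : B₀ ≤ (P : ℝ) / 512) :
    ∃ J : ℕ, B₀ ≤ xl J * P / 512 ∧ xl J * P / 512 ≤ 2 * B₀ ∧ (J : ℝ) ≤ 64 * Real.log P := by
  have hPr : (0 : ℝ) < P := by exact_mod_cast hP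
  have hex : ∃ n, xl n * P / 512 < B₀ := by
    obtain ⟨n, hn⟩ := exists_pow_lt_of_lt_one (show (0 : ℝ) < 512 * B₀ / P by positivity)
      (show (63 / 64 : ℝ) < 1 by norm_num)
    refine ⟨n, ?_⟩
    unfold xl
    rw [lt_div_iff₀ hPr] at hn
    linarith
  have hn0 : Nat.find hex ≠ 0 := by
    intro h0
    have h1 := Nat.find_spec hex
    rw [h0] at h1
    unfold xl at h1
    rw [pow_zero, one_mul] at h1
    linarith
  obtain ⟨J, hJ⟩ := Nat.exists_eq_succ_of_ne_zero hn0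
  have h1 : B₀ ≤ xl J * P / 512 := not_lt.mp (Nat.find_min hex (by omega))
  have h2 : xl (J + 1) * P / 512 < B₀ := by
    have := Nat.find_spec hex
    rwa [hJ] at this
  refine ⟨J, h1, ?_, ?_⟩
  · rw [xl_succ] at h2
    have h3 : xl J * (63 / 64) * P / 512 = 63 / 64 * (xl J * P / 512) := by ring
    rw [h3] at h2
    linarith
  · have h3 : 1 / (P : ℝ) ≤ xl J := by
      rw [div_le_iff₀ hPr]
      linarith
    have h4 : xl J ≤ Real.exp (-((J : ℝ) / 64)) := by
      unfold xl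
      have h5 : (63 / 64 : ℝ) ≤ Real.exp (-(1 / 64)) := by
        have := Real.add_one_le_exp (-(1 / 64 : ℝ))
        linarith
      calc (63 / 64 : ℝ) ^ J ≤ (Real.exp (-(1 / 64))) ^ J := pow_le_pow_left₀ (by norm_num) h5 J
        _ = Real.exp (-((J : ℝ) / 64)) := by
          rw [← Real.exp_nat_mul]; congr 1; ring
    have h6 : Real.exp (-Real.log P) ≤ Real.exp (-((J : ℝ) / 64)) := by
      rw [Real.exp_neg, Real.exp_log hPr, ← one_div]
      exact h3.trans h4
    have h7 := Real.exp_le_exp.mp h6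
    linarith

theorem exp7 : (512 : ℝ) ≤ Real.exp 7 := by
  have h1 : (2.7 : ℝ) < Real.exp 1 := by
    have := Real.exp_one_gt_d9
    linarith
  have h2 : Real.exp 7 = (Real.exp 1) ^ 7 := by
    rw [← Real.exp_nat_mul]; norm_num
  rw [h2]
  calc (512 : ℝ) ≤ 2.7 ^ 7 := by norm_num
    _ ≤ (Real.exp 1) ^ 7 := pow_le_pow_left₀ (by norm_num) h1.le 7

theorem exp4 : (28 : ℝ) ≤ Real.exp 4 := by
  have h1 : (2.7 : ℝ) < Real.exp 1 := by
    have := Real.exp_one_gt_d9
    linarith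
  have h2 : Real.exp 4 = (Real.exp 1) ^ 4 := by
    rw [← Real.exp_nat_mul]; norm_num
  rw [h2]
  calc (28 : ℝ) ≤ 2.7 ^ 4 := by norm_num
    _ ≤ (Real.exp 1) ^ 4 := pow_le_pow_left₀ (by norm_num) h1.le 4

/-- a proper vertex colouring with few conflicts at every vertex -/
theorem few_conflicts [Fintype V] [Fintype E] [Fintype K] {s t : E → V}
    {c : E → K} (hc : Proper s t Set.univ c) :
    ∃ g : V → Option K, (∀ u v, (SG s t).Adj u v → g u ≠ g v) ∧
      ∀ w, ((Nb (SG s t) w).filter fun u => g u ∈ Cs s t c w u).card ≤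
        24832 * (Nat.log 2 (Fintype.card K) + 1) ^ 2 := by
  set k := Fintype.card K with hk
  set L : ℕ := Nat.log 2 k + 1 with hL
  have hL1 : (1 : ℝ) ≤ L := by
    have : 1 ≤ L := by omega
    exact_mod_cast this
  have hcardO : Fintype.card (Option K) = k + 1 := by rw [Fintype.card_option]
  have hP0 : (0 : ℝ) < ((k + 1 : ℕ) : ℝ) := by positivity
  set lam : ℝ := Real.log ((k + 1 : ℕ) : ℝ) with hlam
  have hlam0 : 0 ≤ lam := Real.log_nonneg (by
    have : 1 ≤ k + 1 := by omega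
    exact_mod_cast this)
  have hlamL : lam ≤ L := by
    have h1 : k + 1 ≤ 2 ^ L := Nat.lt_pow_succ_log_self (by norm_num) k
    have h2 : ((k + 1 : ℕ) : ℝ) ≤ 2 ^ L := by exact_mod_cast h1
    have h3 : lam ≤ Real.log (2 ^ L) := Real.log_le_log hP0 h2
    rw [Real.log_pow] at h3
    have h4 := Real.log_two_lt_d9
    nlinarith
  have hD : ∀ v, (Nb (SG s t) v).card < k + 1 := fun v => Nat.lt_succ_of_le (card_Nb_le hc v)
  set B₀ : ℝ := 3 * lam + 7 with hB0
  by_cases hlarge : B₀ ≤ ((k + 1 : ℕ) : ℝ) / 512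
  · obtain ⟨J, hJ1, hJ2, hJ3⟩ := choose_J (P := k + 1) (by omega) (by linarith) hlarge
    rw [← hlam] at hJ3
    set B : ℝ := xl J * ((k + 1 : ℕ) : ℝ) / 512 with hB
    have hJ0 : (0 : ℝ) ≤ J := Nat.cast_nonneg _
    have hlamP : lam ≤ ((k + 1 : ℕ) : ℝ) - 1 := by
      rw [hlam]
      exact Real.log_le_sub_one_of_pos hP0
    obtain ⟨g, hg1, hg2⟩ := stages (SG s t) hcardO hD (Cs s t c)
      (fun w => (sum_Cs hc w).trans (by omega)) (J := J) (B := B) (Λ := lam + 4) hB (by linarith)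
      (by
        have h1 : Real.exp (-B) ≤ Real.exp (-B₀) := Real.exp_le_exp.mpr (by linarith)
        have h2 : Real.exp (-B₀) * Real.exp 7 * ((k + 1 : ℕ) : ℝ) ^ 3 = 1 := by
          have h3 : ((k + 1 : ℕ) : ℝ) ^ 3 = Real.exp (3 * lam) := by
            rw [hlam, mul_comm, Real.exp_mul, Real.exp_log hP0]
            norm_num
          rw [h3, ← Real.exp_add, ← Real.exp_add, hB0]
          have : -(3 * lam + 7) + 7 + 3 * lam = 0 := by ring
          rw [this, Real.exp_zero]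
        have h4 : Real.exp (-B₀) * (512 * ((k + 1 : ℕ) : ℝ) ^ 3) ≤ 1 := by
          rw [← h2, mul_assoc]
          exact mul_le_mul_of_nonneg_left (mul_le_mul_of_nonneg_right exp7 (by positivity))
            (Real.exp_nonneg _)
        have h5 : (J : ℝ) + 1 ≤ 64 * ((k + 1 : ℕ) : ℝ) := by linarith
        have h6 : 8 * ((k + 1 : ℕ) : ℝ) ^ 2 * ((J : ℝ) + 1) ≤ 512 * ((k + 1 : ℕ) : ℝ) ^ 3 := by
          have := mul_le_mul_of_nonneg_left h5 (by positivity : 0 ≤ 8 * ((k + 1 : ℕ) : ℝ) ^ 2)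
          linarith [this]
        calc 8 * ((k + 1 : ℕ) : ℝ) ^ 2 * ((J : ℝ) + 1) * Real.exp (-B)
            ≤ 512 * ((k + 1 : ℕ) : ℝ) ^ 3 * Real.exp (-B₀) :=
              mul_le_mul h6 h1 (Real.exp_nonneg _) (by positivity)
          _ ≤ 1 := by linarith
          _ ≤ B := by linarith)
      (by
        rw [Real.exp_add, hlam, Real.exp_log hP0]
        have := mul_le_mul_of_nonneg_left exp4 hP0.le
        linarith)
    refine ⟨g, hg1, ?_⟩
    intro w
    have h1 : (((Nb (SG s t) w).filter fun u => g u ∈ Cs s t c w u).card : ℝ) ≤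
        J * (3 * (B + 1) + (lam + 4)) + 2 * (xl J * ((k + 1 : ℕ) : ℝ)) := by
      convert hg2 w
    have h2 : xl J * ((k + 1 : ℕ) : ℝ) = 512 * B := by rw [hB]; ring
    rw [h2] at h1
    have h3 : (J : ℝ) * (3 * (B + 1) + (lam + 4)) ≤ (64 * lam) * (19 * lam + 49) :=
      mul_le_mul hJ3 (by linarith) (by linarith) (by linarith)
    have h4 : lam ^ 2 ≤ (L : ℝ) ^ 2 := pow_le_pow_left₀ hlam0 hlamL 2
    have h5 : lam ≤ (L : ℝ) ^ 2 := by nlinarith
    have h6 : (1 : ℝ) ≤ (L : ℝ) ^ 2 := one_le_pow₀ hL1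
    have h7 : (((Nb (SG s t) w).filter fun u => g u ∈ Cs s t c w u).card : ℝ) ≤
        24832 * (L : ℝ) ^ 2 := by
      have h8 : 64 * lam * (19 * lam + 49) = 1216 * lam ^ 2 + 3136 * lam := by ring
      rw [h8] at h3
      linarith
    exact_mod_cast h7
  · obtain ⟨g, -, hg⟩ := greedy (K := Option K) (SG s t) (fun v => by rw [hcardO]; exact hD v) univ
      (fun _ => none) (fun u _ hu => absurd (Finset.mem_univ u) hu)
    refine ⟨g, hg, ?_⟩
    intro w
    have h1 : ((Nb (SG s t) w).filter fun u => g u ∈ Cs s t c w u).card ≤ k + 1 :=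
      (Finset.card_le_card (Finset.filter_subset _ _)).trans (hD w).le
    have h2 : (((Nb (SG s t) w).filter fun u => g u ∈ Cs s t c w u).card : ℝ) ≤ ((k + 1 : ℕ) : ℝ) := by
      exact_mod_cast h1
    push Not at hlarge
    have h3 : ((k + 1 : ℕ) : ℝ) ≤ 512 * (3 * lam + 7) := by
      rw [div_lt_iff₀ (by norm_num)] at hlarge
      linarith
    have h6 : (1 : ℝ) ≤ (L : ℝ) ^ 2 := one_le_pow₀ hL1
    have h5 : lam ≤ (L : ℝ) ^ 2 := by nlinarith
    have h7 : (((Nb (SG s t) w).filter fun u => g u ∈ Cs s t c w u).card : ℝ) ≤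
        24832 * (L : ℝ) ^ 2 := by linarith
    exact_mod_cast h7

theorem TotalCol.map {K' : Type*} {s t : E → V} {c : E → K} {g : V → K} (h : TotalCol s t c g)
    {ι : K → K'} (hι : Function.Injective ι) : TotalCol s t (fun e => ι (c e)) (fun v => ι (g v)) := by
  obtain ⟨h1, h2, h3⟩ := h
  exact ⟨fun e he f hf hne v hv hv' heq => h1 e he f hf hne v hv hv' (hι heq),
    fun v e he hv heq => h2 v e he hv (hι heq), fun u v hadj heq => h3 u v hadj (hι heq)⟩

theorem final_poly {n m : ℕ} {src tgt : Fin m → Fin n} (hst : ∀ e, src e ≠ tgt e) {Δ μ k : ℕ}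
    (hΔ : ∀ v, Deg src tgt v ≤ Δ) (hμ : ∀ u v, u ≠ v → Mult src tgt u v ≤ μ)
    (hk : EdgeCol src tgt k ∨ Δ + μ ≤ k) :
    TotCol src tgt (k + 50000 * (Nat.log 2 k + 1) ^ 2) := by
  obtain ⟨c, hc⟩ := edgeCol_of hst hΔ hμ hk
  obtain ⟨g, hg, hR⟩ := few_conflicts hc
  obtain ⟨c', g', h⟩ := reject hst hc g hg hR
  have hcard : Fintype.card (Option (Fin k) ⊕ Fin (2 * (24832 * (Nat.log 2 (Fintype.card (Fin k)) + 1) ^ 2) + 1)) ≤
      Fintype.card (Fin (k + 50000 * (Nat.log 2 k + 1) ^ 2)) := by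
    rw [Fintype.card_sum, Fintype.card_option, Fintype.card_fin, Fintype.card_fin, Fintype.card_fin]
    have : 1 ≤ (Nat.log 2 k + 1) ^ 2 := Nat.one_le_pow _ _ (by omega)
    omega
  obtain ⟨ι⟩ := Function.Embedding.nonempty_of_card_le hcard
  exact totCol_of hst ⟨_, _, h.map ι.injective⟩

end TC19
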