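import Pool.Agent.Lib_helper19.TC.LLLC
import Pool.Agent.Lib_helper19.TC.Ctx

set_option autoImplicit false

/-!
# List colourings when the colour degrees are a little smaller than the lists

A proof of the theorem of Reed and Sudakov without a nibble: the vertices are split at random into
a bounded number of parts, which are coloured one after the other.  In every step the weighted
local lemma gives a colouring of the part which uses up few colours of every list.
-/

namespace TC19

open Finset Classical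

variable {V K : Type*}

/-- the neighbours of `v` in `S` whose list contains `a` -/
noncomputable def NS [Fintype V] (G : SimpleGraph V) (L : V → Finset K) (S : Finset V) (v : V) (a : K) :
    Finset V := S.filter fun w => G.Adj v w ∧ a ∈ L w

theorem NS_mono [Fintype V] (G : SimpleGraph V) {L L' : V → Finset K} {S : Finset V}
    (h : ∀ v, L v ⊆ L' v) (v : V) (a : K) : NS G L S v a ⊆ NS G L' S v a := by
  intro w hw
  simp only [NS, mem_filter] at hw ⊢
  exact ⟨hw.1, hw.2.1, h w hw.2.2⟩

/-- One step: colouring the part `S`. -/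
theorem round [Fintype V] (G : SimpleGraph V) (L : V → Finset K) {ℓ : ℕ} (hℓ : 1 ≤ ℓ)
    (hL : ∀ v, (L v).card = ℓ) (S : Finset V) {T M φ s qB : ℝ} {t : ℕ}
    (hT : ∀ v, ∀ a ∈ L v, ((NS G L S v a).card : ℝ) ≤ T)
    (hM : ∀ v, ∀ a ∈ L v, ((NS G L univ v a).card : ℝ) ≤ M)
    (hφ : 1 ≤ φ) (hφ2 : φ ^ 2 ≤ 2) (hℓ2 : 3 ≤ ℓ ^ 2) (hs : 0 ≤ s) (hqB0 : 0 ≤ qB) (hqB1 : qB < 1)
    (h1 : 1 ≤ φ * (1 - (4 * T / ℓ + ℓ * M * qB)))
    (hB : Real.exp (-(s * t) + φ * (Real.exp s - 1) * T) ≤ qB) :
    ∃ g : V → K, (∀ u, g u ∈ L u) ∧ (∀ u ∈ S, ∀ w ∈ S, G.Adj u w → g u ≠ g w) ∧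
      ∀ v, (S.filter fun u => G.Adj v u ∧ g u ∈ L v).card ≤ t := by
  have hℓne : Nonempty (Fin ℓ) := ⟨⟨0, by omega⟩⟩
  have hℓ0 : (0 : ℝ) < ℓ := by exact_mod_cast hℓ
  let en : V → Fin ℓ → K := fun v i => (((L v).equivFinOfCardEq (hL v)).symm i).1
  have hen_mem : ∀ v i, en v i ∈ L v := fun v i => (((L v).equivFinOfCardEq (hL v)).symm i).2
  have hen_inj : ∀ v, Function.Injective (en v) := by
    intro v i j hij
    exact ((L v).equivFinOfCardEq (hL v)).symm.injective (Subtype.ext hij)
  have hen_card : ∀ v (A : Finset K), (univ.filter fun i => en v i ∈ A).card = (L v ∩ A).card := by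
    intro v A
    apply Finset.card_bij (fun i _ => en v i)
    · intro i hi
      rw [Finset.mem_filter] at hi
      exact Finset.mem_inter.mpr ⟨hen_mem v i, hi.2⟩
    · intro i _ j _ hij
      exact hen_inj v hij
    · intro a ha
      rw [Finset.mem_inter] at ha
      refine ⟨((L v).equivFinOfCardEq (hL v)) ⟨a, ha.1⟩, ?_, ?_⟩
      · simp only [mem_filter, mem_univ, true_and, en, Equiv.symm_apply_apply]
        exact ha.2
      · simp only [en, Equiv.symm_apply_apply]
  let JA := {p : (Σ u : V, {a // a ∈ L u}) × V //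
    p.1.1 ∈ S ∧ p.2 ∈ S ∧ G.Adj p.1.1 p.2 ∧ p.1.2.1 ∈ L p.2}
  have : Finite (Σ u : V, {a // a ∈ L u}) := inferInstance
  letI : Fintype JA := Fintype.ofFinite JA
  let YA : JA → Finset V := fun p => {p.1.1.1, p.1.2}
  let PA : JA → V → Finset (Fin ℓ) := fun p i => univ.filter fun ω => en i ω ∈ ({p.1.1.2.1} : Finset K)
  let YB : V → Finset V := fun v => S.filter fun u => G.Adj v u ∧ (L u ∩ L v).Nonempty
  let PB : V → V → Finset (Fin ℓ) := fun v u => univ.filter fun ω => en u ω ∈ L v
  let gB : V → V → Fin ℓ → ℝ := fun v u => ind (PB v u)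
  -- counting the pair events
  have hcA : ∀ i : V, ((univ.filter fun p : JA => i ∈ YA p).card : ℝ) ≤ 2 * (ℓ * T) := by
    intro i
    have hcov : (univ.filter fun p : JA => i ∈ YA p).card ≤
        ∑ a ∈ L i, (NS G L S i a).card + ∑ a ∈ L i, (NS G L S i a).card := by
      have e1 : ((L i).sigma fun a => NS G L S i a).card = ∑ a ∈ L i, (NS G L S i a).card :=
        Finset.card_sigma _ _
      rw [← e1]
      have hsub : (univ.filter fun p : JA => i ∈ YA p) ⊆
          (univ.filter fun p : JA => p.1.1.1 = i) ∪ (univ.filter fun p : JA => p.1.2 = i) := by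
        intro p hp
        simp only [mem_filter, mem_univ, true_and, YA, mem_insert, mem_singleton, mem_union] at hp ⊢
        rcases hp with h | h
        · exact Or.inl h.symm
        · exact Or.inr h.symm
      refine (Finset.card_le_card hsub).trans ((Finset.card_union_le _ _).trans (Nat.add_le_add ?_ ?_))
      · apply Finset.card_le_card_of_injOn (fun p : JA => (⟨p.1.1.2.1, p.1.2⟩ : Σ _ : K, V))
        · rintro ⟨⟨⟨u, a, ha⟩, w⟩, hu, hw, hadj, haw⟩ hp
          simp only [coe_filter, mem_univ, true_and, Set.mem_ofPred_eq] at hp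
          subst hp
          simp only [coe_sigma, Set.mem_sigma_iff, mem_coe, NS, mem_filter]
          exact ⟨ha, hw, hadj, haw⟩
        · rintro ⟨⟨⟨u, a, ha⟩, w⟩, hu, hw, hadj, haw⟩ hp ⟨⟨⟨u', a', ha'⟩, w'⟩, hu', hw', hadj', haw'⟩ hp' h
          simp only [coe_filter, mem_univ, true_and, Set.mem_ofPred_eq] at hp hp'
          subst hp
          subst hp'
          simp only [Sigma.mk.injEq, heq_eq_eq] at h
          obtain ⟨rfl, rfl⟩ := h
          rfl
      · apply Finset.card_le_card_of_injOn (fun p : JA => (⟨p.1.1.2.1, p.1.1.1⟩ : Σ _ : K, V))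
        · rintro ⟨⟨⟨u, a, ha⟩, w⟩, hu, hw, hadj, haw⟩ hp
          simp only [coe_filter, mem_univ, true_and, Set.mem_ofPred_eq] at hp
          subst hp
          simp only [coe_sigma, Set.mem_sigma_iff, mem_coe, NS, mem_filter]
          exact ⟨haw, hu, hadj.symm, ha⟩
        · rintro ⟨⟨⟨u, a, ha⟩, w⟩, hu, hw, hadj, haw⟩ hp ⟨⟨⟨u', a', ha'⟩, w'⟩, hu', hw', hadj', haw'⟩ hp' h
          simp only [coe_filter, mem_univ, true_and, Set.mem_ofPred_eq] at hp hp'
          subst hp
          subst hp'
          simp only [Sigma.mk.injEq, heq_eq_eq] at h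
          obtain ⟨rfl, rfl⟩ := h
          rfl
    have hsum : (∑ a ∈ L i, ((NS G L S i a).card : ℝ)) ≤ ℓ * T := by
      calc (∑ a ∈ L i, ((NS G L S i a).card : ℝ)) ≤ (L i).card • T :=
            Finset.sum_le_card_nsmul _ _ _ fun a ha => hT i a ha
        _ = ℓ * T := by rw [hL i, nsmul_eq_mul]
    have hcov' : ((univ.filter fun p : JA => i ∈ YA p).card : ℝ) ≤
        ∑ a ∈ L i, ((NS G L S i a).card : ℝ) + ∑ a ∈ L i, ((NS G L S i a).card : ℝ) := by
      exact_mod_cast hcov
    linarith
  have hcB : ∀ i : V, ((univ.filter fun v : V => i ∈ YB v).card : ℝ) ≤ ℓ * M := by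
    intro i
    have hcov : (univ.filter fun v : V => i ∈ YB v).card ≤ ∑ a ∈ L i, (NS G L univ i a).card := by
      refine le_trans (Finset.card_le_card ?_) (Finset.card_biUnion_le (s := L i) (t := fun a => NS G L univ i a))
      intro v hv
      simp only [mem_filter, mem_univ, true_and, YB] at hv
      obtain ⟨-, hadj, a, ha⟩ := hv
      rw [Finset.mem_inter] at ha
      simp only [mem_biUnion, NS, mem_filter, mem_univ, true_and]
      exact ⟨a, ha.1, hadj.symm, ha.2⟩
    have hcov' : ((univ.filter fun v : V => i ∈ YB v).card : ℝ) ≤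
        ∑ a ∈ L i, ((NS G L univ i a).card : ℝ) := by exact_mod_cast hcov
    refine hcov'.trans ?_
    calc (∑ a ∈ L i, ((NS G L univ i a).card : ℝ)) ≤ (L i).card • M :=
          Finset.sum_le_card_nsmul _ _ _ fun a ha => hM i a ha
      _ = ℓ * M := by rw [hL i, nsmul_eq_mul]
  have hℓ2' : (3 : ℝ) ≤ (ℓ : ℝ) ^ 2 := by exact_mod_cast hℓ2
  obtain ⟨x, hxA, hxB⟩ := lllc (ι := V) (Ω := Fin ℓ) YA PA YB gB (by
      intro j i ω
      exact ind_nonneg _ _) (fun _ => (t : ℝ)) (fun _ => s) (fun _ => hs)
    (fun _ => 2 / (ℓ : ℝ) ^ 2) (fun _ => by positivity) (fun _ => by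
      rw [div_lt_one (by positivity)]; linarith)
    (fun _ => qB) (fun _ => hqB0) (fun _ => hqB1) φ hφ (by
      intro i
      refine h1.trans (mul_le_mul_of_nonneg_left ?_ (by linarith))
      rw [Finset.sum_const, Finset.sum_const, nsmul_eq_mul, nsmul_eq_mul]
      have h3 : ((univ.filter fun p : JA => i ∈ YA p).card : ℝ) * (2 / (ℓ : ℝ) ^ 2) ≤ 4 * T / ℓ := by
        calc ((univ.filter fun p : JA => i ∈ YA p).card : ℝ) * (2 / (ℓ : ℝ) ^ 2)
            ≤ (2 * (ℓ * T)) * (2 / (ℓ : ℝ) ^ 2) :=
              mul_le_mul_of_nonneg_right (hcA i) (by positivity)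
          _ = 4 * T / ℓ := by field_simp; ring
      have h4 := mul_le_mul_of_nonneg_right (hcB i) hqB0
      linarith)
    (by
      rintro ⟨⟨⟨u, a, ha⟩, w⟩, hu, hw, hadj, haw⟩
      simp only [YA, PA]
      have hcardle : ∀ i : V, ((univ.filter fun ω : Fin ℓ => en i ω ∈ ({a} : Finset K)).card : ℝ) ≤ 1 := by
        intro i
        rw [hen_card i {a}]
        have : (L i ∩ {a}).card ≤ ({a} : Finset K).card := Finset.card_le_card Finset.inter_subset_right
        rw [Finset.card_singleton] at this
        exact_mod_cast this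
      rw [Finset.prod_pair hadj.ne, Fintype.card_fin]
      have hφ0 : (0 : ℝ) ≤ φ := by linarith
      have h5 : ∀ i : V, φ * (((univ.filter fun ω : Fin ℓ => en i ω ∈ ({a} : Finset K)).card : ℝ) / ℓ) ≤
          φ / ℓ := by
        intro i
        rw [← mul_div_assoc]
        apply div_le_div_of_nonneg_right _ hℓ0.le
        have := mul_le_mul_of_nonneg_left (hcardle i) hφ0
        rwa [mul_one] at this
      have h6 : ∀ i : V, 0 ≤ φ * (((univ.filter fun ω : Fin ℓ => en i ω ∈ ({a} : Finset K)).card : ℝ) / ℓ) := by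
        intro i
        positivity
      calc _ ≤ (φ / ℓ) * (φ / ℓ) := mul_le_mul (h5 u) (h5 w) (h6 w) (by positivity)
        _ = φ ^ 2 / (ℓ : ℝ) ^ 2 := by field_simp
        _ ≤ 2 / (ℓ : ℝ) ^ 2 := div_le_div_of_nonneg_right hφ2 (by positivity))
    (by
      intro v
      refine le_trans ?_ hB
      refine prod_bound (YB v) (PB v) (by linarith) hs ?_
      rw [Fintype.card_fin]
      have hPBc : ∀ u, (PB v u).card = (L u ∩ L v).card := fun u => hen_card u (L v)
      simp_rw [hPBc]
      rw [← Finset.sum_div, div_le_iff₀ hℓ0]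
      have e1 : ∑ u ∈ YB v, ((L u ∩ L v).card : ℝ) ≤ ∑ a ∈ L v, ((NS G L S v a).card : ℝ) := by
        have e2 : ∑ u ∈ YB v, (L u ∩ L v).card ≤ ∑ a ∈ L v, (NS G L S v a).card := by
          have h7 := Finset.sum_card_bipartiteAbove_eq_sum_card_bipartiteBelow
            (s := S.filter fun u => G.Adj v u) (t := L v) (fun u a => a ∈ L u)
          unfold Finset.bipartiteAbove Finset.bipartiteBelow at h7
          have h8 : ∑ u ∈ YB v, (L u ∩ L v).card ≤
              ∑ u ∈ S.filter (fun u => G.Adj v u), ((L v).filter fun a => a ∈ L u).card := by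
            calc ∑ u ∈ YB v, (L u ∩ L v).card = ∑ u ∈ YB v, ((L v).filter fun a => a ∈ L u).card := by
                  apply Finset.sum_congr rfl
                  intro u _
                  congr 1
                  ext a
                  simp only [mem_inter, mem_filter]
                  tauto
              _ ≤ _ := by
                  apply Finset.sum_le_sum_of_subset
                  intro u hu
                  simp only [YB, mem_filter] at hu ⊢
                  exact ⟨hu.1, hu.2.1⟩
          refine h8.trans (le_of_eq (h7.trans ?_))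
          apply Finset.sum_congr rfl
          intro a _
          congr 1
          ext u
          simp only [NS, mem_filter]
          tauto
        exact_mod_cast e2
      refine e1.trans ?_
      calc (∑ a ∈ L v, ((NS G L S v a).card : ℝ)) ≤ (L v).card • T :=
            Finset.sum_le_card_nsmul _ _ _ fun a ha => hT v a ha
        _ = T * ℓ := by rw [hL v, nsmul_eq_mul, mul_comm])
  refine ⟨fun v => en v (x v), fun u => hen_mem u _, ?_, ?_⟩
  · intro u hu w hw hadj h
    have hmw : en u (x u) ∈ L w := by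
      have := hen_mem w (x w)
      simp only at h
      rw [h]
      exact this
    obtain ⟨i, hi, hi'⟩ := hxA ⟨(⟨u, ⟨en u (x u), hen_mem u _⟩⟩, w), hu, hw, hadj, hmw⟩
    simp only [YA, mem_insert, mem_singleton] at hi
    apply hi'
    simp only [PA, mem_filter, mem_univ, true_and, mem_singleton]
    rcases hi with rfl | rfl
    · rfl
    · exact h.symm
  · intro v
    have h9 := hxB v
    have e1 : ∑ i ∈ YB v, gB v i (x i) = ((YB v).filter fun u => en u (x u) ∈ L v).card := by
      rw [Finset.card_filter]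
      push_cast
      apply Finset.sum_congr rfl
      intro i _
      show ind (PB v i) (x i) = _
      have : x i ∈ PB v i ↔ en i (x i) ∈ L v := by
        simp only [PB, mem_filter, mem_univ, true_and]
      unfold ind
      by_cases h : en i (x i) ∈ L v
      · rw [if_pos (this.mpr h), if_pos h]
      · rw [if_neg (fun h' => h (this.mp h')), if_neg h]
    rw [e1] at h9
    have h10 : ((YB v).filter fun u => en u (x u) ∈ L v).card ≤ t := by exact_mod_cast h9
    refine le_trans (Finset.card_le_card ?_) h10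
    intro u hu
    simp only [YB, mem_filter] at hu ⊢
    exact ⟨⟨hu.1, hu.2.1, ⟨_, Finset.mem_inter.mpr ⟨hen_mem u _, hu.2.2⟩⟩⟩, hu.2.2⟩

end TC19
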