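import Pool.Agent.Lib_helper19.TC.Poly

set_option autoImplicit false

/-!
# From a vertex colouring with few conflicts to a total colouring
-/

namespace TC19

open Finset Classical

variable {V E K : Type*}

/-- the colours on the edges joining `w` and `u` -/
noncomputable def Cs [Fintype E] (s t : E → V) (c : E → K) (w u : V) : Finset (Option K) :=
  (univ.filter fun e => Inc s t e w ∧ Inc s t e u).image fun e => some (c e)

theorem mem_Cs [Fintype E] {s t : E → V} {c : E → K} {w u : V} {a : Option K} :
    a ∈ Cs s t c w u ↔ ∃ e, Inc s t e w ∧ Inc s t e u ∧ some (c e) = a := by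
  simp only [Cs, mem_image, mem_filter, mem_univ, true_and, and_assoc]

theorem inc3 {s t : E → V} {e : E} {w u u' : V} (hw : Inc s t e w) (hu : Inc s t e u)
    (hu' : Inc s t e u') (h1 : u ≠ w) (h2 : u' ≠ w) : u = u' := by
  rcases hw with rfl | rfl
  · rcases hu with h | h
    · exact absurd h.symm h1
    · rcases hu' with h' | h'
      · exact absurd h'.symm h2
      · exact h.symm.trans h'
  · rcases hu with h | h
    · rcases hu' with h' | h'
      · exact h.symm.trans h'
      · exact absurd h'.symm h2
    · exact absurd h.symm h1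

theorem sum_Cs [Fintype V] [Fintype E] [Fintype K] {s t : E → V}
    {c : E → K} (hc : Proper s t Set.univ c) (w : V) :
    ∑ u ∈ Nb (SG s t) w, (Cs s t c w u).card ≤ Fintype.card K := by
  rw [← Finset.card_biUnion]
  · have h1 : (Nb (SG s t) w).biUnion (fun u => Cs s t c w u) ⊆ (univ : Finset K).image some := by
      intro a ha
      rw [Finset.mem_biUnion] at ha
      obtain ⟨u, _, hu⟩ := ha
      obtain ⟨e, _, _, he⟩ := mem_Cs.mp hu
      rw [Finset.mem_image]
      exact ⟨c e, Finset.mem_univ _, he⟩
    exact (Finset.card_le_card h1).trans (Finset.card_image_le.trans (by rw [Finset.card_univ]))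
  · intro u hu u' hu' hne
    rw [Finset.mem_coe, mem_Nb] at hu hu'
    show Disjoint (Cs s t c w u) (Cs s t c w u')
    rw [Finset.disjoint_left]
    intro a ha ha'
    obtain ⟨e, h1, h2, h3⟩ := mem_Cs.mp ha
    obtain ⟨e', h1', h2', h3'⟩ := mem_Cs.mp ha'
    have hee : e = e' := by
      by_contra hcon
      apply hc e trivial e' trivial hcon w h1 h1'
      exact Option.some_injective _ (h3.trans h3'.symm)
    subst hee
    exact hne (inc3 h1 h2 h2' hu.1.symm hu'.1.symm)

theorem card_Nb_le [Fintype V] [Fintype E] [Fintype K] {s t : E → V}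
    {c : E → K} (hc : Proper s t Set.univ c) (w : V) :
    (Nb (SG s t) w).card ≤ Fintype.card K := by
  refine le_trans ?_ (sum_Cs hc w)
  rw [Finset.card_eq_sum_ones]
  apply Finset.sum_le_sum
  intro u hu
  rw [mem_Nb] at hu
  obtain ⟨_, e, h1, h2⟩ := hu
  exact Finset.card_pos.mpr ⟨some (c e), mem_Cs.mpr ⟨e, h1, h2, rfl⟩⟩

/-- The rejected edges are recoloured with new colours. -/
theorem reject [Fintype V] [Fintype E] {s t : E → V} (hst : ∀ e, s e ≠ t e)
    {c : E → K} (hc : Proper s t Set.univ c) (g : V → Option K)
    (hg : ∀ u v, (SG s t).Adj u v → g u ≠ g v) {R : ℕ}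
    (hR : ∀ w, ((Nb (SG s t) w).filter fun u => g u ∈ Cs s t c w u).card ≤ R) :
    ∃ (c' : E → Option K ⊕ Fin (2 * R + 1)) (g' : V → Option K ⊕ Fin (2 * R + 1)),
      TotalCol s t c' g' := by
  let F : Finset E := univ.filter fun e => some (c e) = g (s e) ∨ some (c e) = g (t e)
  have hdeg : ∀ w, (F.filter fun e => Inc s t e w).card ≤ R + 1 := by
    intro w
    have hsub : (F.filter fun e => Inc s t e w) ⊆
        (univ.filter fun e => Inc s t e w ∧ some (c e) = g w) ∪
        (univ.filter fun e => Inc s t e w ∧ ∃ u, u ≠ w ∧ Inc s t e u ∧ some (c e) = g u) := by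
      intro e he
      simp only [F, mem_filter, mem_univ, true_and] at he
      simp only [mem_union, mem_filter, mem_univ, true_and]
      obtain ⟨h1, h2⟩ := he
      rcases h1 with h1 | h1
      · by_cases hsw : s e = w
        · left; exact ⟨h2, by rw [← hsw]; exact h1⟩
        · right; exact ⟨h2, s e, hsw, inc_left s t e, h1⟩
      · by_cases htw : t e = w
        · left; exact ⟨h2, by rw [← htw]; exact h1⟩
        · right; exact ⟨h2, t e, htw, inc_right s t e, h1⟩
    have hA : (univ.filter fun e => Inc s t e w ∧ some (c e) = g w).card ≤ 1 := by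
      rw [Finset.card_le_one]
      intro e he f hf
      simp only [mem_filter, mem_univ, true_and] at he hf
      by_contra hcon
      apply hc e trivial f trivial hcon w he.1 hf.1
      exact Option.some_injective _ (he.2.trans hf.2.symm)
    have hB : (univ.filter fun e => Inc s t e w ∧ ∃ u, u ≠ w ∧ Inc s t e u ∧ some (c e) = g u).card ≤
        R := by
      refine le_trans ?_ (hR w)
      apply Finset.card_le_card_of_injOn (fun e => if s e = w then t e else s e)
      · intro e he
        simp only [coe_filter, mem_univ, true_and, Set.mem_ofPred_eq] at he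
        obtain ⟨h1, u, h2, h3, h4⟩ := he
        have hu : (if s e = w then t e else s e) = u := by
          split_ifs with h
          · refine inc3 h1 (inc_right s t e) h3 ?_ h2
            rw [← h]; exact (hst e).symm
          · exact inc3 h1 (inc_left s t e) h3 h h2
        simp only [hu, coe_filter, Set.mem_ofPred_eq]
        refine ⟨mem_Nb.mpr ⟨h2.symm, e, h1, h3⟩, mem_Cs.mpr ⟨e, h1, h3, h4⟩⟩
      · intro e he f hf hef
        simp only [coe_filter, mem_univ, true_and, Set.mem_ofPred_eq] at he hf
        obtain ⟨h1, u, h2, h3, h4⟩ := he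
        obtain ⟨h1', u', h2', h3', h4'⟩ := hf
        have hu : (if s e = w then t e else s e) = u := by
          split_ifs with h
          · refine inc3 h1 (inc_right s t e) h3 ?_ h2
            rw [← h]; exact (hst e).symm
          · exact inc3 h1 (inc_left s t e) h3 h h2
        have hu' : (if s f = w then t f else s f) = u' := by
          split_ifs with h
          · refine inc3 h1' (inc_right s t f) h3' ?_ h2'
            rw [← h]; exact (hst f).symm
          · exact inc3 h1' (inc_left s t f) h3' h h2'
        simp only [hu, hu'] at hef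
        subst hef
        by_contra hcon
        apply hc e trivial f trivial hcon w h1 h1'
        exact Option.some_injective _ (h4.trans h4'.symm)
    have := (Finset.card_le_card hsub).trans (Finset.card_union_le _ _)
    omega
  -- colouring the rejected edges
  let LG : SimpleGraph E :=
    { Adj := fun e f => e ≠ f ∧ e ∈ F ∧ f ∈ F ∧ ∃ v, Inc s t e v ∧ Inc s t f v
      symm := ⟨fun e f h => ⟨h.1.symm, h.2.2.1, h.2.1, by
        obtain ⟨v, h1, h2⟩ := h.2.2.2
        exact ⟨v, h2, h1⟩⟩⟩
      loopless := ⟨fun e h => h.1 rfl⟩ }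
  have hLG : ∀ e, (Nb LG e).card < Fintype.card (Fin (2 * R + 1)) := by
    intro e
    rw [Fintype.card_fin]
    by_cases he : e ∈ F
    · have hsub : Nb LG e ⊆ ((F.filter fun f => Inc s t f (s e)).erase e) ∪
          ((F.filter fun f => Inc s t f (t e)).erase e) := by
        intro f hf
        rw [mem_Nb] at hf
        obtain ⟨h1, _, h3, v, h4, h5⟩ := hf
        rcases h4 with h4 | h4
        · exact Finset.mem_union_left _ (Finset.mem_erase.mpr
            ⟨h1.symm, Finset.mem_filter.mpr ⟨h3, by rw [h4]; exact h5⟩⟩)
        · exact Finset.mem_union_right _ (Finset.mem_erase.mpr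
            ⟨h1.symm, Finset.mem_filter.mpr ⟨h3, by rw [h4]; exact h5⟩⟩)
      have h1 := (Finset.card_le_card hsub).trans (Finset.card_union_le _ _)
      rw [Finset.card_erase_of_mem (Finset.mem_filter.mpr ⟨he, inc_left s t e⟩),
        Finset.card_erase_of_mem (Finset.mem_filter.mpr ⟨he, inc_right s t e⟩)] at h1
      have h2 := hdeg (s e)
      have h3 := hdeg (t e)
      omega
    · have : Nb LG e = ∅ := by
        rw [Finset.eq_empty_iff_forall_notMem]
        intro f hf
        rw [mem_Nb] at hf
        exact he hf.2.1
      rw [this, Finset.card_empty]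
      omega
  obtain ⟨h, -, hh⟩ := greedy LG hLG univ (fun _ => 0) (fun u _ hu => absurd (Finset.mem_univ u) hu)
  refine ⟨fun e => if e ∈ F then Sum.inr (h e) else Sum.inl (some (c e)), fun v => Sum.inl (g v),
    ?_, ?_, ?_⟩
  · intro e _ f _ hne v hv hv'
    show (if e ∈ F then (Sum.inr (h e) : Option K ⊕ Fin (2 * R + 1)) else Sum.inl (some (c e))) ≠
      (if f ∈ F then Sum.inr (h f) else Sum.inl (some (c f)))
    by_cases he : e ∈ F
    · by_cases hf : f ∈ F
      · rw [if_pos he, if_pos hf]
        intro heq
        exact hh e f ⟨hne, he, hf, v, hv, hv'⟩ (Sum.inr_injective heq)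
      · rw [if_pos he, if_neg hf]
        exact Sum.inr_ne_inl
    · by_cases hf : f ∈ F
      · rw [if_neg he, if_pos hf]
        exact Sum.inl_ne_inr
      · rw [if_neg he, if_neg hf]
        intro heq
        exact hc e trivial f trivial hne v hv hv' (Option.some_injective _ (Sum.inl_injective heq))
  · intro v e _ hv
    show (if e ∈ F then (Sum.inr (h e) : Option K ⊕ Fin (2 * R + 1)) else Sum.inl (some (c e))) ≠
      Sum.inl (g v)
    by_cases he : e ∈ F
    · rw [if_pos he]
      exact Sum.inr_ne_inl
    · rw [if_neg he]
      intro heq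
      apply he
      have h1 := Sum.inl_injective heq
      simp only [F, mem_filter, mem_univ, true_and]
      rcases hv with rfl | rfl
      · exact Or.inl h1
      · exact Or.inr h1
  · intro u v hadj heq
    exact hg u v hadj (Sum.inl_injective heq)

end TC19
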