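import Pool.Agent.Lib_helper19.TC.RS2

set_option autoImplicit false

/-!
# One round of colouring a part of the vertices, with general counting events
-/

namespace TC19

open Finset Classical

variable {V K : Type*}

/-- One step: colouring the part `S`, with general counting events. -/
theorem roundG [Fintype V] {JB : Type*} [Fintype JB] (G : SimpleGraph V) (L : V → Finset K) {ℓ : ℕ}
    (hℓ : 1 ≤ ℓ) (hL : ∀ v, (L v).card = ℓ) (S : Finset V) (YB : JB → Finset V)
    (C : JB → V → Finset K) {T N M φ s qB t : ℝ}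
    (hT : ∀ v, ∀ a ∈ L v, ((NS G L S v a).card : ℝ) ≤ T)
    (hN : ∀ i, ((univ.filter fun j : JB => i ∈ YB j).card : ℝ) ≤ N)
    (hM : ∀ j, ∑ u ∈ YB j, ((L u ∩ C j u).card : ℝ) / ℓ ≤ M)
    (hφ : 1 ≤ φ) (hφ2 : φ ^ 2 ≤ 2) (hℓ2 : 3 ≤ ℓ ^ 2) (hs : 0 ≤ s) (hqB0 : 0 ≤ qB) (hqB1 : qB < 1)
    (h1 : 1 ≤ φ * (1 - (4 * T / ℓ + N * qB)))
    (hB : Real.exp (-(s * t) + φ * (Real.exp s - 1) * M) ≤ qB) :
    ∃ g : V → K, (∀ u, g u ∈ L u) ∧ (∀ u ∈ S, ∀ w ∈ S, G.Adj u w → g u ≠ g w) ∧
      ∀ j, (((YB j).filter fun u => g u ∈ C j u).card : ℝ) ≤ t := by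
  have hℓne : Nonempty (Fin ℓ) := ⟨⟨0, by omega⟩⟩
  have hℓ0 : (0 : ℝ) < ℓ := by exact_mod_cast hℓ
  let en : V → Fin ℓ → K := fun v i => (((L v).equivFinOfCardEq (hL v)).symm i).1
  have hen_mem : ∀ v i, en v i ∈ L v := fun v i => (((L v).equivFinOfCardEq (hL v)).symm i).2
  have hen_inj : ∀ v, Function.Injective (en v) := by
    intro v i j hij
    exact ((L v).equivFinOfCardEq (hL v)).symm.injective (Subtype.ext hij)
  have hen_card : ∀ v (A : Finset K), (univ.filter fun i => en v i ∈ A).card = (L v ∩ A).card := by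
    intro v A
    apply Finset.card_bij (fun i _ => en v i)
    · intro i hi
      rw [Finset.mem_filter] at hi
      exact Finset.mem_inter.mpr ⟨hen_mem v i, hi.2⟩
    · intro i _ j _ hij
      exact hen_inj v hij
    · intro a ha
      rw [Finset.mem_inter] at ha
      refine ⟨((L v).equivFinOfCardEq (hL v)) ⟨a, ha.1⟩, ?_, ?_⟩
      · simp only [mem_filter, mem_univ, true_and, en, Equiv.symm_apply_apply]
        exact ha.2
      · simp only [en, Equiv.symm_apply_apply]
  let JA := {p : (Σ u : V, {a // a ∈ L u}) × V //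
    p.1.1 ∈ S ∧ p.2 ∈ S ∧ G.Adj p.1.1 p.2 ∧ p.1.2.1 ∈ L p.2}
  have : Finite (Σ u : V, {a // a ∈ L u}) := inferInstance
  letI : Fintype JA := Fintype.ofFinite JA
  let YA : JA → Finset V := fun p => {p.1.1.1, p.1.2}
  let PA : JA → V → Finset (Fin ℓ) := fun p i => univ.filter fun ω => en i ω ∈ ({p.1.1.2.1} : Finset K)
  let PB : JB → V → Finset (Fin ℓ) := fun j u => univ.filter fun ω => en u ω ∈ C j u
  let gB : JB → V → Fin ℓ → ℝ := fun j u => ind (PB j u)
  -- counting the pair events
  have hcA : ∀ i : V, ((univ.filter fun p : JA => i ∈ YA p).card : ℝ) ≤ 2 * (ℓ * T) := by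
    intro i
    have hcov : (univ.filter fun p : JA => i ∈ YA p).card ≤
        ∑ a ∈ L i, (NS G L S i a).card + ∑ a ∈ L i, (NS G L S i a).card := by
      have e1 : ((L i).sigma fun a => NS G L S i a).card = ∑ a ∈ L i, (NS G L S i a).card :=
        Finset.card_sigma _ _
      rw [← e1]
      have hsub : (univ.filter fun p : JA => i ∈ YA p) ⊆
          (univ.filter fun p : JA => p.1.1.1 = i) ∪ (univ.filter fun p : JA => p.1.2 = i) := by
        intro p hp
        simp only [mem_filter, mem_univ, true_and, YA, mem_insert, mem_singleton, mem_union] at hp ⊢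
        rcases hp with h | h
        · exact Or.inl h.symm
        · exact Or.inr h.symm
      refine (Finset.card_le_card hsub).trans ((Finset.card_union_le _ _).trans (Nat.add_le_add ?_ ?_))
      · apply Finset.card_le_card_of_injOn (fun p : JA => (⟨p.1.1.2.1, p.1.2⟩ : Σ _ : K, V))
        · rintro ⟨⟨⟨u, a, ha⟩, w⟩, hu, hw, hadj, haw⟩ hp
          simp only [coe_filter, mem_univ, true_and, Set.mem_ofPred_eq] at hp
          subst hp
          simp only [coe_sigma, Set.mem_sigma_iff, mem_coe, NS, mem_filter]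
          exact ⟨ha, hw, hadj, haw⟩
        · rintro ⟨⟨⟨u, a, ha⟩, w⟩, hu, hw, hadj, haw⟩ hp ⟨⟨⟨u', a', ha'⟩, w'⟩, hu', hw', hadj', haw'⟩ hp' h
          simp only [coe_filter, mem_univ, true_and, Set.mem_ofPred_eq] at hp hp'
          subst hp
          subst hp'
          simp only [Sigma.mk.injEq, heq_eq_eq] at h
          obtain ⟨rfl, rfl⟩ := h
          rfl
      · apply Finset.card_le_card_of_injOn (fun p : JA => (⟨p.1.1.2.1, p.1.1.1⟩ : Σ _ : K, V))
        · rintro ⟨⟨⟨u, a, ha⟩, w⟩, hu, hw, hadj, haw⟩ hp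
          simp only [coe_filter, mem_univ, true_and, Set.mem_ofPred_eq] at hp
          subst hp
          simp only [coe_sigma, Set.mem_sigma_iff, mem_coe, NS, mem_filter]
          exact ⟨haw, hu, hadj.symm, ha⟩
        · rintro ⟨⟨⟨u, a, ha⟩, w⟩, hu, hw, hadj, haw⟩ hp ⟨⟨⟨u', a', ha'⟩, w'⟩, hu', hw', hadj', haw'⟩ hp' h
          simp only [coe_filter, mem_univ, true_and, Set.mem_ofPred_eq] at hp hp'
          subst hp
          subst hp'
          simp only [Sigma.mk.injEq, heq_eq_eq] at h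
          obtain ⟨rfl, rfl⟩ := h
          rfl
    have hsum : (∑ a ∈ L i, ((NS G L S i a).card : ℝ)) ≤ ℓ * T := by
      calc (∑ a ∈ L i, ((NS G L S i a).card : ℝ)) ≤ (L i).card • T :=
            Finset.sum_le_card_nsmul _ _ _ fun a ha => hT i a ha
        _ = ℓ * T := by rw [hL i, nsmul_eq_mul]
    have hcov' : ((univ.filter fun p : JA => i ∈ YA p).card : ℝ) ≤
        ∑ a ∈ L i, ((NS G L S i a).card : ℝ) + ∑ a ∈ L i, ((NS G L S i a).card : ℝ) := by
      exact_mod_cast hcov
    linarith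
  have hℓ2' : (3 : ℝ) ≤ (ℓ : ℝ) ^ 2 := by exact_mod_cast hℓ2
  obtain ⟨x, hxA, hxB⟩ := lllc (ι := V) (Ω := Fin ℓ) YA PA YB gB (by
      intro j i ω
      exact ind_nonneg _ _) (fun _ => t) (fun _ => s) (fun _ => hs)
    (fun _ => 2 / (ℓ : ℝ) ^ 2) (fun _ => by positivity) (fun _ => by
      rw [div_lt_one (by positivity)]; linarith)
    (fun _ => qB) (fun _ => hqB0) (fun _ => hqB1) φ hφ (by
      intro i
      refine h1.trans (mul_le_mul_of_nonneg_left ?_ (by linarith))
      rw [Finset.sum_const, Finset.sum_const, nsmul_eq_mul, nsmul_eq_mul]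
      have h3 : ((univ.filter fun p : JA => i ∈ YA p).card : ℝ) * (2 / (ℓ : ℝ) ^ 2) ≤ 4 * T / ℓ := by
        calc ((univ.filter fun p : JA => i ∈ YA p).card : ℝ) * (2 / (ℓ : ℝ) ^ 2)
            ≤ (2 * (ℓ * T)) * (2 / (ℓ : ℝ) ^ 2) :=
              mul_le_mul_of_nonneg_right (hcA i) (by positivity)
          _ = 4 * T / ℓ := by field_simp; ring
      have h4 := mul_le_mul_of_nonneg_right (hN i) hqB0
      linarith)
    (by
      rintro ⟨⟨⟨u, a, ha⟩, w⟩, hu, hw, hadj, haw⟩
      simp only [YA, PA]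
      have hcardle : ∀ i : V, ((univ.filter fun ω : Fin ℓ => en i ω ∈ ({a} : Finset K)).card : ℝ) ≤ 1 := by
        intro i
        rw [hen_card i {a}]
        have : (L i ∩ {a}).card ≤ ({a} : Finset K).card := Finset.card_le_card Finset.inter_subset_right
        rw [Finset.card_singleton] at this
        exact_mod_cast this
      rw [Finset.prod_pair hadj.ne, Fintype.card_fin]
      have hφ0 : (0 : ℝ) ≤ φ := by linarith
      have h5 : ∀ i : V, φ * (((univ.filter fun ω : Fin ℓ => en i ω ∈ ({a} : Finset K)).card : ℝ) / ℓ) ≤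
          φ / ℓ := by
        intro i
        rw [← mul_div_assoc]
        apply div_le_div_of_nonneg_right _ hℓ0.le
        have := mul_le_mul_of_nonneg_left (hcardle i) hφ0
        rwa [mul_one] at this
      have h6 : ∀ i : V, 0 ≤ φ * (((univ.filter fun ω : Fin ℓ => en i ω ∈ ({a} : Finset K)).card : ℝ) / ℓ) := by
        intro i
        positivity
      calc _ ≤ (φ / ℓ) * (φ / ℓ) := mul_le_mul (h5 u) (h5 w) (h6 w) (by positivity)
        _ = φ ^ 2 / (ℓ : ℝ) ^ 2 := by field_simp
        _ ≤ 2 / (ℓ : ℝ) ^ 2 := div_le_div_of_nonneg_right hφ2 (by positivity))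
    (by
      intro j
      refine le_trans ?_ hB
      refine prod_bound (YB j) (PB j) (by linarith) hs ?_
      rw [Fintype.card_fin]
      have hPBc : ∀ u, (PB j u).card = (L u ∩ C j u).card := fun u => hen_card u (C j u)
      simp_rw [hPBc]
      exact hM j)
  refine ⟨fun v => en v (x v), fun u => hen_mem u _, ?_, ?_⟩
  · intro u hu w hw hadj h
    have hmw : en u (x u) ∈ L w := by
      have := hen_mem w (x w)
      simp only at h
      rw [h]
      exact this
    obtain ⟨i, hi, hi'⟩ := hxA ⟨(⟨u, ⟨en u (x u), hen_mem u _⟩⟩, w), hu, hw, hadj, hmw⟩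
    simp only [YA, mem_insert, mem_singleton] at hi
    apply hi'
    simp only [PA, mem_filter, mem_univ, true_and, mem_singleton]
    rcases hi with rfl | rfl
    · rfl
    · exact h.symm
  · intro j
    have h9 := hxB j
    have e1 : ∑ i ∈ YB j, gB j i (x i) = ((YB j).filter fun u => en u (x u) ∈ C j u).card := by
      rw [Finset.card_filter]
      push_cast
      apply Finset.sum_congr rfl
      intro i _
      show ind (PB j i) (x i) = _
      have : x i ∈ PB j i ↔ en i (x i) ∈ C j i := by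
        simp only [PB, mem_filter, mem_univ, true_and]
      unfold ind
      by_cases h : en i (x i) ∈ C j i
      · rw [if_pos (this.mpr h), if_pos h]
      · rw [if_neg (fun h' => h (this.mp h')), if_neg h]
    rw [e1] at h9
    exact h9

end TC19
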