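import Pool.Agent.Lib_helper19.TC.Ctx

set_option autoImplicit false

/-!
# Equalising the loads over all colours
-/

namespace TC19

open Finset Classical

variable {V E K : Type*}

theorem load_congr [Fintype V] (G : SimpleGraph V) {τ τ' : V → Finset K} {R : Finset K}
    (h : ∀ v, ∀ a ∈ R, (a ∈ τ' v ↔ a ∈ τ v)) (v : V) : load G τ' R v = load G τ R v := by
  unfold load
  apply Finset.sum_congr rfl
  intro w _
  congr 1
  ext a
  simp only [mem_filter]
  constructor
  · rintro ⟨h1, h2⟩
    exact ⟨(h w a h2).mp h1, h2⟩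
  · rintro ⟨h1, h2⟩
    exact ⟨(h w a h2).mpr h1, h2⟩

theorem load_split [Fintype V] (G : SimpleGraph V) (τ : V → Finset K) {T R : Finset K}
    (hT : T ⊆ R) (v : V) : load G τ T v + load G τ (R \ T) v = load G τ R v := by
  unfold load
  rw [← Finset.sum_add_distrib]
  apply Finset.sum_congr rfl
  intro w _
  rw [← Finset.card_union_of_disjoint]
  · congr 1
    ext a
    simp only [mem_filter, mem_union, mem_sdiff]
    constructor
    · rintro (h | h)
      · exact ⟨h.1, hT h.2⟩
      · exact ⟨h.1, h.2.1⟩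
    · rintro ⟨h1, h2⟩
      by_cases h3 : a ∈ T
      · exact Or.inl ⟨h1, h3⟩
      · exact Or.inr ⟨h1, h2, h3⟩
  · rw [Finset.disjoint_left]
    intro a ha ha'
    simp only [mem_filter, mem_sdiff] at ha ha'
    exact ha'.2.2 ha.2

theorem load_le [Fintype V] (G : SimpleGraph V) {D m : ℕ} (hD : ∀ v, (Nb G v).card ≤ D)
    {τ : V → Finset K} (hm : ∀ v, (τ v).card ≤ m) (R : Finset K) (v : V) :
    load G τ R v ≤ m * D := by
  unfold load
  calc ∑ w ∈ Nb G v, ((τ w).filter fun a => a ∈ R).card ≤ ∑ w ∈ Nb G v, m :=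
        Finset.sum_le_sum fun w _ => (Finset.card_filter_le _ _).trans (hm w)
    _ = (Nb G v).card * m := by rw [Finset.sum_const, smul_eq_mul]
    _ ≤ D * m := Nat.mul_le_mul_right _ (hD v)
    _ = _ := mul_comm _ _

/-- the bound for the load after `r` halvings -/
noncomputable def gr (L : ℝ) : ℕ → ℝ → ℝ
  | 0, b => b
  | r + 1, b => gr L r (b / 2 + √(b * L))

theorem row [Fintype V] [Fintype E] {s t : E → V} (hst : ∀ e, s e ≠ t e) (G : SimpleGraph V)
    {D m : ℕ} (hD1 : 1 ≤ D) (hm1 : 1 ≤ m) (hD : ∀ v, (Nb G v).card ≤ D) {L : ℝ} (hL0 : 0 ≤ L)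
    (hL : 16 * (m : ℝ) * D ^ 2 ≤ Real.exp L) :
    ∀ (r : ℕ) (R : Finset K), R.card = 2 ^ r → ∀ (b : ℝ), 0 < b →
      ∀ (c : E → K) (τ : V → Finset K), Valid s t c τ → (∀ v, (τ v).card ≤ m) →
      (∀ v, (load G τ R v : ℝ) ≤ b) →
      ∃ (c' : E → K) (τ' : V → Finset K), Valid s t c' τ' ∧ (∀ v, (τ' v).card = (τ v).card) ∧
        (∀ v a, a ∉ R → (a ∈ τ' v ↔ a ∈ τ v)) ∧ ∀ a ∈ R, ∀ v, (load G τ' {a} v : ℝ) ≤ gr L r b := by
  intro r
  induction r with
  | zero =>
    intro R hR b hb c τ hV hm hload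
    obtain ⟨a, rfl⟩ := Finset.card_eq_one.mp (by simpa using hR)
    refine ⟨c, τ, hV, fun _ => rfl, fun _ _ _ => Iff.rfl, ?_⟩
    intro a' ha' v
    rw [Finset.mem_singleton] at ha'
    subst ha'
    exact hload v
  | succ r ih =>
    intro R hR b hb c τ hV hm hload
    obtain ⟨T, hTR, hT⟩ := Finset.exists_subset_card_eq (s := R) (n := 2 ^ r) (by
      rw [hR, pow_succ]; omega)
    have hT' : (R \ T).card = 2 ^ r := by
      rw [Finset.card_sdiff_of_subset hTR, hR, hT, pow_succ]; omega
    obtain ⟨c1, τ1, hV1, hc1, ho1, hl1⟩ := split hst G hD1 hm1 hD hV hm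
      (T := T) (T' := R \ T) Finset.disjoint_sdiff (by rw [hT, hT']) hb hL0 (by
        intro v
        have := load_split G τ hTR v
        have h2 : (load G τ T v : ℝ) + load G τ (R \ T) v = load G τ R v := by exact_mod_cast this
        rw [h2]
        exact hload v) hL
    set b' := b / 2 + √(b * L) with hb'
    have hb'0 : 0 < b' := by
      have := Real.sqrt_nonneg (b * L)
      linarith
    have hm' : ∀ v, (τ1 v).card ≤ m := fun v => by rw [hc1 v]; exact hm v
    obtain ⟨c2, τ2, hV2, hc2, ho2, hl2⟩ := ih T hT b' hb'0 c1 τ1 hV1 hm' (fun v => (hl1 v).1)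
    have hm2 : ∀ v, (τ2 v).card ≤ m := fun v => by rw [hc2 v]; exact hm' v
    have hl2' : ∀ v, (load G τ2 (R \ T) v : ℝ) ≤ b' := by
      intro v
      rw [load_congr G (τ := τ1) (τ' := τ2) (fun v a ha =>
        ho2 v a (Finset.mem_sdiff.mp ha).2) v]
      exact (hl1 v).2
    obtain ⟨c3, τ3, hV3, hc3, ho3, hl3⟩ := ih (R \ T) hT' b' hb'0 c2 τ2 hV2 hm2 hl2'
    refine ⟨c3, τ3, hV3, fun v => ((hc3 v).trans (hc2 v)).trans (hc1 v), ?_, ?_⟩
    · intro v a ha
      have h1 : a ∉ T := fun h => ha (hTR h)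
      have h2 : a ∉ R \ T := fun h => ha (Finset.mem_sdiff.mp h).1
      rw [ho3 v a h2, ho2 v a h1, ho1 v a h1 h2]
    · intro a ha v
      show _ ≤ gr L r b'
      by_cases haT : a ∈ T
      · rw [load_congr G (τ := τ2) (τ' := τ3) (fun v a' ha' => ho3 v a' (by
          rw [Finset.mem_singleton] at ha'
          subst ha'
          exact fun h => (Finset.mem_sdiff.mp h).2 haT)) v]
        exact hl2 a haT v
      · exact hl3 a (Finset.mem_sdiff.mpr ⟨ha, haT⟩) v

theorem cover [Fintype V] [Fintype E] [Fintype K] {s t : E → V} (hst : ∀ e, s e ≠ t e)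
    (G : SimpleGraph V) {D m : ℕ} (hD1 : 1 ≤ D) (hm1 : 1 ≤ m) (hD : ∀ v, (Nb G v).card ≤ D)
    {L : ℝ} (hL0 : 0 ≤ L) (hL : 16 * (m : ℝ) * D ^ 2 ≤ Real.exp L) {r : ℕ}
    (hr : 2 ^ r ≤ Fintype.card K) :
    ∀ (n : ℕ) (c : E → K) (τ : V → Finset K), Valid s t c τ → (∀ v, (τ v).card ≤ m) →
      (univ.filter fun a : K => ∃ v, gr L r (m * D) < load G τ {a} v).card = n →
      ∃ (c' : E → K) (τ' : V → Finset K), Valid s t c' τ' ∧ (∀ v, (τ' v).card = (τ v).card) ∧
        ∀ a, ∀ v, (load G τ' {a} v : ℝ) ≤ gr L r (m * D) := by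
  intro n
  induction n using Nat.strong_induction_on with
  | _ n ih =>
    intro c τ hV hm hn
    by_cases hemp : (univ.filter fun a : K => ∃ v, gr L r (m * D) < load G τ {a} v) = ∅
    · refine ⟨c, τ, hV, fun _ => rfl, ?_⟩
      intro a v
      by_contra hcon
      push Not at hcon
      have : a ∈ (univ.filter fun a : K => ∃ v, gr L r (m * D) < load G τ {a} v) := by
        rw [Finset.mem_filter]
        exact ⟨Finset.mem_univ _, v, hcon⟩
      rw [hemp] at this
      exact Finset.notMem_empty _ this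
    · obtain ⟨a, ha⟩ := Finset.nonempty_iff_ne_empty.mpr hemp
      obtain ⟨R, haR, -, hR⟩ := Finset.exists_subsuperset_card_eq
        (s := {a}) (t := (univ : Finset K)) (n := 2 ^ r) (Finset.subset_univ _)
        (by rw [Finset.card_singleton]; exact Nat.one_le_two_pow) (by rw [Finset.card_univ]; exact hr)
      have hb0 : (0 : ℝ) < (m : ℝ) * D := by
        have h1 : (0 : ℝ) < m := by exact_mod_cast hm1
        have h2 : (0 : ℝ) < D := by exact_mod_cast hD1
        positivity
      obtain ⟨c1, τ1, hV1, hc1, ho1, hl1⟩ := row hst G hD1 hm1 hD hL0 hL r R hR (m * D) hb0 c τ hV hm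
        (by
          intro v
          exact_mod_cast load_le G hD hm R v)
      have hsub : (univ.filter fun a : K => ∃ v, gr L r (m * D) < load G τ1 {a} v) ⊂
          (univ.filter fun a : K => ∃ v, gr L r (m * D) < load G τ {a} v) := by
        rw [Finset.ssubset_iff_of_subset]
        · refine ⟨a, ha, ?_⟩
          intro ha'
          rw [Finset.mem_filter] at ha'
          obtain ⟨-, v, hv⟩ := ha'
          exact absurd (hl1 a (haR (Finset.mem_singleton_self a)) v) (not_le.mpr hv)
        · intro a' ha'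
          rw [Finset.mem_filter] at ha' ⊢
          obtain ⟨-, v, hv⟩ := ha'
          refine ⟨Finset.mem_univ _, v, ?_⟩
          have haR' : a' ∉ R := by
            intro h
            exact absurd (hl1 a' h v) (not_le.mpr hv)
          rw [load_congr G (τ := τ) (τ' := τ1) (fun v x hx => ho1 v x (by
            rw [Finset.mem_singleton] at hx
            subst hx
            exact haR')) v] at hv
          exact hv
      have hlt := Finset.card_lt_card hsub
      rw [hn] at hlt
      obtain ⟨c2, τ2, hV2, hc2, hl2⟩ := ih _ hlt c1 τ1 hV1 (fun v => by rw [hc1 v]; exact hm v) rfl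
      exact ⟨c2, τ2, hV2, fun v => (hc2 v).trans (hc1 v), hl2⟩

/-- the accumulated error -/
noncomputable def Aer (r : ℕ) : ℝ := ∑ i ∈ Finset.range r, (1 / √2) ^ (i + 1)

theorem Aer_nonneg (r : ℕ) : 0 ≤ Aer r := Finset.sum_nonneg fun _ _ => by positivity

theorem Aer_le (r : ℕ) : Aer r ≤ 1 + √2 := by
  have hs : (0 : ℝ) < √2 := by positivity
  have hs2 : √2 ^ 2 = 2 := Real.sq_sqrt (by norm_num)
  have hs1 : 1 < √2 := by
    rw [show (1 : ℝ) = √1 by simp]
    exact Real.sqrt_lt_sqrt (by norm_num) (by norm_num)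
  have h : ∀ r, Aer r = (1 + √2) * (1 - (1 / √2) ^ r) := by
    intro r
    induction r with
    | zero => simp [Aer]
    | succ r ih =>
      have : Aer (r + 1) = Aer r + (1 / √2) ^ (r + 1) := by
        unfold Aer
        rw [Finset.sum_range_succ]
      rw [this, ih, pow_succ]
      have h3 : (1 + √2) * (1 / √2) = 1 + 1 / √2 := by field_simp; ring
      have h6 : 1 / √2 * 2 = √2 := by
        field_simp
        linarith
      linear_combination (1 / √2) ^ r * h3 + (1 / √2) ^ r * h6
  rw [h r]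
  have h1 : (0 : ℝ) ≤ (1 / √2) ^ r := by positivity
  nlinarith

theorem gr_le {L : ℝ} (hL : 0 ≤ L) : ∀ (r : ℕ) (b : ℝ), 0 ≤ b →
    gr L r b ≤ (√b * (1 / √2) ^ r + √L * Aer r) ^ 2 := by
  intro r
  induction r with
  | zero =>
    intro b hb
    simp only [gr, Aer, Finset.range_zero, Finset.sum_empty, mul_zero, add_zero, pow_zero, mul_one]
    rw [Real.sq_sqrt hb]
  | succ r ih =>
    intro b hb
    have hs : (0 : ℝ) < √2 := by positivity
    have hs2 : √2 ^ 2 = 2 := Real.sq_sqrt (by norm_num)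
    set b' := b / 2 + √(b * L) with hb'
    have hb'0 : 0 ≤ b' := by
      have := Real.sqrt_nonneg (b * L)
      linarith
    have h1 : √b' ≤ (√b + √L) * (1 / √2) := by
      rw [Real.sqrt_le_left (by positivity)]
      rw [mul_pow, div_pow, one_pow, hs2, add_sq, Real.sq_sqrt hb, Real.sq_sqrt hL, hb',
        Real.sqrt_mul hb]
      nlinarith
    show gr L r b' ≤ _
    refine (ih b' hb'0).trans ?_
    have h2 : Aer (r + 1) = Aer r + (1 / √2) ^ (r + 1) := by
      unfold Aer
      rw [Finset.sum_range_succ]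
    apply pow_le_pow_left₀
    · have := Aer_nonneg r
      positivity
    · rw [h2, pow_succ]
      have h3 : (0 : ℝ) ≤ (1 / √2) ^ r := by positivity
      have h4 := mul_le_mul_of_nonneg_right h1 h3
      calc √b' * (1 / √2) ^ r + √L * Aer r
          ≤ (√b + √L) * (1 / √2) * (1 / √2) ^ r + √L * Aer r := by linarith
        _ = _ := by ring

end TC19
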