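import Pool.Agent.Lib_helper19.TC.Row

set_option autoImplicit false

/-!
# Equalising the loads over the colours of a block, for the vertices with tokens in the block
-/

namespace TC19

open Finset Classical

variable {V E K : Type*}

namespace Ctx

variable (X : Ctx V E K)

/-- `v` has a token in one of the two sides -/
def tok (v : V) : Prop := ∃ a ∈ X.τ v, a ∈ X.T ∨ a ∈ X.T'

theorem act_tok {a : X.T} {w : V} (h : X.act a w) : X.tok w := by
  simp only [act] at h
  by_cases h1 : a.1 ∈ X.τ w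
  · exact ⟨_, h1, Or.inl a.2⟩
  · by_cases h2 : X.σ a.1 ∈ X.τ w
    · exact ⟨_, h2, Or.inr (X.hσ1 _ a.2)⟩
    · exact absurd (iff_of_false h1 h2) h

theorem card_act_le (w : V) : (univ.filter fun a : X.T => X.act a w).card ≤
    ((X.τ w).filter fun a => a ∈ X.T).card + ((X.τ w).filter fun a => a ∈ X.T').card := by
  have h1 : (univ.filter fun a : X.T => X.act a w).card ≤
      (((X.τ w).filter fun a => a ∈ X.T) ∪ ((X.τ w).filter fun a => a ∈ X.T')).card := by
    apply Finset.card_le_card_of_injOn (fun a : X.T => if a.1 ∈ X.τ w then a.1 else X.σ a.1)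
    · intro a ha
      have ha' : X.act a w := (Finset.mem_filter.mp (Finset.mem_coe.mp ha)).2
      simp only [act] at ha'
      simp only [coe_union, coe_filter, Set.mem_union, Set.mem_ofPred_eq]
      by_cases h1 : a.1 ∈ X.τ w
      · rw [if_pos h1]
        exact Or.inl ⟨h1, a.2⟩
      · rw [if_neg h1]
        refine Or.inr ⟨?_, X.hσ1 _ a.2⟩
        by_contra h2
        exact ha' (iff_of_false h1 h2)
    · intro a _ a' _ haa
      simp only at haa
      apply Subtype.ext
      split_ifs at haa with h1 h2 h2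
      · exact haa
      · exact absurd (haa ▸ X.hσ1 a'.1 a'.2) (X.hd1 a.2)
      · exact absurd (haa ▸ X.hσ1 a.1 a.2) (X.hd1 a'.2)
      · rw [← X.hσσ a.1, ← X.hσσ a'.1, haa]
  exact h1.trans (Finset.card_union_le _ _)

variable [Fintype V] (G : SimpleGraph V)

theorem card_tok_le (w : V) : ((Nb G w).filter fun v => X.tok v).card ≤
    load G X.τ X.T w + load G X.τ X.T' w := by
  unfold load
  rw [← Finset.sum_add_distrib, Finset.card_filter]
  apply Finset.sum_le_sum
  intro v _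
  split_ifs with h
  · obtain ⟨a, ha, h1 | h1⟩ := h
    · have : 0 < ((X.τ v).filter fun a => a ∈ X.T).card :=
        Finset.card_pos.mpr ⟨a, Finset.mem_filter.mpr ⟨ha, h1⟩⟩
      omega
    · have : 0 < ((X.τ v).filter fun a => a ∈ X.T').card :=
        Finset.card_pos.mpr ⟨a, Finset.mem_filter.mpr ⟨ha, h1⟩⟩
      omega
  · exact Nat.zero_le _

theorem dep_card2 [Fintype E] {b : ℝ} (hb0 : 0 ≤ b)
    (hb : ∀ v, X.tok v → (load G X.τ X.T v : ℝ) + load G X.τ X.T' v ≤ b)
    (v : V) (hv : X.tok v) :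
    ((univ.filter fun v' => X.tok v' ∧ ¬ Disjoint (X.vbl G v) (X.vbl G v')).card : ℝ) ≤ 2 * b ^ 2 := by
  have hsub : (univ.filter fun v' => X.tok v' ∧ ¬ Disjoint (X.vbl G v) (X.vbl G v')) ⊆
      (Nb G v).biUnion fun w => (univ.filter fun a : X.T => X.act a w).biUnion fun a =>
        (univ.filter fun w' => X.cp a w' = X.cp a w ∧ X.act a w').biUnion fun w' =>
          (Nb G w').filter fun v' => X.tok v' := by
    intro v' hv'
    rw [Finset.mem_filter, Finset.not_disjoint_iff] at hv'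
    obtain ⟨-, htok, ⟨a, C⟩, hi1, hi2⟩ := hv'
    simp only [vbl, mem_filter, mem_univ, true_and] at hi1 hi2
    obtain ⟨w, hvw, hwC, hwa⟩ := hi1
    obtain ⟨w', hvw', hwC', hwa'⟩ := hi2
    simp only [mem_biUnion, mem_filter, mem_univ, true_and, Nb]
    exact ⟨w, hvw, a, hwa, w', ⟨hwC'.trans hwC.symm, hwa'⟩, hvw'.symm, htok⟩
  have hinner : ∀ (w : V) (a : X.T),
      (((univ.filter fun w' => X.cp a w' = X.cp a w ∧ X.act a w').biUnion fun w' =>
          (Nb G w').filter fun v' => X.tok v').card : ℝ) ≤ 2 * b := by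
    intro w a
    have h1 : ((univ.filter fun w' => X.cp a w' = X.cp a w ∧ X.act a w').biUnion fun w' =>
          (Nb G w').filter fun v' => X.tok v').card ≤
        ∑ w' ∈ univ.filter (fun w' => X.cp a w' = X.cp a w ∧ X.act a w'),
          ((Nb G w').filter fun v' => X.tok v').card := Finset.card_biUnion_le
    have h2 : (((univ.filter fun w' => X.cp a w' = X.cp a w ∧ X.act a w').biUnion fun w' =>
          (Nb G w').filter fun v' => X.tok v').card : ℝ) ≤
        ∑ w' ∈ univ.filter (fun w' => X.cp a w' = X.cp a w ∧ X.act a w'),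
          (((Nb G w').filter fun v' => X.tok v').card : ℝ) := by exact_mod_cast h1
    refine h2.trans ?_
    have h3 : ∑ w' ∈ univ.filter (fun w' => X.cp a w' = X.cp a w ∧ X.act a w'),
          (((Nb G w').filter fun v' => X.tok v').card : ℝ) ≤
        (univ.filter (fun w' => X.cp a w' = X.cp a w ∧ X.act a w')).card • b := by
      apply Finset.sum_le_card_nsmul
      intro w' hw'
      rw [Finset.mem_filter] at hw'
      refine le_trans ?_ (hb w' (X.act_tok hw'.2.2))
      exact_mod_cast X.card_tok_le G w'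
    refine h3.trans ?_
    rw [nsmul_eq_mul]
    apply mul_le_mul_of_nonneg_right _ hb0
    have h4 : (univ.filter (fun w' => X.cp a w' = X.cp a w ∧ X.act a w')).card ≤ 2 := by
      refine le_trans (Finset.card_le_card ?_) (X.comp2 a (X.cp a w))
      intro w' hw'
      simp only [mem_filter, mem_univ, true_and] at hw' ⊢
      exact ⟨hw'.1, X.act_miss _ _ hw'.2⟩
    exact_mod_cast h4
  have h5 : ((univ.filter fun v' => X.tok v' ∧ ¬ Disjoint (X.vbl G v) (X.vbl G v')).card : ℝ) ≤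
      ∑ w ∈ Nb G v, ∑ a ∈ univ.filter (fun a : X.T => X.act a w),
        (((univ.filter fun w' => X.cp a w' = X.cp a w ∧ X.act a w').biUnion fun w' =>
          (Nb G w').filter fun v' => X.tok v').card : ℝ) := by
    have h6 := (Finset.card_le_card hsub).trans Finset.card_biUnion_le
    have h7 : ((univ.filter fun v' => X.tok v' ∧ ¬ Disjoint (X.vbl G v) (X.vbl G v')).card : ℝ) ≤
        ∑ w ∈ Nb G v, (((univ.filter fun a : X.T => X.act a w).biUnion fun a =>
        (univ.filter fun w' => X.cp a w' = X.cp a w ∧ X.act a w').biUnion fun w' =>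
          (Nb G w').filter fun v' => X.tok v').card : ℝ) := by exact_mod_cast h6
    refine h7.trans (Finset.sum_le_sum fun w _ => ?_)
    exact_mod_cast Finset.card_biUnion_le
  refine h5.trans ?_
  calc ∑ w ∈ Nb G v, ∑ a ∈ univ.filter (fun a : X.T => X.act a w),
        (((univ.filter fun w' => X.cp a w' = X.cp a w ∧ X.act a w').biUnion fun w' =>
          (Nb G w').filter fun v' => X.tok v').card : ℝ)
      ≤ ∑ w ∈ Nb G v, ∑ a ∈ univ.filter (fun a : X.T => X.act a w), 2 * b :=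
        Finset.sum_le_sum fun w _ => Finset.sum_le_sum fun a _ => hinner w a
    _ = (∑ w ∈ Nb G v, ((univ.filter (fun a : X.T => X.act a w)).card : ℝ)) * (2 * b) := by
        rw [Finset.sum_mul]
        apply Finset.sum_congr rfl
        intro w _
        rw [Finset.sum_const, nsmul_eq_mul]
    _ ≤ b * (2 * b) := by
        apply mul_le_mul_of_nonneg_right _ (by positivity)
        refine le_trans ?_ (hb v hv)
        have h8 : ∑ w ∈ Nb G v, (univ.filter (fun a : X.T => X.act a w)).card ≤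
            load G X.τ X.T v + load G X.τ X.T' v := by
          unfold load
          rw [← Finset.sum_add_distrib]
          exact Finset.sum_le_sum fun w _ => X.card_act_le w
        exact_mod_cast h8
    _ = 2 * b ^ 2 := by ring

end Ctx

theorem split2 [Fintype V] [Fintype E] {s t : E → V} (hst : ∀ e, s e ≠ t e) (G : SimpleGraph V)
    {c : E → K} {τ : V → Finset K} (hV : Valid s t c τ) {T T' : Finset K}
    (hdisj : Disjoint T T') (hcard : T.card = T'.card) {b L : ℝ} (hb : 1 ≤ b) (hL0 : 0 ≤ L)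
    (hload : ∀ v, (∃ a ∈ τ v, a ∈ T ∨ a ∈ T') → (load G τ T v : ℝ) + load G τ T' v ≤ b)
    (hL : 16 * b ^ 2 ≤ Real.exp L) :
    ∃ (c' : E → K) (τ' : V → Finset K), Valid s t c' τ' ∧ (∀ v, (τ' v).card = (τ v).card) ∧
      (∀ v a, a ∉ T → a ∉ T' → (a ∈ τ' v ↔ a ∈ τ v)) ∧
      (∀ v, (∃ a ∈ τ' v, a ∈ T ∨ a ∈ T') → ∃ a ∈ τ v, a ∈ T ∨ a ∈ T') ∧
      ∀ v, (∃ a ∈ τ v, a ∈ T ∨ a ∈ T') →
        (load G τ' T v : ℝ) ≤ b / 2 + √(b * L) ∧ (load G τ' T' v : ℝ) ≤ b / 2 + √(b * L) := by
  obtain ⟨hp, hτ⟩ := hV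
  obtain ⟨σ, hσσ, hσ1, hσ2, hσ3⟩ := exists_invol hdisj hcard
  have hex : ∃ X : Ctx V E K, X.s = s ∧ X.t = t ∧ X.c = c ∧ X.T = T ∧ X.T' = T' ∧ X.τ = τ :=
    ⟨⟨s, t, c, T, T', σ, τ, hst, hp, hτ, hσσ, hσ1, hσ2, hσ3, hdisj⟩, rfl, rfl, rfl, rfl, rfl, rfl⟩
  obtain ⟨X, rfl, rfl, rfl, rfl, rfl, rfl⟩ := hex
  have hb0 : 0 < b := by linarith
  let JT := {v : V // X.tok v}
  have : Fintype JT := Fintype.ofFinite _
  obtain ⟨ω, hω⟩ := lll (Ω := Bool) (J := JT) (fun v => X.bad G (b / 2 + √(b * L)) v.1)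
    (fun v => X.vbl G v.1)
    (fun v ω ω' h => X.bad_dep G _ v.1 ω ω' h)
    (2 * b ^ 2) (by nlinarith) (fun v => by
      refine le_trans ?_ (X.dep_card2 G hb0.le hload v.1 v.2)
      have : (univ.filter fun j' : JT => ¬ Disjoint (X.vbl G v.1) (X.vbl G j'.1)).card ≤
          (univ.filter fun v' => X.tok v' ∧ ¬ Disjoint (X.vbl G v.1) (X.vbl G v')).card := by
        apply Finset.card_le_card_of_injOn (fun j : JT => j.1)
        · intro j hj
          simp only [coe_filter, mem_univ, true_and, Set.mem_ofPred_eq] at hj ⊢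
          exact ⟨j.2, hj⟩
        · intro j _ j' _ h
          exact Subtype.ext h
      exact_mod_cast this)
    (2 * Real.exp (-L)) (by positivity) (fun v => X.bad_card G v.1 hb0 hL0 (hload v.1 v.2)) (by
      rw [Real.exp_neg]
      have h1 : 0 < Real.exp L := Real.exp_pos L
      have h2 : 4 * (2 * (Real.exp L)⁻¹) * (2 * b ^ 2) = (16 * b ^ 2) / Real.exp L := by
        field_simp
        ring
      rw [h2, div_le_one h1]
      exact hL)
  refine ⟨X.c' ω, X.τ' ω, X.valid ω, X.card_τ' ω, fun v a h1 h2 => X.τ'_out ω v h1 h2, ?_, ?_⟩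
  · rintro v ⟨a, ha, haT⟩
    rw [X.mem_τ'] at ha
    refine ⟨_, ha, ?_⟩
    unfold Ctx.pf
    split_ifs
    · rcases haT with h | h
      · exact Or.inr (X.hσ1 _ h)
      · exact Or.inl (X.hσ2 _ h)
    · exact haT
  · intro v hv
    have := hω ⟨v, hv⟩
    simp only [Ctx.bad, mem_filter, mem_univ, true_and] at this
    push Not at this
    exact this

/-- `2^(-1/4)` -/
noncomputable def gam : ℝ := √√(1 / 2)

theorem gam_pow : gam ^ 4 = 1 / 2 := by
  have h : gam ^ 4 = (gam ^ 2) ^ 2 := by ring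
  rw [h, gam, Real.sq_sqrt (Real.sqrt_nonneg _), Real.sq_sqrt (by norm_num)]

theorem gam_nonneg : 0 ≤ gam := Real.sqrt_nonneg _

theorem gam_ge : 0.8 ≤ gam := by
  by_contra h
  push Not at h
  have h1 := pow_lt_pow_left₀ h gam_nonneg (n := 4) (by norm_num)
  rw [gam_pow] at h1
  norm_num at h1

theorem gam_le : gam ≤ 0.841 := by
  by_contra h
  push Not at h
  have h1 := pow_lt_pow_left₀ h (by norm_num) (n := 4) (by norm_num)
  rw [gam_pow] at h1
  norm_num at h1

/-- the bound after `r` halvings -/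
noncomputable def zr : ℕ → ℝ → ℝ
  | 0, z => z
  | r + 1, z => zr r (gam * (z + 3 / 2))

theorem zr_le (r : ℕ) : ∀ z : ℝ, zr r z ≤ gam ^ r * z + 8 := by
  have h1 := gam_ge
  have h2 := gam_le
  set e : ℝ := (3 / 2) * gam / (1 - gam) with he
  have h3 : 0 < 1 - gam := by linarith
  have he1 : e * (1 - gam) = (3 / 2) * gam := by
    rw [he]; field_simp
  have he8 : e ≤ 8 := by
    rw [he, div_le_iff₀ h3]
    linarith
  have he0 : 0 ≤ e := by
    rw [he]
    apply div_nonneg _ h3.le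
    linarith
  have key : ∀ r : ℕ, ∀ z : ℝ, zr r z = gam ^ r * z + (1 - gam ^ r) * e := by
    intro r
    induction r with
    | zero => intro z; simp [zr]
    | succ r ih =>
      intro z
      show zr r (gam * (z + 3 / 2)) = _
      rw [ih, pow_succ]
      linear_combination (-gam ^ r) * he1
  intro z
  rw [key r z]
  have h4 : 0 ≤ gam ^ r := pow_nonneg gam_nonneg r
  nlinarith

theorem row2 [Fintype V] [Fintype E] {s t : E → V} (hst : ∀ e, s e ≠ t e) (G : SimpleGraph V) :
    ∀ (r : ℕ) (R : Finset K), R.card = 2 ^ r → ∀ (z : ℝ), 1 ≤ z →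
      ∀ (c : E → K) (τ : V → Finset K), Valid s t c τ →
      (∀ v, (∃ a ∈ τ v, a ∈ R) → (load G τ R v : ℝ) ≤ z ^ 4) →
      ∃ (c' : E → K) (τ' : V → Finset K), Valid s t c' τ' ∧ (∀ v, (τ' v).card = (τ v).card) ∧
        (∀ v a, a ∉ R → (a ∈ τ' v ↔ a ∈ τ v)) ∧
        ∀ a ∈ R, ∀ v, a ∈ τ' v → (load G τ' {a} v : ℝ) ≤ (zr r z) ^ 4 := by
  intro r
  induction r with
  | zero =>
    intro R hR z hz c τ hV hload
    obtain ⟨a, rfl⟩ := Finset.card_eq_one.mp (by simpa using hR)
    refine ⟨c, τ, hV, fun _ => rfl, fun _ _ _ => Iff.rfl, ?_⟩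
    intro a' ha' v hav
    rw [Finset.mem_singleton] at ha'
    subst ha'
    exact hload v ⟨_, hav, Finset.mem_singleton_self _⟩
  | succ r ih =>
    intro R hR z hz c τ hV hload
    obtain ⟨T, hTR, hT⟩ := Finset.exists_subset_card_eq (s := R) (n := 2 ^ r) (by
      rw [hR, pow_succ]; omega)
    have hT' : (R \ T).card = 2 ^ r := by
      rw [Finset.card_sdiff_of_subset hTR, hR, hT, pow_succ]; omega
    have hmemR : ∀ a, (a ∈ T ∨ a ∈ R \ T) ↔ a ∈ R := by
      intro a
      rw [Finset.mem_sdiff]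
      constructor
      · rintro (h | h)
        · exact hTR h
        · exact h.1
      · intro h
        by_cases h1 : a ∈ T
        · exact Or.inl h1
        · exact Or.inr ⟨h, h1⟩
    have hz0 : 0 ≤ z := by linarith
    have hb1 : (1 : ℝ) ≤ z ^ 4 := one_le_pow₀ hz
    obtain ⟨c1, τ1, hV1, hc1, ho1, htok1, hl1⟩ := split2 hst G hV
      (T := T) (T' := R \ T) Finset.disjoint_sdiff (by rw [hT, hT']) (b := z ^ 4) (L := 8 * z ^ 2) hb1
      (by positivity) (by
        rintro v ⟨a, ha, haR⟩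
        have := load_split G τ hTR v
        have h2 : (load G τ T v : ℝ) + load G τ (R \ T) v = load G τ R v := by exact_mod_cast this
        rw [h2]
        exact hload v ⟨a, ha, (hmemR a).mp haR⟩) (by
        have h3 := Real.pow_div_factorial_le_exp (8 * z ^ 2) (by positivity) 4
        have h4 : ((Nat.factorial 4 : ℕ) : ℝ) = 24 := by norm_num [Nat.factorial]
        rw [h4] at h3
        refine le_trans ?_ h3
        rw [le_div_iff₀ (by norm_num)]
        nlinarith [pow_nonneg hz0 8])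
    set z' := gam * (z + 3 / 2) with hz'
    have hz'1 : 1 ≤ z' := by
      have := gam_ge
      rw [hz']
      nlinarith
    have hbound : z ^ 4 / 2 + √(z ^ 4 * (8 * z ^ 2)) ≤ z' ^ 4 := by
      have h5 : √(z ^ 4 * (8 * z ^ 2)) ≤ 3 * z ^ 3 := by
        rw [Real.sqrt_le_left (by positivity)]
        nlinarith [pow_nonneg hz0 6]
      rw [hz', mul_pow, gam_pow]
      nlinarith [pow_nonneg hz0 2, pow_nonneg hz0 3]
    have hl1' : ∀ v, (∃ a ∈ τ1 v, a ∈ R) →
        (load G τ1 T v : ℝ) ≤ z' ^ 4 ∧ (load G τ1 (R \ T) v : ℝ) ≤ z' ^ 4 := by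
      rintro v ⟨a, ha, haR⟩
      obtain ⟨a', ha', haR'⟩ := htok1 v ⟨a, ha, (hmemR a).mpr haR⟩
      have := hl1 v ⟨a', ha', haR'⟩
      exact ⟨this.1.trans hbound, this.2.trans hbound⟩
    obtain ⟨c2, τ2, hV2, hc2, ho2, hl2⟩ := ih T hT z' hz'1 c1 τ1 hV1 (by
      rintro v ⟨a, ha, haT⟩
      exact (hl1' v ⟨a, ha, hTR haT⟩).1)
    have hl2' : ∀ v, (∃ a ∈ τ2 v, a ∈ R \ T) → (load G τ2 (R \ T) v : ℝ) ≤ z' ^ 4 := by
      rintro v ⟨a, ha, haT⟩
      rw [load_congr G (τ := τ1) (τ' := τ2) (fun v a ha =>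
        ho2 v a (Finset.mem_sdiff.mp ha).2) v]
      refine (hl1' v ⟨a, ?_, (Finset.mem_sdiff.mp haT).1⟩).2
      exact (ho2 v a (Finset.mem_sdiff.mp haT).2).mp ha
    obtain ⟨c3, τ3, hV3, hc3, ho3, hl3⟩ := ih (R \ T) hT' z' hz'1 c2 τ2 hV2 hl2'
    refine ⟨c3, τ3, hV3, fun v => ((hc3 v).trans (hc2 v)).trans (hc1 v), ?_, ?_⟩
    · intro v a ha
      have h1 : a ∉ T := fun h => ha (hTR h)
      have h2 : a ∉ R \ T := fun h => ha (Finset.mem_sdiff.mp h).1
      rw [ho3 v a h2, ho2 v a h1, ho1 v a h1 h2]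
    · intro a ha v hav
      show _ ≤ (zr r z') ^ 4
      by_cases haT : a ∈ T
      · have hnot : a ∉ R \ T := fun h => (Finset.mem_sdiff.mp h).2 haT
        rw [load_congr G (τ := τ2) (τ' := τ3) (fun v a' ha' => ho3 v a' (by
          rw [Finset.mem_singleton] at ha'
          subst ha'
          exact hnot)) v]
        exact hl2 a haT v ((ho3 v a hnot).mp hav)
      · exact hl3 a (Finset.mem_sdiff.mpr ⟨ha, haT⟩) v hav

end TC19
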