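import Pool.Agent.Lib_helper19.TC.Row

set_option autoImplicit false

/-!
# Selecting one token per vertex
-/

namespace TC19

open Finset Classical

variable {V E K : Type*}

theorem select [Fintype V] [Nonempty K] (G : SimpleGraph V) {m : ℕ} (hm2 : 2 ≤ m)
    (τ : V → Finset K) (hτ : ∀ u v, G.Adj u v → (τ u).card = m)
    (hload : ∀ a, ∀ v, (load G τ {a} v : ℝ) ≤ m / 8) :
    ∃ f : V → K, (∀ v, (τ v).card = m → f v ∈ τ v) ∧ ∀ u v, G.Adj u v → f u ≠ f v := by
  have : Nonempty (Fin m) := ⟨⟨0, by omega⟩⟩
  let k0 : K := Classical.arbitrary K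
  let en : V → Fin m → K := fun v i =>
    if h : (τ v).card = m then ((τ v).equivFinOfCardEq h).symm i else k0
  have hen : ∀ v (h : (τ v).card = m) i, en v i = ((τ v).equivFinOfCardEq h).symm i := by
    intro v h i
    simp only [en, dif_pos h]
  let num := Fintype.equivFin V
  let J := {p : V × V × K // num p.1 < num p.2.1 ∧ G.Adj p.1 p.2.1 ∧ p.2.2 ∈ τ p.1 ∧ p.2.2 ∈ τ p.2.1}
  have : Finite J := by
    have hfin : (Set.univ : Set V).Finite := Set.finite_univ
    let S : Finset K := univ.biUnion τ
    let φ : J → V × V × S := fun p => (p.1.1, p.1.2.1, ⟨p.1.2.2, by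
      simp only [S, mem_biUnion, mem_univ, true_and]
      exact ⟨_, p.2.2.2.1⟩⟩)
    apply Finite.of_injective φ
    rintro ⟨⟨u, v, a⟩, hp⟩ ⟨⟨u', v', a'⟩, hp'⟩ h
    simp only [φ, Prod.mk.injEq, Subtype.mk.injEq] at h
    obtain ⟨rfl, rfl, rfl⟩ := h
    rfl
  letI : Fintype J := Fintype.ofFinite J
  let bad : J → Finset (V → Fin m) := fun p =>
    univ.filter fun x => en p.1.1 (x p.1.1) = p.1.2.2 ∧ en p.1.2.1 (x p.1.2.1) = p.1.2.2
  let vbl : J → Finset V := fun p => {p.1.1, p.1.2.1}
  have hmR : (2 : ℝ) ≤ m := by exact_mod_cast hm2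
  -- number of the index triples at `z`
  have hSz : ∀ z : V, ((univ.filter fun p : J => p.1.1 = z ∨ p.1.2.1 = z).card : ℝ) ≤ m * (m / 8) := by
    intro z
    by_cases hz : (univ.filter fun p : J => p.1.1 = z ∨ p.1.2.1 = z) = ∅
    · rw [hz]
      simp only [Finset.card_empty, Nat.cast_zero]
      positivity
    obtain ⟨p0, hp0⟩ := Finset.nonempty_iff_ne_empty.mpr hz
    have hzm : (τ z).card = m := by
      rw [Finset.mem_filter] at hp0
      rcases hp0.2 with h | h
      · rw [← h]; exact hτ _ _ p0.2.2.1
      · rw [← h]; exact hτ _ _ p0.2.2.1.symm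
    have h1 : (univ.filter fun p : J => p.1.1 = z ∨ p.1.2.1 = z).card ≤
        ((τ z).biUnion fun a => ((Nb G z).filter fun w => a ∈ τ w).image fun w => (w, a)).card := by
      apply Finset.card_le_card_of_injOn
        (fun p : J => ((if p.1.1 = z then p.1.2.1 else p.1.1), p.1.2.2))
      · intro p hp
        simp only [coe_filter, mem_univ, true_and, Set.mem_ofPred_eq] at hp
        obtain ⟨hlt, hadj, ha1, ha2⟩ := p.2
        simp only [mem_coe, mem_biUnion, mem_image, mem_filter, Nb, mem_univ, true_and, Prod.mk.injEq]
        by_cases hz1 : p.1.1 = z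
        · refine ⟨p.1.2.2, by rw [← hz1]; exact ha1, p.1.2.1, ⟨by rw [← hz1]; exact hadj, ha2⟩, ?_, rfl⟩
          rw [if_pos hz1]
        · have hz2 : p.1.2.1 = z := by
            rcases hp with h | h
            · exact absurd h hz1
            · exact h
          refine ⟨p.1.2.2, by rw [← hz2]; exact ha2, p.1.1, ⟨by rw [← hz2]; exact hadj.symm, ha1⟩, ?_, rfl⟩
          rw [if_neg hz1]
      · rintro ⟨⟨u, v, a⟩, hp⟩ hp1 ⟨⟨u', v', a'⟩, hp'⟩ hp1' h
        simp only [coe_filter, mem_univ, true_and, Set.mem_ofPred_eq] at hp1 hp1'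
        simp only [Prod.mk.injEq] at h
        obtain ⟨h2, rfl⟩ := h
        have hlt := hp.1
        have hlt' := hp'.1
        simp only at hlt hlt'
        have key : u = u' ∧ v = v' := by
          by_cases e1 : u = z
          · rw [if_pos e1] at h2
            by_cases e2 : u' = z
            · rw [if_pos e2] at h2
              exact ⟨e1.trans e2.symm, h2⟩
            · rw [if_neg e2] at h2
              have e3 : v' = z := by
                rcases hp1' with h | h
                · exact absurd h e2
                · exact h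
              exfalso
              subst h2
              rw [e1] at hlt
              rw [e3] at hlt'
              exact lt_asymm hlt hlt'
          · rw [if_neg e1] at h2
            have e3 : v = z := by
              rcases hp1 with h | h
              · exact absurd h e1
              · exact h
            by_cases e2 : u' = z
            · rw [if_pos e2] at h2
              exfalso
              subst h2
              rw [e3] at hlt
              rw [e2] at hlt'
              exact lt_asymm hlt hlt'
            · rw [if_neg e2] at h2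
              have e4 : v' = z := by
                rcases hp1' with h | h
                · exact absurd h e2
                · exact h
              exact ⟨h2, e3.trans e4.symm⟩
        obtain ⟨rfl, rfl⟩ := key
        rfl
    have h2 : ((τ z).biUnion fun a => ((Nb G z).filter fun w => a ∈ τ w).image fun w => (w, a)).card ≤
        ∑ a ∈ τ z, load G τ {a} z := by
      refine Finset.card_biUnion_le.trans (Finset.sum_le_sum fun a _ => ?_)
      refine Finset.card_image_le.trans ?_
      unfold load
      rw [Finset.card_filter]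
      apply Finset.sum_le_sum
      intro w _
      split_ifs with haw
      · exact Finset.card_pos.mpr ⟨a, Finset.mem_filter.mpr ⟨haw, Finset.mem_singleton_self a⟩⟩
      · exact Nat.zero_le _
    have h3 : ((univ.filter fun p : J => p.1.1 = z ∨ p.1.2.1 = z).card : ℝ) ≤
        ∑ a ∈ τ z, (load G τ {a} z : ℝ) := by exact_mod_cast h1.trans h2
    refine h3.trans ?_
    calc ∑ a ∈ τ z, (load G τ {a} z : ℝ) ≤ (τ z).card • ((m : ℝ) / 8) :=
          Finset.sum_le_card_nsmul _ _ _ fun a _ => hload a z
      _ = _ := by rw [hzm, nsmul_eq_mul]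
  by_cases hm4 : (m : ℝ) ^ 2 / 4 < 1
  · exfalso
    nlinarith
  push Not at hm4
  obtain ⟨x, hx⟩ := lll (Ω := Fin m) bad vbl (by
    intro p x y hxy
    have e1 : x p.1.1 = y p.1.1 := hxy _ (by simp [vbl])
    have e2 : x p.1.2.1 = y p.1.2.1 := hxy _ (by simp [vbl])
    simp only [bad, mem_filter, mem_univ, true_and, e1, e2])
    ((m : ℝ) ^ 2 / 4) hm4 (by
      intro p
      have hsub : (univ.filter fun p' : J => ¬ Disjoint (vbl p) (vbl p')) ⊆
          (univ.filter fun p' : J => p'.1.1 = p.1.1 ∨ p'.1.2.1 = p.1.1) ∪
          (univ.filter fun p' : J => p'.1.1 = p.1.2.1 ∨ p'.1.2.1 = p.1.2.1) := by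
        intro p' hp'
        rw [Finset.mem_filter, Finset.not_disjoint_iff] at hp'
        obtain ⟨-, z, hz1, hz2⟩ := hp'
        simp only [vbl, mem_insert, mem_singleton] at hz1 hz2
        simp only [mem_union, mem_filter, mem_univ, true_and]
        rcases hz1 with rfl | rfl
        · left
          rcases hz2 with h | h
          · exact Or.inl h.symm
          · exact Or.inr h.symm
        · right
          rcases hz2 with h | h
          · exact Or.inl h.symm
          · exact Or.inr h.symm
      have h1 := (Finset.card_le_card hsub).trans (Finset.card_union_le _ _)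
      have h1' : ((univ.filter fun p' : J => ¬ Disjoint (vbl p) (vbl p')).card : ℝ) ≤
          ((univ.filter fun p' : J => p'.1.1 = p.1.1 ∨ p'.1.2.1 = p.1.1).card : ℝ) +
          ((univ.filter fun p' : J => p'.1.1 = p.1.2.1 ∨ p'.1.2.1 = p.1.2.1).card : ℝ) := by
        exact_mod_cast h1
      have h2 := hSz p.1.1
      have h3 := hSz p.1.2.1
      refine h1'.trans ((add_le_add h2 h3).trans (le_of_eq ?_))
      ring)
    (1 / (m : ℝ) ^ 2) (by positivity) (by
      intro p
      obtain ⟨hlt, hadj, ha1, ha2⟩ := p.2
      have hc1 : (τ p.1.1).card = m := hτ _ _ hadj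
      have hc2 : (τ p.1.2.1).card = m := hτ _ _ hadj.symm
      have h1 := card_coord2 (ι := V) (Ω := Fin m) hadj.ne
        (((τ p.1.1).equivFinOfCardEq hc1) ⟨p.1.2.2, ha1⟩)
        (((τ p.1.2.1).equivFinOfCardEq hc2) ⟨p.1.2.2, ha2⟩)
      rw [Fintype.card_fin] at h1
      rw [← h1]
      exact_mod_cast Finset.card_le_card (by
        intro x hx
        simp only [bad, mem_filter, mem_univ, true_and] at hx ⊢
        rw [hen _ hc1, hen _ hc2] at hx
        constructor
        · rw [← Equiv.symm_apply_eq]
          exact Subtype.ext hx.1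
        · rw [← Equiv.symm_apply_eq]
          exact Subtype.ext hx.2))
    (by
      have : (0 : ℝ) < m := by linarith
      field_simp
      norm_num)
  refine ⟨fun v => en v (x v), ?_, ?_⟩
  · intro v hv
    simp only [hen v hv]
    exact (((τ v).equivFinOfCardEq hv).symm (x v)).2
  · intro u v huv h
    simp only at h
    have hcu : (τ u).card = m := hτ _ _ huv
    have hcv : (τ v).card = m := hτ _ _ huv.symm
    have hmu : en u (x u) ∈ τ u := by rw [hen u hcu]; exact (((τ u).equivFinOfCardEq hcu).symm (x u)).2
    have hmv : en v (x v) ∈ τ v := by rw [hen v hcv]; exact (((τ v).equivFinOfCardEq hcv).symm (x v)).2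
    rcases lt_trichotomy (num u) (num v) with hlt | heq | hlt
    · have := hx ⟨(u, v, en u (x u)), hlt, huv, hmu, by show en u (x u) ∈ τ v; rw [h]; exact hmv⟩
      apply this
      simp only [bad, mem_filter, mem_univ, true_and]
      exact h.symm
    · exact huv.ne (num.injective heq)
    · have := hx ⟨(v, u, en v (x v)), hlt, huv.symm, hmv, by show en v (x v) ∈ τ u; rw [← h]; exact hmu⟩
      apply this
      simp only [bad, mem_filter, mem_univ, true_and]
      exact h

end TC19
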