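import Pool.Agent.Lib_helper19.TC.Equal

set_option autoImplicit false

/-!
# Blocks of colours, spreading of the tokens, and equalising the loads in all blocks
-/

namespace TC19

open Finset Classical

variable {V E K : Type*}

theorem exists_blocks (N : ℕ) : ∀ (q : ℕ) (S : Finset K), S.card = q * N →
    ∃ Bs : List (Finset K), Bs.length = q ∧ Bs.Pairwise (fun B B' => Disjoint B B') ∧
      (∀ B ∈ Bs, B ⊆ S ∧ B.card = N) ∧ ∀ a ∈ S, ∃ B ∈ Bs, a ∈ B := by
  intro q
  induction q with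
  | zero =>
    intro S hS
    rw [zero_mul, Finset.card_eq_zero] at hS
    subst hS
    exact ⟨[], rfl, List.Pairwise.nil, fun B hB => absurd hB List.not_mem_nil,
      fun a ha => absurd ha (Finset.notMem_empty _)⟩
  | succ q ih =>
    intro S hS
    obtain ⟨B, hBS, hB⟩ := Finset.exists_subset_card_eq (s := S) (n := N) (by
      rw [hS]; exact Nat.le_mul_of_pos_left _ (by omega))
    obtain ⟨Bs, h1, h2, h3, h4⟩ := ih (S \ B) (by
      rw [Finset.card_sdiff_of_subset hBS, hS, hB]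
      have : (q + 1) * N = q * N + N := by ring
      omega)
    refine ⟨B :: Bs, by simp [h1], ?_, ?_, ?_⟩
    · rw [List.pairwise_cons]
      refine ⟨fun B' hB' => ?_, h2⟩
      exact Finset.disjoint_sdiff.mono_right (h3 B' hB').1
    · intro B' hB'
      rcases List.mem_cons.mp hB' with rfl | h
      · exact ⟨hBS, hB⟩
      · exact ⟨(h3 B' h).1.trans Finset.sdiff_subset, (h3 B' h).2⟩
    · intro a ha
      by_cases haB : a ∈ B
      · exact ⟨B, List.mem_cons_self, haB⟩
      · obtain ⟨B', hB', haB'⟩ := h4 a (Finset.mem_sdiff.mpr ⟨ha, haB⟩)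
        exact ⟨B', List.mem_cons_of_mem _ hB', haB'⟩

theorem ownL_le (τ : V → Finset K) (v : V) : ∀ (Bs : List (Finset K)),
    Bs.Pairwise (fun B B' => Disjoint B B') → ∀ R : Finset K, (∀ B ∈ Bs, B ⊆ R) →
      ownL τ Bs v ≤ own τ R v := by
  intro Bs
  induction Bs with
  | nil =>
    intro _ R _
    simp [ownL]
  | cons B Bs ih =>
    intro hpw R hR
    rw [List.pairwise_cons] at hpw
    rw [ownL_cons]
    have h1 := ih hpw.2 (R \ B) (by
      intro B' hB' a ha
      rw [Finset.mem_sdiff]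
      exact ⟨hR B' (List.mem_cons_of_mem _ hB') ha,
        fun h => (Finset.disjoint_left.mp (hpw.1 B' hB') h) ha⟩)
    have h2 : own τ B v + own τ (R \ B) v = own τ R v := by
      unfold own
      rw [← Finset.card_union_of_disjoint]
      · congr 1
        ext a
        simp only [mem_filter, mem_union, mem_sdiff]
        constructor
        · rintro (h | h)
          · exact ⟨h.1, hR B List.mem_cons_self h.2⟩
          · exact ⟨h.1, h.2.1⟩
        · rintro ⟨h1, h2⟩
          by_cases h3 : a ∈ B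
          · exact Or.inl ⟨h1, h3⟩
          · exact Or.inr ⟨h1, h2, h3⟩
      · rw [Finset.disjoint_left]
        intro a ha ha'
        simp only [mem_filter, mem_sdiff] at ha ha'
        exact ha'.2.2 ha.2
    omega

/-- Spreading the tokens: all blocks get their share, and the leftover set `Z` gets few tokens. -/
theorem spread [Fintype V] [Fintype E] [Fintype K] {s t : E → V} (hst : ∀ e, s e ≠ t e) {m : ℕ}
    {x : ℝ} (hx0 : 0 < x) (hx1 : x ≤ 1) (hx : Real.exp (-(x ^ 2 * m / 10)) ≤ x / 20)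
    {q N z : ℕ} (hq : 1 ≤ q) (hk : Fintype.card K = q * N + z) (hz : z ≤ N)
    {c : E → K} {τ : V → Finset K} (hV : Valid s t c τ) (hm : ∀ v, (τ v).card ≤ m) :
    ∃ (c' : E → K) (τ' : V → Finset K) (Z : Finset K) (Bs : List (Finset K)),
      Valid s t c' τ' ∧ (∀ v, (τ' v).card = (τ v).card) ∧
      Bs.length = q ∧ Bs.Pairwise (fun B B' => Disjoint B B') ∧ (∀ B ∈ Bs, B.card = N) ∧
      (∀ a, a ∉ Z → ∃ B ∈ Bs, a ∈ B) ∧
      (∀ v, (own τ' Z v : ℝ) ≤ m / q + q ^ 2 * (x * m)) ∧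
      ∀ v, ∀ B ∈ Bs, (own τ' B v : ℝ) ≤ m / q + q ^ 2 * (x * m) := by
  obtain ⟨q', rfl⟩ : ∃ q', q = q' + 1 := ⟨q - 1, by omega⟩
  have hkN : (q' + 1) * N = q' * N + N := by ring
  obtain ⟨Zp, -, hZp⟩ := Finset.exists_subset_card_eq (s := (univ : Finset K)) (n := N) (by
    rw [Finset.card_univ, hk]; omega)
  obtain ⟨S1, hS1, hS1c⟩ := Finset.exists_subset_card_eq (s := (univ : Finset K) \ Zp) (n := q' * N) (by
    rw [Finset.card_sdiff_of_subset (Finset.subset_univ _), Finset.card_univ, hk, hZp]; omega)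
  obtain ⟨Bs', hB1, hB2, hB3, hB4⟩ := exists_blocks N q' S1 hS1c
  obtain ⟨Z, hZZp, hZc⟩ := Finset.exists_subset_card_eq (s := Zp) (n := z) (by rw [hZp]; exact hz)
  have hS1Zp : Disjoint Zp S1 := by
    rw [Finset.disjoint_left]
    intro a ha ha'
    exact (Finset.mem_sdiff.mp (hS1 ha')).2 ha
  set B1 : Finset K := (univ \ S1) \ Z with hB1def
  have hB1c : B1.card = N := by
    have h1 : Z ⊆ univ \ S1 := by
      intro a ha
      rw [Finset.mem_sdiff]
      exact ⟨Finset.mem_univ _, fun h => (Finset.disjoint_left.mp hS1Zp (hZZp ha)) h⟩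
    rw [hB1def, Finset.card_sdiff_of_subset h1, Finset.card_sdiff_of_subset (Finset.subset_univ _),
      Finset.card_univ, hk, hS1c, hZc]
    omega
  have hq0 : (0 : ℝ) < ((q' + 1 : ℕ) : ℝ) := by exact_mod_cast Nat.succ_pos _
  have hown : ∀ (τ₀ : V → Finset K) (L : List (Finset K)) (v : V), (τ₀ v).card ≤ m →
      L.Pairwise (fun B B' => Disjoint B B') → L.length = q' + 1 →
      (ownL τ₀ L v : ℝ) / L.length + L.length ^ 2 * (x * m) ≤
        m / ((q' + 1 : ℕ) : ℝ) + ((q' + 1 : ℕ) : ℝ) ^ 2 * (x * m) := by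
    intro τ₀ L v h1 h2 h3
    rw [h3]
    have h4 := ownL_le τ₀ v L h2 univ (fun B _ => Finset.subset_univ _)
    have h5 : own τ₀ univ v ≤ m := by
      unfold own
      exact (Finset.card_filter_le _ _).trans h1
    have h6 : (ownL τ₀ L v : ℝ) ≤ m := by exact_mod_cast h4.trans h5
    have := div_le_div_of_nonneg_right h6 hq0.le
    linarith
  -- first round: `Zp :: Bs'`
  have hpw1 : (Zp :: Bs').Pairwise (fun B B' => Disjoint B B') := by
    rw [List.pairwise_cons]
    exact ⟨fun B hB => hS1Zp.mono_right (hB3 B hB).1, hB2⟩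
  obtain ⟨c1, τ1, hV1, hc1, ho1, hl1⟩ := equal hst hx0 hx1 hx N (Zp :: Bs') hpw1 (by
    intro B hB
    rcases List.mem_cons.mp hB with rfl | h
    · exact hZp
    · exact (hB3 B h).2) c τ hV hm
  have hm1 : ∀ v, (τ1 v).card ≤ m := fun v => by rw [hc1 v]; exact hm v
  -- second round: `B1 :: Bs'`
  have hpw2 : (B1 :: Bs').Pairwise (fun B B' => Disjoint B B') := by
    rw [List.pairwise_cons]
    refine ⟨fun B hB => ?_, hB2⟩
    rw [Finset.disjoint_left]
    intro a ha ha'
    rw [hB1def, Finset.mem_sdiff, Finset.mem_sdiff] at ha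
    exact ha.1.2 ((hB3 B hB).1 ha')
  obtain ⟨c2, τ2, hV2, hc2, ho2, hl2⟩ := equal hst hx0 hx1 hx N (B1 :: Bs') hpw2 (by
    intro B hB
    rcases List.mem_cons.mp hB with rfl | h
    · exact hB1c
    · exact (hB3 B h).2) c1 τ1 hV1 hm1
  refine ⟨c2, τ2, Z, B1 :: Bs', hV2, fun v => (hc2 v).trans (hc1 v), by simp [hB1], hpw2, ?_, ?_, ?_, ?_⟩
  · intro B hB
    rcases List.mem_cons.mp hB with rfl | h
    · exact hB1c
    · exact (hB3 B h).2
  · intro a ha
    by_cases haS : a ∈ S1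
    · obtain ⟨B, hB, haB⟩ := hB4 a haS
      exact ⟨B, List.mem_cons_of_mem _ hB, haB⟩
    · refine ⟨B1, List.mem_cons_self, ?_⟩
      rw [hB1def, Finset.mem_sdiff, Finset.mem_sdiff]
      exact ⟨⟨Finset.mem_univ _, haS⟩, ha⟩
  · intro v
    have h1 : own τ2 Z v = own τ1 Z v := by
      apply own_congr
      intro a ha
      apply ho2
      intro B hB h
      rcases List.mem_cons.mp hB with rfl | hB'
      · exact (Finset.mem_sdiff.mp h).2 ha
      · exact (Finset.disjoint_left.mp hS1Zp (hZZp ha)) ((hB3 B hB').1 h)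
    have h2 : own τ1 Z v ≤ own τ1 Zp v := by
      unfold own
      apply Finset.card_le_card
      intro a ha
      rw [Finset.mem_filter] at ha ⊢
      exact ⟨ha.1, hZZp ha.2⟩
    have h3 := hl1 v Zp List.mem_cons_self
    have h4 := hown τ (Zp :: Bs') v (hm v) hpw1 (by simp [hB1])
    have h5 : (own τ2 Z v : ℝ) ≤ own τ1 Zp v := by
      rw [h1]
      exact_mod_cast h2
    linarith
  · intro v B hB
    exact (hl2 v B hB).trans (hown τ1 (B1 :: Bs') v (hm1 v) hpw2 (by simp [hB1]))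

/-- Equalising the loads inside all blocks. -/
theorem rows [Fintype V] [Fintype E] {s t : E → V} (hst : ∀ e, s e ≠ t e) (G : SimpleGraph V)
    (r : ℕ) {z : ℝ} (hz : 1 ≤ z) : ∀ (Bs : List (Finset K)),
      Bs.Pairwise (fun B B' => Disjoint B B') → (∀ B ∈ Bs, B.card = 2 ^ r) →
      ∀ (c : E → K) (τ : V → Finset K), Valid s t c τ →
      (∀ B ∈ Bs, ∀ v, (load G τ B v : ℝ) ≤ z ^ 4) →
      ∃ (c' : E → K) (τ' : V → Finset K), Valid s t c' τ' ∧ (∀ v, (τ' v).card = (τ v).card) ∧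
        (∀ v a, (∀ B ∈ Bs, a ∉ B) → (a ∈ τ' v ↔ a ∈ τ v)) ∧
        ∀ B ∈ Bs, ∀ a ∈ B, ∀ v, a ∈ τ' v → (load G τ' {a} v : ℝ) ≤ (zr r z) ^ 4 := by
  intro Bs
  induction Bs with
  | nil =>
    intro _ _ c τ hV _
    exact ⟨c, τ, hV, fun _ => rfl, fun _ _ _ => Iff.rfl, fun B hB => absurd hB List.not_mem_nil⟩
  | cons B0 Bs ih =>
    intro hpw hc c τ hV hload
    rw [List.pairwise_cons] at hpw
    obtain ⟨c1, τ1, hV1, hc1, ho1, hl1⟩ := ih hpw.2 (fun B hB => hc B (List.mem_cons_of_mem _ hB))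
      c τ hV (fun B hB => hload B (List.mem_cons_of_mem _ hB))
    have hB0 : ∀ v, ∀ a ∈ B0, (a ∈ τ1 v ↔ a ∈ τ v) := by
      intro v a ha
      exact ho1 v a (fun B hB h => (Finset.disjoint_left.mp (hpw.1 B hB) ha) h)
    obtain ⟨c2, τ2, hV2, hc2, ho2, hl2⟩ := row2 hst G r B0 (hc B0 List.mem_cons_self) z hz c1 τ1 hV1
      (fun v _ => by
        rw [load_congr G (τ := τ) (τ' := τ1) hB0 v]
        exact hload B0 List.mem_cons_self v)
    refine ⟨c2, τ2, hV2, fun v => (hc2 v).trans (hc1 v), ?_, ?_⟩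
    · intro v a ha
      rw [ho2 v a (ha B0 List.mem_cons_self), ho1 v a (fun B hB => ha B (List.mem_cons_of_mem _ hB))]
    · intro B hB a ha v hav
      rcases List.mem_cons.mp hB with rfl | hB'
      · exact hl2 a ha v hav
      · have hnot : a ∉ B0 := fun h => (Finset.disjoint_left.mp (hpw.1 B hB') h) ha
        rw [load_congr G (τ := τ1) (τ' := τ2) (fun v a' ha' => ho2 v a' (by
          rw [Finset.mem_singleton] at ha'
          subst ha'
          exact hnot)) v]
        exact hl1 B hB' a ha v ((ho2 v a hnot).mp hav)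

end TC19
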