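import Pool.Agent.Lib_helper19.TC.Kempe

set_option autoImplicit false

namespace TC19

open Finset Classical

variable {V E K : Type*}

theorem switch_apply {s t : E → V} {F : Set E} {c : E → K} {π : V → Equiv.Perm K}
    (hπ : ∀ e ∈ F, π (s e) (c e) = π (t e) (c e)) {e : E} (he : e ∈ F) {v : V}
    (hv : Inc s t e v) : π (s e) (c e) = π v (c e) := by
  rcases hv with h | h
  · rw [h]
  · rw [hπ e he, h]

/-- Recolouring every edge `e` by a permutation attached to its ends. -/
theorem switch_proper {s t : E → V} {F : Set E} {c : E → K} (hp : Proper s t F c)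
    {π : V → Equiv.Perm K} (hπ : ∀ e ∈ F, π (s e) (c e) = π (t e) (c e)) :
    Proper s t F (fun e => π (s e) (c e)) := by
  intro e he f hf hne v hev hfv
  show π (s e) (c e) ≠ π (s f) (c f)
  rw [switch_apply hπ he hev, switch_apply hπ hf hfv]
  intro h
  exact hp e he f hf hne v hev hfv ((π v).injective h)

theorem switch_miss {s t : E → V} {F : Set E} {c : E → K}
    {π : V → Equiv.Perm K} (hπ : ∀ e ∈ F, π (s e) (c e) = π (t e) (c e)) {v : V} {a : K}
    (h : Miss s t F c v a) : Miss s t F (fun e => π (s e) (c e)) v (π v a) := by
  intro e he hev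
  show π (s e) (c e) ≠ π v a
  rw [switch_apply hπ he hev]
  intro h'
  exact h e he hev ((π v).injective h')

theorem Miss.mono {s t : E → V} {F G : Set E} {c : E → K} {v : V} {a : K} (hFG : F ⊆ G)
    (h : Miss s t G c v a) : Miss s t F c v a := fun e he hv => h e (hFG he) hv

theorem Proper.mono {s t : E → V} {F G : Set E} {c : E → K} (hFG : F ⊆ G)
    (h : Proper s t G c) : Proper s t F c :=
  fun e he f hf hne v hv hv' => h e (hFG he) f (hFG hf) hne v hv hv'

/-- number of edges of `D` at `u` -/
noncomputable def dg (s t : E → V) (D : Finset E) (u : V) : ℕ := (D.filter fun e => Inc s t e u).card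

theorem sum_dg [Fintype V] {s t : E → V} (hst : ∀ e, s e ≠ t e) {v : V} {D : Finset E}
    (hD : ∀ e ∈ D, Inc s t e v) : ∑ u ∈ univ.erase v, dg s t D u = D.card := by
  unfold dg
  have h := Finset.sum_card_bipartiteAbove_eq_sum_card_bipartiteBelow
      (s := (univ.erase v : Finset V)) (t := D) (fun u e => Inc s t e u)
  unfold Finset.bipartiteAbove Finset.bipartiteBelow at h
  rw [h, Finset.sum_const_nat (m := 1), mul_one]
  intro e he
  rw [Finset.card_eq_one]
  rcases hD e he with h1 | h1
  · refine ⟨t e, ?_⟩
    ext u
    simp only [mem_filter, mem_erase, mem_univ, and_true, mem_singleton]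
    constructor
    · rintro ⟨h2, h3 | h3⟩
      · exact absurd (h3.symm.trans h1) h2
      · exact h3.symm
    · rintro rfl
      exact ⟨fun h2 => hst e (h1.trans h2.symm), inc_right s t e⟩
  · refine ⟨s e, ?_⟩
    ext u
    simp only [mem_filter, mem_erase, mem_univ, and_true, mem_singleton]
    constructor
    · rintro ⟨h2, h3 | h3⟩
      · exact h3.symm
      · exact absurd (h3.symm.trans h1) h2
    · rintro rfl
      exact ⟨fun h2 => hst e (h2.trans h1.symm), inc_left s t e⟩

/-- the vertices holding the token `i` -/
noncomputable def X [Fintype V] (T : V → Finset K) (i : K) : Finset V :=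
  univ.filter fun u => i ∈ T u

theorem sum_X [Fintype V] {S : Finset K} {T : V → Finset K} (hT : ∀ u, T u ⊆ S) :
    ∑ i ∈ S, (X T i).card = ∑ u, (T u).card := by
  have h := Finset.sum_card_bipartiteAbove_eq_sum_card_bipartiteBelow
      (s := S) (t := (univ : Finset V)) (fun i u => i ∈ T u)
  unfold Finset.bipartiteAbove Finset.bipartiteBelow at h
  have h1 : ∀ i, X T i = univ.filter fun u => i ∈ T u := fun i => rfl
  simp only [h1]
  rw [h]
  apply Finset.sum_congr rfl
  intro u _
  congr 1
  ext i
  simp only [mem_filter]
  exact ⟨fun h => h.2, fun h => ⟨hT u h, h⟩⟩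

/-- The state in the extension lemma. -/
def St (s t : E → V) (F : Finset E) (S : Finset K) (τ : V → ℕ) (c : E → K) (T : V → Finset K) :
    Prop :=
  Proper s t (F : Set E) c ∧ (∀ e ∈ F, c e ∈ S) ∧ (∀ u, ∀ a ∈ T u, a ∈ S ∧ Miss s t F c u a) ∧
    ∀ u, (T u).card = τ u

noncomputable def Q [Fintype V] (S : Finset K) (T : V → Finset K) : ℕ := ∑ i ∈ S, (X T i).card ^ 2

/-- One Kempe exchange, decreasing `Q`. -/
theorem St.exchange [Fintype V] [Fintype E] {s t : E → V} (hst : ∀ e, s e ≠ t e)
    {F : Finset E} {S : Finset K} {τ : V → ℕ} {c : E → K} {T : V → Finset K}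
    (h : St s t F S τ c T) {i j : K} (hi : i ∈ S) (hj : j ∈ S)
    (hij : (X T j).card + 3 ≤ (X T i).card) :
    ∃ c' T', St s t F S τ c' T' ∧ Q S T' < Q S T := by
  obtain ⟨hp, hcS, hT, hτ⟩ := h
  have hne : i ≠ j := by
    rintro rfl
    omega
  set H := HG s t (F : Set E) c i j with hH
  -- a component with more `i` than `j`
  have hex : ∃ C : H.ConnectedComponent,
      ((X T j).filter fun u => H.connectedComponentMk u = C).card <
      ((X T i).filter fun u => H.connectedComponentMk u = C).card := by
    by_contra hcon
    push Not at hcon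
    have h1 : ∀ l, (X T l).card = ∑ C : H.ConnectedComponent,
        ((X T l).filter fun u => H.connectedComponentMk u = C).card := by
      intro l
      exact Finset.card_eq_sum_card_fiberwise (f := fun u => H.connectedComponentMk u)
        (s := X T l) (t := univ) (fun u _ => by simp)
    have h2 : (X T i).card ≤ (X T j).card := by
      rw [h1 i, h1 j]
      exact Finset.sum_le_sum fun C _ => hcon C
    omega
  obtain ⟨C, hC⟩ := hex
  have hle2 : ((X T i).filter fun u => H.connectedComponentMk u = C).card ≤ 2 := by
    refine le_trans (Finset.card_le_card ?_) (comp_le_two_aux hst hp H hH C)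
    intro u hu
    simp only [X, mem_filter, mem_univ, true_and] at hu ⊢
    exact ⟨hu.2, Or.inl (hT u i hu.1).2⟩
  let π : V → Equiv.Perm K := fun u => if H.connectedComponentMk u = C then Equiv.swap i j else 1
  have hπ : ∀ e ∈ (F : Set E), π (s e) (c e) = π (t e) (c e) := by
    intro e he
    by_cases hc : c e = i ∨ c e = j
    · have : H.connectedComponentMk (s e) = H.connectedComponentMk (t e) :=
        HG_reach he hc (inc_left s t e) (inc_right s t e)
      simp only [π, this]
    · push Not at hc
      have hsw : Equiv.swap i j (c e) = c e := Equiv.swap_apply_of_ne_of_ne hc.1 hc.2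
      simp only [π]
      split_ifs <;> simp [hsw]
  have hswS : ∀ a ∈ S, Equiv.swap i j a ∈ S := by
    intro a ha
    by_cases h1 : a = i
    · rw [h1, Equiv.swap_apply_left]; exact hj
    · by_cases h2 : a = j
      · rw [h2, Equiv.swap_apply_right]; exact hi
      · rw [Equiv.swap_apply_of_ne_of_ne h1 h2]; exact ha
  have hπS : ∀ u, ∀ a ∈ S, π u a ∈ S := by
    intro u a ha
    simp only [π]
    split_ifs
    · exact hswS a ha
    · exact ha
  let T' : V → Finset K := fun u => (T u).map (π u).toEmbedding
  have hT'mem : ∀ u l, l ∈ T' u ↔ (π u).symm l ∈ T u := by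
    intro u l
    simp only [T', Finset.mem_map_equiv]
  refine ⟨fun e => π (s e) (c e), T', ⟨switch_proper hp hπ, ?_, ?_, ?_⟩, ?_⟩
  · intro e he
    exact hπS _ _ (hcS e he)
  · intro u a ha
    simp only [T', Finset.mem_map, Equiv.coe_toEmbedding] at ha
    obtain ⟨b, hb, rfl⟩ := ha
    exact ⟨hπS _ _ (hT u b hb).1, switch_miss hπ (hT u b hb).2⟩
  · intro u
    simp only [T', Finset.card_map]
    exact hτ u
  · -- compute Q
    have hsym : ∀ u l, (π u).symm l = if H.connectedComponentMk u = C then Equiv.swap i j l else l := by
      intro u l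
      simp only [π]
      split_ifs
      · rw [Equiv.symm_swap]
      · rfl
    have hXl : ∀ l, l ≠ i → l ≠ j → X T' l = X T l := by
      intro l hli hlj
      ext u
      simp only [X, mem_filter, mem_univ, true_and, hT'mem, hsym]
      rw [Equiv.swap_apply_of_ne_of_ne hli hlj]
      simp
    have hXi : (X T' i).card + ((X T i).filter fun u => H.connectedComponentMk u = C).card =
        (X T i).card + ((X T j).filter fun u => H.connectedComponentMk u = C).card := by
      have e1 : X T' i = ((X T j).filter fun u => H.connectedComponentMk u = C) ∪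
          ((X T i).filter fun u => ¬ H.connectedComponentMk u = C) := by
        ext u
        simp only [X, mem_filter, mem_univ, true_and, hT'mem, hsym, mem_union]
        by_cases hu : H.connectedComponentMk u = C
        · simp [hu]
        · simp [hu]
      rw [e1, Finset.card_union_of_disjoint]
      · have := Finset.card_filter_add_card_filter_not (s := X T i)
          (p := fun u => H.connectedComponentMk u = C)
        omega
      · rw [Finset.disjoint_left]
        intro u hu hu'
        simp only [mem_filter] at hu hu'
        exact hu'.2 hu.2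
    have hXj : (X T' j).card + ((X T j).filter fun u => H.connectedComponentMk u = C).card =
        (X T j).card + ((X T i).filter fun u => H.connectedComponentMk u = C).card := by
      have e1 : X T' j = ((X T i).filter fun u => H.connectedComponentMk u = C) ∪
          ((X T j).filter fun u => ¬ H.connectedComponentMk u = C) := by
        ext u
        simp only [X, mem_filter, mem_univ, true_and, hT'mem, hsym, mem_union]
        by_cases hu : H.connectedComponentMk u = C
        · simp [hu]
        · simp [hu]
      rw [e1, Finset.card_union_of_disjoint]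
      · have := Finset.card_filter_add_card_filter_not (s := X T j)
          (p := fun u => H.connectedComponentMk u = C)
        omega
      · rw [Finset.disjoint_left]
        intro u hu hu'
        simp only [mem_filter] at hu hu'
        exact hu'.2 hu.2
    have hsplit : ∀ T0 : V → Finset K, Q S T0 = (X T0 i).card ^ 2 + (X T0 j).card ^ 2 +
        ∑ l ∈ (S.erase i).erase j, (X T0 l).card ^ 2 := by
      intro T0
      unfold Q
      rw [← Finset.add_sum_erase S _ hi, ← Finset.add_sum_erase (S.erase i) _
        (Finset.mem_erase.mpr ⟨hne.symm, hj⟩), add_assoc]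
    rw [hsplit T', hsplit T]
    have hrest : ∑ l ∈ (S.erase i).erase j, (X T' l).card ^ 2 =
        ∑ l ∈ (S.erase i).erase j, (X T l).card ^ 2 := by
      apply Finset.sum_congr rfl
      intro l hl
      simp only [mem_erase] at hl
      rw [hXl l hl.2.1 hl.1]
    rw [hrest]
    apply Nat.add_lt_add_right
    set A := ((X T i).filter fun u => H.connectedComponentMk u = C).card
    set B := ((X T j).filter fun u => H.connectedComponentMk u = C).card
    have hA2 : A ≤ 2 := hle2
    have hBA : B < A := hC
    generalize (X T' i).card = x' at *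
    generalize (X T' j).card = y' at *
    generalize (X T i).card = x at *
    generalize (X T j).card = y at *
    obtain ⟨δ, hδ⟩ : ∃ δ, A = B + δ := ⟨A - B, by omega⟩
    have hδ1 : 1 ≤ δ := by omega
    have hδ2 : δ ≤ 2 := by omega
    have hx' : x' + δ = x := by omega
    have hy' : y' = y + δ := by omega
    subst hy'
    rw [← hx']
    have h3 : y + 3 ≤ x' + δ := by omega
    nlinarith

end TC19
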