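import Pool.Agent.Lib_helper19.TC.EFK

set_option autoImplicit false

namespace TC19

open Finset Classical

variable {V E K : Type*}

/-- the set of the colours missing at `v` -/
noncomputable def missSet [Fintype K] (s t : E → V) (F : Set E) (c : E → K) (v : V) : Finset K :=
  univ.filter fun a => Miss s t F c v a

theorem mem_missSet [Fintype K] {s t : E → V} {F : Set E} {c : E → K} {v : V} {a : K} :
    a ∈ missSet s t F c v ↔ Miss s t F c v a := by
  simp [missSet]

theorem card_missSet [Fintype K] (s t : E → V) (F : Finset E) (c : E → K) (v : V) :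
    Fintype.card K ≤ (missSet s t (F : Set E) c v).card + dg s t F v := by
  have h1 : (univ : Finset K) ⊆ missSet s t (F : Set E) c v ∪ (F.filter fun e => Inc s t e v).image c := by
    intro a _
    rw [Finset.mem_union]
    by_cases h : Miss s t (F : Set E) c v a
    · exact Or.inl (mem_missSet.mpr h)
    · right
      unfold Miss at h
      push Not at h
      obtain ⟨e, he, hv, hc⟩ := h
      exact Finset.mem_image.mpr ⟨e, Finset.mem_filter.mpr ⟨he, hv⟩, hc⟩
  have h2 := Finset.card_le_card h1
  rw [Finset.card_univ] at h2
  have h3 := Finset.card_union_le (missSet s t (F : Set E) c v)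
    ((F.filter fun e => Inc s t e v).image c)
  have h4 : ((F.filter fun e => Inc s t e v).image c).card ≤ dg s t F v := Finset.card_image_le
  omega

/-- The extension lemma, with all colours available. -/
theorem extend [Fintype V] [Fintype E] [Fintype K] {s t : E → V} (hst : ∀ e, s e ≠ t e) (v : V)
    {D F : Finset E} {c : E → K} (hF : ∀ e ∈ F, ¬ Inc s t e v) (hD : ∀ e ∈ D, Inc s t e v)
    (hp : Proper s t (F : Set E) c)
    (hT : ∀ u, u ≠ v → 2 * dg s t D u ≤ (missSet s t (F : Set E) c u).card)
    (hK : D.card ≤ Fintype.card K) :
    ∃ c' : E → K, Proper s t {e | e ∈ F ∨ e ∈ D} c' := by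
  obtain ⟨c', h, -⟩ := efk hst v D.card D F univ c (fun u => missSet s t (F : Set E) c u) v rfl
    hF hD hp (fun _ _ => Finset.mem_univ _)
    (fun u a ha => ⟨Finset.mem_univ _, mem_missSet.mp ha⟩)
    (fun u hu _ => hT u hu) (fun h => absurd rfl h) (by simpa using hK)
  refine ⟨c', h.mono ?_⟩
  intro e he
  exact Finset.mem_coe.mpr (Finset.mem_union.mpr he)

/-- the edges joining `u` and `v` -/
noncomputable def mult [Fintype E] (s t : E → V) (u v : V) : ℕ :=
  (univ.filter fun e => Inc s t e u ∧ Inc s t e v).card

/-- Vizing's theorem for loopless multigraphs. -/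
theorem vizing [Fintype V] [Fintype E] [Fintype K] {s t : E → V} (hst : ∀ e, s e ≠ t e)
    {Δ μ : ℕ} (hΔ : ∀ v, dg s t univ v ≤ Δ) (hμ : ∀ u v, u ≠ v → mult s t u v ≤ μ)
    (hK : Δ + μ ≤ Fintype.card K) : ∃ c : E → K, Proper s t Set.univ c := by
  have hex : Nonempty (E → K) := by
    by_cases hE : IsEmpty E
    · exact ⟨fun e => isEmptyElim e⟩
    · rw [not_isEmpty_iff] at hE
      obtain ⟨e⟩ := hE
      have h1 := dg_pos (D := (univ : Finset E)) (Finset.mem_univ e) (inc_left s t e)
      have h2 := hΔ (s e)
      have : 0 < Fintype.card K := by omega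
      obtain ⟨a⟩ := Fintype.card_pos_iff.mp this
      exact ⟨fun _ => a⟩
  obtain ⟨c0⟩ := hex
  have key : ∀ W : Finset V, ∃ c : E → K,
      Proper s t ((univ.filter fun e => s e ∈ W ∧ t e ∈ W : Finset E) : Set E) c := by
    intro W
    induction W using Finset.induction_on with
    | empty =>
      refine ⟨c0, ?_⟩
      intro e he
      simp at he
    | insert v W hv ih =>
      obtain ⟨c, hc⟩ := ih
      set F : Finset E := univ.filter fun e => s e ∈ W ∧ t e ∈ W with hFdef
      set G : Finset E := univ.filter fun e => s e ∈ insert v W ∧ t e ∈ insert v W with hGdef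
      have hFG : F ⊆ G := by
        intro e he
        simp only [hFdef, hGdef, mem_filter, mem_univ, true_and, mem_insert] at he ⊢
        exact ⟨Or.inr he.1, Or.inr he.2⟩
      have hD : ∀ e ∈ G \ F, Inc s t e v := by
        intro e he
        simp only [hFdef, hGdef, mem_sdiff, mem_filter, mem_univ, true_and, mem_insert] at he
        obtain ⟨⟨h1, h2⟩, h3⟩ := he
        rcases h1 with h1 | h1
        · exact Or.inl h1
        · rcases h2 with h2 | h2
          · exact Or.inr h2
          · exact absurd ⟨h1, h2⟩ h3
      have hF : ∀ e ∈ F, ¬ Inc s t e v := by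
        intro e he h
        simp only [hFdef, mem_filter, mem_univ, true_and] at he
        rcases h with h | h
        · rw [h] at he; exact hv he.1
        · rw [h] at he; exact hv he.2
      have hdisj : ∀ u, dg s t F u + dg s t (G \ F) u ≤ Δ := by
        intro u
        refine le_trans ?_ (hΔ u)
        unfold dg
        rw [← Finset.card_union_of_disjoint]
        · exact Finset.card_le_card (by
            intro e he
            simp only [mem_union, mem_filter, mem_univ, true_and] at he ⊢
            rcases he with he | he
            · exact he.2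
            · exact he.2)
        · rw [Finset.disjoint_left]
          intro e he he'
          simp only [mem_filter, mem_sdiff] at he he'
          exact he'.1.2 he.1
      obtain ⟨c', hc'⟩ := extend hst v hF hD hc (by
        intro u hu
        have h1 := card_missSet s t F c u
        have h2 := hdisj u
        have h3 : dg s t (G \ F) u ≤ μ := by
          refine le_trans (Finset.card_le_card ?_) (hμ u v hu)
          intro e he
          simp only [mem_filter, mem_univ, true_and] at he ⊢
          exact ⟨he.2, hD e he.1⟩
        omega) (by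
        have h1 := hdisj v
        have h2 : dg s t (G \ F) v = (G \ F).card := by
          unfold dg
          rw [Finset.filter_true_of_mem hD]
        omega)
      refine ⟨c', hc'.mono ?_⟩
      intro e he
      by_cases h : e ∈ F
      · exact Or.inl h
      · exact Or.inr (Finset.mem_sdiff.mpr ⟨Finset.mem_coe.mp he, h⟩)
  obtain ⟨c, hc⟩ := key univ
  refine ⟨c, ?_⟩
  have : ((univ.filter fun e => s e ∈ (univ : Finset V) ∧ t e ∈ (univ : Finset V) : Finset E) :
      Set E) = Set.univ := by
    ext e
    simp
  rwa [this] at hc

end TC19
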